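import Pool.Agent.Lib.MP_f11a48_ag.KM.SpecB
import Pool.Agent.Lib.MP_f11a48_ag.K3.KRat3
import Pool.Agent.Lib.MP_f11a48_ag.K3.KFull3

/-! # Families of Kuga-Satake pairs: the rational Lie algebra -/

set_option autoImplicit false
set_option linter.unusedSectionVars false

namespace Pool.Agent.Lib.MPf11a48.KM

open Matrix MvPolynomial Pool.Agent.Lib.MPf11a48.Tors
open Pool.Agent.Lib.MPf11a48.CM hiding OmegaM
open Pool.Agent.Lib.MPf11a48.GL2 (lie Geo)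
open Pool.Agent.Lib.MPf11a48.GL2T (IsAlg)
open Pool.Agent.Lib.MPf11a48.U (AbData Ix HD EndAlg)
open Pool.Agent.Lib.MPf11a48.K3 Pool.Agent.Lib.MPf11a48.KU
open KLieM (bl clC gam)
open KGrpM (stab)
open KGrp3M (G0 sc ex)

namespace RatM

open KRatM KRat2M KRat3M

section cliff

variable {n : ℕ} {I μ : Type} [DecidableEq I] [Fintype μ] [DecidableEq μ]
  {B : Fin n → Matrix μ μ ℚ} {qB : Matrix (Fin n) (Fin n) ℚ} {ix : Fin n → I}
  {π : I → Matrix μ μ ℚ}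

/-- the Clifford operators are linearly independent -/
theorem B_indep (hdet : qB.det ≠ 0) (horth : ∀ a b, ix a ≠ ix b → qB a b = 0)
    (hne : ∀ i, π i ≠ 0) (hcl : ∀ a b, B a * B b + B b * B a = (2 * qB a b) • π (ix a))
    {d : Fin n → ℚ} (h : ∑ i, d i • B i = 0) : d = 0 := by
  have h1 : d ᵥ* qB = 0 := by
    funext k
    have h2 : (∑ i, d i • B i) * B k + B k * (∑ i, d i • B i) = 0 := by
      rw [h, Matrix.zero_mul, Matrix.mul_zero, add_zero]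
    have h3 : (∑ i, d i • B i) * B k + B k * (∑ i, d i • B i) =
        (2 * (d ᵥ* qB) k) • π (ix k) := by
      rw [Finset.sum_mul, Finset.mul_sum, ← Finset.sum_add_distrib]
      have h4 : ∀ i, d i • B i * B k + B k * d i • B i = (d i * (2 * qB i k)) • π (ix k) := by
        intro i
        rw [Matrix.smul_mul, Matrix.mul_smul, ← smul_add, hcl, smul_smul]
        by_cases hik : ix i = ix k
        · rw [hik]
        · rw [horth i k hik, mul_zero, mul_zero, zero_smul, zero_smul]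
      simp only [h4]
      rw [← Finset.sum_smul]
      congr 1
      rw [Matrix.vecMul, dotProduct, Finset.mul_sum]
      exact Finset.sum_congr rfl fun i _ => by ring
    rw [h3] at h2
    have h4 := (smul_eq_zero.1 h2).resolve_right (hne (ix k))
    rw [Pi.zero_apply]
    linarith
  have h5 : d = d ᵥ* qB ᵥ* qB⁻¹ := by
    rw [Matrix.vecMul_vecMul, Matrix.mul_nonsing_inv _ (isUnit_iff_ne_zero.2 hdet),
      Matrix.vecMul_one]
  rw [h5, h1, Matrix.zero_vecMul]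

theorem act_unique (hdet : qB.det ≠ 0) (horth : ∀ a b, ix a ≠ ix b → qB a b = 0)
    (hne : ∀ i, π i ≠ 0) (hcl : ∀ a b, B a * B b + B b * B a = (2 * qB a b) • π (ix a))
    {ρ ρ' : Matrix (Fin n) (Fin n) ℚ} (h : ∀ j, ∑ i, ρ i j • B i = ∑ i, ρ' i j • B i) :
    ρ = ρ' := by
  ext i j
  have h1 : ∑ i, (ρ i j - ρ' i j) • B i = 0 := by
    simp only [sub_smul]
    rw [Finset.sum_sub_distrib, h j, sub_self]
  have h2 := congrFun (B_indep hdet horth hne hcl h1) i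
  simp only [Pi.zero_apply] at h2
  linarith

/-- the idempotents commute with the Clifford operators -/
theorem pi_B (hmul : ∀ i j, π i * π j = if i = j then π i else 0)
    (hl : ∀ a, π (ix a) * B a = B a) (hr : ∀ a, B a * π (ix a) = B a) (i : I) (a : Fin n) :
    π i * B a = B a * π i := by
  by_cases h : i = ix a
  · subst h
    rw [hl, hr]
  · have h1 : π i * B a = 0 := by
      rw [← hl a, ← Matrix.mul_assoc, hmul, if_neg h, Matrix.zero_mul]
    have h2 : B a * π i = 0 := by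
      rw [← hr a, Matrix.mul_assoc, hmul, if_neg (Ne.symm h), Matrix.mul_zero]
    rw [h1, h2]

theorem pi_cli (hmul : ∀ i j, π i * π j = if i = j then π i else 0)
    (hl : ∀ a, π (ix a) * B a = B a) (hr : ∀ a, B a * π (ix a) = B a) (i : I)
    (ρ : Matrix (Fin n) (Fin n) ℚ) : π i * cli qB B ρ = cli qB B ρ * π i := by
  simp only [cli, Finset.mul_sum, Finset.sum_mul, Matrix.mul_smul, Matrix.smul_mul]
  refine Finset.sum_congr rfl fun a _ => Finset.sum_congr rfl fun b _ => ?_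
  rw [← Matrix.mul_assoc, pi_B hmul hl hr, Matrix.mul_assoc, pi_B hmul hl hr, Matrix.mul_assoc]

/-- brackets of operators which act on the Clifford operators -/
theorem act_br {Z Z' : Matrix μ μ ℚ} {ρ ρ' : Matrix (Fin n) (Fin n) ℚ}
    (h : ∀ j, Z * B j - B j * Z = ∑ i, ρ i j • B i)
    (h' : ∀ j, Z' * B j - B j * Z' = ∑ i, ρ' i j • B i) (j : Fin n) :
    (Z * Z' - Z' * Z) * B j - B j * (Z * Z' - Z' * Z) = ∑ i, (ρ * ρ' - ρ' * ρ) i j • B i := by
  have e1 : (Z * Z' - Z' * Z) * B j - B j * (Z * Z' - Z' * Z) =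
      (Z * (Z' * B j - B j * Z') - (Z' * B j - B j * Z') * Z) -
      (Z' * (Z * B j - B j * Z) - (Z * B j - B j * Z) * Z') := by
    noncomm_ring
  have e2 : ∀ (W : Matrix μ μ ℚ) (r : Fin n → ℚ),
      W * (∑ i, r i • B i) - (∑ i, r i • B i) * W = ∑ i, r i • (W * B i - B i * W) := by
    intro W r
    rw [Finset.mul_sum, Finset.sum_mul, ← Finset.sum_sub_distrib]
    exact Finset.sum_congr rfl fun i _ => by rw [Matrix.mul_smul, Matrix.smul_mul, smul_sub]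
  rw [e1, h, h', e2, e2]
  simp only [h, h', Finset.smul_sum, smul_smul]
  rw [Finset.sum_comm, Finset.sum_comm (f := fun i k => (ρ i j * ρ' k i) • B k),
    ← Finset.sum_sub_distrib]
  refine Finset.sum_congr rfl fun i _ => ?_
  rw [← Finset.sum_smul, ← Finset.sum_smul, ← sub_smul, Matrix.sub_apply, Matrix.mul_apply,
    Matrix.mul_apply]
  congr 1
  congr 1
  · exact Finset.sum_congr rfl fun k _ => mul_comm _ _
  · exact Finset.sum_congr rfl fun k _ => mul_comm _ _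

end cliff

/-- brackets of similitudes -/
theorem sim_br {μ : Type} [Fintype μ] {ψ Z Z' : Matrix μ μ ℚ} {m m' : ℚ}
    (h : Zᵀ * ψ + ψ * Z = m • ψ) (h' : Z'ᵀ * ψ + ψ * Z' = m' • ψ) :
    (Z * Z' - Z' * Z)ᵀ * ψ + ψ * (Z * Z' - Z' * Z) = (0 : ℚ) • ψ := by
  have e1 : Zᵀ * ψ = m • ψ - ψ * Z := eq_sub_of_add_eq h
  have e2 : Z'ᵀ * ψ = m' • ψ - ψ * Z' := eq_sub_of_add_eq h'
  rw [transpose_sub, transpose_mul, transpose_mul, Matrix.sub_mul, Matrix.mul_assoc,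
    Matrix.mul_assoc, e1, e2, Matrix.mul_sub, Matrix.mul_sub, Matrix.mul_smul, Matrix.mul_smul,
    ← Matrix.mul_assoc, ← Matrix.mul_assoc, e1, e2, zero_smul]
  simp only [Matrix.sub_mul, Matrix.mul_sub, Matrix.smul_mul, smul_sub, ← Matrix.mul_assoc]
  rw [smul_comm m m']
  abel

theorem so_br {n : ℕ} {qB : Matrix (Fin n) (Fin n) ℚ} {E : Set (Matrix (Fin n) (Fin n) ℚ)}
    {ρ ρ' : Matrix (Fin n) (Fin n) ℚ} (h : ρ ∈ soE qB E) (h' : ρ' ∈ soE qB E) :
    ρ * ρ' - ρ' * ρ ∈ soE qB E := by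
  refine ⟨?_, fun e he => ?_⟩
  · have e1 : ρᵀ * qB = -(qB * ρ) := eq_neg_of_add_eq_zero_left h.1
    have e2 : ρ'ᵀ * qB = -(qB * ρ') := eq_neg_of_add_eq_zero_left h'.1
    rw [transpose_sub, transpose_mul, transpose_mul, Matrix.sub_mul, Matrix.mul_assoc,
      Matrix.mul_assoc, e1, e2, Matrix.mul_neg, Matrix.mul_neg, ← Matrix.mul_assoc,
      ← Matrix.mul_assoc, e1, e2]
    simp only [Matrix.neg_mul, Matrix.mul_sub, Matrix.mul_assoc]
    abel
  · rw [Matrix.sub_mul, Matrix.mul_sub, Matrix.mul_assoc, h'.2 e he, ← Matrix.mul_assoc,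
      h.2 e he, Matrix.mul_assoc ρ' ρ, h.2 e he, ← Matrix.mul_assoc ρ', h'.2 e he,
      Matrix.mul_assoc, Matrix.mul_assoc]

theorem lb3_br {g n : ℕ} {T : Set (GL (Ix g ⊕ (Fin n ⊕ Unit)) ℂ)} {Z Z' : Matrix (Ix g) (Ix g) ℚ}
    {ρ ρ' : Matrix (Fin n) (Fin n) ℚ} {m m' : ℚ} (h : lb3 (cx Z) (cx ρ) (m : ℂ) ∈ lie T)
    (h' : lb3 (cx Z') (cx ρ') (m' : ℂ) ∈ lie T) :
    lb3 (cx (Z * Z' - Z' * Z)) (cx (ρ * ρ' - ρ' * ρ)) ((0 : ℚ) : ℂ) ∈ lie T := by
  have h1 := GL2.lie_br h h'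
  rw [lb3_mul, lb3_mul, KFull3M.lb3_sub, ← cx_mul, ← cx_mul, ← cx_mul, ← cx_mul] at h1
  have e : (m : ℂ) * m' - m' * m = ((0 : ℚ) : ℂ) := by
    push_cast
    ring
  have e2 : ∀ {ν : Type} (X Y : Matrix ν ν ℚ), cx X - cx Y = cx (X - Y) := by
    intro ν X Y
    ext i j
    simp [cx]
  rwa [e, e2, e2] at h1

end RatM

open KRatM KRat2M KRat3M RatM in
theorem specMRat (hLRat : SpecLRat) (hBic : SpecBic2) (hHDA : U.SpecHDA) : SpecMRat := by
  intro D T hT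
  have hKS := D.ks
  obtain ⟨⟨J, hJ⟩, hEnd⟩ := hHDA Qbar D.g D.N D.A D.c le_rfl hKS.abvar hKS.per
  change HD D.c J D.A.psi at hJ
  have hG := GL2.geo_of_torsor hT.tor
  have hso : ∀ ρ ∈ soE D.qB D.E, ∀ ρ' ∈ soE D.qB D.E, ρ + ρ' ∈ soE D.qB D.E := by
    rintro a ⟨ha1, ha2⟩ b ⟨hb1, hb2⟩
    refine ⟨?_, fun e he => ?_⟩
    · rw [Matrix.transpose_add, Matrix.add_mul, Matrix.mul_add, add_add_add_comm, ha1, hb1,
        add_zero]
    · rw [Matrix.add_mul, Matrix.mul_add, ha2 e he, hb2 e he]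
  have hso2 : ∀ (r : ℚ), ∀ ρ ∈ soE D.qB D.E, r • ρ ∈ soE D.qB D.E := by
    rintro r a ⟨ha1, ha2⟩
    refine ⟨?_, fun e he => ?_⟩
    · rw [Matrix.transpose_smul, Matrix.smul_mul, Matrix.mul_smul, ← smul_add, ha1, smul_zero]
    · rw [Matrix.smul_mul, Matrix.mul_smul, ha2 e he]
  let kk : Submodule ℚ (Matrix (Ix D.g) (Ix D.g) ℚ) :=
    { carrier := {Z | ∃ (m : ℚ) (ρ : Matrix (Fin D.n) (Fin D.n) ℚ),
        Zᵀ * D.A.psi + D.A.psi * Z = m • D.A.psi ∧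
        ρ ∈ soE D.qB D.E ∧ lb3 (cx Z) (cx ρ) m ∈ lie T ∧
        (∀ j, Z * D.B j - D.B j * Z = ∑ i, ρ i j • D.B i) ∧ ∀ Z₀ ∈ EndAlg D.c.1, Z * Z₀ = Z₀ * Z}
      add_mem' := by
        rintro a b ⟨m, ρ, hm, hρ, hl, h1, h3⟩ ⟨m', ρ', hm', hρ', hl', h2, h4⟩
        refine ⟨m + m', ρ + ρ', ?_, hso ρ hρ ρ' hρ', ?_, fun j => ?_, fun Z₀ hZ₀ => ?_⟩
        · rw [Matrix.transpose_add, Matrix.add_mul, Matrix.mul_add, add_add_add_comm, hm, hm',
            add_smul]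
        · rw [cx_add, cx_add, Rat.cast_add, lb3_add]
          exact add_mem hl hl'
        · have e1 : (a + b) * D.B j - D.B j * (a + b) =
              (a * D.B j - D.B j * a) + (b * D.B j - D.B j * b) := by
            noncomm_ring
          rw [e1, h1 j, h2 j, ← Finset.sum_add_distrib]
          exact Finset.sum_congr rfl fun i _ => by rw [Matrix.add_apply, add_smul]
        · rw [Matrix.add_mul, Matrix.mul_add, h3 Z₀ hZ₀, h4 Z₀ hZ₀]
      zero_mem' := by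
        refine ⟨0, 0, by simp, ⟨by simp, by simp⟩, ?_, fun j => by simp, fun Z₀ _ => by simp⟩
        rw [cx_zero, cx_zero, Rat.cast_zero, lb3_zero]
        exact zero_mem _
      smul_mem' := by
        rintro r a ⟨m, ρ, hm, hρ, hl, h1, h3⟩
        refine ⟨r * m, r • ρ, ?_, hso2 r ρ hρ, ?_, fun j => ?_, fun Z₀ hZ₀ => ?_⟩
        · rw [Matrix.transpose_smul, Matrix.smul_mul, Matrix.mul_smul, ← smul_add, hm, smul_smul]
        · rw [cx_smul, cx_smul, Rat.cast_mul, lb3_smul]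
          exact Submodule.smul_mem _ _ hl
        · rw [Matrix.smul_mul, Matrix.mul_smul, ← smul_sub, h1 j, Finset.smul_sum]
          exact Finset.sum_congr rfl fun i _ => by rw [Matrix.smul_apply, smul_eq_mul, smul_smul]
        · rw [Matrix.smul_mul, Matrix.mul_smul, h3 Z₀ hZ₀] }
  have hkk : ∀ Z ∈ kk, ∃ (m : ℚ) (ρ : Matrix (Fin D.n) (Fin D.n) ℚ),
      Zᵀ * D.A.psi + D.A.psi * Z = m • D.A.psi ∧
      ρ ∈ soE D.qB D.E ∧ lb3 (cx Z) (cx ρ) m ∈ lie T ∧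
      (∀ j, Z * D.B j - D.B j * Z = ∑ i, ρ i j • D.B i) ∧ ∀ Z₀ ∈ EndAlg D.c.1, Z * Z₀ = Z₀ * Z :=
    fun Z hZ => hZ
  -- the logarithmic derivatives
  have hlog : ∀ δ : Derivation Qbar ℂ ℂ, D.c.1.map δ * D.c⁻¹.1 ∈
      Submodule.span ℂ {Y : Matrix (Ix D.g) (Ix D.g) ℂ | ∃ Z ∈ kk, Y = cx Z} := by
    intro δ
    obtain ⟨ψdR, hψ, hleg⟩ := hJ.leg
    have hX := U.SimM.log_deriv D.c D.A.psi ψdR hψ hleg δ
    have hx1 := hG.deriv_mem hT.mem δ
    rw [log_bd3] at hx1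
    have hx2 := log_form D.t D.qB D.qdR hKS.alg hKS.form δ
    have hx3 : ∀ e ∈ D.E, (D.t.1.map δ * D.t⁻¹.1) * cx e = cx e * (D.t.1.map δ * D.t⁻¹.1) := by
      intro e he
      obtain ⟨e', he', h⟩ := hKS.endT e he
      exact log_end D.t e e' he' h δ
    have hx4 : ∀ Z₀ ∈ EndAlg D.c.1,
        (D.c.1.map δ * D.c⁻¹.1) * cx Z₀ = cx Z₀ * (D.c.1.map δ * D.c⁻¹.1) := by
      intro Z₀ hZ₀
      obtain ⟨Z', hZ', h⟩ := hZ₀
      exact log_end D.c Z₀ Z' hZ' h δ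
    have hX2 := log_cliff D.c D.t D.B hKS.morphism δ
    have htpi : ((tpi : ℂˣ) : ℂ) = 2 * Real.pi * Complex.I := rfl
    rw [htpi] at hx1
    set X := D.c.1.map δ * D.c⁻¹.1 with hXdef
    set x := D.t.1.map δ * D.t⁻¹.1 with hxdef
    set m : ℂ := δ (2 * Real.pi * Complex.I) / (2 * Real.pi * Complex.I) with hm
    have key : ∀ l : QForm, ap l X ∈ kk := by
      intro l
      refine ⟨l m, ap l x, ?_, ⟨?_, fun e he => ?_⟩, ?_, fun j => ?_, fun Z₀ hZ₀ => ?_⟩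
      · have h1 := congrArg (ap l) hX
        change ap l (Xᵀ * cx D.A.psi + cx D.A.psi * X) = ap l (m • cx D.A.psi) at h1
        rw [ap_add, mul_rat, rat_mul, ap_smul, ap_transpose] at h1
        exact h1
      · have h1 := congrArg (ap l) hx2
        rw [ap_add, mul_rat, rat_mul, ap_transpose, ap_zero] at h1
        exact h1
      · have h1 := congrArg (ap l) (hx3 e he)
        rw [mul_rat, rat_mul] at h1
        exact h1
      · have h1 := hLRat _ T hT.tor hT.cl _ hx1 l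
        rw [ap_lb3] at h1
        exact h1
      · have h1 := congrArg (ap l) (hX2 j)
        rw [ap_sub, mul_rat, rat_mul, ap_sum] at h1
        rw [h1]
        exact Finset.sum_congr rfl fun i _ => ap_smul l _ _
      · have h1 := congrArg (ap l) (hx4 Z₀ hZ₀)
        rw [mul_rat, rat_mul] at h1
        exact h1
    obtain ⟨r, β, l, hXe⟩ := eq_sum X
    rw [hXe]
    exact Submodule.sum_mem _ fun i _ => Submodule.smul_mem _ _ (Submodule.subset_span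
      ⟨_, key (l i), rfl⟩)
  have hbr : ∀ Z ∈ kk, ∀ Z' ∈ kk, Z * Z' - Z' * Z ∈ kk := by
    intro Z hZ Z' hZ'
    obtain ⟨m, ρ, h1, h2, h3, h4, h5⟩ := hkk Z hZ
    obtain ⟨m', ρ', h1', h2', h3', h4', h5'⟩ := hkk Z' hZ'
    refine ⟨0, ρ * ρ' - ρ' * ρ, sim_br h1 h1', so_br h2 h2', lb3_br h3 h3', act_br h4 h4',
      fun Z₀ hZ₀ => ?_⟩
    rw [Matrix.sub_mul, Matrix.mul_sub, Matrix.mul_assoc, h5' Z₀ hZ₀, ← Matrix.mul_assoc,
      h5 Z₀ hZ₀, Matrix.mul_assoc Z' Z, h5 Z₀ hZ₀, ← Matrix.mul_assoc Z', h5' Z₀ hZ₀,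
      Matrix.mul_assoc, Matrix.mul_assoc]
  have hsim : ∀ Z ∈ kk, ∃ m : ℚ, Zᵀ * D.A.psi + D.A.psi * Z = m • D.A.psi := by
    intro Z hZ
    obtain ⟨m, ρ, h1, -⟩ := hkk Z hZ
    exact ⟨m, h1⟩
  have huniq : ∀ {ρ ρ' : Matrix (Fin D.n) (Fin D.n) ℚ},
      (∀ j, ∑ i, ρ i j • D.B i = ∑ i, ρ' i j • D.B i) → ρ = ρ' :=
    fun h => act_unique hKS.det hKS.orth hKS.ne hKS.clifford h
  have hpE : ∀ i, D.π i ∈ EndAlg D.c.1 := fun i =>
    D.full _ fun ρ _ => pi_cli hKS.mul hKS.left hKS.right i ρ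
  have hkk' := hkk
  choose! mm rr hr using hkk'
  refine ⟨kk, rr, mm, ⟨hbr, ?_, ?_, ?_, ?_, ?_, ?_, ?_, ?_, hlog, ?_, ?_⟩, ?_, ?_⟩
  · intro Z hZ Z' hZ'
    refine huniq fun j => ?_
    rw [← (hr _ (hbr Z hZ Z' hZ')).2.2.2.1 j]
    exact act_br (hr Z hZ).2.2.2.1 (hr Z' hZ').2.2.2.1 j
  · intro Z hZ Z' hZ'
    refine huniq fun j => ?_
    rw [← (hr _ (kk.add_mem hZ hZ')).2.2.2.1 j]
    simp only [Matrix.add_apply, add_smul]
    rw [Finset.sum_add_distrib, ← (hr Z hZ).2.2.2.1 j, ← (hr Z' hZ').2.2.2.1 j]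
    noncomm_ring
  · intro a Z hZ
    refine huniq fun j => ?_
    rw [← (hr _ (kk.smul_mem a hZ)).2.2.2.1 j]
    simp only [Matrix.smul_apply, smul_assoc]
    rw [← Finset.smul_sum, ← (hr Z hZ).2.2.2.1 j, Matrix.smul_mul, Matrix.mul_smul, smul_sub]
  · exact fun Z hZ => (hr Z hZ).1
  · exact fun Z hZ => (hr Z hZ).2.1
  · exact fun Z hZ => (hr Z hZ).2.2.2.1
  · exact fun Z hZ => (hr Z hZ).2.2.2.2
  · exact fun Z hZ i => (hr Z hZ).2.2.2.2 _ (hpE i)
  · intro ρ hρ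
    refine hBic D.c J D.A.psi hJ kk hsim hlog _ fun Z₀ hZ₀ => ?_
    exact (hKS.endA Z₀ (hEnd Z₀ hZ₀) ρ hρ).symm
  · intro i
    refine hBic D.c J D.A.psi hJ kk hsim hlog _ fun Z₀ hZ₀ => ?_
    exact (hKS.cen Z₀ (hEnd Z₀ hZ₀) i).symm
  · exact fun Z hZ => (hr Z hZ).2.2.1
  · by_contra hne
    push Not at hne
    obtain ⟨δ, hδ⟩ : ∃ δ : Derivation Qbar ℂ ℂ, δ (2 * Real.pi * Complex.I) ≠ 0 := by
      by_contra hne
      push Not at hne
      exact U.SimM.two_pi_I_notMem (specDsc.2 _ hne)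
    obtain ⟨ψdR, hψ, hleg⟩ := hJ.leg
    have hX := U.SimM.log_deriv D.c D.A.psi ψdR hψ hleg δ
    have h0 : ∀ X ∈ Submodule.span ℂ {Y : Matrix (Ix D.g) (Ix D.g) ℂ | ∃ Z ∈ kk, Y = cx Z},
        Xᵀ * cx D.A.psi + cx D.A.psi * X = 0 := by
      intro X hX
      refine Submodule.span_induction
        (p := fun X _ => Xᵀ * cx D.A.psi + cx D.A.psi * X = 0) ?_ ?_ ?_ ?_ hX
      · rintro _ ⟨Z, hZ, rfl⟩
        have h1 := congrArg cx (hr Z hZ).1
        rw [hne Z hZ, zero_smul, cx_add, cx_mul, cx_mul, cx_zero] at h1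
        exact h1
      · simp
      · intro X Y _ _ hX hY
        rw [transpose_add, Matrix.add_mul, Matrix.mul_add, add_add_add_comm, hX, hY, add_zero]
      · intro a X _ hX
        rw [transpose_smul, Matrix.smul_mul, Matrix.mul_smul, ← smul_add, hX, smul_zero]
    have h1 := h0 _ (hlog δ)
    have h2 : (δ (2 * Real.pi * Complex.I) / (2 * Real.pi * Complex.I)) • cx D.A.psi = 0 := by
      rw [← h1]
      exact hX.symm
    have hψ0 : cx D.A.psi ≠ 0 := by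
      intro h0
      have h9 : D.A.psi = 0 := by
        ext i j
        have h10 := congrFun (congrFun h0 i) j
        change ((D.A.psi i j : ℚ) : ℂ) = 0 at h10
        exact_mod_cast h10
      have : Nonempty (Ix D.g) := ⟨Sum.inl ⟨0, hKS.pos⟩⟩
      apply hJ.det
      rw [h9]
      exact Matrix.det_zero
    have h3 := (smul_eq_zero.1 h2).resolve_right hψ0
    exact (div_ne_zero hδ Complex.two_pi_I_ne_zero) h3

end Pool.Agent.Lib.MPf11a48.KM
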