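import Pool.Agent.Lib.MP_f11a48_ag.KM.SpecA

/-!
# Families of Kuga-Satake pairs: specifications, part B (torsors and groups)

Module `XXX`: file `KM/Xxx.lean`, `import Pool.Agent.Lib.MP_f11a48_ag.KM.SpecB`, theorem
`specMXxx (h : SpecMYyy) ... : SpecMXxx`, own lemmas in the namespace
`Pool.Agent.Lib.MPf11a48.KM.XxxM` (see SpecA.lean). `SpecCurve`, `SpecGen`, `SpecPerf`, `SpecBic2`,
`SpecLRat` (K3), `SpecUTor`, `SpecUSim` (KU) and `SpecHDA` (U) are available as hypotheses.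
-/

set_option autoImplicit false

namespace Pool.Agent.Lib.MPf11a48.KM

open Matrix MvPolynomial Pool.Agent.Lib.MPf11a48.Tors
open Pool.Agent.Lib.MPf11a48.CM hiding OmegaM
open Pool.Agent.Lib.MPf11a48.GL2 (lie Geo)
open Pool.Agent.Lib.MPf11a48.GL2T (IsAlg)
open Pool.Agent.Lib.MPf11a48.U (AbData Ix HD EndAlg)
open Pool.Agent.Lib.MPf11a48.K3 Pool.Agent.Lib.MPf11a48.KU
open KLieM (bl clC gam)
open KGrpM (stab)
open KGrp3M (G0 sc ex)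

/-- RAT [250], from `SpecLRat`, `SpecBic2`, `SpecHDA`, MCLB (as `specKRat3`, K3/KRat3.lean). `kk` is the
set of all rational `Z` such that there are `m`, `ρ` with: `Zᵀ psi + psi Z = m psi`, `ρ ∈ soE`,
`lb3 Z ρ m ∈ lie T`, `[Z, B j] = ∑ ρ_ij B i`, and `Z` commutes with `EndAlg`. It is closed under
brackets (`GL2.lie_br`). `ρ` is unique: if `∑ d_i B i = 0` then the anticommutator with `B k` gives
`2 (∑ d_i q_ik) π_(ix k) = 0` (`orth`), so `d = 0`. `π i ∈ EndAlg` by `D.full` (`π i` commutes with the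
`cli ρ`, MCLB). `cli` and `pi`: `SpecBic2`, `endA`, `cen`. Last statement: as in `specKFull3`
(`2 π i` is transcendental: there is `δ` with `δ (2 π i) ≠ 0`; `HD.leg`). -/
def SpecMRat : Prop :=
  ∀ (D : Dat) (T : Set (GL (Ix D.g ⊕ (Fin D.n ⊕ Unit)) ℂ)), TT D T →
    ∃ kk r mm, KK D kk r mm ∧ (∀ Z ∈ kk, lb3 (cx Z) (cx (r Z)) (mm Z : ℂ) ∈ lie T) ∧
      ∃ Z ∈ kk, mm Z ≠ 0

/-- FLA [200], from MRAT, MZ, MLIE, MCLB, MMAT, `SpecPerf`. Proof: by MLIE `wm X Y` is a complex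
combination of `cx (r Z)`, `Z ∈ kk`; as `cx Z = cl (r Z) + mm Z / 2` (MZ), the same combination of the
`lb3 (cx Z) (cx (r Z)) (mm Z)` is `lb3 (cl ρ + (M / 2) • 1) ρ M ∈ lie T`, `ρ = wm X Y`. The bracket of
two such elements is `lb3 (cl [ρ, ρ']) [ρ, ρ'] 0` (MCLB, MMAT), and all families of skew-symmetric
matrices, and of matrices of trace zero, are sums of brackets (`SpecPerf`; `FulaM.trace_zero_mem`,
KU/Fula.lean). -/
def SpecMFla : Prop :=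
  ∀ (D : Dat) (T : Set (GL (Ix D.g ⊕ (Fin D.n ⊕ Unit)) ℂ)), TT D T →
    ∀ (X : D.FR) (Y : D.FU), (∀ k, (X k)ᵀ = -X k) → (∀ k, (Y k).trace = 0) →
      lb3 (D.cl (D.wm X Y)) (D.wm X Y) 0 ∈ lie T

/-- FLB [200], from MRAT, MZ, MFLA, MFLT, MIMG, MMAT, MCLB (as `specUFulB`, KU/Fulb.lean). Proof: for
`Z ∈ kk` subtract from `lb3 Z (r Z) (mm Z) = lb3 (cl ρ + mm/2) ρ mm`, `ρ = r Z = wm (xr ρ) (xu ρ)`, the
part of trace zero (MFLA): `lb3 (cl (uz z) + s) (uz z) (2 s) ∈ lie T` for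
`z k = tr (xu ρ k) / m' k`, `s = mm Z / 2`. So `∑ (χ k / m' k) tr_k + r mm Z / 2 = 0` for all `Z ∈ kk`;
the `tr_k` are purely imaginary (MIMG), so `r mm Z = 0` and `∑ (χ k / m' k) tr_k = 0`. As `mm Z ≠ 0`
for some `Z` (MRAT), `r = 0`; and `χ = 0` by MFLT. -/
def SpecMFlb : Prop :=
  ∀ (D : Dat) (T : Set (GL (Ix D.g ⊕ (Fin D.n ⊕ Unit)) ℂ)), TT D T →
    ∀ (χ : D.U → ℚ) (r : ℚ), (∀ (z : D.U → ℂ) (s : ℂ),
      lb3 (D.cl (D.uz z) + s • 1) (D.uz z) (2 * s) ∈ lie T →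
      ∑ k, (χ k : ℂ) * z k + (r : ℂ) * s = 0) → χ = 0 ∧ r = 0

/-- DIA [200]: the torus given by commuting idempotents `p u` and characters `χ u` (compare
`specUDia`, KU/Dia.lean). Proof: `F w = ∏_u (1 + (w^(χ u) - 1) p u)`, a product of commuting
homomorphisms. -/
def SpecMDia : Prop :=
  ∀ (ι W J : Type) [Fintype ι] [DecidableEq ι] [Fintype W] [DecidableEq W] [Fintype J]
    [DecidableEq J] (p : W → Matrix ι ι ℂ) (χ : W → J → ℤ), (∀ u, p u * p u = p u) →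
    (∀ u v, p u * p v = p v * p u) → ∃ F : (J → ℂˣ) →* GL ι ℂ,
    (∀ i j, ∃ a : (J → ℤ) →₀ ℂ, ∀ w, (F w).1 i j = a.sum fun χ a => a * ∏ k, (w k : ℂ) ^ χ k) ∧
    ∀ (v : J → ℂ) (s : ℂ) (i j : ι), HasDerivAt (fun s => (F fun k => ex (s * v k)).1 i j)
      (((∑ u, (∑ k, (χ u k : ℂ) * v k) • p u) * (F fun k => ex (s * v k)).1) i j) s

/-- DER [80]: the derivative of a curve which preserves `T` is in the Lie algebra (`lie`, `tang`: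
helper92/Lie.lean): for `p ∈ van T`, `p (g s f) = 0`; take the derivative at `0`. -/
def SpecMDer : Prop :=
  ∀ (I : Type) [Fintype I] [DecidableEq I] (T : Set (GL I ℂ)) (X : Matrix I I ℂ) (x : ℂ → GL I ℂ),
    x 0 = 1 → (∀ i j, HasDerivAt (fun s => (x s).1 i j) (X i j) 0) →
    (∀ s, ∀ f ∈ T, x s * f ∈ T) → X ∈ lie T

/-- TG [250], from MFLB, `SpecUTor`, MDIA, MDER, MCAR, MMAT, MCLB, `SpecCurve`. Proof: apply MDIA to the
matrices (index set `Ix g ⊕ (Fin n ⊕ Unit)`), with `J = U ⊕ Unit`: `lb3 (e_u f_u) 0 0` with character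
`2 [u.1]`, `lb3 π_i 0 0` with character `-∑_(ou k = i) m'_k [k]`, `lb3 1 0 0` with character `[*]`,
`lb3 0 (pr (inr (inl k))) 0` with `2 [k]`, `lb3 0 (pr (inr (inr k))) 0` with `-2 [k]`, and
`lb3 0 0 1` with `2 [*]`. By MCAR (b) the derivative along `w = exp (s v)` is
`X_v = lb3 (cl (uz z) + s') (uz z) (2 s')` with `z = 2 v ∘ inl`, `s' = v (inr ())`. By MFLB, for
`0 ≠ χ : J → ℤ` there is `v` with `X_v ∈ lie T` and `∑ χ_j v_j ≠ 0` (otherwise MFLB for `χ_k / 2`,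
`χ_*`), so `SpecCurve` and `SpecUTor` show that `F w * f ∈ T` for all `w`, `f ∈ T`; MDER: all `X_v` are
in `lie T`. -/
def SpecMTg : Prop :=
  ∀ (D : Dat) (T : Set (GL (Ix D.g ⊕ (Fin D.n ⊕ Unit)) ℂ)), TT D T →
    ∀ (z : D.U → ℂ) (s : ℂ), lb3 (D.cl (D.uz z) + s • 1) (D.uz z) (2 * s) ∈ lie T

/-- FUL [80], from MFLA, MTG, MCLB: everything is in the Lie algebra (`Y` is the sum of a family of
trace zero and of scalars; `wm` and `cl` are linear). -/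
def SpecMFul : Prop :=
  ∀ (D : Dat) (T : Set (GL (Ix D.g ⊕ (Fin D.n ⊕ Unit)) ℂ)), TT D T →
    (∀ (X : D.FR) (Y : D.FU), (∀ k, (X k)ᵀ = -X k) →
      lb3 (D.cl (D.wm X Y)) (D.wm X Y) 0 ∈ lie T) ∧
    lb3 ((2 : ℂ)⁻¹ • (1 : Matrix (Ix D.g) (Ix D.g) ℂ)) (0 : Matrix (Fin D.n) (Fin D.n) ℂ) 1 ∈ lie T

/-- PSI [150], from MFUL, MMAT, `SpecUSim`, `SpecHDA`: the `cl ρ` are infinitesimal isometries of the
polarisation. Proof: by MFUL for the torsor `T` of `SpecUSim`, `lb3 (cl ρ) ρ 0 ∈ lie T`. The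
polynomials `(f_1ᵀ psi f_1)_ab - f_3 (cᵀ psi c)_ab / (2 π i)` vanish on `T`, so their derivatives in
the direction `lb3 (cl ρ) ρ 0 * f` vanish: `f_1ᵀ (Zᵀ psi + psi Z) f_1 = 0` for `Z = cl ρ`. -/
def SpecMPsi : Prop :=
  ∀ D : Dat, ∀ ρ ∈ D.so, (D.cl ρ)ᵀ * cx D.A.psi + cx D.A.psi * D.cl ρ = 0

/-- CUR [120]: lifting integral curves (as `specKCur`, K3/KCur.lean, where `X = clC ρ / 4`; the proof
only uses the hypotheses below). -/
def SpecMCur : Prop :=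
  ∀ (g n : ℕ) (B : Fin n → Matrix (Ix g) (Ix g) ℚ) (ψ : Matrix (Ix g) (Ix g) ℚ)
    (X : Matrix (Ix g) (Ix g) ℂ) (ρ : Matrix (Fin n) (Fin n) ℂ),
    (∀ k, X * cx (B k) - cx (B k) * X = ∑ i, ρ i k • cx (B i)) →
    Xᵀ * cx ψ + cx ψ * X = 0 → ∀ x : ℂ → GL (Fin n) ℂ, x 0 = 1 →
    (∀ s i j, HasDerivAt (fun s => (x s).1 i j) ((ρ * (x s).1) i j) s) →
    ∃ a : ℂ → GL (Ix g) ℂ, a 0 = 1 ∧
      (∀ s i j, HasDerivAt (fun s => (a s).1 i j) ((X * (a s).1) i j) s) ∧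
      ∀ s, (∀ j, (a s).1 * cx (B j) = (∑ i, (x s).1 i j • cx (B i)) * (a s).1) ∧
        (∀ Z : Matrix (Ix g) (Ix g) ℂ, X * Z = Z * X → (a s).1 * Z = Z * (a s).1) ∧
        (a s).1ᵀ * cx ψ * (a s).1 = cx ψ

/-- GNL [120]: generation of `GL_d(ℂ)` by integral curves (as `specUGen`, KU/Gen.lean, which treats
`SL_d`; diagonal matrices: `exp (s w_i)`). -/
def SpecMGnl : Prop :=
  ∀ (d : ℕ) (G : Subgroup (GL (Fin d) ℂ)),
    (∀ X : Matrix (Fin d) (Fin d) ℂ, ∀ x : ℂ → GL (Fin d) ℂ, x 0 = 1 →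
      (∀ s i j, HasDerivAt (fun s => (x s).1 i j) ((X * (x s).1) i j) s) →
      (∀ s i j, HasDerivAt (fun s => (x s)⁻¹.1 i j) (-((x s)⁻¹.1 * X) i j) s) → ∀ s, x s ∈ G) →
    ∀ x : GL (Fin d) ℂ, x ∈ G

/-- SGN [250], from MFUL, MCAR, MMAT, MCLB, `SpecCurve`: signs. Proof: species `i` (`ks.surj`,
`split.onto`: there is a block in species `i`). Real block `r`, indices `a ≠ b`: put
`ρ = wm F 0`, `F = E_ab - E_ba` in the block `r`, `J = cl ρ = γ_a γ_b`, `J² = -π_i / 4`,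
`J π_i = J`, `ρ³ = -ρ`; `x s = 1 + sin s ρ + (1 - cos s) ρ²`,
`a s = 1 + (cos (s/2) - 1) π_i + 2 sin (s/2) J` satisfy `x' = ρ x`, `a' = J a`; by MFUL and `SpecCurve`
`bd3 (a s, x s, 1)` preserves `T`; `s = 2 π`. Unitary block `u`, index `a`:
`ρ = wm 0 E_aa`, `cl ρ = e_a f_a - π_i / 2`,
`a s = (1 - π_i) + exp (s/2) e_a f_a + exp (-s/2) (π_i - e_a f_a)`,
`x s = 1 + (exp s - 1) P' E_aa Q'ᵀ q + (exp (-s) - 1) Q' E_aa P'ᵀ q`, `s = 2 π i`. The point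
`(1 - 2 π_i, 1, 1)` is in `G0`: `left`, `right`, `cen`, `psi`. -/
def SpecMSgn : Prop :=
  ∀ (D : Dat) (T : Set (GL (Ix D.g ⊕ (Fin D.n ⊕ Unit)) ℂ)), TT D T → ∀ i,
    ∃ σ : GL (Ix D.g) ℂ, σ.1 = 1 - (2 : ℂ) • D.pc i ∧
      ((σ, 1, 1) : Grp3 D.g D.n) ∈ G0 D.B (EndAlg D.c.1) D.A.psi ⊓ (stab T).comap bd3

/-- LFT [300], from MFUL, MPSI, MCLB, MMAT, MCUR, MGNL, `SpecGen`, `SpecCurve` (as `KGrp3`, K3/, and
`exists_lift`, KU/Grp.lean): for each block the set of all `x` which can be lifted to a point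
`(a, wg x, 1)` of the group is a subgroup which contains the integral curves; multiply the
blocks. -/
def SpecMLft : Prop :=
  ∀ (D : Dat) (T : Set (GL (Ix D.g ⊕ (Fin D.n ⊕ Unit)) ℂ)), TT D T →
    ∀ (x : (k : D.R) → SO (D.m k)) (x' : (k : D.U) → GL (Fin (D.m' k)) ℂ),
    ∃ (a : GL (Ix D.g) ℂ) (X : GL (Fin D.n) ℂ), X.1 = D.wg (fun k => (x k).1) x' ∧
      ((a, X, 1) : Grp3 D.g D.n) ∈ G0 D.B (EndAlg D.c.1) D.A.psi ⊓ (stab T).comap bd3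

/-- GRP [250], from MLFT, MSGN, MFUL, MSCL, `SpecCurve`. Proof: `y ∈ gspinM`. By MLFT there is
`(a, X, 1)` in the group `GG = G0 ⊓ stab` with `X = y.2.1`; `(sc s, 1, s²) ∈ GG` for all `s` (MFUL, second
part, curve `(exp (w/2), 1, exp w)`), choose `s² = y.2.2`. Then `v = y ((sc s, 1, s²) (a, X, 1))⁻¹` is
in `G0` with `v.2 = 1`, so `v.1` commutes with the `B j` and `EndAlg`; MSCL (`D.full`):
`v.1 = ∑ σ_i π_i`; `v.1ᵀ psi v.1 = psi` gives `σ_i² = 1` (`ks.psi`, `psi` is invertible by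
`SpecHDA`), so `v.1` is a product of matrices `1 - 2 π_i`; MSGN. -/
def SpecMGrp : Prop :=
  ∀ (D : Dat) (T : Set (GL (Ix D.g ⊕ (Fin D.n ⊕ Unit)) ℂ)), TT D T →
    ∀ y ∈ gspinM D.A D.c D.qB D.B D.m D.P D.m' D.P' D.Q', bd3 (y * (D.c, D.t, tpi)) ∈ T

end Pool.Agent.Lib.MPf11a48.KM
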