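import Pool.Agent.Lib.MP_f11a48_ag.KM.SpecA
import Pool.Agent.Lib.MP_f11a48_ag.KU.Lie

/-! # Surjectivity to the blocks -/

set_option autoImplicit false
set_option linter.unusedSectionVars false

namespace Pool.Agent.Lib.MPf11a48.KM

open Matrix MvPolynomial Pool.Agent.Lib.MPf11a48.Tors
open Pool.Agent.Lib.MPf11a48.CM hiding OmegaM
open Pool.Agent.Lib.MPf11a48.GL2 (lie Geo)
open Pool.Agent.Lib.MPf11a48.GL2T (IsAlg)
open Pool.Agent.Lib.MPf11a48.U (AbData Ix HD EndAlg)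
open Pool.Agent.Lib.MPf11a48.K3 Pool.Agent.Lib.MPf11a48.KU
open KLieM (bl clC gam)
open KGrpM (stab)
open KGrp3M (G0 sc ex)

namespace BlkM

open KRatM LieLM

/-- the span of a set of matrices closed under brackets is closed under brackets -/
theorem span_br {ι : Type} [Fintype ι] [DecidableEq ι] {S : Set (Matrix ι ι ℂ)}
    (h : ∀ X ∈ S, ∀ Y ∈ S, X * Y - Y * X ∈ S) :
    ∀ X ∈ Submodule.span ℂ S, ∀ Y ∈ Submodule.span ℂ S, X * Y - Y * X ∈ Submodule.span ℂ S := by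
  intro X hX Y hY
  induction hX using Submodule.span_induction with
  | mem X hX =>
    induction hY using Submodule.span_induction with
    | mem Y hY => exact Submodule.subset_span (h X hX Y hY)
    | zero => simp
    | add Y Y' _ _ h1 h2 =>
      have : X * (Y + Y') - (Y + Y') * X = (X * Y - Y * X) + (X * Y' - Y' * X) := by
        rw [Matrix.mul_add, Matrix.add_mul]; abel
      rw [this]
      exact Submodule.add_mem _ h1 h2
    | smul a Y _ h1 =>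
      have : X * (a • Y) - (a • Y) * X = a • (X * Y - Y * X) := by
        rw [Matrix.mul_smul, Matrix.smul_mul, smul_sub]
      rw [this]
      exact Submodule.smul_mem _ _ h1
  | zero => simp
  | add X X' _ _ h1 h2 =>
    have : (X + X') * Y - Y * (X + X') = (X * Y - Y * X) + (X' * Y - Y * X') := by
      rw [Matrix.mul_add, Matrix.add_mul]; abel
    rw [this]
    exact Submodule.add_mem _ h1 h2
  | smul a X _ h1 =>
    have : (a • X) * Y - Y * (a • X) = a • (X * Y - Y * X) := by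
      rw [Matrix.mul_smul, Matrix.smul_mul, smul_sub]
    rw [this]
    exact Submodule.smul_mem _ _ h1

/-- the action on the Clifford operators over `ℂ` -/
theorem act_cx {D : Dat} {kk : Submodule ℚ (Matrix (Ix D.g) (Ix D.g) ℚ)}
    {r : Matrix (Ix D.g) (Ix D.g) ℚ → Matrix (Fin D.n) (Fin D.n) ℚ}
    {mm : Matrix (Ix D.g) (Ix D.g) ℚ → ℚ} (hK : KK D kk r mm) {Z : Matrix (Ix D.g) (Ix D.g) ℚ}
    (hZ : Z ∈ kk) (j : Fin D.n) : cx Z * cx (D.B j) - cx (D.B j) * cx Z =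
      ∑ i, cx (r Z) i j • cx (D.B i) := by
  have h1 := congrArg cx (hK.act Z hZ j)
  have h2 : cx (∑ i, r Z i j • D.B i) = ∑ i, (cx (r Z)) i j • cx (D.B i) := by
    ext a b
    rw [Matrix.sum_apply]
    simp only [cx, Matrix.map_apply, Matrix.sum_apply, Matrix.smul_apply, smul_eq_mul]
    push_cast
    rfl
  rw [h2] at h1
  rw [← h1, ← cx_mul, ← cx_mul]
  ext a b
  simp [cx]

theorem cx_sub' {ι : Type} (X Y : Matrix ι ι ℚ) : cx (X - Y) = cx X - cx Y := by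
  ext a b
  simp [cx]

theorem pc_mul (D : Dat) (i : D.I) : D.pc i * D.pc i = D.pc i := by
  have h := D.ks.mul i i
  rw [if_pos rfl] at h
  have h2 := congrArg cx h
  rw [cx_mul] at h2
  exact h2

theorem pc_ne (D : Dat) (i : D.I) : D.pc i ≠ 0 := by
  intro h
  apply D.ks.ne i
  ext a b
  have h2 := congrFun (congrFun h a) b
  simpa [Dat.pc, cx] using h2

/-- compression of a product -/
theorem cmp_mul {ι ν : Type} [Fintype ι] [DecidableEq ι] [Fintype ν] [DecidableEq ν]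
    {L : Matrix ν ι ℂ} {R : Matrix ι ν ℂ} {p X Y : Matrix ι ι ℂ} (hRL : R * L = p)
    (h : X * p = X) : (L * X * R) * (L * Y * R) = L * (X * Y) * R := by
  have : (L * X * R) * (L * Y * R) = L * (X * (R * L)) * Y * R := by
    simp only [Matrix.mul_assoc]
  rw [this, hRL, h]
  simp only [Matrix.mul_assoc]

theorem cmp_mul' {ι ν : Type} [Fintype ι] [DecidableEq ι] [Fintype ν] [DecidableEq ν]
    {L : Matrix ν ι ℂ} {R : Matrix ι ν ℂ} {p X Y : Matrix ι ι ℂ} (hRL : R * L = p)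
    (h : p * Y = Y) : (L * X * R) * (L * Y * R) = L * (X * Y) * R := by
  have : (L * X * R) * (L * Y * R) = L * X * ((R * L) * Y) * R := by
    simp only [Matrix.mul_assoc]
  rw [this, hRL, h]
  simp only [Matrix.mul_assoc]

theorem cmp_sum {ι ν W : Type} [Fintype ι] [DecidableEq ι] [Fintype ν] [DecidableEq ν] [Fintype W]
    (L : Matrix ν ι ℂ) (R : Matrix ι ν ℂ) (a : W → ℂ) (X : W → Matrix ι ι ℂ) :
    L * (∑ w, a w • X w) * R = ∑ w, a w • (L * X w * R) := by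
  rw [Matrix.mul_sum, Matrix.sum_mul]
  refine Finset.sum_congr rfl fun w _ => ?_
  rw [Matrix.mul_smul, Matrix.smul_mul]

theorem cmp_one {ι ν : Type} [Fintype ι] [DecidableEq ι] [Fintype ν] [DecidableEq ν]
    {L : Matrix ν ι ℂ} {R : Matrix ι ν ℂ} {p : Matrix ι ι ℂ} (hLR : L * R = 1) (hRL : R * L = p) :
    L * p * R = 1 := by
  have : L * p * R = (L * R) * (L * R) := by
    rw [← hRL]
    simp only [Matrix.mul_assoc]
  rw [this, hLR, Matrix.one_mul]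

/-- compression of an anticommutator -/
theorem cmp_anti {ι ν : Type} [Fintype ι] [DecidableEq ι] [Fintype ν] [DecidableEq ν]
    {L : Matrix ν ι ℂ} {R : Matrix ι ν ℂ} {p X Y : Matrix ι ι ℂ} (hLR : L * R = 1)
    (hRL : R * L = p) (hX : X * p = X) (hY : Y * p = Y) {P : Prop} [Decidable P]
    (h : X * Y + Y * X = if P then p else 0) :
    (L * X * R) * (L * Y * R) + (L * Y * R) * (L * X * R) = if P then 1 else 0 := by
  rw [cmp_mul hRL hX, cmp_mul hRL hY, ← Matrix.add_mul, ← Matrix.mul_add, h]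
  split_ifs
  · exact cmp_one hLR hRL
  · rw [Matrix.mul_zero, Matrix.zero_mul]

/-- compression of an anticommutator which vanishes -/
theorem cmp_anti0 {ι ν : Type} [Fintype ι] [DecidableEq ι] [Fintype ν] [DecidableEq ν]
    {L : Matrix ν ι ℂ} {R : Matrix ι ν ℂ} {p X Y : Matrix ι ι ℂ}
    (hRL : R * L = p) (hX : X * p = X) (hY : Y * p = Y) (h : X * Y + Y * X = 0) :
    (L * X * R) * (L * Y * R) + (L * Y * R) * (L * X * R) = 0 := by
  rw [cmp_mul hRL hX, cmp_mul hRL hY, ← Matrix.add_mul, ← Matrix.mul_add, h,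
    Matrix.mul_zero, Matrix.zero_mul]

/-- compression of a commutator -/
theorem cmp_comm {ι ν : Type} [Fintype ι] [DecidableEq ι] [Fintype ν] [DecidableEq ν]
    {L : Matrix ν ι ℂ} {R : Matrix ι ν ℂ} {p X Z : Matrix ι ι ℂ}
    (hRL : R * L = p) (hX : X * p = X) (hX' : p * X = X) :
    (L * Z * R) * (L * X * R) - (L * X * R) * (L * Z * R) = L * (Z * X - X * Z) * R := by
  rw [cmp_mul hRL hX, cmp_mul' hRL hX', ← Matrix.sub_mul, ← Matrix.mul_sub]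

end BlkM

open BlkM KRatM LieLM in
theorem specMBlk (hMat : SpecMMat) (hCar : SpecMCar) (hCmp : SpecMCmp) (hNI : SpecKNI)
    (hIso : SpecKIso) (hIrr : SpecKIrr) (hRep : SpecRep) (hUIrr : SpecUIrr) (hUni : SpecUni) :
    SpecMBlk := by
  intro D kk r mm hK
  obtain ⟨hM1, -, hM3, hM4, -⟩ := hMat D
  obtain ⟨hgg, hee, hff, hef, hpg, hpe, hpf, -, hc, hd⟩ := hCar D
  obtain ⟨-, hdg, hde⟩ := hd kk r mm hK
  have hso : ∀ Z ∈ kk, cx (r Z) ∈ D.so := fun Z hZ => cx_soC (hK.so Z hZ)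
  have hwm : ∀ Z ∈ kk, cx (r Z) = D.wm (D.xr (cx (r Z))) (D.xu (cx (r Z))) :=
    fun Z hZ => (hM1 _ (hso Z hZ)).2
  have hact : ∀ Z ∈ kk, ∀ j, cx Z * cx (D.B j) - cx (D.B j) * cx Z =
      ∑ i, D.wm (D.xr (cx (r Z))) (D.xu (cx (r Z))) i j • cx (D.B i) := by
    intro Z hZ j
    rw [← hwm Z hZ]
    exact act_cx hK hZ j
  have hbr : ∀ Z ∈ kk, ∀ Z' ∈ kk,
      D.xr (cx (r (Z * Z' - Z' * Z))) = (fun k => D.xr (cx (r Z)) k * D.xr (cx (r Z')) k -
        D.xr (cx (r Z')) k * D.xr (cx (r Z)) k) ∧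
      D.xu (cx (r (Z * Z' - Z' * Z))) = (fun k => D.xu (cx (r Z)) k * D.xu (cx (r Z')) k -
        D.xu (cx (r Z')) k * D.xu (cx (r Z)) k) := by
    intro Z hZ Z' hZ'
    have h1 : cx (r (Z * Z' - Z' * Z)) = D.wm (fun k => D.xr (cx (r Z)) k * D.xr (cx (r Z')) k -
        D.xr (cx (r Z')) k * D.xr (cx (r Z)) k) (fun k => D.xu (cx (r Z)) k * D.xu (cx (r Z')) k -
        D.xu (cx (r Z')) k * D.xu (cx (r Z)) k) := by
      rw [hK.rbr Z hZ Z' hZ', cx_sub', cx_mul, cx_mul, ← hM4, ← hwm Z hZ, ← hwm Z' hZ']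
    rw [h1]
    exact hM3 _ _
  have hcomm : ∀ i, ∀ X ∈ {Y : Matrix (Ix D.g) (Ix D.g) ℂ | ∃ Z ∈ kk, Y = cx Z},
      X * D.pc i = D.pc i * X := by
    rintro i _ ⟨Z, hZ, rfl⟩
    rw [Dat.pc, ← cx_mul, ← cx_mul, hK.comp Z hZ i]
  refine ⟨fun k X hX => ?_, fun k X hX => ?_⟩
  · -- real blocks
    obtain ⟨hC1, hC2⟩ := hCmp (Ix D.g) (D.pc (D.ox k)) (pc_mul D _)
    obtain ⟨ν, _, _, hν, L, R, hLR, hRL⟩ := hC1 (pc_ne D _)
    have hC3 := hC2 ν L R hLR hRL _ (hcomm (D.ox k))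
    let γ : Fin (D.m k) → Matrix ν ν ℂ := fun a => L * D.gm ⟨k, a⟩ * R
    have hgp : ∀ a : Fin (D.m k), D.gm ⟨k, a⟩ * D.pc (D.ox k) = D.gm ⟨k, a⟩ := by
      intro a
      rw [(hpg (D.ox k) ⟨k, a⟩).2, if_pos rfl]
    have hpg' : ∀ a : Fin (D.m k), D.pc (D.ox k) * D.gm ⟨k, a⟩ = D.gm ⟨k, a⟩ := by
      intro a
      rw [(hpg (D.ox k) ⟨k, a⟩).1, if_pos rfl]
    let K' : Set (Matrix ν ν ℂ × Matrix (Fin (D.m k)) (Fin (D.m k)) ℂ) :=
      {q | ∃ Z ∈ kk, q = (L * cx Z * R, D.xr (cx (r Z)) k)}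
    have hsnd : Prod.snd '' K' = {Y | ∃ Z ∈ kk, Y = D.xr (cx (r Z)) k} := by
      ext Y
      constructor
      · rintro ⟨_, ⟨Z, hZ, rfl⟩, rfl⟩
        exact ⟨Z, hZ, rfl⟩
      · rintro ⟨Z, hZ, rfl⟩
        exact ⟨_, ⟨Z, hZ, rfl⟩, rfl⟩
    have hfst : Prod.fst '' K' = (fun X => L * X * R) ''
        {Y : Matrix (Ix D.g) (Ix D.g) ℂ | ∃ Z ∈ kk, Y = cx Z} := by
      ext Y
      constructor
      · rintro ⟨_, ⟨Z, hZ, rfl⟩, rfl⟩
        exact ⟨_, ⟨Z, hZ, rfl⟩, rfl⟩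
      · rintro ⟨_, ⟨Z, hZ, rfl⟩, rfl⟩
        exact ⟨_, ⟨Z, hZ, rfl⟩, rfl⟩
    have hCF : CF γ K' := by
      refine ⟨fun i j => ?_, ?_, ?_, fun i j => ?_⟩
      · have h1 := cmp_anti hLR hRL (hgp i) (hgp j) (hgg ⟨k, i⟩ ⟨k, j⟩)
        refine h1.trans ?_
        by_cases hij : i = j
        · subst hij; simp
        · have : (⟨k, i⟩ : (k : D.R) × Fin (D.m k)) ≠ ⟨k, j⟩ := fun h => hij (by simpa using h)
          rw [if_neg this, if_neg hij]
      · rintro _ ⟨Z, hZ, rfl⟩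
        exact (hM1 _ (hso Z hZ)).1 k
      · rintro _ ⟨Z, hZ, rfl⟩ j
        have h1 := (hc (cx Z) _ _ (hact Z hZ)).1 ⟨k, j⟩
        have h2 := cmp_comm (Z := cx Z) hRL (hgp j) (hpg' j)
        refine h2.trans ?_
        rw [h1, cmp_sum]
        exact sum_blk (D.xr (cx (r Z))) (fun u => L * D.gm u * R) k j
      · rw [hfst]
        have h1 := hC3 _ (hdg ⟨k, i⟩ ⟨k, j⟩ rfl)
        have h2 : γ i * γ j = L * (D.gm ⟨k, i⟩ * D.gm ⟨k, j⟩) * R := cmp_mul hRL (hgp i)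
        rw [h2]
        exact h1
    have hno := hNI ν (D.m k) γ _ hCF
    rw [hsnd] at hno
    refine hRep ℂ (D.m k) (D.good.three k) (D.good.five k)
      (Submodule.span ℂ {Y | ∃ Z ∈ kk, Y = D.xr (cx (r Z)) k}) ?_ ?_ ?_
      (KLieM.noInv_mono Submodule.subset_span hno) X hX
    · intro Y hY
      have hle : Submodule.span ℂ {Y | ∃ Z ∈ kk, Y = D.xr (cx (r Z)) k} ≤ blkS ℂ (D.m k) true := by
        refine Submodule.span_le.2 ?_
        rintro _ ⟨Z, hZ, rfl⟩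
        exact (hM1 _ (hso Z hZ)).1 k
      exact hle hY
    · refine span_br ?_
      rintro _ ⟨Z, hZ, rfl⟩ _ ⟨Z', hZ', rfl⟩
      exact ⟨_, hK.br Z hZ Z' hZ', (congrFun (hbr Z hZ Z' hZ').1 k).symm⟩
    · intro W hW
      refine hIrr (D.m k) {Y | ∃ Z ∈ kk, Y = D.xr (cx (r Z)) k} ?_ hno ?_ W
        fun X hX v hv => hW X (Submodule.subset_span hX) v hv
      · rintro _ ⟨Z, hZ, rfl⟩
        exact (hM1 _ (hso Z hZ)).1 k
      · intro W hW hiso
        refine hIso ν (D.m k) γ _ (D.good.three k) hCF W ?_ hiso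
        rintro _ ⟨Z, hZ, rfl⟩ v hv
        exact hW _ ⟨Z, hZ, rfl⟩ v hv
  · -- unitary blocks
    obtain ⟨hC1, hC2⟩ := hCmp (Ix D.g) (D.pc (D.ou k)) (pc_mul D _)
    obtain ⟨ν, _, _, hν, L, R, hLR, hRL⟩ := hC1 (pc_ne D _)
    have hC3 := hC2 ν L R hLR hRL _ (hcomm (D.ou k))
    let e : Fin (D.m' k) → Matrix ν ν ℂ := fun a => L * D.e ⟨k, a⟩ * R
    let f : Fin (D.m' k) → Matrix ν ν ℂ := fun a => L * D.f ⟨k, a⟩ * R
    have hep : ∀ a : Fin (D.m' k), D.e ⟨k, a⟩ * D.pc (D.ou k) = D.e ⟨k, a⟩ := by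
      intro a
      rw [(hpe (D.ou k) ⟨k, a⟩).2, if_pos rfl]
    have hpe' : ∀ a : Fin (D.m' k), D.pc (D.ou k) * D.e ⟨k, a⟩ = D.e ⟨k, a⟩ := by
      intro a
      rw [(hpe (D.ou k) ⟨k, a⟩).1, if_pos rfl]
    have hfp : ∀ a : Fin (D.m' k), D.f ⟨k, a⟩ * D.pc (D.ou k) = D.f ⟨k, a⟩ := by
      intro a
      rw [(hpf (D.ou k) ⟨k, a⟩).2, if_pos rfl]
    have hpf' : ∀ a : Fin (D.m' k), D.pc (D.ou k) * D.f ⟨k, a⟩ = D.f ⟨k, a⟩ := by
      intro a
      rw [(hpf (D.ou k) ⟨k, a⟩).1, if_pos rfl]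
    let K' : Set (Matrix ν ν ℂ × Matrix (Fin (D.m' k)) (Fin (D.m' k)) ℂ) :=
      {q | ∃ Z ∈ kk, q = (L * cx Z * R, D.xu (cx (r Z)) k)}
    have hsnd : Prod.snd '' K' = {Y | ∃ Z ∈ kk, Y = D.xu (cx (r Z)) k} := by
      ext Y
      constructor
      · rintro ⟨_, ⟨Z, hZ, rfl⟩, rfl⟩
        exact ⟨Z, hZ, rfl⟩
      · rintro ⟨Z, hZ, rfl⟩
        exact ⟨_, ⟨Z, hZ, rfl⟩, rfl⟩
    have hfst : Prod.fst '' K' = (fun X => L * X * R) ''
        {Y : Matrix (Ix D.g) (Ix D.g) ℂ | ∃ Z ∈ kk, Y = cx Z} := by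
      ext Y
      constructor
      · rintro ⟨_, ⟨Z, hZ, rfl⟩, rfl⟩
        exact ⟨_, ⟨Z, hZ, rfl⟩, rfl⟩
      · rintro ⟨_, ⟨Z, hZ, rfl⟩, rfl⟩
        exact ⟨_, ⟨Z, hZ, rfl⟩, rfl⟩
    have hUF : UF e f K' := by
      refine ⟨⟨fun i j => ?_, fun i j => ?_, fun i j => ?_⟩, ?_, ?_, fun i j => ?_⟩
      · exact cmp_anti0 hRL (hep i) (hep j) (hee ⟨k, i⟩ ⟨k, j⟩)
      · exact cmp_anti0 hRL (hfp i) (hfp j) (hff ⟨k, i⟩ ⟨k, j⟩)
      · have h1 := cmp_anti hLR hRL (hep i) (hfp j) (hef ⟨k, i⟩ ⟨k, j⟩)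
        refine h1.trans ?_
        by_cases hij : i = j
        · subst hij; simp
        · have : (⟨k, i⟩ : (k : D.U) × Fin (D.m' k)) ≠ ⟨k, j⟩ := fun h => hij (by simpa using h)
          rw [if_neg this, if_neg hij]
      · rintro _ ⟨Z, hZ, rfl⟩ j
        have h1 := (hc (cx Z) _ _ (hact Z hZ)).2.1 ⟨k, j⟩
        have h2 := cmp_comm (Z := cx Z) hRL (hep j) (hpe' j)
        refine h2.trans ?_
        rw [h1, cmp_sum]
        exact sum_blk (D.xu (cx (r Z))) (fun u => L * D.e u * R) k j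
      · rintro _ ⟨Z, hZ, rfl⟩ j
        have h1 := (hc (cx Z) _ _ (hact Z hZ)).2.2 ⟨k, j⟩
        have h2 := cmp_comm (Z := cx Z) hRL (hfp j) (hpf' j)
        refine h2.trans ?_
        rw [h1, Matrix.mul_neg, Matrix.neg_mul, cmp_sum]
        exact congrArg (- ·) (sum_blk' (D.xu (cx (r Z))) (fun u => L * D.f u * R) k j)
      · rw [hfst]
        have h1 := hC3 _ (hde ⟨k, i⟩ ⟨k, j⟩ rfl)
        have h2 : e i * f j = L * (D.e ⟨k, i⟩ * D.f ⟨k, j⟩) * R := cmp_mul hRL (hep i)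
        rw [h2]
        exact h1
    refine hUni ℂ (D.m' k) (D.good.pos k) (D.good.even k)
      (Submodule.span ℂ {Y | ∃ Z ∈ kk, Y = D.xu (cx (r Z)) k}) ?_ (fun j _ _ => ?_) X hX
    · refine span_br ?_
      rintro _ ⟨Z, hZ, rfl⟩ _ ⟨Z', hZ', rfl⟩
      exact ⟨_, hK.br Z hZ Z' hZ', (congrFun (hbr Z hZ Z' hZ').2 k).symm⟩
    · have h1 := hUIrr ν (D.m' k) e f K' hUF j
      rw [hsnd] at h1
      exact irr_mono Submodule.subset_span h1

end Pool.Agent.Lib.MPf11a48.KM
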