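import Pool.Agent.Lib.MP_f11a48_ag.KM.Mat
import Pool.Agent.Lib.MP_f11a48_ag.KU.Cli

/-!
# CAR: Clifford operators for families of Kuga-Satake pairs
-/

set_option autoImplicit false

namespace Pool.Agent.Lib.MPf11a48.KM

open Matrix MvPolynomial Pool.Agent.Lib.MPf11a48.Tors
open Pool.Agent.Lib.MPf11a48.CM hiding OmegaM
open Pool.Agent.Lib.MPf11a48.U (AbData Ix HD EndAlg)
open Pool.Agent.Lib.MPf11a48.K3 Pool.Agent.Lib.MPf11a48.KU
open KLieM (bl clC gam)

namespace CarM

open KRatM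

variable (D : Dat)

/-- `w` is a vector of `T_i` -/
def Sup (i : D.I) (w : Fin D.n → ℂ) : Prop := ∀ a, D.ix a ≠ i → w a = 0

theorem sup_P (u : (k : D.R) × Fin (D.m k)) : Sup D (D.ox u.1) fun a => D.P a u := by
  intro a ha
  have h1 := congrFun (congrFun (D.split.eigR _ (D.ks.proj (D.ox u.1))) a) u
  rw [Matrix.mul_diagonal, D.good.inR, mul_one] at h1
  change D.P a u = 0
  rw [← h1, prj, cx, Matrix.diagonal_map (by simp), Matrix.diagonal_mul, if_neg ha]
  simp

theorem sup_P' (u : (k : D.U) × Fin (D.m' k)) : Sup D (D.ou u.1) fun a => D.P' a u := by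
  intro a ha
  have h1 := congrFun (congrFun (D.split.eigP _ (D.ks.proj (D.ou u.1))) a) u
  rw [Matrix.mul_diagonal, D.good.inU, mul_one] at h1
  change D.P' a u = 0
  rw [← h1, prj, cx, Matrix.diagonal_map (by simp), Matrix.diagonal_mul, if_neg ha]
  simp

theorem sup_Q' (u : (k : D.U) × Fin (D.m' k)) : Sup D (D.ou u.1) fun a => D.Q' a u := by
  intro a ha
  have h1 := congrFun (congrFun (D.split.eigQ _ (D.ks.proj (D.ou u.1))) a) u
  rw [Matrix.mul_diagonal, D.good.inU, map_one, mul_one] at h1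
  change D.Q' a u = 0
  rw [← h1, prj, cx, Matrix.diagonal_map (by simp), Matrix.diagonal_mul, if_neg ha]
  simp

theorem anti (i : D.I) (w w' : Fin D.n → ℂ) (hw : Sup D i w) :
    bl D.B w * bl D.B w' + bl D.B w' * bl D.B w = (2 * (w ⬝ᵥ (cx D.qB *ᵥ w'))) • D.pc i := by
  have h1 : ∀ a b, cx (D.B a) * cx (D.B b) + cx (D.B b) * cx (D.B a) =
      (2 * (D.qB a b : ℂ)) • cx (D.π (D.ix a)) := by
    intro a b
    rw [← cx_mul, ← cx_mul, ← cx_add, D.ks.clifford, cx_smul]
    push_cast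
    rfl
  have h2 : bl D.B w * bl D.B w' = ∑ a, ∑ b, (w a * w' b) • (cx (D.B a) * cx (D.B b)) := by
    rw [bl, bl, Finset.sum_mul]
    refine Finset.sum_congr rfl fun a _ => ?_
    rw [Finset.mul_sum]
    refine Finset.sum_congr rfl fun b _ => ?_
    rw [Matrix.smul_mul, Matrix.mul_smul, smul_smul]
  have h3 : bl D.B w' * bl D.B w = ∑ a, ∑ b, (w a * w' b) • (cx (D.B b) * cx (D.B a)) := by
    rw [bl, bl, Finset.sum_mul]
    simp only [Finset.mul_sum]
    rw [Finset.sum_comm]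
    refine Finset.sum_congr rfl fun a _ => Finset.sum_congr rfl fun b _ => ?_
    rw [Matrix.smul_mul, Matrix.mul_smul, smul_smul, mul_comm (w' b)]
  rw [h2, h3, ← Finset.sum_add_distrib]
  have h4 : ∀ a, (∑ b, (w a * w' b) • (cx (D.B a) * cx (D.B b)) +
      ∑ b, (w a * w' b) • (cx (D.B b) * cx (D.B a))) =
      ∑ b, (w a * w' b * (2 * (D.qB a b : ℂ))) • D.pc i := by
    intro a
    rw [← Finset.sum_add_distrib]
    refine Finset.sum_congr rfl fun b _ => ?_
    rw [← smul_add, h1, smul_smul]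
    by_cases ha : D.ix a = i
    · rw [ha]
      rfl
    · rw [hw a ha]
      simp
  simp only [h4, ← Finset.sum_smul]
  congr 1
  simp only [dotProduct, mulVec, Finset.mul_sum]
  refine Finset.sum_congr rfl fun i _ => Finset.sum_congr rfl fun j _ => ?_
  simp only [cx, Matrix.map_apply]
  ring

theorem pc_B (i : D.I) (a : Fin D.n) :
    D.pc i * cx (D.B a) = if i = D.ix a then cx (D.B a) else 0 := by
  have h1 : D.π i * D.B a = if i = D.ix a then D.B a else 0 := by
    conv_lhs => rw [← D.ks.left a]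
    rw [← Matrix.mul_assoc, D.ks.mul]
    split_ifs with h
    · rw [h, D.ks.left a]
    · rw [Matrix.zero_mul]
  rw [Dat.pc, ← cx_mul, h1]
  split_ifs
  · rfl
  · ext x y
    simp [cx]

theorem B_pc (i : D.I) (a : Fin D.n) :
    cx (D.B a) * D.pc i = if i = D.ix a then cx (D.B a) else 0 := by
  have h1 : D.B a * D.π i = if i = D.ix a then D.B a else 0 := by
    conv_lhs => rw [← D.ks.right a]
    rw [Matrix.mul_assoc, D.ks.mul]
    by_cases h : i = D.ix a
    · rw [if_pos h.symm, if_pos h, D.ks.right a]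
    · rw [if_neg (fun h' => h h'.symm), if_neg h, Matrix.mul_zero]
  rw [Dat.pc, ← cx_mul, h1]
  split_ifs
  · rfl
  · ext x y
    simp [cx]

theorem pc_bl (i j : D.I) (w : Fin D.n → ℂ) (hw : Sup D j w) :
    D.pc i * bl D.B w = (if i = j then bl D.B w else 0) ∧
    bl D.B w * D.pc i = if i = j then bl D.B w else 0 := by
  constructor
  · rw [bl, Finset.mul_sum]
    by_cases h : i = j
    · rw [if_pos h]
      refine Finset.sum_congr rfl fun a _ => ?_
      rw [Matrix.mul_smul, pc_B]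
      by_cases ha : D.ix a = j
      · rw [if_pos (h.trans ha.symm)]
      · rw [hw a ha, zero_smul, zero_smul]
    · rw [if_neg h]
      refine Finset.sum_eq_zero fun a _ => ?_
      rw [Matrix.mul_smul, pc_B]
      by_cases ha : D.ix a = j
      · rw [if_neg (fun h' => h (h'.trans ha)), smul_zero]
      · rw [hw a ha, zero_smul]
  · rw [bl, Finset.sum_mul]
    by_cases h : i = j
    · rw [if_pos h]
      refine Finset.sum_congr rfl fun a _ => ?_
      rw [Matrix.smul_mul, B_pc]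
      by_cases ha : D.ix a = j
      · rw [if_pos (h.trans ha.symm)]
      · rw [hw a ha, zero_smul, zero_smul]
    · rw [if_neg h]
      refine Finset.sum_eq_zero fun a _ => ?_
      rw [Matrix.smul_mul, B_pc]
      by_cases ha : D.ix a = j
      · rw [if_neg (fun h' => h (h'.trans ha)), smul_zero]
      · rw [hw a ha, zero_smul]

theorem bd_single {κ : Type} [Fintype κ] [DecidableEq κ] {m : κ → ℕ} (k : κ) (i j : Fin (m k)) :
    blockDiagonal' (Pi.single k (Matrix.single i j (1 : ℂ)) :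
      (k : κ) → Matrix (Fin (m k)) (Fin (m k)) ℂ) =
      Matrix.single (⟨k, i⟩ : (k : κ) × Fin (m k)) ⟨k, j⟩ 1 := by
  ext u v
  obtain ⟨a, x⟩ := u
  obtain ⟨b, y⟩ := v
  by_cases hab : a = b
  · subst hab
    rw [Matrix.blockDiagonal'_apply_eq, Matrix.single_apply]
    by_cases hk : a = k
    · subst hk
      rw [Pi.single_eq_same, Matrix.single_apply]
      simp
    · rw [Pi.single_eq_of_ne hk]
      rw [if_neg, Matrix.zero_apply]
      rintro ⟨h1, -⟩
      exact hk (congrArg Sigma.fst h1).symm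
  · rw [Matrix.blockDiagonal'_apply_ne _ _ _ hab, Matrix.single_apply, if_neg]
    rintro ⟨h1, h2⟩
    exact hab ((congrArg Sigma.fst h1).symm.trans (congrArg Sigma.fst h2))

theorem bl_single_sum {U : Type} [Fintype U] [DecidableEq U] {M : Type} [AddCommGroup M]
    [Module ℂ M] (u v : U) (F : U → U → M) :
    ∑ x, ∑ y, (Matrix.single u v (1 : ℂ)) x y • F x y = F u v := by
  rw [Finset.sum_eq_single u, Finset.sum_eq_single v]
  · simp
  · intro b _ hb
    rw [Matrix.single_apply, if_neg (fun h => hb h.2.symm), zero_smul]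
  · intro h
    exact absurd (Finset.mem_univ v) h
  · intro b _ hb
    refine Finset.sum_eq_zero fun y _ => ?_
    rw [Matrix.single_apply, if_neg (fun h => hb h.1.symm), zero_smul]
  · intro h
    exact absurd (Finset.mem_univ u) h

theorem gm_eq (u : (k : D.R) × Fin (D.m k)) : D.gm u = hs • bl D.B fun a => D.P a u := rfl

theorem gm_anti (u v : (k : D.R) × Fin (D.m k)) :
    D.gm u * D.gm v + D.gm v * D.gm u = if u = v then D.pc (D.ox u.1) else 0 := by
  obtain ⟨⟨a1, a2, a3⟩, ⟨b1, b2, b3⟩, ⟨c1, c2, c3⟩⟩ := MatM.rels D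
  rw [gm_eq, gm_eq]
  simp only [Matrix.smul_mul, Matrix.mul_smul, smul_smul]
  rw [← smul_add, anti D (D.ox u.1) _ _ (sup_P D u), CliM.dot_col, a1, smul_smul, Matrix.one_apply]
  split_ifs with h
  · rw [show hs * hs * (2 * 1) = 2 * (hs * hs) by ring, two_hs, one_smul]
  · rw [mul_zero, mul_zero, zero_smul]

theorem ef_anti (u v : (k : D.U) × Fin (D.m' k)) :
    bl D.B (fun a => D.P' a u) * bl D.B (fun a => D.Q' a v) +
      bl D.B (fun a => D.Q' a v) * bl D.B (fun a => D.P' a u) =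
      (2 * if u = v then (1 : ℂ) else 0) • D.pc (D.ou u.1) := by
  obtain ⟨⟨a1, a2, a3⟩, ⟨b1, b2, b3⟩, ⟨c1, c2, c3⟩⟩ := MatM.rels D
  rw [anti D (D.ou u.1) _ _ (sup_P' D u), CliM.dot_col, b3, Matrix.one_apply]

/-- (b) for the unitary part -/
theorem cl_um (Y : D.FU) : (4 : ℂ)⁻¹ • clC D.B D.qB (um D.P' D.Q' D.qB (blockDiagonal' Y)) =
    (∑ u, ∑ v, blockDiagonal' Y u v • (D.e u * D.f v)) -
      (2 : ℂ)⁻¹ • ∑ k, (Y k).trace • D.pc (D.ou k) := by
  set X := blockDiagonal' Y with hX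
  have h3 : ∑ u, ∑ v, Xᵀ u v • (bl D.B (fun a => D.Q' a u) * bl D.B (fun a => D.P' a v)) =
      ∑ u, ∑ v, X u v • (bl D.B (fun a => D.Q' a v) * bl D.B (fun a => D.P' a u)) := by
    rw [Finset.sum_comm]
    rfl
  rw [um, CliM.clC_sub, CliM.clC_conj2 D.ks.det, CliM.clC_conj2 D.ks.det, h3,
    ← Finset.sum_sub_distrib]
  have h4 : ∀ u, (∑ v, X u v • (bl D.B (fun a => D.P' a u) * bl D.B (fun a => D.Q' a v))) -
      ∑ v, X u v • (bl D.B (fun a => D.Q' a v) * bl D.B (fun a => D.P' a u)) =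
      ∑ v, ((4 : ℂ) • (X u v • (D.e u * D.f v)) -
        (2 * (X u v * if u = v then (1 : ℂ) else 0)) • D.pc (D.ou u.1)) := by
    intro u
    rw [← Finset.sum_sub_distrib]
    refine Finset.sum_congr rfl fun v _ => ?_
    have h5 : bl D.B (fun a => D.Q' a v) * bl D.B (fun a => D.P' a u) =
        (2 * if u = v then (1 : ℂ) else 0) • D.pc (D.ou u.1) -
        bl D.B (fun a => D.P' a u) * bl D.B (fun a => D.Q' a v) := by
      rw [← ef_anti]
      abel
    rw [h5]
    have h6 : D.e u * D.f v = (2 : ℂ)⁻¹ •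
        (bl D.B (fun a => D.P' a u) * bl D.B (fun a => D.Q' a v)) := by
      rw [Dat.e, Dat.f, eU, fU, Matrix.mul_smul]
    rw [h6]
    module
  simp only [h4, Finset.sum_sub_distrib]
  rw [smul_sub]
  congr 1
  · simp only [Finset.smul_sum, smul_smul]
    refine Finset.sum_congr rfl fun u _ => Finset.sum_congr rfl fun v _ => ?_
    congr 1
    ring
  · have h7 : ∀ u, ∑ v, (2 * (X u v * if u = v then (1 : ℂ) else 0)) • D.pc (D.ou u.1) =
        (2 * X u u) • D.pc (D.ou u.1) := by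
      intro u
      rw [Finset.sum_eq_single u]
      · rw [if_pos rfl, mul_one]
      · intro b _ hb
        rw [if_neg (Ne.symm hb), mul_zero, mul_zero, zero_smul]
      · intro h
        exact absurd (Finset.mem_univ _) h
    simp only [h7]
    rw [Fintype.sum_sigma, Finset.smul_sum, Finset.smul_sum]
    refine Finset.sum_congr rfl fun k _ => ?_
    change (4 : ℂ)⁻¹ • ∑ y : Fin (D.m' k), (2 * X ⟨k, y⟩ ⟨k, y⟩) • D.pc (D.ou k) = _
    rw [← Finset.sum_smul, smul_smul, smul_smul, Matrix.trace]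
    congr 1
    rw [Finset.mul_sum, Finset.mul_sum]
    refine Finset.sum_congr rfl fun i _ => ?_
    rw [Matrix.diag_apply, hX, Matrix.blockDiagonal'_apply_eq]
    ring

theorem clC_add (ρ σ : Matrix (Fin D.n) (Fin D.n) ℂ) :
    clC D.B D.qB (ρ + σ) = clC D.B D.qB ρ + clC D.B D.qB σ := by
  simp only [clC, Matrix.add_mul, Matrix.add_apply, add_smul, Finset.sum_add_distrib]

theorem cl_wm (X : D.FR) (Y : D.FU) : D.cl (D.wm X Y) =
    (2 : ℂ)⁻¹ • (∑ u, ∑ v, blockDiagonal' X u v • (D.gm u * D.gm v)) +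
    ((∑ u, ∑ v, blockDiagonal' Y u v • (D.e u * D.f v)) -
      (2 : ℂ)⁻¹ • ∑ k, (Y k).trace • D.pc (D.ou k)) := by
  rw [Dat.cl, Dat.wm, clC_add, smul_add, cl_um, CliM.clC_conj2 D.ks.det]
  congr 1
  simp only [Finset.smul_sum, smul_smul]
  refine Finset.sum_congr rfl fun u _ => Finset.sum_congr rfl fun v _ => ?_
  rw [gm_eq, gm_eq, Matrix.smul_mul, Matrix.mul_smul, smul_smul, smul_smul]
  congr 1
  linear_combination (-(4 : ℂ)⁻¹ * blockDiagonal' X u v) * two_hs

/-- the commutator with the Clifford operator of a column -/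
theorem comm_col {Z : Matrix (Ix D.g) (Ix D.g) ℂ} {ρ : Matrix (Fin D.n) (Fin D.n) ℂ}
    (h : ∀ j, Z * cx (D.B j) - cx (D.B j) * Z = ∑ i, ρ i j • cx (D.B i))
    {U : Type} [Fintype U] {P : Matrix (Fin D.n) U ℂ} {X : Matrix U U ℂ} (hP : ρ * P = P * X)
    (v : U) : Z * bl D.B (fun a => P a v) - bl D.B (fun a => P a v) * Z =
      ∑ u, X u v • bl D.B (fun a => P a u) := by
  rw [CliM.comm_bl h]
  have e1 : (ρ *ᵥ fun a => P a v) = fun a => (P * X) a v := by
    funext a
    rw [← hP, Matrix.mul_apply]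
    rfl
  rw [e1, CliM.bl_col]

end CarM

open CarM in
/-- **CAR**. -/
theorem specMCar : SpecMCar := by
  intro D
  obtain ⟨⟨a1, a2, a3⟩, ⟨b1, b2, b3⟩, ⟨c1, c2, c3⟩⟩ := MatM.rels D
  refine ⟨gm_anti D, ?_, ?_, ?_, ?_, ?_, ?_, cl_wm D, ?_, ?_⟩
  · intro u v
    rw [Dat.e, Dat.e, eU, eU, anti D (D.ou u.1) _ _ (sup_P' D u), CliM.dot_col, b2,
      Matrix.zero_apply, mul_zero, zero_smul]
  · intro u v
    rw [Dat.f, Dat.f, fU, fU]
    simp only [Matrix.smul_mul, Matrix.mul_smul]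
    rw [← smul_add, ← smul_add, anti D (D.ou u.1) _ _ (sup_Q' D u), CliM.dot_col, c3,
      Matrix.zero_apply, mul_zero, zero_smul, smul_zero, smul_zero]
  · intro u v
    rw [Dat.e, Dat.f, eU, fU, Matrix.mul_smul, Matrix.smul_mul, ← smul_add, ef_anti, smul_smul]
    split_ifs
    · norm_num
    · rw [mul_zero, mul_zero, zero_smul]
  · intro i u
    obtain ⟨h1, h2⟩ := pc_bl D i _ _ (sup_P D u)
    rw [gm_eq, Matrix.mul_smul, Matrix.smul_mul, h1, h2]
    constructor
    · split_ifs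
      · rfl
      · rw [smul_zero]
    · split_ifs
      · rfl
      · rw [smul_zero]
  · intro i u
    exact pc_bl D i _ _ (sup_P' D u)
  · intro i u
    obtain ⟨h1, h2⟩ := pc_bl D i _ _ (sup_Q' D u)
    rw [Dat.f, fU, Matrix.mul_smul, Matrix.smul_mul, h1, h2]
    constructor
    · split_ifs
      · rfl
      · rw [smul_zero]
    · split_ifs
      · rfl
      · rw [smul_zero]
  · intro Z X Y hZ
    refine ⟨fun v => ?_, fun v => ?_, fun v => ?_⟩
    · rw [gm_eq, Matrix.mul_smul, Matrix.smul_mul, ← smul_sub,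
        comm_col D hZ (MatM.wm_P D X Y), Finset.smul_sum]
      exact Finset.sum_congr rfl fun u _ => by rw [gm_eq, smul_comm]
    · exact comm_col D hZ (MatM.wm_P' D X Y) v
    · have h1 : D.wm X Y * D.Q' = D.Q' * -(blockDiagonal' Y)ᵀ := by
        rw [MatM.wm_Q', Matrix.mul_neg]
      rw [Dat.f, fU, Matrix.mul_smul, Matrix.smul_mul, ← smul_sub, comm_col D hZ h1,
        ← Finset.sum_neg_distrib, Finset.smul_sum]
      refine Finset.sum_congr rfl fun u _ => ?_
      rw [Dat.f, fU, Matrix.neg_apply, Matrix.transpose_apply, neg_smul, smul_neg, smul_comm]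
  · intro kk r mm hK
    have hpc : ∀ i, D.pc i ∈
        Algebra.adjoin ℂ {Y : Matrix (Ix D.g) (Ix D.g) ℂ | ∃ Z ∈ kk, Y = cx Z} :=
      fun i => KLieM.adjoin_cx (hK.pi i)
    have hcl : ∀ (X : D.FR) (Y : D.FU), (∀ k, (X k)ᵀ = -X k) → D.cl (D.wm X Y) ∈
        Algebra.adjoin ℂ {Y : Matrix (Ix D.g) (Ix D.g) ℂ | ∃ Z ∈ kk, Y = cx Z} := by
      intro X Y hX
      have h1 := MatM.wm_mem X Y hX
      exact Subalgebra.smul_mem _ (KLieM.clC_mem hK.cli h1.1 h1.2) _
    refine ⟨hpc, ?_, ?_⟩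
    · rintro ⟨k, i⟩ ⟨l, j⟩ hkl
      obtain rfl : k = l := hkl
      have h1 := hcl (Pi.single k (Matrix.single i j 1) - Pi.single k (Matrix.single j i 1)) 0 ?_
      · rw [cl_wm, Matrix.blockDiagonal'_sub, bd_single, bd_single] at h1
        have h2 : ∑ u : (k : D.R) × Fin (D.m k), ∑ v : (k : D.R) × Fin (D.m k),
            (Matrix.single (⟨k, i⟩ : (k : D.R) × Fin (D.m k)) (⟨k, j⟩ : (k : D.R) × Fin (D.m k))
              (1 : ℂ) - Matrix.single (⟨k, j⟩ : (k : D.R) × Fin (D.m k))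
              (⟨k, i⟩ : (k : D.R) × Fin (D.m k)) (1 : ℂ)) u v • (D.gm u * D.gm v) =
            D.gm ⟨k, i⟩ * D.gm ⟨k, j⟩ - D.gm ⟨k, j⟩ * D.gm ⟨k, i⟩ := by
          simp only [Matrix.sub_apply, sub_smul, Finset.sum_sub_distrib]
          rw [bl_single_sum, bl_single_sum]
        have h3 : ∑ u, ∑ v, blockDiagonal' (0 : D.FU) u v • (D.e u * D.f v) = 0 := by
          refine Finset.sum_eq_zero fun u _ => Finset.sum_eq_zero fun v _ => ?_
          rw [Matrix.blockDiagonal'_zero, Matrix.zero_apply, zero_smul]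
        have h4 : ∑ k, ((0 : D.FU) k).trace • D.pc (D.ou k) = 0 := by
          refine Finset.sum_eq_zero fun u _ => ?_
          rw [Pi.zero_apply, Matrix.trace_zero, zero_smul]
        rw [h2, h3, h4, smul_zero, sub_zero, add_zero] at h1
        have h5 := gm_anti D ⟨k, i⟩ ⟨k, j⟩
        have h6 : D.gm ⟨k, i⟩ * D.gm ⟨k, j⟩ = (2 : ℂ)⁻¹ • (D.gm ⟨k, i⟩ * D.gm ⟨k, j⟩ -
            D.gm ⟨k, j⟩ * D.gm ⟨k, i⟩) + (2 : ℂ)⁻¹ •
            (if (⟨k, i⟩ : (k : D.R) × Fin (D.m k)) = ⟨k, j⟩ then D.pc (D.ox k) else 0) := by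
          rw [← h5]
          module
        rw [h6]
        refine Subalgebra.add_mem _ h1 (Subalgebra.smul_mem _ ?_ _)
        split_ifs
        · exact hpc _
        · exact Subalgebra.zero_mem _
      · intro l
        by_cases hl : l = k
        · subst hl
          rw [Pi.sub_apply, Pi.single_eq_same, Pi.single_eq_same, Matrix.transpose_sub,
            Matrix.transpose_single, Matrix.transpose_single, neg_sub]
        · rw [Pi.sub_apply, Pi.single_eq_of_ne hl, Pi.single_eq_of_ne hl, sub_zero,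
            Matrix.transpose_zero, neg_zero]
    · rintro ⟨k, i⟩ ⟨l, j⟩ hkl
      obtain rfl : k = l := hkl
      have h1 := hcl 0 (Pi.single k (Matrix.single i j 1)) ?_
      · rw [cl_wm, bd_single, bl_single_sum] at h1
        have h3 : ∑ u, ∑ v, blockDiagonal' (0 : D.FR) u v • (D.gm u * D.gm v) = 0 := by
          refine Finset.sum_eq_zero fun u _ => Finset.sum_eq_zero fun v _ => ?_
          rw [Matrix.blockDiagonal'_zero, Matrix.zero_apply, zero_smul]
        rw [h3, smul_zero, zero_add] at h1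
        have h4 := Subalgebra.add_mem _ h1 (Subalgebra.smul_mem _ (Subalgebra.sum_mem _
          fun l (_ : l ∈ (Finset.univ : Finset D.U)) => Subalgebra.smul_mem _ (hpc (D.ou l))
            (((Pi.single k (Matrix.single i j 1) : D.FU) l).trace)) (2 : ℂ)⁻¹)
        rw [sub_add_cancel] at h4
        exact h4
      · intro l
        rw [Pi.zero_apply, Matrix.transpose_zero, neg_zero]

end Pool.Agent.Lib.MPf11a48.KM
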