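import Pool.Agent.Lib.MP_f11a48_ag.KM.StmtF
import Pool.Agent.Lib.MP_f11a48_ag.KM.SpecB
import Pool.Agent.Lib.MP_f11a48_ag.KU.Ten

/-! # Families of Kuga-Satake pairs: the main theorem, from MGRP -/

set_option autoImplicit false

namespace Pool.Agent.Lib.MPf11a48.KM

open Matrix Pool.Agent.Lib.MPf11a48.Tors Pool.Agent.Lib.MPf11a48.K3 Pool.Agent.Lib.MPf11a48.KU
open Pool.Agent.Lib.MPf11a48.CM hiding OmegaM
open Pool.Agent.Lib.MPf11a48.GL2T (IsAlg)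
open Pool.Agent.Lib.MPf11a48.U (AbData Ix HD EndAlg)

theorem mainKM0 (hGrp : SpecMGrp) (g N n : ℕ) (I : Type) [Fintype I] [DecidableEq I]
    (A : AbData g N) (c : GL (Ix g) ℂ) (t : GL (Fin n) ℂ) (qB : Matrix (Fin n) (Fin n) ℚ)
    (B : Fin n → Matrix (Ix g) (Ix g) ℚ) (qdR : Matrix (Fin n) (Fin n) ℂ)
    (E : Set (Matrix (Fin n) (Fin n) ℚ)) (ix : Fin n → I) (π : I → Matrix (Ix g) (Ix g) ℚ)
    (𝓖 : Set (Grp3 g n)) (hKS : KSFam A c t qdR qB B E ix π) (hE : EndFull c qB B E)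
    (hG : GroupM A c qB B E ix 𝓖) (k : ℕ) (r : GL (Fin k) ℂ) (hr : IsAlg r.1)
    (K : IntermediateField ℚ ℂ) (hK : K ≤ Qbar) (ν ι : Type) [Fintype ν] [DecidableEq ν]
    [Fintype ι] [DecidableEq ι] (Θ : GL ((Ix g ⊕ Fin n) ⊕ Fin k) ℂ × ℂˣ → GL ν ℂ)
    (hΘ : C.IsRep Θ) (M : GL ι ℂ) (iB : Matrix ν ι ℚ)
    (hM : CMS.IsSubOver Qbar (Θ (CMS.dsum (CMS.dsum c t) r, tpi)) M iB) :
    (∀ y ∈ 𝓖, ∃ f : GL ι ℂ,
      (Θ (CMS.dsum (CMS.dsum y.1 y.2.1) 1, y.2.2)).1 * cx iB = cx iB * f.1) ∧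
    (∀ f ∈ SubGroup 𝓖 Θ iB, ∀ h, GL2T.Conj K (f * M) h → h ∈ OmegaDRB K M) ∧
    ∀ S : Set (TPair K ι), (∀ α ∈ S, Fixes M α) →
      (∀ h ∈ OmegaS S, ∃ f ∈ SubGroup 𝓖 Θ iB, GL2T.Conj K (f * M) h) →
      OmegaDRB K M = OmegaS S ∧ (K = ⊥ → OmegaM K M = OmegaS S) := by
  obtain ⟨R, U, iR, iR', iU, iU', m, P, lr, m', P', Q', lu, ox, ou, hS, hg, rfl⟩ := hG
  refine specUTen g n k c t _ ?_ r hr K hK ν ι Θ hΘ M iB hM
  intro T hT hcT hcl y hy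
  exact hGrp { g := g, N := N, n := n, I := I, R := R, U := U, A := A, c := c, t := t, qdR := qdR,
               qB := qB, B := B, E := E, ix := ix, π := π, m := m, P := P, lr := lr, m' := m',
               P' := P', Q' := Q', lu := lu, ox := ox, ou := ou, ks := hKS, full := hE,
               split := hS, good := hg } T ⟨hT, hcT, hcl⟩ y hy

end Pool.Agent.Lib.MPf11a48.KM
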