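import Pool.Agent.Lib.MP_f11a48_ag.KM.Ful

/-! # Families of Kuga-Satake pairs: the Lie algebra of a torsor, traces zero -/

set_option autoImplicit false
set_option linter.unusedSectionVars false

namespace Pool.Agent.Lib.MPf11a48.KM

open Matrix MvPolynomial Pool.Agent.Lib.MPf11a48.Tors
open Pool.Agent.Lib.MPf11a48.CM hiding OmegaM
open Pool.Agent.Lib.MPf11a48.GL2 (lie Geo)
open Pool.Agent.Lib.MPf11a48.GL2T (IsAlg)
open Pool.Agent.Lib.MPf11a48.U (AbData Ix HD EndAlg)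
open Pool.Agent.Lib.MPf11a48.K3 Pool.Agent.Lib.MPf11a48.KU
open KLieM (bl clC gam)
open KGrpM (stab cm)
open KGrp3M (G0 sc ex)

namespace FlaM

open KFull3M

theorem wm_left (D : Dat) (X : D.FR) : D.wm X 0 = cm D.P (D.Pᵀ * cx D.qB) X := by
  unfold Dat.wm cm
  have e : um D.P' D.Q' D.qB (blockDiagonal' (0 : D.FU)) = 0 := by
    rw [blockDiagonal'_zero, FulaM.um_zero]
  rw [e, add_zero]

theorem wm_right (D : Dat) (Y : D.FU) : D.wm 0 Y = um D.P' D.Q' D.qB (blockDiagonal' Y) := by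
  unfold Dat.wm
  rw [blockDiagonal'_zero, Matrix.mul_zero, Matrix.zero_mul, zero_add]

/-- generation by brackets -/
theorem gen (hPerf : SpecPerf) (D : Dat) {W : Submodule ℂ (Matrix (Fin D.n) (Fin D.n) ℂ)}
    (hbr : ∀ (X X' : D.FR) (Y Y' : D.FU), D.wm X Y * D.wm X' Y' - D.wm X' Y' * D.wm X Y =
      D.wm (fun k => X k * X' k - X' k * X k) fun k => Y k * Y' k - Y' k * Y k)
    (h : ∀ (X X' : D.FR) (Y Y' : D.FU), (∀ k, (X k)ᵀ = -X k) → (∀ k, (Y k).trace = 0) →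
      (∀ k, (X' k)ᵀ = -X' k) → (∀ k, (Y' k).trace = 0) →
      D.wm X Y * D.wm X' Y' - D.wm X' Y' * D.wm X Y ∈ W)
    {X : D.FR} {Y : D.FU} (hX : ∀ k, (X k)ᵀ = -X k) (hY : ∀ k, (Y k).trace = 0) :
    D.wm X Y ∈ W := by
  have h1 : D.wm X 0 ∈ W := by
    rw [wm_left]
    refine KFull3M.perf_mem hPerf D.good.three D.split.orth (W := W) (fun A A' hA hA' => ?_) hX
    rw [← wm_left, ← wm_left]
    exact h A A' 0 0 hA (fun k => trace_zero _ _) hA' (fun k => trace_zero _ _)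
  have h2 : D.wm 0 Y ∈ W := by
    rw [wm_right]
    refine FulaM.perf_mem (W := W) (fun A A' hA hA' => ?_) hY
    have h3 := h 0 0 A A' (fun k => by simp) hA (fun k => by simp) hA'
    rw [hbr] at h3
    have e : (fun k : D.R => (0 : D.FR) k * (0 : D.FR) k - (0 : D.FR) k * (0 : D.FR) k) =
        (0 : D.FR) := by
      funext k
      simp
    rw [e, wm_right] at h3
    exact h3
  have h3 := W.add_mem h1 h2
  rw [← FlbM.wm_add, add_zero, zero_add] at h3
  exact h3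

end FlaM

open FlaM KFull3M in
theorem specMFla (hRat : SpecMRat) (hZ : SpecMZ) (hLie : SpecMLie) (hClb : SpecMClb)
    (hMat : SpecMMat) (hPerf : SpecPerf) : SpecMFla := by
  intro D T hT X Y hX hY
  obtain ⟨kk, rr, mm, hK, hin, -⟩ := hRat D T hT
  obtain ⟨-, hM2, -, hbr, -⟩ := hMat D
  obtain ⟨-, hclbr, hcladd, hclsmul, -⟩ := hClb D
  have hcl0 : D.cl 0 = 0 := by
    have h1 := hclsmul 0 0
    rwa [zero_smul, zero_smul] at h1
  have h1 : ∀ (X : D.FR) (Y : D.FU), (∀ k, (X k)ᵀ = -X k) → (∀ k, (Y k).trace = 0) →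
      ∃ M : ℂ, lb3 (D.cl (D.wm X Y) + (M / 2) • (1 : Matrix (Ix D.g) (Ix D.g) ℂ)) (D.wm X Y) M ∈
        lie T := by
    intro X Y hX hY
    have h := hLie D kk rr mm hK X Y hX hY
    refine Submodule.span_induction (p := fun ρ _ => ∃ M : ℂ,
      lb3 (D.cl ρ + (M / 2) • (1 : Matrix (Ix D.g) (Ix D.g) ℂ)) ρ M ∈ lie T) ?_ ?_ ?_ ?_ h
    · rintro _ ⟨Z, hZk, rfl⟩
      refine ⟨mm Z, ?_⟩
      rw [← hZ D kk rr mm hK Z hZk]
      exact hin Z hZk
    · refine ⟨0, ?_⟩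
      rw [hcl0, zero_div, zero_smul, add_zero, lb3_zero]
      exact (lie T).zero_mem
    · rintro ρ ρ' - - ⟨M, h⟩ ⟨M', h'⟩
      refine ⟨M + M', ?_⟩
      have h3 := (lie T).add_mem h h'
      rw [lb3_add] at h3
      have e : D.cl ρ + (M / 2) • (1 : Matrix (Ix D.g) (Ix D.g) ℂ) +
          (D.cl ρ' + (M' / 2) • (1 : Matrix (Ix D.g) (Ix D.g) ℂ)) =
          D.cl (ρ + ρ') + ((M + M') / 2) • (1 : Matrix (Ix D.g) (Ix D.g) ℂ) := by
        rw [hcladd, add_div, add_smul]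
        abel
      rwa [e] at h3
    · rintro a ρ - ⟨M, h⟩
      refine ⟨a * M, ?_⟩
      have h3 := (lie T).smul_mem a h
      rw [lb3_smul, smul_add, ← hclsmul, smul_smul, ← mul_div_assoc] at h3
      exact h3
  let W : Submodule ℂ (Matrix (Fin D.n) (Fin D.n) ℂ) :=
    { carrier := {ρ | lb3 (D.cl ρ) ρ 0 ∈ lie T}
      add_mem' := by
        intro a b ha hb
        have h := (lie T).add_mem ha hb
        rw [lb3_add, ← hcladd, add_zero] at h
        exact h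
      zero_mem' := by
        change lb3 (D.cl 0) 0 0 ∈ lie T
        rw [hcl0, lb3_zero]
        exact (lie T).zero_mem
      smul_mem' := by
        intro a ρ h
        have h2 := (lie T).smul_mem a h
        rw [lb3_smul, ← hclsmul, mul_zero] at h2
        exact h2 }
  refine gen hPerf D (W := W) hbr (fun X X' Y Y' hX hY hX' hY' => ?_) hX hY
  obtain ⟨M, h⟩ := h1 X Y hX hY
  obtain ⟨M', h'⟩ := h1 X' Y' hX' hY'
  have h4 := GL2.lie_br h h'
  rw [lb3_mul, lb3_mul, lb3_sub] at h4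
  have e1 : M * M' - M' * M = 0 := by ring
  have e2 : (D.cl (D.wm X Y) + (M / 2) • (1 : Matrix (Ix D.g) (Ix D.g) ℂ)) *
        (D.cl (D.wm X' Y') + (M' / 2) • (1 : Matrix (Ix D.g) (Ix D.g) ℂ)) -
      (D.cl (D.wm X' Y') + (M' / 2) • (1 : Matrix (Ix D.g) (Ix D.g) ℂ)) *
        (D.cl (D.wm X Y) + (M / 2) • (1 : Matrix (Ix D.g) (Ix D.g) ℂ)) =
      D.cl (D.wm X Y * D.wm X' Y' - D.wm X' Y' * D.wm X Y) := by
    rw [← hclbr _ (hM2 X Y hX) _ (hM2 X' Y' hX')]
    simp only [Matrix.add_mul, Matrix.mul_add, Matrix.smul_mul, Matrix.mul_smul, Matrix.one_mul,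
      Matrix.mul_one, smul_add]
    rw [smul_comm (M / 2) (M' / 2)]
    abel
  rw [e1, e2] at h4
  exact h4

end Pool.Agent.Lib.MPf11a48.KM
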