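import Pool.Agent.Lib.MP_f11a48_ag.KM.SpecB
import Pool.Agent.Lib.MP_f11a48_ag.K3.KFull3
import Pool.Agent.Lib.MP_f11a48_ag.KU.Fula

/-! # Families of Kuga-Satake pairs: the characters of the Lie algebra of a torsor -/

set_option autoImplicit false
set_option linter.unusedSectionVars false

namespace Pool.Agent.Lib.MPf11a48.KM

open Matrix MvPolynomial Pool.Agent.Lib.MPf11a48.Tors
open Pool.Agent.Lib.MPf11a48.CM hiding OmegaM
open Pool.Agent.Lib.MPf11a48.GL2 (lie Geo)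
open Pool.Agent.Lib.MPf11a48.GL2T (IsAlg)
open Pool.Agent.Lib.MPf11a48.U (AbData Ix HD EndAlg)
open Pool.Agent.Lib.MPf11a48.K3 Pool.Agent.Lib.MPf11a48.KU
open KLieM (bl clC gam)
open KGrpM (stab)
open KGrp3M (G0 sc ex)

namespace FlbM

theorem wm_add (D : Dat) (X X' : D.FR) (Y Y' : D.FU) :
    D.wm (X + X') (Y + Y') = D.wm X Y + D.wm X' Y' := by
  unfold Dat.wm
  rw [Matrix.blockDiagonal'_add, Matrix.blockDiagonal'_add, FulaM.um_add, Matrix.mul_add,
    Matrix.add_mul]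
  abel

/-- rational infinitesimal isometries -/
theorem cx_so {D : Dat} {ρ : Matrix (Fin D.n) (Fin D.n) ℚ} (h : ρ ∈ soE D.qB D.E) :
    cx ρ ∈ D.so := by
  refine ⟨?_, fun e he => ?_⟩
  · have h2 := congrArg cx h.1
    rw [KRatM.cx_add, KRatM.cx_mul, KRatM.cx_mul, KRatM.cx_zero] at h2
    exact h2
  · rw [← KRatM.cx_mul, ← KRatM.cx_mul, h.2 e he]

/-- split off the scalars -/
theorem split (D : Dat) (X : D.FR) (Y : D.FU) (z : D.U → ℂ) :
    D.wm X Y = D.wm X (fun k => Y k - Matrix.scalar _ (z k)) + D.uz z := by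
  rw [Dat.uz, ← wm_add]
  congr 1
  · rw [add_zero]
  · funext k
    rw [Pi.add_apply, sub_add_cancel]

end FlbM

open FlbM KFull3M KGrpM KRatM KLieM in
theorem specMFlb (hRat : SpecMRat) (hZ : SpecMZ) (hFla : SpecMFla) (hFlt : SpecMFlt)
    (hImg : SpecMImg) (hMat : SpecMMat) (hClb : SpecMClb) : SpecMFlb := by
  intro D T hT χ r hyp
  obtain ⟨kk, rr, mm, hK, hin, Z₁, hZ₁, hm₁⟩ := hRat D T hT
  obtain ⟨hM1, -⟩ := hMat D
  obtain ⟨-, -, hcladd, -⟩ := hClb D
  have hm0 : ∀ k, (D.m' k : ℂ) ≠ 0 := fun k => Nat.cast_ne_zero.2 (D.good.pos k).ne'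
  -- the relation
  have hrel : ∀ Z ∈ kk, ∑ k, (χ k : ℂ) * ((D.xu (cx (rr Z)) k).trace / D.m' k) +
      (r : ℂ) * ((mm Z : ℂ) / 2) = 0 := by
    intro Z hZk
    set ρ : Matrix (Fin D.n) (Fin D.n) ℂ := cx (rr Z) with hρ
    have hso : ρ ∈ D.so := cx_so (hK.so Z hZk)
    obtain ⟨hskew, hwm⟩ := hM1 ρ hso
    set z : D.U → ℂ := fun k => (D.xu ρ k).trace / D.m' k with hz
    have hY' : ∀ k, (D.xu ρ k - Matrix.scalar _ (z k)).trace = 0 := by
      intro k
      rw [trace_sub, Matrix.scalar_apply, trace_diagonal, Finset.sum_const, Finset.card_univ,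
        Fintype.card_fin, nsmul_eq_mul, hz]
      simp only
      rw [mul_div_cancel₀ _ (hm0 k), sub_self]
    have hA := hFla D T hT (D.xr ρ) (fun k => D.xu ρ k - Matrix.scalar _ (z k)) hskew hY'
    set ρ' := D.wm (D.xr ρ) (fun k => D.xu ρ k - Matrix.scalar _ (z k)) with hρ'
    have hsplit : ρ = ρ' + D.uz z := by
      conv_lhs => rw [hwm]
      exact split D _ _ z
    have h1 := (lie T).sub_mem (hin Z hZk) hA
    rw [lb3_sub, sub_zero, hZ D kk rr mm hK Z hZk, ← hρ] at h1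
    have e1 : D.cl ρ + ((mm Z : ℂ) / 2) • (1 : Matrix (Ix D.g) (Ix D.g) ℂ) - D.cl ρ' =
        D.cl (D.uz z) + ((mm Z : ℂ) / 2) • (1 : Matrix (Ix D.g) (Ix D.g) ℂ) := by
      conv_lhs => rw [hsplit]
      rw [hcladd]
      abel
    have e2 : ρ - ρ' = D.uz z := by
      conv_lhs => rw [hsplit]
      rw [add_sub_cancel_left]
    have e3 : (mm Z : ℂ) = 2 * ((mm Z : ℂ) / 2) := by ring
    rw [e1, e2] at h1
    nth_rewrite 2 [e3] at h1
    exact hyp z _ h1
  -- real and imaginary parts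
  have him : ∀ Z ∈ kk, ∀ k, ((D.xu (cx (rr Z)) k).trace).re = 0 := by
    intro Z hZk k
    have h1 := hImg D (rr Z) (hK.so Z hZk) k
    have h2 := congrArg Complex.re h1
    rw [Complex.conj_re, Complex.neg_re] at h2
    linarith
  have hrm : ∀ Z ∈ kk, r * mm Z = 0 := by
    intro Z hZk
    have h1 := congrArg Complex.re (hrel Z hZk)
    have h2 : (∑ k, (χ k : ℂ) * ((D.xu (cx (rr Z)) k).trace / D.m' k)).re = 0 := by
      rw [Complex.re_sum]
      refine Finset.sum_eq_zero fun k _ => ?_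
      have e1 : (χ k : ℂ) * ((D.xu (cx (rr Z)) k).trace / D.m' k) =
          (((χ k : ℝ) / (D.m' k : ℝ) : ℝ) : ℂ) * (D.xu (cx (rr Z)) k).trace := by
        push_cast
        ring
      rw [e1, Complex.re_ofReal_mul, him Z hZk k, mul_zero]
    rw [Complex.add_re, h2, zero_add] at h1
    have e2 : (r : ℂ) * ((mm Z : ℂ) / 2) = (((r * mm Z / 2 : ℚ) : ℝ) : ℂ) := by
      push_cast
      ring
    rw [e2, Complex.ofReal_re, Complex.zero_re] at h1
    have h3 : r * mm Z / 2 = 0 := by exact_mod_cast h1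
    linarith
  have hsum : ∀ Z ∈ kk, ∑ k, ((χ k / D.m' k : ℚ) : ℂ) * (D.xu (cx (rr Z)) k).trace = 0 := by
    intro Z hZk
    have h1 := hrel Z hZk
    have e2 : (r : ℂ) * ((mm Z : ℂ) / 2) = (((r * mm Z / 2 : ℚ)) : ℂ) := by
      push_cast
      ring
    rw [e2, hrm Z hZk, zero_div, Rat.cast_zero, add_zero] at h1
    rw [← h1]
    refine Finset.sum_congr rfl fun k _ => ?_
    push_cast
    ring
  refine ⟨?_, (mul_eq_zero.1 (hrm Z₁ hZ₁)).resolve_right hm₁⟩
  by_contra hχ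
  have hχ' : (fun k => χ k / (D.m' k : ℚ)) ≠ 0 := by
    intro h
    apply hχ
    funext k
    have h1 := congrFun h k
    have h2 : (D.m' k : ℚ) ≠ 0 := Nat.cast_ne_zero.2 (D.good.pos k).ne'
    simpa [h2] using h1
  obtain ⟨Z, hZk, hne⟩ := hFlt D kk rr mm hK _ hχ'
  exact hne (hsum Z hZk)

end Pool.Agent.Lib.MPf11a48.KM
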