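import Pool.Agent.Lib.MP_f11a48_ag.KM.SpecB

/-! # Lifting the isometries to the stabiliser of the torsor -/

set_option autoImplicit false
set_option linter.unusedSectionVars false

namespace Pool.Agent.Lib.MPf11a48.KM

open Matrix MvPolynomial Pool.Agent.Lib.MPf11a48.Tors
open Pool.Agent.Lib.MPf11a48.CM hiding OmegaM
open Pool.Agent.Lib.MPf11a48.GL2 (lie Geo)
open Pool.Agent.Lib.MPf11a48.GL2T (IsAlg)
open Pool.Agent.Lib.MPf11a48.U (AbData Ix HD EndAlg)
open Pool.Agent.Lib.MPf11a48.K3 Pool.Agent.Lib.MPf11a48.KU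
open KLieM (bl clC gam)
open KGrpM (stab)
open KGrp3M (G0 sc ex)

namespace LftM

open KGrpM KGrp3M

variable (D : Dat)

theorem qsym : (cx D.qB)ᵀ = cx D.qB := by
  change (D.qBᵀ).map (fun x => (x : ℂ)) = cx D.qB
  rw [D.ks.symm]
  rfl

theorem dualT : (D.Q'ᵀ * cx D.qB) * D.P' = 1 := by
  have h := congrArg Matrix.transpose D.split.dual
  rw [Matrix.transpose_mul, Matrix.transpose_mul, Matrix.transpose_transpose, qsym,
    Matrix.transpose_one, ← Matrix.mul_assoc] at h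
  exact h

theorem orthPT : (D.P'ᵀ * cx D.qB) * D.P = 0 := by
  have h := congrArg Matrix.transpose D.split.orthP
  rw [Matrix.transpose_mul, Matrix.transpose_mul, Matrix.transpose_transpose, qsym,
    Matrix.transpose_zero, ← Matrix.mul_assoc] at h
  exact h

theorem orthQT : (D.Q'ᵀ * cx D.qB) * D.P = 0 := by
  have h := congrArg Matrix.transpose D.split.orthQ
  rw [Matrix.transpose_mul, Matrix.transpose_mul, Matrix.transpose_transpose, qsym,
    Matrix.transpose_zero, ← Matrix.mul_assoc] at h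
  exact h

/-- a matrix given by its blocks -/
def WF (X : D.FR) (Y Z : D.FU) : Matrix (Fin D.n) (Fin D.n) ℂ :=
  cm D.P (D.Pᵀ * cx D.qB) X +
    (cm D.P' (D.Q'ᵀ * cx D.qB) Y + cm D.Q' (D.P'ᵀ * cx D.qB) Z)

theorem tri {α β γ δ : Type} [Fintype β] [Fintype γ] (A : Matrix α β ℂ) (X : Matrix β β ℂ)
    (a : Matrix β γ ℂ) [Fintype δ] (B : Matrix γ δ ℂ) (Y : Matrix δ δ ℂ) (b : Matrix δ α ℂ) :
    (A * X * a) * (B * Y * b) = A * X * (a * B) * Y * b := by
  simp only [Matrix.mul_assoc]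

theorem cm_ne {κ κ' : Type} [Fintype κ] [DecidableEq κ] [Fintype κ'] [DecidableEq κ']
    {m : κ → ℕ} {m' : κ' → ℕ} {n : ℕ} (P : Matrix (Fin n) ((k : κ) × Fin (m k)) ℂ)
    (a : Matrix ((k : κ) × Fin (m k)) (Fin n) ℂ) (P' : Matrix (Fin n) ((k : κ') × Fin (m' k)) ℂ)
    (b : Matrix ((k : κ') × Fin (m' k)) (Fin n) ℂ) (h : a * P' = 0)
    (X : (k : κ) → Matrix (Fin (m k)) (Fin (m k)) ℂ)
    (Y : (k : κ') → Matrix (Fin (m' k)) (Fin (m' k)) ℂ) : cm P a X * cm P' b Y = 0 := by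
  unfold cm
  rw [tri, h]
  simp only [Matrix.mul_zero, Matrix.zero_mul]

theorem WF_mul (X X' : D.FR) (Y Y' Z Z' : D.FU) : WF D X Y Z * WF D X' Y' Z' =
    WF D (fun k => X k * X' k) (fun k => Y k * Y' k) (fun k => Z k * Z' k) := by
  have h1 := cm_mul D.split.orth X X'
  have h2 := cm_mul (dualT D) Y Y'
  have h3 := cm_mul D.split.dual Z Z'
  unfold WF
  rw [Matrix.add_mul, Matrix.add_mul, Matrix.mul_add, Matrix.mul_add, Matrix.mul_add,
    Matrix.mul_add, Matrix.mul_add, Matrix.mul_add, h1, h2, h3,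
    cm_ne _ _ _ _ D.split.orthP, cm_ne _ _ _ _ D.split.orthQ, cm_ne _ _ _ _ (orthQT D),
    cm_ne _ _ _ _ D.split.isoQ, cm_ne _ _ _ _ (orthPT D), cm_ne _ _ _ _ D.split.isoP]
  simp only [add_zero, zero_add]

theorem WF_one : WF D (fun _ => 1) (fun _ => 1) (fun _ => 1) = 1 := by
  have e1 : (blockDiagonal' fun k => (1 : Matrix (Fin (D.m k)) (Fin (D.m k)) ℂ)) = 1 :=
    blockDiagonal'_one
  have e2 : (blockDiagonal' fun k => (1 : Matrix (Fin (D.m' k)) (Fin (D.m' k)) ℂ)) = 1 :=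
    blockDiagonal'_one
  unfold WF cm
  rw [e1, e2, Matrix.mul_one, Matrix.mul_one, Matrix.mul_one]
  exact D.split.onto

/-- families of invertible matrices -/
abbrev GF : Type :=
  ((k : D.R) → GL (Fin (D.m k)) ℂ) × ((k : D.U) → GL (Fin (D.m' k)) ℂ)

/-- the homomorphism `wg` -/
noncomputable def wh : GF D →* GL (Fin D.n) ℂ where
  toFun x := ⟨WF D (fun k => (x.1 k).1) (fun k => (x.2 k).1) (fun k => (x.2 k)⁻¹.1ᵀ),
    WF D (fun k => (x.1 k)⁻¹.1) (fun k => (x.2 k)⁻¹.1) (fun k => (x.2 k).1ᵀ), by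
    rw [WF_mul]
    have e1 : (fun k => (x.1 k).1 * (x.1 k)⁻¹.1) = fun _ => 1 := by
      funext k
      exact (x.1 k).mul_inv
    have e2 : (fun k => (x.2 k).1 * (x.2 k)⁻¹.1) = fun _ => 1 := by
      funext k
      exact (x.2 k).mul_inv
    have e3 : (fun k => (x.2 k)⁻¹.1ᵀ * (x.2 k).1ᵀ) = fun _ => 1 := by
      funext k
      rw [← Matrix.transpose_mul]
      have := (x.2 k).mul_inv
      rw [← Matrix.transpose_one, ← this]
    rw [e1, e2, e3, WF_one], by
    rw [WF_mul]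
    have e1 : (fun k => (x.1 k)⁻¹.1 * (x.1 k).1) = fun _ => 1 := by
      funext k
      exact (x.1 k).inv_mul
    have e2 : (fun k => (x.2 k)⁻¹.1 * (x.2 k).1) = fun _ => 1 := by
      funext k
      exact (x.2 k).inv_mul
    have e3 : (fun k => (x.2 k).1ᵀ * (x.2 k)⁻¹.1ᵀ) = fun _ => 1 := by
      funext k
      rw [← Matrix.transpose_mul]
      have := (x.2 k).inv_mul
      rw [← Matrix.transpose_one, ← this]
    rw [e1, e2, e3, WF_one]⟩
  map_one' := by
    refine Units.ext ?_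
    change WF D (fun k => 1) (fun k => 1) (fun k => ((1 : GL (Fin (D.m' k)) ℂ)⁻¹).1ᵀ) = 1
    have e : (fun k => ((1 : GL (Fin (D.m' k)) ℂ)⁻¹).1ᵀ) = fun _ => 1 := by
      funext k
      rw [inv_one]
      exact Matrix.transpose_one
    rw [e, WF_one]
  map_mul' x y := by
    refine Units.ext ?_
    change WF D (fun k => (x.1 k).1 * (y.1 k).1) (fun k => (x.2 k).1 * (y.2 k).1)
      (fun k => ((x.2 k * y.2 k)⁻¹).1ᵀ) =
      WF D (fun k => (x.1 k).1) (fun k => (x.2 k).1) (fun k => (x.2 k)⁻¹.1ᵀ) *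
      WF D (fun k => (y.1 k).1) (fun k => (y.2 k).1) (fun k => (y.2 k)⁻¹.1ᵀ)
    rw [WF_mul]
    congr 1
    funext k
    rw [_root_.mul_inv_rev, ← Matrix.transpose_mul]
    rfl

theorem wh_val (x : GF D) : (wh D x).1 =
    WF D (fun k => (x.1 k).1) (fun k => (x.2 k).1) (fun k => (x.2 k)⁻¹.1ᵀ) := rfl

theorem wh_wg (x : GF D) : (wh D x).1 = D.wg x.1 x.2 := rfl

theorem wm_WF (X : D.FR) (Y : D.FU) : D.wm X Y = WF D X Y fun k => -(Y k)ᵀ := by
  unfold Dat.wm WF um cm
  have e : blockDiagonal' (fun k => -(Y k)ᵀ) = -(blockDiagonal' Y)ᵀ := by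
    rw [blockDiagonal'_transpose, ← blockDiagonal'_neg]
    rfl
  rw [e, Matrix.mul_neg, Matrix.neg_mul, sub_eq_add_neg]

theorem hasDerivAt_WF {X : ℂ → D.FR} {Y Z : ℂ → D.FU} {X' : D.FR} {Y' Z' : D.FU} {s : ℂ}
    (hX : ∀ k u v, HasDerivAt (fun s => X s k u v) (X' k u v) s)
    (hY : ∀ k u v, HasDerivAt (fun s => Y s k u v) (Y' k u v) s)
    (hZ : ∀ k u v, HasDerivAt (fun s => Z s k u v) (Z' k u v) s) (i j : Fin D.n) :
    HasDerivAt (fun s => WF D (X s) (Y s) (Z s) i j) (WF D X' Y' Z' i j) s := by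
  have h1 := hasDerivAt_cm (P := D.P) (P' := D.Pᵀ * cx D.qB) hX i j
  have h2 := hasDerivAt_cm (P := D.P') (P' := D.Q'ᵀ * cx D.qB) hY i j
  have h3 := hasDerivAt_cm (P := D.Q') (P' := D.P'ᵀ * cx D.qB) hZ i j
  exact h1.add (h2.add h3)

/-- integral curves lift -/
theorem lift_curve (hFul : SpecMFul) (hPsi : SpecMPsi) (hClb : SpecMClb) (hMat : SpecMMat)
    (hCur : SpecMCur) (hCurve : SpecCurve)
    {T : Set (GL (Ix D.g ⊕ (Fin D.n ⊕ Unit)) ℂ)} (hT : TT D T)
    (X : D.FR) (Y : D.FU) (hX : ∀ k, (X k)ᵀ = -X k) (w : ℂ → GF D) (hw : w 0 = 1)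
    (h1 : ∀ s k u v, HasDerivAt (fun s => ((w s).1 k).1 u v) ((X k * ((w s).1 k).1) u v) s)
    (h2 : ∀ s k u v, HasDerivAt (fun s => ((w s).2 k).1 u v) ((Y k * ((w s).2 k).1) u v) s)
    (h3 : ∀ s k u v, HasDerivAt (fun s => ((w s).2 k)⁻¹.1 u v)
      (-(((w s).2 k)⁻¹.1 * Y k) u v) s) (s : ℂ) :
    wh D (w s) ∈ G1 (G0 D.B (EndAlg D.c.1) D.A.psi ⊓ (stab T).comap bd3) := by
  have hgeo := GL2.geo_of_torsor hT.tor
  obtain ⟨ρ, hρ⟩ : ∃ ρ, ρ = D.wm X Y := ⟨_, rfl⟩
  have hρs : ρ ∈ D.so := by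
    rw [hρ]
    exact (hMat D).2.1 X Y hX
  obtain ⟨hc1, -, -, -, -, -, hc7⟩ := hClb D
  have hx0 : wh D (w 0) = 1 := by rw [hw, map_one]
  have hxd : ∀ s i j, HasDerivAt (fun s => (wh D (w s)).1 i j) ((ρ * (wh D (w s)).1) i j) s := by
    intro s i j
    rw [hρ, wm_WF, wh_val, WF_mul]
    refine hasDerivAt_WF D (X := fun s k => ((w s).1 k).1) (Y := fun s k => ((w s).2 k).1)
      (Z := fun s k => ((w s).2 k)⁻¹.1ᵀ) (h1 s) (h2 s) (fun k u v => ?_) i j
    have e : (-(Y k)ᵀ * ((w s).2 k)⁻¹.1ᵀ) u v = -(((w s).2 k)⁻¹.1 * Y k) v u := by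
      rw [Matrix.neg_mul, ← Matrix.transpose_mul]
      rfl
    rw [e]
    exact h3 s k v u
  obtain ⟨a, ha0, had, ha⟩ := hCur D.g D.n D.B D.A.psi (D.cl ρ) ρ (hc1 ρ hρs)
    (hPsi D ρ hρs) (fun s => wh D (w s)) hx0 hxd
  refine ⟨a s, ⟨(ha s).1, fun Z hZ' => (ha s).2.1 _ (hc7 ρ hρs Z hZ'), ?_⟩, ?_⟩
  · change (a s).1ᵀ * cx D.A.psi * (a s).1 = ((1 : ℂˣ) : ℂ) • cx D.A.psi
    rw [(ha s).2.2, Units.val_one, one_smul]
  · change bd3 (a s, wh D (w s), 1) ∈ stab T
    refine mem_stab hgeo fun f hf => ?_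
    have hl : lb3 (D.cl ρ) ρ 0 ∈ lie T := by
      rw [hρ]
      exact (hFul D T hT).1 X Y hX
    refine hCurve _ T hgeo _ hl (fun s => bd3 (a s, wh D (w s), 1)) ?_ ?_ f hf s
    · rw [ha0, hx0]
      exact map_one bd3
    · intro s i j
      rw [bd3_val, lb3_mul, zero_mul]
      exact hasDerivAt_lb3 (Z := fun s => (a s).1) (X := fun s => (wh D (w s)).1)
        (u := fun _ => ((1 : ℂˣ) : ℂ)) (had s) (hxd s) (hasDerivAt_const s _) i j

end LftM

open KGrpM KGrp3M LftM in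
theorem specMLft (hFul : SpecMFul) (hPsi : SpecMPsi) (hClb : SpecMClb) (hMat : SpecMMat)
    (hCur : SpecMCur) (hGnl : SpecMGnl) (hGen : SpecGen) (hCurve : SpecCurve) : SpecMLft := by
  intro D T hT x x'
  obtain ⟨GG, hGG⟩ : ∃ GG : Subgroup (Grp3 D.g D.n),
    GG = G0 D.B (EndAlg D.c.1) D.A.psi ⊓ (stab T).comap bd3 := ⟨_, rfl⟩
  have hl := lift_curve D hFul hPsi hClb hMat hCur hCurve hT
  rw [← hGG] at hl
  rw [← hGG]
  -- real blocks
  have hR : ∀ (k : D.R) (u : SO (D.m k)), wh D (Pi.mulSingle k u.1, 1) ∈ G1 GG := by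
    intro k u
    have key : SO (D.m k) ≤ (G1 GG).comap ((wh D).comp ((MonoidHom.inl _ _).comp
        (MonoidHom.mulSingle (fun k => GL (Fin (D.m k)) ℂ) k))) := by
      refine hGen (D.m k) _ fun X hX y hy0 hd s => ?_
      change wh D (Pi.mulSingle k (y s), 1) ∈ G1 GG
      refine hl (Pi.single k X) 0 (fun k' => ?_) (fun s => (Pi.mulSingle k (y s), 1)) ?_ ?_ ?_ ?_ s
      · by_cases hk : k' = k
        · subst hk
          rw [Pi.single_eq_same, hX]
        · rw [Pi.single_eq_of_ne hk, transpose_zero, neg_zero]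
      · change ((Pi.mulSingle k (y 0), 1) : GF D) = 1
        rw [hy0, Pi.mulSingle_one]
        rfl
      · intro s k' a b
        by_cases hk : k' = k
        · subst hk
          simp only [Pi.mulSingle_eq_same, Pi.single_eq_same]
          exact hd s a b
        · simp only [Pi.mulSingle_eq_of_ne hk, Pi.single_eq_of_ne hk, Matrix.zero_mul]
          exact hasDerivAt_const s _
      · intro s k' a b
        simp only [Pi.zero_apply, Matrix.zero_mul]
        exact hasDerivAt_const s _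
      · intro s k' a b
        simp only [Pi.zero_apply, Matrix.mul_zero, Matrix.zero_apply, neg_zero]
        exact hasDerivAt_const s _
    exact key u.2
  have hR' : wh D (fun k => (x k).1, 1) ∈ G1 GG := by
    let Ψ : ((k : D.R) → SO (D.m k)) →* GL (Fin D.n) ℂ :=
      { toFun := fun u => wh D (fun k => (u k).1, 1)
        map_one' := by
          rw [← map_one (wh D)]
          rfl
        map_mul' := by
          intro u v
          rw [← map_mul]
          congr 1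
          refine Prod.ext rfl ?_
          exact (mul_one _).symm }
    have key : x ∈ (G1 GG).comap Ψ := by
      refine Subgroup.pi_mem_of_mulSingle_mem x fun k => ?_
      change wh D (fun k' => ((Pi.mulSingle k (x k) : (k : D.R) → SO (D.m k)) k').1, 1) ∈ G1 GG
      have h1 := hR k (x k)
      have e : (fun k' => ((Pi.mulSingle k (x k) : (k : D.R) → SO (D.m k)) k').1) =
          Pi.mulSingle k (x k).1 := by
        funext k'
        by_cases hk : k' = k
        · subst hk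
          rw [Pi.mulSingle_eq_same, Pi.mulSingle_eq_same]
        · rw [Pi.mulSingle_eq_of_ne hk, Pi.mulSingle_eq_of_ne hk]
          rfl
      rwa [e]
    exact key
  -- unitary blocks
  have hU : ∀ (k : D.U) (u : GL (Fin (D.m' k)) ℂ), wh D (1, Pi.mulSingle k u) ∈ G1 GG := by
    intro k u
    have key : u ∈ (G1 GG).comap ((wh D).comp ((MonoidHom.inr _ _).comp
        (MonoidHom.mulSingle (fun k => GL (Fin (D.m' k)) ℂ) k))) := by
      refine hGnl (D.m' k) _ (fun X y hy0 hd hd' s => ?_) u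
      change wh D (1, Pi.mulSingle k (y s)) ∈ G1 GG
      refine hl 0 (Pi.single k X) (fun k' => ?_) (fun s => (1, Pi.mulSingle k (y s))) ?_ ?_ ?_ ?_ s
      · rw [Pi.zero_apply, transpose_zero, neg_zero]
      · change ((1, Pi.mulSingle k (y 0)) : GF D) = 1
        rw [hy0, Pi.mulSingle_one]
        rfl
      · intro s k' a b
        simp only [Pi.zero_apply, Matrix.zero_mul]
        exact hasDerivAt_const s _
      · intro s k' a b
        by_cases hk : k' = k
        · subst hk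
          simp only [Pi.mulSingle_eq_same, Pi.single_eq_same]
          exact hd s a b
        · simp only [Pi.mulSingle_eq_of_ne hk, Pi.single_eq_of_ne hk, Matrix.zero_mul]
          exact hasDerivAt_const s _
      · intro s k' a b
        by_cases hk : k' = k
        · subst hk
          simp only [Pi.mulSingle_eq_same, Pi.single_eq_same]
          exact hd' s a b
        · simp only [Pi.mulSingle_eq_of_ne hk, Pi.single_eq_of_ne hk, Matrix.mul_zero,
            Matrix.zero_apply, neg_zero]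
          exact hasDerivAt_const s _
    exact key
  have hU' : wh D (1, x') ∈ G1 GG := by
    have key : x' ∈ (G1 GG).comap ((wh D).comp (MonoidHom.inr _ _)) := by
      refine Subgroup.pi_mem_of_mulSingle_mem x' fun k => ?_
      exact hU k (x' k)
    exact key
  have hall : wh D (fun k => (x k).1, x') ∈ G1 GG := by
    have e : ((fun k => (x k).1, x') : GF D) = (fun k => (x k).1, 1) * (1, x') :=
      Prod.ext (mul_one _).symm (one_mul _).symm
    rw [e, map_mul]
    exact (G1 GG).mul_mem hR' hU'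
  obtain ⟨a, ha⟩ := hall
  exact ⟨a, wh D (fun k => (x k).1, x'), rfl, ha⟩

end Pool.Agent.Lib.MPf11a48.KM
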