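import Pool.Agent.Lib.MP_f11a48_ag.KM.SpecA
import Pool.Agent.Lib.MP_f11a48_ag.K3.KRat
import Pool.Agent.Lib.MP_f11a48_ag.KU.Fula

/-! # Families of Kuga-Satake pairs: everything is in the span -/

set_option autoImplicit false
set_option linter.unusedSectionVars false

namespace Pool.Agent.Lib.MPf11a48.KM

open Matrix MvPolynomial Pool.Agent.Lib.MPf11a48.Tors
open Pool.Agent.Lib.MPf11a48.CM hiding OmegaM
open Pool.Agent.Lib.MPf11a48.GL2 (lie Geo)
open Pool.Agent.Lib.MPf11a48.GL2T (IsAlg)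
open Pool.Agent.Lib.MPf11a48.U (AbData Ix HD EndAlg)
open Pool.Agent.Lib.MPf11a48.K3 Pool.Agent.Lib.MPf11a48.KU
open KLieM (bl clC gam)

namespace LieM

/-- rational infinitesimal isometries -/
theorem cx_so {D : Dat} {ρ : Matrix (Fin D.n) (Fin D.n) ℚ} (h : ρ ∈ soE D.qB D.E) :
    cx ρ ∈ D.so := by
  refine ⟨?_, fun e he => ?_⟩
  · have h2 := congrArg cx h.1
    rw [KRatM.cx_add, KRatM.cx_mul, KRatM.cx_mul, KRatM.cx_zero] at h2
    exact h2
  · rw [← KRatM.cx_mul, ← KRatM.cx_mul, h.2 e he]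

theorem wm_add (D : Dat) (X X' : D.FR) (Y Y' : D.FU) :
    D.wm (X + X') (Y + Y') = D.wm X Y + D.wm X' Y' := by
  unfold Dat.wm
  rw [Matrix.blockDiagonal'_add, Matrix.blockDiagonal'_add, FulaM.um_add, Matrix.mul_add,
    Matrix.add_mul]
  abel

theorem wm_smul (D : Dat) (a : ℂ) (X : D.FR) (Y : D.FU) :
    D.wm (a • X) (a • Y) = a • D.wm X Y := by
  unfold Dat.wm
  rw [Matrix.blockDiagonal'_smul, Matrix.blockDiagonal'_smul, FulaM.um_smul, Matrix.mul_smul,
    Matrix.smul_mul, smul_add]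

/-- the linear maps of `NL` are enough -/
theorem nl_use {n m : ℕ} {h : Set (Matrix (Fin n) (Fin n) ℂ × Matrix (Fin m) (Fin m) ℂ)}
    (hs : ∀ X ∈ h, X.1ᵀ = -X.1) (hN : NL h)
    (φ : Matrix (Fin n) (Fin n) ℂ →ₗ[ℂ] Matrix (Fin m) (Fin m) ℂ)
    (hφ : ∀ Y, (φ Y)ᵀ = -φ Y)
    (hE : ∀ X ∈ h, ∀ Y, φ (X.1 * Y - Y * X.1) = X.2 * φ Y - φ Y * X.2)
    (Y : Matrix (Fin n) (Fin n) ℂ) (hY : Yᵀ = -Y) : φ Y = 0 := by
  let ψ : Matrix (Fin n) (Fin n) ℂ →ₗ[ℂ] Matrix (Fin m) (Fin m) ℂ :=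
    { toFun := fun Y => φ Y - φ Yᵀ
      map_add' := by
        intro Y Y'
        rw [transpose_add, map_add, map_add]
        abel
      map_smul' := by
        intro a Y
        rw [transpose_smul, map_smul, map_smul, RingHom.id_apply, smul_sub] }
  have h0 : ψ = 0 := by
    refine hN ψ (fun Y => ?_) (fun Y => ?_) fun X hX Y => ?_
    · change φ Yᵀ - φ Yᵀᵀ = -(φ Y - φ Yᵀ)
      rw [transpose_transpose]
      abel
    · change (φ Y - φ Yᵀ)ᵀ = -(φ Y - φ Yᵀ)
      rw [transpose_sub, hφ, hφ]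
      abel
    · change φ (X.1 * Y - Y * X.1) - φ (X.1 * Y - Y * X.1)ᵀ =
        X.2 * (φ Y - φ Yᵀ) - (φ Y - φ Yᵀ) * X.2
      have e1 : (X.1 * Y - Y * X.1)ᵀ = X.1 * Yᵀ - Yᵀ * X.1 := by
        rw [transpose_sub, transpose_mul, transpose_mul, hs X hX, Matrix.mul_neg, Matrix.neg_mul]
        abel
      rw [e1, hE X hX, hE X hX, Matrix.mul_sub, Matrix.sub_mul]
      abel
  have h1 : φ Y - φ Yᵀ = 0 := by
    change ψ Y = 0
    rw [h0]
    rfl
  rw [hY, map_neg, sub_neg_eq_add, ← two_smul ℂ] at h1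
  exact (smul_eq_zero.1 h1).resolve_left two_ne_zero

/-- real blocks of the same size in different species -/
theorem rr_link (hRrt : SpecMRrt) : ∀ (a b : ℕ), a = b → 3 ≤ a → a ≠ 4 →
    (∀ k, a ≠ 2 ^ (2 * k + 1)) →
    ∀ h : Set (Matrix (Fin a) (Fin a) ℂ × Matrix (Fin b) (Fin b) ℂ),
    (∀ p ∈ h, p.1ᵀ = -p.1 ∧ p.2ᵀ = -p.2) →
    (∀ X ∈ blkS ℂ a true, ∃ p ∈ h, p.1 = X) → (∀ X ∈ blkS ℂ b true, ∃ p ∈ h, p.2 = X) →
    ∀ φ : Matrix (Fin a) (Fin a) ℂ →ₗ[ℂ] Matrix (Fin b) (Fin b) ℂ, (∀ Y, (φ Y)ᵀ = -φ Y) →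
    (∀ p ∈ h, ∀ Y, φ (p.1 * Y - Y * p.1) = p.2 * φ Y - φ Y * p.2) →
    (∃ Y ∈ blkS ℂ a true, φ Y ≠ 0) → ∀ p ∈ h, ∀ k : ℕ, (p.1 ^ k).trace = (p.2 ^ k).trace := by
  intro a b hab
  subst hab
  exact hRrt a

theorem trace_zero_one : ∀ (a : ℕ), a = 1 → ∀ Y : Matrix (Fin a) (Fin a) ℂ, Y.trace = 0 →
    Y = 0 := by
  intro a ha
  subst ha
  intro Y hY
  rw [Matrix.trace_fin_one] at hY
  ext i j
  rw [Subsingleton.elim i 0, Subsingleton.elim j 0, hY]
  rfl

/-- unitary blocks of the same size in different species -/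
theorem uu_link (hUul : SpecMUul) : ∀ (a b : ℕ), a = b → 3 ≤ a →
    ∀ h : Submodule ℂ (Matrix (Fin a) (Fin a) ℂ × Matrix (Fin b) (Fin b) ℂ),
    (∀ p ∈ h, ∀ p' ∈ h, (p.1 * p'.1 - p'.1 * p.1, p.2 * p'.2 - p'.2 * p.2) ∈ h) →
    (∀ X ∈ blkS ℂ a false, ∃ p ∈ h, p.1 = X) → (∀ X ∈ blkS ℂ b false, ∃ p ∈ h, p.2 = X) →
    ∀ φ : Matrix (Fin a) (Fin a) ℂ →ₗ[ℂ] Matrix (Fin b) (Fin b) ℂ, (∀ Y, (φ Y).trace = 0) →
    (∀ p ∈ h, ∀ Y, φ (p.1 * Y - Y * p.1) = p.2 * φ Y - φ Y * p.2) →
    (∃ Y ∈ blkS ℂ a false, φ Y ≠ 0) →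
    ∃ ε : ℂ, (ε = 1 ∨ ε = -1) ∧ ∀ p ∈ h, tp 2 p.2 = tp 2 p.1 ∧ tp 3 p.2 = ε * tp 3 p.1 := by
  intro a b hab
  subst hab
  exact hUul a

/-- the dimensions -/
theorem dimS_real {a b : ℕ} (ha : 3 ≤ a) (hb : 3 ≤ b) (h : a ≠ b) :
    dimS a true ≠ dimS b true := by
  have key : ∀ a b : ℕ, 3 ≤ a → a < b → dimS a true < dimS b true := by
    intro a b ha hab
    unfold dimS
    simp only
    have h1 : a * (a - 1) + 2 ≤ b * (b - 1) := by
      obtain ⟨c, rfl⟩ : ∃ c, a = c + 1 := ⟨a - 1, by omega⟩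
      obtain ⟨d, rfl⟩ : ∃ d, b = d + 1 := ⟨b - 1, by omega⟩
      simp only [Nat.add_sub_cancel]
      nlinarith
    omega
  rcases lt_or_gt_of_ne h with h1 | h1
  · exact (key a b ha h1).ne
  · exact (key b a hb h1).ne'

theorem dimS_unit {a b : ℕ} (ha : 0 < a) (hb : 0 < b) (h : a ≠ b) :
    dimS a false ≠ dimS b false := by
  have key : ∀ a b : ℕ, 0 < a → a < b → dimS a false < dimS b false := by
    intro a b ha hab
    unfold dimS
    simp only
    have h2 : a ^ 2 < b ^ 2 := Nat.pow_lt_pow_left hab two_ne_zero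
    have h3 : 0 < a ^ 2 := by positivity
    omega
  rcases lt_or_gt_of_ne h with h1 | h1
  · exact (key a b ha h1).ne
  · exact (key b a hb h1).ne'

theorem dimS_big {b : ℕ} (hb : 5 ≤ b) : 6 < dimS b true := by
  unfold dimS
  simp only
  have h1 : 5 * 4 ≤ b * (b - 1) := Nat.mul_le_mul hb (by omega)
  omega

theorem dimS_bigU {b : ℕ} (hb : 3 ≤ b) : 6 < dimS b false := by
  unfold dimS
  simp only
  have h1 : 3 ^ 2 ≤ b ^ 2 := Nat.pow_le_pow_left hb 2
  omega

theorem dimS_mixed {a b : ℕ} (h : a * (a - 1) ≠ 2 * (b ^ 2 - 1)) :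
    dimS a true ≠ dimS b false := by
  unfold dimS
  simp only
  intro h1
  apply h
  rw [← h1]
  exact (Nat.mul_div_cancel' (Nat.even_mul_pred_self a).two_dvd).symm

end LieM

open LieM in
theorem specMLie (hMat : SpecMMat) (hBlk : SpecMBlk) (hNls : SpecMNls) (hXdm : SpecMXdm)
    (hRrt : SpecMRrt) (hXrr : SpecMXrr) (hUul : SpecMUul) (hUux : SpecMUux) (hGour : SpecGOURM) :
    SpecMLie := by
  intro D kk r mm hK X Y hX hY
  obtain ⟨hM1, -, -, hM4, -⟩ := hMat D
  obtain ⟨hBR, hBU⟩ := hBlk D kk r mm hK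
  obtain ⟨hNR, hNU⟩ := hNls D kk r mm hK
  have G := D.good
  let M : D.R ⊕ D.U → ℕ := Sum.elim D.m D.m'
  let b : D.R ⊕ D.U → Bool := Sum.elim (fun _ => true) fun _ => false
  set L : Submodule ℂ (Matrix (Fin D.n) (Fin D.n) ℂ) :=
    Submodule.span ℂ {ρ | ∃ Z ∈ kk, ρ = cx (r Z)} with hL
  -- the span is a Lie algebra
  have hLbr : ∀ ρ ∈ L, ∀ ρ' ∈ L, ρ * ρ' - ρ' * ρ ∈ L := by
    intro ρ hρ ρ' hρ'
    refine Submodule.span_induction (p := fun ρ _ => ρ * ρ' - ρ' * ρ ∈ L) ?_ ?_ ?_ ?_ hρ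
    · rintro _ ⟨Z, hZ, rfl⟩
      refine Submodule.span_induction (p := fun ρ' _ => cx (r Z) * ρ' - ρ' * cx (r Z) ∈ L)
        ?_ ?_ ?_ ?_ hρ'
      · rintro _ ⟨Z', hZ', rfl⟩
        refine Submodule.subset_span ⟨Z * Z' - Z' * Z, hK.br Z hZ Z' hZ', ?_⟩
        rw [hK.rbr Z hZ Z' hZ', ← KRatM.cx_mul, ← KRatM.cx_mul]
        ext i j
        simp [cx]
      · rw [Matrix.mul_zero, Matrix.zero_mul, sub_zero]
        exact L.zero_mem
      · intro x y _ _ hx hy
        have e1 : cx (r Z) * (x + y) - (x + y) * cx (r Z) =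
            (cx (r Z) * x - x * cx (r Z)) + (cx (r Z) * y - y * cx (r Z)) := by
          rw [Matrix.mul_add, Matrix.add_mul]
          abel
        rw [e1]
        exact L.add_mem hx hy
      · intro a x _ hx
        rw [Matrix.mul_smul, Matrix.smul_mul, ← smul_sub]
        exact L.smul_mem a hx
    · rw [Matrix.mul_zero, Matrix.zero_mul, sub_zero]
      exact L.zero_mem
    · intro x y _ _ hx hy
      have e1 : (x + y) * ρ' - ρ' * (x + y) = (x * ρ' - ρ' * x) + (y * ρ' - ρ' * y) := by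
        rw [Matrix.mul_add, Matrix.add_mul]
        abel
      rw [e1]
      exact L.add_mem hx hy
    · intro a x _ hx
      rw [Matrix.mul_smul, Matrix.smul_mul, ← smul_sub]
      exact L.smul_mem a hx
  -- the families
  let h : Submodule ℂ ((k : D.R ⊕ D.U) → Matrix (Fin (M k)) (Fin (M k)) ℂ) :=
    { carrier := {F | (∀ k, (F (Sum.inl k))ᵀ = -F (Sum.inl k)) ∧
        D.wm (fun k => F (Sum.inl k)) (fun k => F (Sum.inr k)) ∈ L}
      add_mem' := by
        intro F F' h1 h2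
        refine ⟨fun k => ?_, ?_⟩
        · change (F (Sum.inl k) + F' (Sum.inl k))ᵀ = -(F (Sum.inl k) + F' (Sum.inl k))
          rw [transpose_add, h1.1 k, h2.1 k, neg_add]
        · have e1 := wm_add D (fun k => F (Sum.inl k)) (fun k => F' (Sum.inl k))
            (fun k => F (Sum.inr k)) fun k => F' (Sum.inr k)
          have e2 := L.add_mem h1.2 h2.2
          rw [← e1] at e2
          exact e2
      zero_mem' := by
        refine ⟨fun k => ?_, ?_⟩
        · change (0 : Matrix (Fin (D.m k)) (Fin (D.m k)) ℂ)ᵀ = -0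
          rw [transpose_zero, neg_zero]
        · have e1 := wm_smul D 0 (0 : D.FR) (0 : D.FU)
          rw [zero_smul, zero_smul, zero_smul] at e1
          have e2 := L.zero_mem
          rw [← e1] at e2
          exact e2
      smul_mem' := by
        intro a F h1
        refine ⟨fun k => ?_, ?_⟩
        · change (a • F (Sum.inl k))ᵀ = -(a • F (Sum.inl k))
          rw [transpose_smul, h1.1 k, smul_neg]
        · have e1 := wm_smul D a (fun k => F (Sum.inl k)) fun k => F (Sum.inr k)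
          have e2 := L.smul_mem a h1.2
          rw [← e1] at e2
          exact e2 }
  have hbr : ∀ F ∈ h, ∀ F' ∈ h, (fun k => F k * F' k - F' k * F k) ∈ h := by
    intro F h1 F' h2
    refine ⟨fun k => ?_, ?_⟩
    · have a1 : (F (Sum.inl k))ᵀ = -F (Sum.inl k) := h1.1 k
      have a2 : (F' (Sum.inl k))ᵀ = -F' (Sum.inl k) := h2.1 k
      change (F (Sum.inl k) * F' (Sum.inl k) - F' (Sum.inl k) * F (Sum.inl k))ᵀ =
        -(F (Sum.inl k) * F' (Sum.inl k) - F' (Sum.inl k) * F (Sum.inl k))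
      rw [transpose_sub, transpose_mul, transpose_mul, a1, a2, neg_mul_neg, neg_mul_neg, neg_sub]
    · have e1 := hM4 (fun k => F (Sum.inl k)) (fun k => F' (Sum.inl k))
        (fun k => F (Sum.inr k)) fun k => F' (Sum.inr k)
      have e2 := hLbr _ h1.2 _ h2.2
      rw [e1] at e2
      exact e2
  have hin : ∀ Z ∈ kk, (fun k => Sum.rec (motive := fun k => Matrix (Fin (M k)) (Fin (M k)) ℂ)
      (fun k => D.xr (cx (r Z)) k) (fun k => D.xu (cx (r Z)) k) k) ∈ h := by
    intro Z hZ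
    obtain ⟨h1, h2⟩ := hM1 _ (cx_so (hK.so Z hZ))
    refine ⟨h1, ?_⟩
    change D.wm (D.xr (cx (r Z))) (D.xu (cx (r Z))) ∈ L
    rw [← h2]
    exact Submodule.subset_span ⟨Z, hZ, rfl⟩
  have hsurj : ∀ k, ∀ A ∈ blkS ℂ (M k) (b k), ∃ F ∈ h, F k = A := by
    intro k A hA
    rcases k with k | k
    · have h1 := hBR k A hA
      have h2 : Submodule.span ℂ {Y | ∃ Z ∈ kk, Y = D.xr (cx (r Z)) k} ≤
          h.map (LinearMap.proj (Sum.inl k) :
            ((k : D.R ⊕ D.U) → Matrix (Fin (M k)) (Fin (M k)) ℂ) →ₗ[ℂ] _) := by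
        rw [Submodule.span_le]
        rintro _ ⟨Z, hZ, rfl⟩
        exact ⟨_, hin Z hZ, rfl⟩
      obtain ⟨F, hF, hFk⟩ := h2 h1
      exact ⟨F, hF, hFk⟩
    · have h1 := hBU k A hA
      have h2 : Submodule.span ℂ {Y | ∃ Z ∈ kk, Y = D.xu (cx (r Z)) k} ≤
          h.map (LinearMap.proj (Sum.inr k) :
            ((k : D.R ⊕ D.U) → Matrix (Fin (M k)) (Fin (M k)) ℂ) →ₗ[ℂ] _) := by
        rw [Submodule.span_le]
        rintro _ ⟨Z, hZ, rfl⟩
        exact ⟨_, hin Z hZ, rfl⟩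
      obtain ⟨F, hF, hFk⟩ := h2 h1
      exact ⟨F, hF, hFk⟩
  have hsk : ∀ F ∈ h, ∀ k, b k = true → (F k)ᵀ = -F k := by
    intro F hF k hk
    rcases k with k | k
    · exact hF.1 k
    · exact absurd hk (by simp [b])
  -- different dimensions
  have hdim : ∀ k l : D.R ⊕ D.U, dimS (M k) (b k) ≠ dimS (M l) (b l) →
      (b k = true → 3 ≤ M k) → (b k = false → 0 < M k) →
      (b l = true → 3 ≤ M l) → (b l = false → 0 < M l) →
      (b k = true → M k = 4 → 6 < dimS (M l) (b l) ∨ dimS (M l) (b l) = 0) →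
      (b l = true → M l = 4 → 6 < dimS (M k) (b k) ∨ dimS (M k) (b k) = 0) →
      ∀ φ : Matrix (Fin (M k)) (Fin (M k)) ℂ →ₗ[ℂ] Matrix (Fin (M l)) (Fin (M l)) ℂ,
      (∀ Y, φ Y ∈ blkS ℂ (M l) (b l)) →
      (∀ X ∈ h, ∀ Y, φ (X k * Y - Y * X k) = X l * φ Y - φ Y * X l) →
      ∀ Y ∈ blkS ℂ (M k) (b k), φ Y = 0 := by
    intro k l h1 h2 h3 h4 h5 h6 h7 φ hφ hE
    refine hXdm (M k) (M l) (b k) (b l) h2 h3 h4 h5 h1 h6 h7 {p | ∃ F ∈ h, p = (F k, F l)}
      ?_ ?_ ?_ φ hφ ?_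
    · rintro _ ⟨F, hF, rfl⟩
      exact ⟨hsk F hF k, hsk F hF l⟩
    · intro A hA
      obtain ⟨F, hF, hFA⟩ := hsurj k A hA
      exact ⟨_, ⟨F, hF, rfl⟩, hFA⟩
    · intro A hA
      obtain ⟨F, hF, hFA⟩ := hsurj l A hA
      exact ⟨_, ⟨F, hF, rfl⟩, hFA⟩
    · rintro _ ⟨F, hF, rfl⟩
      exact hE F hF
  have t1 : ∀ (k l : D.U), D.m' k = 1 → ∀ φ : Matrix (Fin (M (Sum.inr k)))
      (Fin (M (Sum.inr k))) ℂ →ₗ[ℂ] Matrix (Fin (M (Sum.inr l))) (Fin (M (Sum.inr l))) ℂ,
      ∀ Y ∈ blkS ℂ (M (Sum.inr k)) (b (Sum.inr k)), φ Y = 0 := by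
    intro k l h1 φ Y hY
    have h2 : Y = 0 := trace_zero_one (D.m' k) h1 Y hY
    rw [h2]
    exact map_zero φ
  have hlink : ∀ k l, k ≠ l →
      ∀ φ : Matrix (Fin (M k)) (Fin (M k)) ℂ →ₗ[ℂ] Matrix (Fin (M l)) (Fin (M l)) ℂ,
      (∀ Y, φ Y ∈ blkS ℂ (M l) (b l)) →
      (∀ X ∈ h, ∀ Y, φ (X k * Y - Y * X k) = X l * φ Y - φ Y * X l) →
      ∀ Y ∈ blkS ℂ (M k) (b k), φ Y = 0 := by
    intro k l hkl φ hφ hE
    rcases k with k | k <;> rcases l with l | l
    · -- two real blocks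
      have hkl' : k ≠ l := fun h => hkl (congrArg Sum.inl h)
      by_cases ho : D.ox k = D.ox l
      · intro Y hY
        refine nl_use (h := {p | ∃ Z ∈ kk, p = (D.xr (cx (r Z)) k, D.xr (cx (r Z)) l)}) ?_
          (hNR k l hkl' ho) φ hφ ?_ Y hY
        · rintro _ ⟨Z, hZ, rfl⟩
          exact (hin Z hZ).1 k
        · rintro _ ⟨Z, hZ, rfl⟩
          exact hE _ (hin Z hZ)
      · obtain ⟨g1, g2⟩ := G.rr k l ho
        obtain ⟨g3, g4⟩ := G.rr l k (Ne.symm ho)
        by_cases hm : D.m k = D.m l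
        · by_contra hne
          push Not at hne
          obtain ⟨Y, hY, hne⟩ := hne
          obtain ⟨g5, g6⟩ := g1 hm
          refine hXrr D kk r mm hK k l ho fun Z hZ p => ?_
          exact rr_link hRrt (D.m k) (D.m l) hm (G.three k) g5 g6
            {p | ∃ F ∈ h, p = (F (Sum.inl k), F (Sum.inl l))} (by
              rintro _ ⟨F, hF, rfl⟩
              exact ⟨hF.1 k, hF.1 l⟩) (by
              intro A hA
              obtain ⟨F, hF, hFA⟩ := hsurj (Sum.inl k) A hA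
              exact ⟨_, ⟨F, hF, rfl⟩, hFA⟩) (by
              intro A hA
              obtain ⟨F, hF, hFA⟩ := hsurj (Sum.inl l) A hA
              exact ⟨_, ⟨F, hF, rfl⟩, hFA⟩) φ hφ (by
              rintro _ ⟨F, hF, rfl⟩
              exact hE F hF) ⟨Y, hY, hne⟩ _ ⟨_, hin Z hZ, rfl⟩ p
        · refine hdim (Sum.inl k) (Sum.inl l) ?_ ?_ ?_ ?_ ?_ ?_ ?_ φ hφ hE
          · exact dimS_real (G.three k) (G.three l) hm
          · exact fun _ => G.three k
          · intro h; exact absurd h (by simp [b])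
          · exact fun _ => G.three l
          · intro h; exact absurd h (by simp [b])
          · intro _ h4
            left
            change D.m k = 4 at h4
            change 6 < dimS (D.m l) true
            refine dimS_big ?_
            have a1 := G.three l
            have a2 : D.m l ≠ 3 := fun h => g4 h h4
            have a3 : D.m l ≠ 4 := fun h => hm (h4.trans h.symm)
            omega
          · intro _ h4
            left
            change D.m l = 4 at h4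
            change 6 < dimS (D.m k) true
            refine dimS_big ?_
            have a1 := G.three k
            have a2 : D.m k ≠ 3 := fun h => g2 h h4
            have a3 : D.m k ≠ 4 := fun h => hm (h.trans h4.symm)
            omega
    · -- real, unitary
      obtain ⟨g1, g2⟩ := G.ru k l
      have hbig : D.m k = 4 → 6 < dimS (D.m' l) false ∨ dimS (D.m' l) false = 0 := by
        intro h4
        rcases G.even l with h1 | ⟨c, hc⟩
        · right
          rw [h1]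
          rfl
        · left
          refine dimS_bigU ?_
          have a1 := G.pos l
          have a2 := g2 h4
          omega
      refine hdim (Sum.inl k) (Sum.inr l) ?_ ?_ ?_ ?_ ?_ ?_ ?_ φ hφ hE
      · exact dimS_mixed g1
      · exact fun _ => G.three k
      · intro h; exact absurd h (by simp [b])
      · intro h; exact absurd h (by simp [b])
      · exact fun _ => G.pos l
      · exact fun _ => hbig
      · intro h; exact absurd h (by simp [b])
    · -- unitary, real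
      obtain ⟨g1, g2⟩ := G.ru l k
      have hbig : D.m l = 4 → 6 < dimS (D.m' k) false ∨ dimS (D.m' k) false = 0 := by
        intro h4
        rcases G.even k with h1 | ⟨c, hc⟩
        · right
          rw [h1]
          rfl
        · left
          refine dimS_bigU ?_
          have a1 := G.pos k
          have a2 := g2 h4
          omega
      refine hdim (Sum.inr k) (Sum.inl l) ?_ ?_ ?_ ?_ ?_ ?_ ?_ φ hφ hE
      · exact (dimS_mixed g1).symm
      · intro h; exact absurd h (by simp [b])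
      · exact fun _ => G.pos k
      · exact fun _ => G.three l
      · intro h; exact absurd h (by simp [b])
      · intro h; exact absurd h (by simp [b])
      · exact fun _ => hbig
    · -- two unitary blocks
      have hkl' : k ≠ l := fun h => hkl (congrArg Sum.inr h)
      by_cases ho : D.ou k = D.ou l
      · intro Y hY
        refine hNU k l hkl' ho φ ?_ Y hY
        rintro _ ⟨Z, hZ, rfl⟩
        have h5 := hE _ (hin Z hZ)
        exact h5
      · by_cases hm : D.m' k = D.m' l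
        · have h2 := G.uu k l ho hm
          rcases Nat.lt_or_ge (D.m' k) 3 with h3 | h3
          · have h1 : D.m' k = 1 := by
              have a1 := G.pos k
              omega
            intro Y hY
            exact t1 k l h1 φ Y hY
          · by_contra hne
            push Not at hne
            obtain ⟨Y, hY, hne⟩ := hne
            let pk : ((k : D.R ⊕ D.U) → Matrix (Fin (M k)) (Fin (M k)) ℂ) →ₗ[ℂ]
                (Matrix (Fin (D.m' k)) (Fin (D.m' k)) ℂ × Matrix (Fin (D.m' l)) (Fin (D.m' l)) ℂ) :=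
              LinearMap.prod (LinearMap.proj (Sum.inr k)) (LinearMap.proj (Sum.inr l))
            obtain ⟨ε, hε, huu⟩ := uu_link hUul (D.m' k) (D.m' l) hm h3 (h.map pk) (by
                rintro _ ⟨F, hF, rfl⟩ _ ⟨F', hF', rfl⟩
                exact ⟨_, hbr F hF F' hF', rfl⟩) (by
                intro A hA
                obtain ⟨F, hF, hFA⟩ := hsurj (Sum.inr k) A hA
                exact ⟨_, ⟨F, hF, rfl⟩, hFA⟩) (by
                intro A hA
                obtain ⟨F, hF, hFA⟩ := hsurj (Sum.inr l) A hA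
                exact ⟨_, ⟨F, hF, rfl⟩, hFA⟩) φ hφ (by
                rintro _ ⟨F, hF, rfl⟩
                exact hE F hF) ⟨Y, hY, hne⟩
            refine hUux D kk r mm hK k l ho hm h3 ε hε fun Z hZ => ?_
            have h5 := huu _ ⟨_, hin Z hZ, rfl⟩
            exact h5
        · refine hdim (Sum.inr k) (Sum.inr l) ?_ ?_ ?_ ?_ ?_ ?_ ?_ φ hφ hE
          · exact dimS_unit (G.pos k) (G.pos l) hm
          · intro h; exact absurd h (by simp [b])
          · exact fun _ => G.pos k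
          · intro h; exact absurd h (by simp [b])
          · exact fun _ => G.pos l
          · intro h; exact absurd h (by simp [b])
          · intro h; exact absurd h (by simp [b])
  have h3 : ∀ k, b k = true → 3 ≤ M k := by
    intro k hk
    rcases k with k | k
    · exact G.three k
    · exact absurd hk (by simp [b])
  let W : (k : D.R ⊕ D.U) → Matrix (Fin (M k)) (Fin (M k)) ℂ :=
    fun k => Sum.rec (motive := fun k => Matrix (Fin (M k)) (Fin (M k)) ℂ)
      (fun k => X k) (fun k => Y k) k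
  have hW : ∀ k, W k ∈ blkS ℂ (M k) (b k) := by
    intro k
    rcases k with k | k
    · exact hX k
    · exact hY k
  exact (hGour ℂ (D.R ⊕ D.U) M b h3 h hsk hbr hsurj hlink W hW).2

end Pool.Agent.Lib.MPf11a48.KM
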