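import Pool.Agent.Lib.MP_f11a48_ag.KM.SpecA

/-!
# Module MZ: the elements of `kk` are Clifford elements up to a scalar
-/

set_option autoImplicit false

namespace Pool.Agent.Lib.MPf11a48.KM

open Matrix MvPolynomial Pool.Agent.Lib.MPf11a48.Tors
open Pool.Agent.Lib.MPf11a48.CM hiding OmegaM
open Pool.Agent.Lib.MPf11a48.GL2 (lie Geo)
open Pool.Agent.Lib.MPf11a48.GL2T (IsAlg)
open Pool.Agent.Lib.MPf11a48.U (AbData Ix HD EndAlg)
open Pool.Agent.Lib.MPf11a48.K3 Pool.Agent.Lib.MPf11a48.KU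
open KRatM (cx_add cx_smul cx_zero cx_mul)

namespace ZM

/-- the complexification of `soE` -/
theorem cx_so {n : ℕ} {qB : Matrix (Fin n) (Fin n) ℚ} {E : Set (Matrix (Fin n) (Fin n) ℚ)}
    {ρ : Matrix (Fin n) (Fin n) ℚ} (h : ρ ∈ soE qB E) : cx ρ ∈ soC qB E := by
  refine ⟨?_, fun e he => ?_⟩
  · have h1 : (cx ρ)ᵀ = cx ρᵀ := rfl
    rw [h1, ← cx_mul, ← cx_mul, ← cx_add, h.1, cx_zero]
  · rw [← cx_mul, ← cx_mul, h.2 e he]

/-- the trace of an idempotent -/
theorem trace_ne (hCMP : SpecMCmp) {ι : Type} [Fintype ι] [DecidableEq ι] (p : Matrix ι ι ℂ)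
    (hp : p * p = p) (h0 : p ≠ 0) : p.trace ≠ 0 := by
  obtain ⟨ν, i1, i2, i3, L, R, h1, h2⟩ := (hCMP ι p hp).1 h0
  rw [← h2, Matrix.trace_mul_comm, h1, Matrix.trace_one]
  exact Nat.cast_ne_zero.2 Fintype.card_ne_zero

/-- the trace of `π Z` for a rational similitude `Z` -/
theorem trace_sim {ι : Type} [Fintype ι] [DecidableEq ι] (ψ Z p : Matrix ι ι ℚ) (m : ℚ)
    (hψ : ψ.det ≠ 0) (hZ : Zᵀ * ψ + ψ * Z = m • ψ) (hp : pᵀ * ψ = ψ * p) :
    2 * (p * Z).trace = m * p.trace := by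
  have hu : IsUnit ψ.det := isUnit_iff_ne_zero.2 hψ
  have h1 : ψ⁻¹ * (Zᵀ * ψ + ψ * Z) * p = m • p := by
    rw [hZ, Matrix.mul_smul, Matrix.nonsing_inv_mul _ hu, Matrix.smul_mul, Matrix.one_mul]
  have h2 : (ψ⁻¹ * (Zᵀ * ψ + ψ * Z) * p).trace = (p * Z).trace + (p * Z).trace := by
    rw [Matrix.mul_add, Matrix.add_mul, Matrix.trace_add]
    congr 1
    · calc (ψ⁻¹ * (Zᵀ * ψ) * p).trace = (ψ⁻¹ * (Zᵀ * (ψ * p))).trace := by
            simp only [Matrix.mul_assoc]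
        _ = (ψ⁻¹ * (Zᵀ * (pᵀ * ψ))).trace := by rw [hp]
        _ = (Zᵀ * (pᵀ * ψ) * ψ⁻¹).trace := Matrix.trace_mul_comm _ _
        _ = (Zᵀ * pᵀ).trace := by
            rw [Matrix.mul_assoc, Matrix.mul_assoc, Matrix.mul_nonsing_inv _ hu, Matrix.mul_one]
        _ = ((p * Z)ᵀ).trace := by rw [Matrix.transpose_mul]
        _ = (p * Z).trace := Matrix.trace_transpose _
    · rw [← Matrix.mul_assoc, Matrix.nonsing_inv_mul _ hu, Matrix.one_mul,
        Matrix.trace_mul_comm]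
  rw [h1, Matrix.trace_smul, smul_eq_mul] at h2
  linarith

end ZM

open ZM in
/-- **MZ.** -/
theorem specMZ (hCLB : SpecMClb) (hSCL : SpecMScl) (hCMP : SpecMCmp) (hHDA : U.SpecHDA) :
    SpecMZ := by
  intro D kk r mm hK Z hZ
  obtain ⟨c1, c2, c3, c4, c5, c6, c7⟩ := hCLB D
  obtain ⟨⟨J, hJ⟩, -⟩ := hHDA Qbar D.g D.N D.A D.c le_rfl D.ks.abvar D.ks.per
  have hρ : cx (r Z) ∈ D.so := cx_so (hK.so Z hZ)
  have hpc : ∀ i j, D.pc i * D.pc j = if i = j then D.pc i else 0 := by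
    intro i j
    unfold Dat.pc
    rw [← cx_mul, D.ks.mul]
    split_ifs
    · rfl
    · exact cx_zero
  have hsum : ∑ i, D.pc i = 1 := by
    have h1 : cx (∑ i, D.π i) = ∑ i, cx (D.π i) := by
      ext a b
      simp [cx, Matrix.sum_apply]
    unfold Dat.pc
    rw [← h1, D.ks.sum]
    ext a b
    by_cases h : a = b
    · subst h
      simp [cx]
    · simp [cx, h]
  have hne : ∀ i, D.pc i ≠ 0 := by
    intro i h
    apply D.ks.ne i
    ext a b
    have := congrFun (congrFun h a) b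
    simpa [Dat.pc, cx] using this
  -- the difference is a scalar on each species
  obtain ⟨s, hs⟩ := hSCL D (cx Z - D.cl (cx (r Z))) (by
    intro j
    have h1 : cx Z * cx (D.B j) - cx (D.B j) * cx Z = ∑ i, (cx (r Z)) i j • cx (D.B i) := by
      rw [← cx_mul, ← cx_mul]
      have h2 : cx (Z * D.B j) - cx (D.B j * Z) = cx (Z * D.B j - D.B j * Z) := by
        ext a b
        simp [cx]
      rw [h2, hK.act Z hZ j]
      ext a b
      simp [cx, Matrix.sum_apply]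
    have h3 := c1 (cx (r Z)) hρ j
    rw [← h3] at h1
    rw [Matrix.sub_mul, Matrix.mul_sub]
    have h4 := sub_eq_zero.2 h1
    rw [← sub_eq_zero]
    rw [← h4]
    abel) (by
    intro Z₀ hZ₀
    have hE : Z₀ ∈ EndAlg D.c.1 := D.full Z₀ hZ₀
    rw [Matrix.sub_mul, Matrix.mul_sub, c7 _ hρ Z₀ hE, ← cx_mul, ← cx_mul, hK.com Z hZ Z₀ hE])
  have hsi : ∀ i, s i = (mm Z : ℂ) / 2 := by
    intro i
    have h1 := trace_sim D.A.psi Z (D.π i) (mm Z) hJ.det (hK.sim Z hZ) (D.ks.psi i)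
    have h2 : 2 * (cx Z * D.pc i).trace = (mm Z : ℂ) * (D.pc i).trace := by
      unfold Dat.pc
      rw [Matrix.trace_mul_comm, ← cx_mul]
      have h3 : ∀ M : Matrix (Ix D.g) (Ix D.g) ℚ, (cx M).trace = ((M.trace : ℚ) : ℂ) := by
        intro M
        simp [cx, Matrix.trace]
      rw [h3, h3]
      exact_mod_cast h1
    have h4 : cx Z = D.cl (cx (r Z)) + ∑ j, s j • D.pc j := by
      rw [← hs]
      abel
    have h5 : (∑ j, s j • D.pc j) * D.pc i = s i • D.pc i := by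
      rw [Matrix.sum_mul, Finset.sum_eq_single i]
      · rw [Matrix.smul_mul, hpc, if_pos rfl]
      · intro j _ hj
        rw [Matrix.smul_mul, hpc, if_neg hj, smul_zero]
      · intro h
        exact absurd (Finset.mem_univ i) h
    rw [h4, Matrix.add_mul, h5, Matrix.trace_add, c6 _ hρ i, zero_add, Matrix.trace_smul,
      smul_eq_mul] at h2
    have h6 := trace_ne hCMP (D.pc i) (by rw [hpc, if_pos rfl]) (hne i)
    have h7 : (2 * s i - mm Z) * (D.pc i).trace = 0 := by linear_combination h2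
    have h8 := (mul_eq_zero.1 h7).resolve_right h6
    linear_combination h8 / 2
  have h9 : ∑ i, s i • D.pc i = ((mm Z : ℂ) / 2) • (1 : Matrix (Ix D.g) (Ix D.g) ℂ) := by
    simp only [hsi]
    rw [← Finset.smul_sum, hsum]
  rw [← h9, ← hs]
  abel

end Pool.Agent.Lib.MPf11a48.KM
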