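import Pool.Agent.Lib.MP_f11a48_ag.KM.SpecA
import Pool.Agent.Lib.MP_f11a48_ag.KU.Lie

/-!
# NLS: no links between blocks of the same species
-/

set_option autoImplicit false

namespace Pool.Agent.Lib.MPf11a48.KM

open Matrix MvPolynomial Pool.Agent.Lib.MPf11a48.Tors
open Pool.Agent.Lib.MPf11a48.CM hiding OmegaM
open Pool.Agent.Lib.MPf11a48.U (AbData Ix HD EndAlg)
open Pool.Agent.Lib.MPf11a48.K3 Pool.Agent.Lib.MPf11a48.KU
open KRatM

namespace NlsM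

variable {ι ν : Type} [Fintype ι] [DecidableEq ι] [Fintype ν] [DecidableEq ν]

theorem cmp_mul {p : Matrix ι ι ℂ} {L : Matrix ν ι ℂ} {R : Matrix ι ν ℂ} (hRL : R * L = p)
    (M N : Matrix ι ι ℂ) (hN : p * N = N) : L * M * R * (L * N * R) = L * (M * N) * R := by
  have h1 : L * M * R * (L * N * R) = L * M * (R * L * N) * R := by
    simp only [Matrix.mul_assoc]
  rw [h1, hRL, hN, Matrix.mul_assoc L M N]

theorem cmp_mul' {p : Matrix ι ι ℂ} {L : Matrix ν ι ℂ} {R : Matrix ι ν ℂ} (hRL : R * L = p)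
    (M N : Matrix ι ι ℂ) (hM : M * p = M) : L * M * R * (L * N * R) = L * (M * N) * R := by
  have h1 : L * M * R * (L * N * R) = L * (M * (R * L) * N) * R := by
    simp only [Matrix.mul_assoc]
  rw [h1, hRL, hM]

theorem cmp_p {p : Matrix ι ι ℂ} {L : Matrix ν ι ℂ} {R : Matrix ι ν ℂ} (hLR : L * R = 1)
    (hRL : R * L = p) : L * p * R = 1 := by
  rw [← hRL, ← Matrix.mul_assoc, hLR, Matrix.one_mul, hLR]

theorem cmp_sum {J : Type} [Fintype J] {L : Matrix ν ι ℂ} {R : Matrix ι ν ℂ} (a : J → ℂ)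
    (M : J → Matrix ι ι ℂ) : L * (∑ i, a i • M i) * R = ∑ i, a i • (L * M i * R) := by
  rw [Matrix.mul_sum, Matrix.sum_mul]
  refine Finset.sum_congr rfl fun i _ => ?_
  rw [Matrix.mul_smul, Matrix.smul_mul]

end NlsM

open NlsM in
theorem specMNls (hMat : SpecMMat) (hCar : SpecMCar) (hCmp : SpecMCmp) (hKLnk : SpecKLnk)
    (hULnk : SpecULnk) : SpecMNls := by
  intro D kk r mm hK
  obtain ⟨hM1, -, -, -, -, -, -, -, -⟩ := hMat D
  obtain ⟨a1, a2, a3, a4, a5, a6, a7, -, hC, hD⟩ := hCar D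
  obtain ⟨-, hd2, hd3⟩ := hD kk r mm hK
  -- action of the elements of `kk`
  have hZB : ∀ Z ∈ kk, ∀ j, cx Z * cx (D.B j) - cx (D.B j) * cx Z =
      ∑ i, D.wm (D.xr (cx (r Z))) (D.xu (cx (r Z))) i j • cx (D.B i) := by
    intro Z hZ j
    have h0 := (hM1 (cx (r Z)) (LieLM.cx_soC (hK.so Z hZ))).2
    rw [← h0]
    have h1 := congrArg cx (hK.act Z hZ j)
    have h2 : cx (∑ i, r Z i j • D.B i) = ∑ i, (cx (r Z)) i j • cx (D.B i) := by
      ext a b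
      rw [Matrix.sum_apply]
      simp only [cx, Matrix.map_apply, Matrix.sum_apply, Matrix.smul_apply, smul_eq_mul]
      push_cast
      rfl
    rw [h2] at h1
    rw [← h1, ← cx_mul, ← cx_mul]
    ext a b
    simp [cx]
  have hcomp : ∀ Z ∈ kk, ∀ i, cx Z * D.pc i = D.pc i * cx Z := by
    intro Z hZ i
    have h1 := congrArg cx (hK.comp Z hZ i)
    rw [cx_mul, cx_mul] at h1
    exact h1
  have hp : ∀ i, D.pc i * D.pc i = D.pc i := by
    intro i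
    have h1 := congrArg cx (D.ks.mul i i)
    rw [if_pos rfl, cx_mul] at h1
    exact h1
  have hp0 : ∀ i, D.pc i ≠ 0 := by
    intro i h0
    apply D.ks.ne i
    ext a b
    have h1 := congrFun (congrFun h0 a) b
    have h2 : ((D.π i a b : ℚ) : ℂ) = 0 := h1
    exact_mod_cast h2
  constructor
  · intro k l hkl hox
    set i := D.ox k with hi
    obtain ⟨ν, _, _, hne, L, R, hLR, hRL⟩ := (hCmp (Ix D.g) (D.pc i) (hp i)).1 (hp0 i)
    have hadj := (hCmp (Ix D.g) (D.pc i) (hp i)).2 ν L R hLR hRL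
      {Y : Matrix (Ix D.g) (Ix D.g) ℂ | ∃ Z ∈ kk, Y = cx Z} (by
        rintro _ ⟨Z, hZ, rfl⟩
        exact hcomp Z hZ i)
    -- the compressed pairs
    let KK' : Set (Matrix ν ν ℂ × (Matrix (Fin (D.m k)) (Fin (D.m k)) ℂ ×
        Matrix (Fin (D.m l)) (Fin (D.m l)) ℂ)) :=
      {p | ∃ Z ∈ kk, p = (L * cx Z * R, (D.xr (cx (r Z)) k, D.xr (cx (r Z)) l))}
    have hsnd : Prod.snd '' KK' = {p | ∃ Z ∈ kk, p = (D.xr (cx (r Z)) k, D.xr (cx (r Z)) l)} := by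
      ext p
      constructor
      · rintro ⟨_, ⟨Z, hZ, rfl⟩, rfl⟩
        exact ⟨Z, hZ, rfl⟩
      · rintro ⟨Z, hZ, rfl⟩
        exact ⟨_, ⟨Z, hZ, rfl⟩, rfl⟩
    have lp : ∀ u : (k : D.R) × Fin (D.m k), D.ox u.1 = i → D.pc i * D.gm u = D.gm u := by
      intro u hu
      rw [(a5 i u).1, if_pos hu.symm]
    have rp : ∀ u : (k : D.R) × Fin (D.m k), D.ox u.1 = i → D.gm u * D.pc i = D.gm u := by
      intro u hu
      rw [(a5 i u).2, if_pos hu.symm]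
    have hanti : ∀ u v : (k : D.R) × Fin (D.m k), D.ox u.1 = i → D.ox v.1 = i →
        L * D.gm u * R * (L * D.gm v * R) + L * D.gm v * R * (L * D.gm u * R) =
          if u = v then 1 else 0 := by
      intro u v hu hv
      rw [cmp_mul hRL _ _ (lp v hv), cmp_mul hRL _ _ (lp u hu), ← Matrix.add_mul,
        ← Matrix.mul_add, a1]
      by_cases h : u = v
      · rw [if_pos h, if_pos h, hu]
        exact cmp_p hLR hRL
      · rw [if_neg h, if_neg h, Matrix.mul_zero, Matrix.zero_mul]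
    have hact : ∀ Z ∈ kk, ∀ k' : D.R, D.ox k' = i → ∀ j : Fin (D.m k'),
        L * cx Z * R * (L * D.gm ⟨k', j⟩ * R) - L * D.gm ⟨k', j⟩ * R * (L * cx Z * R) =
          ∑ a, D.xr (cx (r Z)) k' a j • (L * D.gm ⟨k', a⟩ * R) := by
      intro Z hZ k' hk' j
      rw [cmp_mul hRL _ _ (lp ⟨k', j⟩ hk'), cmp_mul' hRL _ _ (rp ⟨k', j⟩ hk'), ← Matrix.sub_mul,
        ← Matrix.mul_sub, (hC (cx Z) (D.xr (cx (r Z))) (D.xu (cx (r Z))) (hZB Z hZ)).1,
        LieLM.sum_blk (D.xr (cx (r Z))) D.gm k' j, cmp_sum]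
    have h1 := hKLnk ν (D.m k) (D.m l) (fun a => L * D.gm ⟨k, a⟩ * R)
      (fun a => L * D.gm ⟨l, a⟩ * R) KK' (D.good.three k) ?_ ?_ ?_ ?_ ?_
    · rw [hsnd] at h1
      exact h1
    · intro a b
      have h2 := hanti ⟨k, a⟩ ⟨l, b⟩ rfl hox.symm
      rw [if_neg fun h => hkl (congrArg Sigma.fst h)] at h2
      exact h2
    · have hset : (fun X : Matrix ν ν ℂ × (Matrix (Fin (D.m k)) (Fin (D.m k)) ℂ ×
          Matrix (Fin (D.m l)) (Fin (D.m l)) ℂ) => (X.1, X.2.1)) '' KK' =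
          {p | ∃ Z ∈ kk, p = (L * cx Z * R, D.xr (cx (r Z)) k)} := by
        ext p
        constructor
        · rintro ⟨_, ⟨Z, hZ, rfl⟩, rfl⟩
          exact ⟨Z, hZ, rfl⟩
        · rintro ⟨Z, hZ, rfl⟩
          exact ⟨_, ⟨Z, hZ, rfl⟩, rfl⟩
      rw [hset]
      refine ⟨?_, ?_, ?_, ?_⟩
      · intro a b
        have h2 := hanti ⟨k, a⟩ ⟨k, b⟩ rfl rfl
        rw [h2]
        by_cases hab : a = b
        · subst hab
          rw [if_pos rfl, if_pos rfl]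
        · rw [if_neg hab, if_neg fun h => hab (by simpa using h)]
      · rintro _ ⟨Z, hZ, rfl⟩
        exact (hM1 (cx (r Z)) (LieLM.cx_soC (hK.so Z hZ))).1 k
      · rintro _ ⟨Z, hZ, rfl⟩ j
        exact hact Z hZ k rfl j
      · intro a b
        have h2 : Prod.fst '' {p : Matrix ν ν ℂ × Matrix (Fin (D.m k)) (Fin (D.m k)) ℂ |
            ∃ Z ∈ kk, p = (L * cx Z * R, D.xr (cx (r Z)) k)} = (fun X => L * X * R) ''
              {Y : Matrix (Ix D.g) (Ix D.g) ℂ | ∃ Z ∈ kk, Y = cx Z} := by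
          ext Y
          constructor
          · rintro ⟨_, ⟨Z, hZ, rfl⟩, rfl⟩
            exact ⟨_, ⟨Z, hZ, rfl⟩, rfl⟩
          · rintro ⟨_, ⟨Z, hZ, rfl⟩, rfl⟩
            exact ⟨_, ⟨Z, hZ, rfl⟩, rfl⟩
        rw [h2, cmp_mul hRL _ _ (lp ⟨k, b⟩ rfl)]
        exact hadj _ (hd2 ⟨k, a⟩ ⟨k, b⟩ rfl)
    · intro a b
      have h2 := hanti ⟨l, a⟩ ⟨l, b⟩ hox.symm hox.symm
      rw [h2]
      by_cases hab : a = b
      · subst hab
        rw [if_pos rfl, if_pos rfl]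
      · rw [if_neg hab, if_neg fun h => hab (by simpa using h)]
    · rintro _ ⟨Z, hZ, rfl⟩
      exact (hM1 (cx (r Z)) (LieLM.cx_soC (hK.so Z hZ))).1 l
    · rintro _ ⟨Z, hZ, rfl⟩ j
      exact hact Z hZ l hox.symm j
  · intro k l hkl hox
    set i := D.ou k with hi
    obtain ⟨ν, _, _, hne, L, R, hLR, hRL⟩ := (hCmp (Ix D.g) (D.pc i) (hp i)).1 (hp0 i)
    have hadj := (hCmp (Ix D.g) (D.pc i) (hp i)).2 ν L R hLR hRL
      {Y : Matrix (Ix D.g) (Ix D.g) ℂ | ∃ Z ∈ kk, Y = cx Z} (by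
        rintro _ ⟨Z, hZ, rfl⟩
        exact hcomp Z hZ i)
    let KK' : Set (Matrix ν ν ℂ × (Matrix (Fin (D.m' k)) (Fin (D.m' k)) ℂ ×
        Matrix (Fin (D.m' l)) (Fin (D.m' l)) ℂ)) :=
      {p | ∃ Z ∈ kk, p = (L * cx Z * R, (D.xu (cx (r Z)) k, D.xu (cx (r Z)) l))}
    have hsnd : Prod.snd '' KK' = {p | ∃ Z ∈ kk, p = (D.xu (cx (r Z)) k, D.xu (cx (r Z)) l)} := by
      ext p
      constructor
      · rintro ⟨_, ⟨Z, hZ, rfl⟩, rfl⟩
        exact ⟨Z, hZ, rfl⟩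
      · rintro ⟨Z, hZ, rfl⟩
        exact ⟨_, ⟨Z, hZ, rfl⟩, rfl⟩
    have lpe : ∀ u : (k : D.U) × Fin (D.m' k), D.ou u.1 = i → D.pc i * D.e u = D.e u := by
      intro u hu
      rw [(a6 i u).1, if_pos hu.symm]
    have rpe : ∀ u : (k : D.U) × Fin (D.m' k), D.ou u.1 = i → D.e u * D.pc i = D.e u := by
      intro u hu
      rw [(a6 i u).2, if_pos hu.symm]
    have lpf : ∀ u : (k : D.U) × Fin (D.m' k), D.ou u.1 = i → D.pc i * D.f u = D.f u := by
      intro u hu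
      rw [(a7 i u).1, if_pos hu.symm]
    have rpf : ∀ u : (k : D.U) × Fin (D.m' k), D.ou u.1 = i → D.f u * D.pc i = D.f u := by
      intro u hu
      rw [(a7 i u).2, if_pos hu.symm]
    have hcar : ∀ (U : Type) [DecidableEq U] (ψ : U → (k : D.U) × Fin (D.m' k)),
        Function.Injective ψ → (∀ u, D.ou (ψ u).1 = i) →
        Car (fun u => L * D.e (ψ u) * R) (fun u => L * D.f (ψ u) * R) := by
      intro U _ ψ hψ hou
      refine ⟨fun u v => ?_, fun u v => ?_, fun u v => ?_⟩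
      · rw [cmp_mul hRL _ _ (lpe _ (hou v)), cmp_mul hRL _ _ (lpe _ (hou u)), ← Matrix.add_mul,
          ← Matrix.mul_add, a2, Matrix.mul_zero, Matrix.zero_mul]
      · rw [cmp_mul hRL _ _ (lpf _ (hou v)), cmp_mul hRL _ _ (lpf _ (hou u)), ← Matrix.add_mul,
          ← Matrix.mul_add, a3, Matrix.mul_zero, Matrix.zero_mul]
      · rw [cmp_mul hRL _ _ (lpf _ (hou v)), cmp_mul hRL _ _ (lpe _ (hou u)), ← Matrix.add_mul,
          ← Matrix.mul_add, a4]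
        by_cases huv : u = v
        · rw [if_pos huv, if_pos (by rw [huv]), hou]
          exact cmp_p hLR hRL
        · rw [if_neg huv, if_neg fun h => huv (hψ h), Matrix.mul_zero, Matrix.zero_mul]
    have hacte : ∀ Z ∈ kk, ∀ k' : D.U, D.ou k' = i → ∀ j : Fin (D.m' k'),
        L * cx Z * R * (L * D.e ⟨k', j⟩ * R) - L * D.e ⟨k', j⟩ * R * (L * cx Z * R) =
          ∑ a, D.xu (cx (r Z)) k' a j • (L * D.e ⟨k', a⟩ * R) := by
      intro Z hZ k' hk' j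
      rw [cmp_mul hRL _ _ (lpe ⟨k', j⟩ hk'), cmp_mul' hRL _ _ (rpe ⟨k', j⟩ hk'), ← Matrix.sub_mul,
        ← Matrix.mul_sub, (hC (cx Z) (D.xr (cx (r Z))) (D.xu (cx (r Z))) (hZB Z hZ)).2.1,
        LieLM.sum_blk (D.xu (cx (r Z))) D.e k' j, cmp_sum]
    have hactf : ∀ Z ∈ kk, ∀ k' : D.U, D.ou k' = i → ∀ j : Fin (D.m' k'),
        L * cx Z * R * (L * D.f ⟨k', j⟩ * R) - L * D.f ⟨k', j⟩ * R * (L * cx Z * R) =
          -∑ a, D.xu (cx (r Z)) k' j a • (L * D.f ⟨k', a⟩ * R) := by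
      intro Z hZ k' hk' j
      rw [cmp_mul hRL _ _ (lpf ⟨k', j⟩ hk'), cmp_mul' hRL _ _ (rpf ⟨k', j⟩ hk'), ← Matrix.sub_mul,
        ← Matrix.mul_sub, (hC (cx Z) (D.xr (cx (r Z))) (D.xu (cx (r Z))) (hZB Z hZ)).2.2,
        LieLM.sum_blk' (D.xu (cx (r Z))) D.f k' j, Matrix.mul_neg, Matrix.neg_mul, cmp_sum]
    have hUF : ∀ k' : D.U, D.ou k' = i →
        UF (fun a => L * D.e ⟨k', a⟩ * R) (fun a => L * D.f ⟨k', a⟩ * R)
          {p | ∃ Z ∈ kk, p = (L * cx Z * R, D.xu (cx (r Z)) k')} := by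
      intro k' hk'
      refine ⟨hcar _ (fun a => ⟨k', a⟩) (fun a b h => by cases h; rfl) (fun _ => hk'), ?_, ?_,
        fun a b => ?_⟩
      · rintro _ ⟨Z, hZ, rfl⟩ j
        exact hacte Z hZ k' hk' j
      · rintro _ ⟨Z, hZ, rfl⟩ j
        exact hactf Z hZ k' hk' j
      · have h2 : Prod.fst '' {p : Matrix ν ν ℂ × Matrix (Fin (D.m' k')) (Fin (D.m' k')) ℂ |
            ∃ Z ∈ kk, p = (L * cx Z * R, D.xu (cx (r Z)) k')} = (fun X => L * X * R) ''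
              {Y : Matrix (Ix D.g) (Ix D.g) ℂ | ∃ Z ∈ kk, Y = cx Z} := by
          ext Y
          constructor
          · rintro ⟨_, ⟨Z, hZ, rfl⟩, rfl⟩
            exact ⟨_, ⟨Z, hZ, rfl⟩, rfl⟩
          · rintro ⟨_, ⟨Z, hZ, rfl⟩, rfl⟩
            exact ⟨_, ⟨Z, hZ, rfl⟩, rfl⟩
        rw [h2, cmp_mul hRL _ _ (lpf ⟨k', b⟩ hk')]
        exact hadj _ (hd3 ⟨k', a⟩ ⟨k', b⟩ rfl)
    have h1 := hULnk ν (D.m' k) (D.m' l) (fun a => L * D.e ⟨k, a⟩ * R)
      (fun a => L * D.f ⟨k, a⟩ * R) (fun a => L * D.e ⟨l, a⟩ * R) (fun a => L * D.f ⟨l, a⟩ * R)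
      KK' ?_ ?_ ?_
    · rw [hsnd] at h1
      exact h1
    · let ψ' : Fin (D.m' k) ⊕ Fin (D.m' l) → (k : D.U) × Fin (D.m' k) :=
        Sum.elim (fun a => ⟨k, a⟩) fun a => ⟨l, a⟩
      have hψ : Function.Injective ψ' := by
        rintro (a | a) (b | b) h2
        · cases h2; rfl
        · exact absurd (congrArg Sigma.fst h2) hkl
        · exact absurd (congrArg Sigma.fst h2) hkl.symm
        · cases h2; rfl
      have h2 := hcar _ ψ' hψ (by
        rintro (a | a)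
        · rfl
        · exact hox.symm)
      have e1 : (fun u => L * D.e (ψ' u) * R) =
          Sum.elim (fun a => L * D.e ⟨k, a⟩ * R) fun a => L * D.e ⟨l, a⟩ * R := by
        funext u
        rcases u with a | a <;> rfl
      have e2 : (fun u => L * D.f (ψ' u) * R) =
          Sum.elim (fun a => L * D.f ⟨k, a⟩ * R) fun a => L * D.f ⟨l, a⟩ * R := by
        funext u
        rcases u with a | a <;> rfl
      rw [e1, e2] at h2
      exact h2
    · have hset : (fun X : Matrix ν ν ℂ × (Matrix (Fin (D.m' k)) (Fin (D.m' k)) ℂ ×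
          Matrix (Fin (D.m' l)) (Fin (D.m' l)) ℂ) => (X.1, X.2.1)) '' KK' =
          {p | ∃ Z ∈ kk, p = (L * cx Z * R, D.xu (cx (r Z)) k)} := by
        ext p
        constructor
        · rintro ⟨_, ⟨Z, hZ, rfl⟩, rfl⟩
          exact ⟨Z, hZ, rfl⟩
        · rintro ⟨Z, hZ, rfl⟩
          exact ⟨_, ⟨Z, hZ, rfl⟩, rfl⟩
      rw [hset]
      exact hUF k rfl
    · have hset : (fun X : Matrix ν ν ℂ × (Matrix (Fin (D.m' k)) (Fin (D.m' k)) ℂ ×
          Matrix (Fin (D.m' l)) (Fin (D.m' l)) ℂ) => (X.1, X.2.2)) '' KK' =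
          {p | ∃ Z ∈ kk, p = (L * cx Z * R, D.xu (cx (r Z)) l)} := by
        ext p
        constructor
        · rintro ⟨_, ⟨Z, hZ, rfl⟩, rfl⟩
          exact ⟨Z, hZ, rfl⟩
        · rintro ⟨Z, hZ, rfl⟩
          exact ⟨_, ⟨Z, hZ, rfl⟩, rfl⟩
      rw [hset]
      exact hUF l hox.symm

end Pool.Agent.Lib.MPf11a48.KM
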