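import Pool.Agent.Lib.MP_f11a48_ag.KM.SpecB
import Pool.Agent.Lib.MP_f11a48_ag.KU.Lie

/-! # Signs -/

set_option autoImplicit false
set_option linter.unusedSectionVars false

namespace Pool.Agent.Lib.MPf11a48.KM

open Matrix MvPolynomial Pool.Agent.Lib.MPf11a48.Tors
open Pool.Agent.Lib.MPf11a48.CM hiding OmegaM
open Pool.Agent.Lib.MPf11a48.GL2 (lie Geo)
open Pool.Agent.Lib.MPf11a48.GL2T (IsAlg)
open Pool.Agent.Lib.MPf11a48.U (AbData Ix HD EndAlg SpecHDA)
open Pool.Agent.Lib.MPf11a48.K3 Pool.Agent.Lib.MPf11a48.KU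
open KLieM (bl clC gam)
open KGrpM (stab)
open KGrp3M (G0 sc ex)

namespace SgnM

open KRatM LieLM KGrpM KGrp3M

section curve

variable {ι : Type} [Fintype ι] [DecidableEq ι]

/-- `exp (s N)` for `N ^ 3 = N` -/
noncomputable def En (N : Matrix ι ι ℂ) (s : ℂ) : Matrix ι ι ℂ :=
  1 + Complex.sinh s • N + (Complex.cosh s - 1) • (N * N)

theorem En_zero (N : Matrix ι ι ℂ) : En N 0 = 1 := by
  simp [En]

theorem En_mul {N : Matrix ι ι ℂ} (hN : N * N * N = N) (s t : ℂ) :
    En N s * En N t = En N (s + t) := by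
  have h1 : N * (N * N) = N := by rw [← Matrix.mul_assoc, hN]
  have h2 : N * N * (N * N) = N * N := by rw [← Matrix.mul_assoc, hN]
  unfold En
  simp only [Matrix.add_mul, Matrix.mul_add, Matrix.one_mul, Matrix.mul_one, Matrix.smul_mul,
    Matrix.mul_smul, h1, h2, hN, Complex.sinh_add, Complex.cosh_add]
  module

/-- `exp (s N)` as an element of the group -/
noncomputable def gN {N : Matrix ι ι ℂ} (hN : N * N * N = N) (s : ℂ) : GL ι ℂ :=
  ⟨En N s, En N (-s), by rw [En_mul hN, add_neg_cancel, En_zero],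
    by rw [En_mul hN, neg_add_cancel, En_zero]⟩

theorem gN_val {N : Matrix ι ι ℂ} (hN : N * N * N = N) (s : ℂ) : (gN hN s).1 = En N s := rfl

theorem hasDerivAt_En {N : Matrix ι ι ℂ} (hN : N * N * N = N) (s : ℂ) (i j : ι) :
    HasDerivAt (fun s => En N s i j) ((N * En N s) i j) s := by
  have h1 : N * (N * N) = N := by rw [← Matrix.mul_assoc, hN]
  have h2 : N * En N s = Complex.cosh s • N + Complex.sinh s • (N * N) := by
    unfold En
    simp only [Matrix.mul_add, Matrix.mul_one, Matrix.mul_smul, h1]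
    module
  rw [h2]
  have h3 : (fun s => En N s i j) = fun s => (1 : Matrix ι ι ℂ) i j + Complex.sinh s * N i j +
      (Complex.cosh s - 1) * (N * N) i j := by
    funext s
    simp [En]
  rw [h3]
  have h4 : (Complex.cosh s • N + Complex.sinh s • (N * N)) i j =
      0 + Complex.cosh s * N i j + Complex.sinh s * (N * N) i j := by
    simp
  rw [h4]
  exact ((hasDerivAt_const s _).add ((Complex.hasDerivAt_sinh s).mul_const _)).add
    (((Complex.hasDerivAt_cosh s).sub_const 1).mul_const _)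

theorem En_two_pi (N : Matrix ι ι ℂ) : En N (2 * (Real.pi * Complex.I)) = 1 := by
  have h1 : Complex.sinh (2 * (Real.pi * Complex.I)) = 0 := by
    rw [show (2 : ℂ) * (Real.pi * Complex.I) = (2 * Real.pi : ℂ) * Complex.I by ring,
      Complex.sinh_mul_I, Complex.sin_two_pi, zero_mul]
  have h2 : Complex.cosh (2 * (Real.pi * Complex.I)) = 1 := by
    rw [show (2 : ℂ) * (Real.pi * Complex.I) = (2 * Real.pi : ℂ) * Complex.I by ring,
      Complex.cosh_mul_I, Complex.cos_two_pi]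
  unfold En
  rw [h1, h2]
  simp

theorem En_pi (N : Matrix ι ι ℂ) : En N (Real.pi * Complex.I) = 1 - (2 : ℂ) • (N * N) := by
  have h1 : Complex.sinh (Real.pi * Complex.I) = 0 := by
    rw [Complex.sinh_mul_I, Complex.sin_pi, zero_mul]
  have h2 : Complex.cosh (Real.pi * Complex.I) = -1 := by
    rw [Complex.cosh_mul_I, Complex.cos_pi]
  unfold En
  rw [h1, h2]
  module

end curve

theorem key (hCurve : SpecCurve) {g n : ℕ} {T : Set (GL (Ix g ⊕ (Fin n ⊕ Unit)) ℂ)}
    (hg : Geo T) {M : Matrix (Ix g) (Ix g) ℂ} {N : Matrix (Fin n) (Fin n) ℂ}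
    (hN : N * N * N = N) (hM : M * M * M = M) (hl : lb3 ((2 : ℂ)⁻¹ • M) N 0 ∈ lie T) :
    ∃ σ : GL (Ix g) ℂ, σ.1 = 1 - (2 : ℂ) • (M * M) ∧ bd3 ((σ, 1, 1) : Grp3 g n) ∈ stab T := by
  let G : ℂ → GL (Ix g ⊕ (Fin n ⊕ Unit)) ℂ := fun s => bd3 (gN hM (s / 2), gN hN s, 1)
  have hG0 : G 0 = 1 := by
    have h1 : gN hM (0 / 2) = 1 := Units.ext (by
      rw [gN_val, zero_div, En_zero]; rfl)
    have h2 : gN hN 0 = 1 := Units.ext (by
      rw [gN_val, En_zero]; rfl)
    change bd3 (gN hM (0 / 2), gN hN 0, 1) = 1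
    rw [h1, h2]
    exact map_one bd3
  have hG : ∀ s i j, HasDerivAt (fun s => (G s).1 i j)
      ((lb3 ((2 : ℂ)⁻¹ • M) N 0 * (G s).1) i j) s := by
    intro s i j
    have h1 : ∀ i j, HasDerivAt (fun s => En M (s / 2) i j)
        (((2 : ℂ)⁻¹ • M * En M (s / 2)) i j) s := by
      intro i j
      have h2 := (hasDerivAt_En hM (s / 2) i j).comp s ((hasDerivAt_id s).div_const 2)
      have h3 : ((2 : ℂ)⁻¹ • M * En M (s / 2)) i j = (M * En M (s / 2)) i j * (1 / 2) := by
        rw [Matrix.smul_mul, Matrix.smul_apply, smul_eq_mul]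
        ring
      rw [h3]
      exact h2
    have h4 := hasDerivAt_lb3 (u := fun _ => 1) (u' := 0) (s := s) h1 (hasDerivAt_En hN s)
      (hasDerivAt_const s _) i j
    have h5 : lb3 ((2 : ℂ)⁻¹ • M) N 0 * (G s).1 =
        lb3 ((2 : ℂ)⁻¹ • M * En M (s / 2)) (N * En N s) 0 := by
      change lb3 ((2 : ℂ)⁻¹ • M) N 0 * lb3 (En M (s / 2)) (En N s) ((1 : ℂˣ) : ℂ) = _
      rw [lb3_mul, zero_mul]
    rw [h5]
    exact h4
  have h1 := hCurve _ T hg _ hl G hG0 hG
  refine ⟨gN hM (Real.pi * Complex.I), ?_, ?_⟩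
  · rw [gN_val, En_pi]
  · refine mem_stab hg fun f hf => ?_
    have h2 := h1 f hf (2 * (Real.pi * Complex.I))
    have h3 : G (2 * (Real.pi * Complex.I)) = bd3 (gN hM (Real.pi * Complex.I), 1, 1) := by
      have h4 : gN hM (2 * (Real.pi * Complex.I) / 2) = gN hM (Real.pi * Complex.I) := by
        congr 1
        ring
      have h5 : gN hN (2 * (Real.pi * Complex.I)) = 1 := Units.ext (by
        rw [gN_val, En_two_pi]; rfl)
      change bd3 (gN hM (2 * (Real.pi * Complex.I) / 2), gN hN (2 * (Real.pi * Complex.I)), 1) = _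
      rw [h4, h5]
    rw [h3] at h2
    exact h2

/-! ### sums -/

section sums

variable {κ : Type} [Fintype κ] [DecidableEq κ] {m : κ → ℕ}

theorem bd_single (r : κ) (a b : Fin (m r)) (c : ℂ) :
    blockDiagonal' (Pi.single r (Matrix.single a b c) :
      (k : κ) → Matrix (Fin (m k)) (Fin (m k)) ℂ) =
      Matrix.single (⟨r, a⟩ : (k : κ) × Fin (m k)) ⟨r, b⟩ c := by
  ext ⟨k, x⟩ ⟨l, y⟩
  by_cases hkl : k = l
  · subst hkl
    rw [Matrix.blockDiagonal'_apply_eq]
    by_cases hk : k = r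
    · subst hk
      rw [Pi.single_eq_same, Matrix.single_apply, Matrix.single_apply]
      by_cases h : a = x ∧ b = y
      · obtain ⟨rfl, rfl⟩ := h
        simp
      · rw [if_neg h, if_neg]
        rintro ⟨h1, h2⟩
        exact h ⟨by simpa using h1, by simpa using h2⟩
    · rw [Pi.single_eq_of_ne hk, Matrix.single_apply, if_neg]
      · rfl
      · rintro ⟨h1, -⟩
        exact hk (congrArg Sigma.fst h1).symm
  · rw [Matrix.blockDiagonal'_apply_ne _ _ _ hkl, Matrix.single_apply, if_neg]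
    rintro ⟨h1, h2⟩
    exact hkl ((congrArg Sigma.fst h1).symm.trans (congrArg Sigma.fst h2))

theorem sum_single {W V : Type} [Fintype W] [DecidableEq W] [AddCommGroup V] [Module ℂ V]
    (p q : W) (c : ℂ) (F : W → W → V) :
    ∑ u, ∑ v, (Matrix.single p q c) u v • F u v = c • F p q := by
  rw [Finset.sum_eq_single p, Finset.sum_eq_single q]
  · rw [Matrix.single_apply, if_pos ⟨rfl, rfl⟩]
  · intro b _ hb
    rw [Matrix.single_apply, if_neg (fun h => hb h.2.symm), zero_smul]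
  · intro h
    exact absurd (Finset.mem_univ _) h
  · intro b _ hb
    refine Finset.sum_eq_zero fun v _ => ?_
    rw [Matrix.single_apply, if_neg (fun h => hb h.1.symm), zero_smul]
  · intro h
    exact absurd (Finset.mem_univ _) h

end sums

theorem pc_mul (D : Dat) (i j : D.I) : D.pc i * D.pc j = if i = j then D.pc i else 0 := by
  have h := D.ks.mul i j
  have h2 := congrArg cx h
  rw [cx_mul] at h2
  refine h2.trans ?_
  split_ifs
  · rfl
  · ext a b
    simp [cx]

theorem pc_B (D : Dat) (i : D.I) (j : Fin D.n) :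
    D.pc i * cx (D.B j) = if i = D.ix j then cx (D.B j) else 0 := by
  have h1 : cx (D.B j) = D.pc (D.ix j) * cx (D.B j) := by
    rw [Dat.pc, ← cx_mul, D.ks.left]
  rw [h1, ← Matrix.mul_assoc, pc_mul]
  split_ifs with h
  · rw [h]
  · rw [Matrix.zero_mul]

theorem B_pc (D : Dat) (i : D.I) (j : Fin D.n) :
    cx (D.B j) * D.pc i = if i = D.ix j then cx (D.B j) else 0 := by
  have h1 : cx (D.B j) = cx (D.B j) * D.pc (D.ix j) := by
    rw [Dat.pc, ← cx_mul, D.ks.right]
  rw [h1, Matrix.mul_assoc, pc_mul]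
  split_ifs with h1 h2 h3
  · rfl
  · exact absurd h1.symm h2
  · exact absurd h3.symm h1
  · rw [Matrix.mul_zero]

/-- the point `1 - 2 π_i` satisfies the equations of the group -/
theorem mem_G0 (hHDA : SpecHDA) (D : Dat) (i : D.I) {σ : GL (Ix D.g) ℂ}
    (hσ : σ.1 = 1 - (2 : ℂ) • D.pc i) :
    ((σ, 1, 1) : Grp3 D.g D.n) ∈ G0 D.B (EndAlg D.c.1) D.A.psi := by
  obtain ⟨-, hendo⟩ := hHDA Qbar D.g D.N D.A D.c le_rfl D.ks.abvar D.ks.per
  refine ⟨fun j => ?_, fun Z hZ => ?_, ?_⟩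
  · change σ.1 * cx (D.B j) = (∑ i, (1 : Matrix (Fin D.n) (Fin D.n) ℂ) i j • cx (D.B i)) * σ.1
    rw [sum_one, hσ, Matrix.sub_mul, Matrix.mul_sub, Matrix.one_mul, Matrix.mul_one,
      Matrix.smul_mul, Matrix.mul_smul, pc_B, B_pc]
  · change σ.1 * cx Z = cx Z * σ.1
    have h1 : cx Z * D.pc i = D.pc i * cx Z := by
      rw [Dat.pc, ← cx_mul, ← cx_mul, D.ks.cen Z (hendo Z hZ) i]
    rw [hσ, Matrix.sub_mul, Matrix.mul_sub, Matrix.one_mul, Matrix.mul_one,
      Matrix.smul_mul, Matrix.mul_smul, h1]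
  · change σ.1ᵀ * cx D.A.psi * σ.1 = ((1 : ℂˣ) : ℂ) • cx D.A.psi
    have h1 : (D.pc i)ᵀ * cx D.A.psi = cx D.A.psi * D.pc i := by
      have h2 := congrArg cx (D.ks.psi i)
      rw [cx_mul, cx_mul] at h2
      exact h2
    have h2 : D.pc i * D.pc i = D.pc i := by rw [pc_mul, if_pos rfl]
    have h3 : σ.1ᵀ * cx D.A.psi = cx D.A.psi * σ.1 := by
      rw [hσ, Matrix.transpose_sub, Matrix.transpose_one, Matrix.transpose_smul, Matrix.sub_mul,
        Matrix.one_mul, Matrix.smul_mul, h1, Matrix.mul_sub, Matrix.mul_one, Matrix.mul_smul]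
    have h4 : σ.1 * σ.1 = 1 := by
      rw [hσ]
      simp only [Matrix.sub_mul, Matrix.mul_sub, Matrix.one_mul, Matrix.mul_one, Matrix.smul_mul,
        Matrix.mul_smul, h2]
      module
    rw [h3, Matrix.mul_assoc, h4, Matrix.mul_one, Units.val_one, one_smul]

/-- there is a block in every species -/
theorem exists_block (D : Dat) (i : D.I) :
    (∃ r : D.R, D.ox r = i) ∨ ∃ u : D.U, D.ou u = i ∧ 0 < D.m' u := by
  classical
  obtain ⟨a, rfl⟩ := D.ks.surj i
  by_contra hcon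
  push Not at hcon
  obtain ⟨hR, hU⟩ := hcon
  have hP : ∀ u, D.P a u = 0 := by
    intro u
    by_contra hne
    have h1 := D.split.eigR _ (D.ks.proj (D.ox u.1))
    have h2 := congrFun (congrFun h1 a) u
    rw [Matrix.mul_diagonal, D.good.inR, mul_one] at h2
    have h3 : (cx (prj D.ix (D.ox u.1)) * D.P) a u =
        (if D.ix a = D.ox u.1 then 1 else 0) * D.P a u := by
      have : cx (prj D.ix (D.ox u.1)) = diagonal fun a => if D.ix a = D.ox u.1 then (1 : ℂ) else 0 := by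
        ext x y
        simp only [prj, cx, Matrix.map_apply, Matrix.diagonal_apply]
        split_ifs <;> simp
      rw [this, Matrix.diagonal_mul]
    rw [h3] at h2
    by_cases h4 : D.ix a = D.ox u.1
    · exact hR u.1 h4.symm
    · rw [if_neg h4, zero_mul] at h2
      exact hne h2.symm
  have hdiag : ∀ j : D.I, cx (prj D.ix j) = diagonal fun a => if D.ix a = j then (1 : ℂ) else 0 := by
    intro j
    ext x y
    simp only [prj, cx, Matrix.map_apply, Matrix.diagonal_apply]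
    split_ifs <;> simp
  have hP' : ∀ u, D.P' a u = 0 := by
    intro u
    by_contra hne
    have h1 := D.split.eigP _ (D.ks.proj (D.ou u.1))
    have h2 := congrFun (congrFun h1 a) u
    rw [Matrix.mul_diagonal, D.good.inU, mul_one, hdiag, Matrix.diagonal_mul] at h2
    by_cases h4 : D.ix a = D.ou u.1
    · exact absurd (D.good.pos u.1) (not_lt.2 (hU u.1 h4.symm))
    · rw [if_neg h4, zero_mul] at h2
      exact hne h2.symm
  have hQ' : ∀ u, D.Q' a u = 0 := by
    intro u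
    by_contra hne
    have h1 := D.split.eigQ _ (D.ks.proj (D.ou u.1))
    have h2 := congrFun (congrFun h1 a) u
    rw [Matrix.mul_diagonal, D.good.inU, map_one, mul_one, hdiag, Matrix.diagonal_mul] at h2
    by_cases h4 : D.ix a = D.ou u.1
    · exact absurd (D.good.pos u.1) (not_lt.2 (hU u.1 h4.symm))
    · rw [if_neg h4, zero_mul] at h2
      exact hne h2.symm
  have h1 := congrFun (congrFun D.split.onto a) a
  rw [Matrix.add_apply, Matrix.add_apply, Matrix.mul_apply, Matrix.mul_apply, Matrix.mul_apply,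
    Matrix.one_apply_eq] at h1
  simp only [hP, hP', hQ', zero_mul, Finset.sum_const_zero, add_zero] at h1
  exact zero_ne_one h1

theorem qsym (D : Dat) : (cx D.qB)ᵀ = cx D.qB := by
  change (D.qBᵀ).map (fun x => (x : ℂ)) = cx D.qB
  rw [D.ks.symm]
  rfl

theorem dualT (D : Dat) : (D.Q'ᵀ * cx D.qB) * D.P' = 1 := by
  have h := congrArg Matrix.transpose D.split.dual
  rw [Matrix.transpose_mul, Matrix.transpose_mul, Matrix.transpose_transpose, qsym,
    Matrix.transpose_one, ← Matrix.mul_assoc] at h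
  exact h

theorem um_zero (D : Dat) : um D.P' D.Q' D.qB (blockDiagonal' (0 : D.FU)) = 0 := by
  rw [Matrix.blockDiagonal'_zero]
  simp [um]

/-- a complex matrix `A` with `A³ = A` in a skew-symmetric block -/
theorem cube_real {m : ℕ} {a b : Fin m} (hab : a ≠ b) :
    ((-Complex.I) • (Matrix.single a b (1 : ℂ) - Matrix.single b a 1)) *
      ((-Complex.I) • (Matrix.single a b (1 : ℂ) - Matrix.single b a 1)) *
      ((-Complex.I) • (Matrix.single a b (1 : ℂ) - Matrix.single b a 1)) =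
      (-Complex.I) • (Matrix.single a b (1 : ℂ) - Matrix.single b a 1) := by
  have h1 : (Matrix.single a b (1 : ℂ) - Matrix.single b a 1) *
      (Matrix.single a b (1 : ℂ) - Matrix.single b a 1) =
      -(Matrix.single a a (1 : ℂ) + Matrix.single b b 1) := by
    rw [Matrix.sub_mul, Matrix.mul_sub, Matrix.mul_sub, Matrix.single_mul_single_same,
      Matrix.single_mul_single_same, Matrix.single_mul_single_of_ne _ _ _ _ hab.symm,
      Matrix.single_mul_single_of_ne _ _ _ _ hab, mul_one]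
    abel
  have h2 : (Matrix.single a a (1 : ℂ) + Matrix.single b b 1) *
      (Matrix.single a b (1 : ℂ) - Matrix.single b a 1) =
      Matrix.single a b (1 : ℂ) - Matrix.single b a 1 := by
    rw [Matrix.add_mul, Matrix.mul_sub, Matrix.mul_sub, Matrix.single_mul_single_same,
      Matrix.single_mul_single_same, Matrix.single_mul_single_of_ne _ _ _ _ hab,
      Matrix.single_mul_single_of_ne _ _ _ _ hab.symm, mul_one]
    abel
  simp only [Matrix.smul_mul, Matrix.mul_smul, h1, h2, smul_smul, smul_neg,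
    ← neg_smul]
  congr 1
  linear_combination (Complex.I) * Complex.I_mul_I

end SgnM

open SgnM KRatM LieLM KGrpM KGrp3M in
theorem specMSgn (hFul : SpecMFul) (hCar : SpecMCar) (hCurve : SpecCurve) (hHDA : SpecHDA) :
    SpecMSgn := by
  intro D T hT i
  obtain ⟨hF, -⟩ := hFul D T hT
  obtain ⟨hgg, hee, hff, hef, hpg, hpe, hpf, hb, -, -⟩ := hCar D
  have hgeo := GL2.geo_of_torsor hT.tor
  have main : ∀ (X : D.FR) (Y : D.FU), (∀ k, (X k)ᵀ = -X k) →
      D.wm X Y * D.wm X Y * D.wm X Y = D.wm X Y →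
      ((2 : ℂ) • D.cl (D.wm X Y)) * ((2 : ℂ) • D.cl (D.wm X Y)) = D.pc i →
      D.pc i * ((2 : ℂ) • D.cl (D.wm X Y)) = (2 : ℂ) • D.cl (D.wm X Y) →
      ∃ σ : GL (Ix D.g) ℂ, σ.1 = 1 - (2 : ℂ) • D.pc i ∧
        ((σ, 1, 1) : Grp3 D.g D.n) ∈ G0 D.B (EndAlg D.c.1) D.A.psi ⊓ (stab T).comap bd3 := by
    intro X Y hX hN hM hM'
    have h1 : lb3 ((2 : ℂ)⁻¹ • ((2 : ℂ) • D.cl (D.wm X Y))) (D.wm X Y) 0 ∈ lie T := by
      rw [smul_smul, inv_mul_cancel₀ (two_ne_zero), one_smul]
      exact hF X Y hX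
    obtain ⟨σ, hσ, hσ'⟩ := key hCurve hgeo hN (by rw [hM, hM']) h1
    rw [hM] at hσ
    exact ⟨σ, hσ, mem_G0 hHDA D i hσ, hσ'⟩
  rcases exists_block D i with ⟨r, rfl⟩ | ⟨u, rfl, hu⟩
  · -- a real block
    have h3 := D.good.three r
    let a : Fin (D.m r) := ⟨0, by omega⟩
    let b : Fin (D.m r) := ⟨1, by omega⟩
    have hab : a ≠ b := by
      intro h
      have := congrArg Fin.val h
      simp [a, b] at this
    set A : Matrix (Fin (D.m r)) (Fin (D.m r)) ℂ :=
      (-Complex.I) • (Matrix.single a b (1 : ℂ) - Matrix.single b a 1) with hA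
    have hAt : Aᵀ = -A := by
      rw [hA, Matrix.transpose_smul, Matrix.transpose_sub, Matrix.transpose_single,
        Matrix.transpose_single, ← smul_neg, neg_sub]
    have hX : ∀ k, ((Pi.single r A : D.FR) k)ᵀ = -(Pi.single r A : D.FR) k := by
      intro k
      by_cases hk : k = r
      · subst hk
        rw [Pi.single_eq_same]
        exact hAt
      · rw [Pi.single_eq_of_ne hk]
        simp
    have hcl : D.cl (D.wm (Pi.single r A) 0) = (-Complex.I) • (D.gm ⟨r, a⟩ * D.gm ⟨r, b⟩) := by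
      have h4 : blockDiagonal' (Pi.single r A : D.FR) =
          Matrix.single (⟨r, a⟩ : (k : D.R) × Fin (D.m k)) ⟨r, b⟩ (-Complex.I) -
            Matrix.single ⟨r, b⟩ ⟨r, a⟩ (-Complex.I) := by
        rw [hA, smul_sub, Matrix.smul_single, Matrix.smul_single, smul_eq_mul, mul_one,
          Pi.single_sub, Matrix.blockDiagonal'_sub, bd_single, bd_single]
      have h5 := hgg ⟨r, b⟩ ⟨r, a⟩
      rw [if_neg (by simpa using hab.symm)] at h5
      have h6 : D.gm ⟨r, b⟩ * D.gm ⟨r, a⟩ = -(D.gm ⟨r, a⟩ * D.gm ⟨r, b⟩) :=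
        eq_neg_of_add_eq_zero_left h5
      rw [hb, h4]
      simp only [Matrix.sub_apply, sub_smul, Finset.sum_sub_distrib]
      rw [sum_single _ _ _ fun u v => D.gm u * D.gm v, sum_single _ _ _ fun u v => D.gm u * D.gm v,
        h6, Matrix.blockDiagonal'_zero]
      simp only [Matrix.zero_apply, zero_smul, Finset.sum_const_zero, Pi.zero_apply,
        Matrix.trace_zero, smul_zero, sub_zero, add_zero]
      module
    have hga : D.gm ⟨r, a⟩ * D.gm ⟨r, a⟩ = (2 : ℂ)⁻¹ • D.pc (D.ox r) := by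
      have h4 := hgg ⟨r, a⟩ ⟨r, a⟩
      rw [if_pos rfl, ← two_smul ℂ] at h4
      rw [← h4, smul_smul, inv_mul_cancel₀ two_ne_zero, one_smul]
    have hgb : D.gm ⟨r, b⟩ * D.gm ⟨r, b⟩ = (2 : ℂ)⁻¹ • D.pc (D.ox r) := by
      have h4 := hgg ⟨r, b⟩ ⟨r, b⟩
      rw [if_pos rfl, ← two_smul ℂ] at h4
      rw [← h4, smul_smul, inv_mul_cancel₀ two_ne_zero, one_smul]
    have hgba : D.gm ⟨r, b⟩ * D.gm ⟨r, a⟩ = -(D.gm ⟨r, a⟩ * D.gm ⟨r, b⟩) := by
      have h5 := hgg ⟨r, b⟩ ⟨r, a⟩
      rw [if_neg (by simpa using hab.symm)] at h5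
      exact eq_neg_of_add_eq_zero_left h5
    have hpa : D.pc (D.ox r) * D.gm ⟨r, a⟩ = D.gm ⟨r, a⟩ := by
      rw [(hpg (D.ox r) ⟨r, a⟩).1, if_pos rfl]
    have hpp : D.pc (D.ox r) * D.pc (D.ox r) = D.pc (D.ox r) := by rw [pc_mul, if_pos rfl]
    refine main (Pi.single r A) 0 hX ?_ ?_ ?_
    · have h4 : D.wm (Pi.single r A) 0 = cm D.P (D.Pᵀ * cx D.qB) (Pi.single r A) := by
        unfold Dat.wm cm
        rw [um_zero, add_zero]
      rw [h4, cm_mul D.split.orth, cm_mul D.split.orth]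
      congr 1
      funext k
      by_cases hk : k = r
      · subst hk
        rw [Pi.single_eq_same]
        exact cube_real hab
      · rw [Pi.single_eq_of_ne hk]
        simp
    · rw [hcl, smul_smul, Matrix.smul_mul, Matrix.mul_smul, smul_smul]
      have h4 : D.gm ⟨r, a⟩ * D.gm ⟨r, b⟩ * (D.gm ⟨r, a⟩ * D.gm ⟨r, b⟩) =
          -((4 : ℂ)⁻¹ • D.pc (D.ox r)) := by
        calc D.gm ⟨r, a⟩ * D.gm ⟨r, b⟩ * (D.gm ⟨r, a⟩ * D.gm ⟨r, b⟩) =
            D.gm ⟨r, a⟩ * (D.gm ⟨r, b⟩ * D.gm ⟨r, a⟩) * D.gm ⟨r, b⟩ := by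
              simp only [Matrix.mul_assoc]
          _ = -((D.gm ⟨r, a⟩ * D.gm ⟨r, a⟩) * (D.gm ⟨r, b⟩ * D.gm ⟨r, b⟩)) := by
              rw [hgba]
              simp only [Matrix.mul_assoc, Matrix.neg_mul, Matrix.mul_neg]
          _ = _ := by
              rw [hga, hgb, Matrix.smul_mul, Matrix.mul_smul, smul_smul, hpp]
              norm_num
      rw [h4, smul_neg, smul_smul, ← neg_smul]
      have h5 : -(2 * -Complex.I * (2 * -Complex.I) * (4 : ℂ)⁻¹) = 1 := by
        linear_combination (-1 : ℂ) * Complex.I_mul_I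
      rw [h5, one_smul]
    · rw [hcl, Matrix.mul_smul, Matrix.mul_smul, ← Matrix.mul_assoc, hpa]
  · -- a unitary block
    let a : Fin (D.m' u) := ⟨0, hu⟩
    set A : Matrix (Fin (D.m' u)) (Fin (D.m' u)) ℂ := Matrix.single a a 1 with hA
    have hAA : A * A = A := by
      rw [hA, Matrix.single_mul_single_same, mul_one]
    have hcl : D.cl (D.wm 0 (Pi.single u A)) =
        D.e ⟨u, a⟩ * D.f ⟨u, a⟩ - (2 : ℂ)⁻¹ • D.pc (D.ou u) := by
      rw [hb, hA, bd_single, sum_single _ _ _ fun u v => D.e u * D.f v, Matrix.blockDiagonal'_zero]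
      have h4 : ∑ k, ((Pi.single u (Matrix.single a a 1) : D.FU) k).trace • D.pc (D.ou k) =
          D.pc (D.ou u) := by
        rw [Finset.sum_eq_single u]
        · rw [Pi.single_eq_same, Matrix.trace_single_eq_same, one_smul]
        · intro k _ hk
          rw [Pi.single_eq_of_ne hk, Matrix.trace_zero, zero_smul]
        · intro h
          exact absurd (Finset.mem_univ _) h
      rw [h4]
      simp only [Matrix.zero_apply, zero_smul, Finset.sum_const_zero, smul_zero, zero_add, one_smul]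
    have hee0 : D.e ⟨u, a⟩ * D.e ⟨u, a⟩ = 0 := by
      have h4 := hee ⟨u, a⟩ ⟨u, a⟩
      rw [← two_smul ℂ] at h4
      exact (smul_eq_zero.1 h4).resolve_left two_ne_zero
    have hfe : D.f ⟨u, a⟩ * D.e ⟨u, a⟩ = D.pc (D.ou u) - D.e ⟨u, a⟩ * D.f ⟨u, a⟩ := by
      have h4 := hef ⟨u, a⟩ ⟨u, a⟩
      rw [if_pos rfl] at h4
      rw [← h4]
      abel
    have hpe1 : D.pc (D.ou u) * D.e ⟨u, a⟩ = D.e ⟨u, a⟩ := by
      rw [(hpe (D.ou u) ⟨u, a⟩).1, if_pos rfl]
    have hep1 : D.e ⟨u, a⟩ * D.pc (D.ou u) = D.e ⟨u, a⟩ := by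
      rw [(hpe (D.ou u) ⟨u, a⟩).2, if_pos rfl]
    have hfp1 : D.f ⟨u, a⟩ * D.pc (D.ou u) = D.f ⟨u, a⟩ := by
      rw [(hpf (D.ou u) ⟨u, a⟩).2, if_pos rfl]
    have hpp : D.pc (D.ou u) * D.pc (D.ou u) = D.pc (D.ou u) := by rw [pc_mul, if_pos rfl]
    have hefef : D.e ⟨u, a⟩ * D.f ⟨u, a⟩ * (D.e ⟨u, a⟩ * D.f ⟨u, a⟩) =
        D.e ⟨u, a⟩ * D.f ⟨u, a⟩ := by
      calc D.e ⟨u, a⟩ * D.f ⟨u, a⟩ * (D.e ⟨u, a⟩ * D.f ⟨u, a⟩) =
          D.e ⟨u, a⟩ * (D.f ⟨u, a⟩ * D.e ⟨u, a⟩) * D.f ⟨u, a⟩ := by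
            simp only [Matrix.mul_assoc]
        _ = _ := by
            rw [hfe, Matrix.mul_sub, hep1, ← Matrix.mul_assoc, hee0, Matrix.zero_mul, sub_zero]
    have h1 : D.e ⟨u, a⟩ * D.f ⟨u, a⟩ * D.pc (D.ou u) = D.e ⟨u, a⟩ * D.f ⟨u, a⟩ := by
      rw [Matrix.mul_assoc, hfp1]
    have h2 : D.pc (D.ou u) * (D.e ⟨u, a⟩ * D.f ⟨u, a⟩) = D.e ⟨u, a⟩ * D.f ⟨u, a⟩ := by
      rw [← Matrix.mul_assoc, hpe1]
    refine main 0 (Pi.single u A) (fun k => by simp) ?_ ?_ ?_
    · have h4 : ∀ Y : D.FU, D.wm 0 Y = cm D.P' (D.Q'ᵀ * cx D.qB) Y -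
          cm D.Q' (D.P'ᵀ * cx D.qB) (fun k => (Y k)ᵀ) := by
        intro Y
        unfold Dat.wm cm um
        rw [Matrix.blockDiagonal'_zero, Matrix.mul_zero, Matrix.zero_mul, zero_add,
          Matrix.blockDiagonal'_transpose]
      have h5 : ∀ Y Y' : D.FU, cm D.P' (D.Q'ᵀ * cx D.qB) Y *
          cm D.Q' (D.P'ᵀ * cx D.qB) Y' = 0 := by
        intro Y Y'
        unfold cm
        calc _ = D.P' * blockDiagonal' Y * (D.Q'ᵀ * cx D.qB * D.Q') * blockDiagonal' Y' *
              (D.P'ᵀ * cx D.qB) := by simp only [Matrix.mul_assoc]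
          _ = 0 := by
              rw [D.split.isoQ]
              simp only [Matrix.mul_zero, Matrix.zero_mul]
      have h6 : ∀ Y Y' : D.FU, cm D.Q' (D.P'ᵀ * cx D.qB) Y *
          cm D.P' (D.Q'ᵀ * cx D.qB) Y' = 0 := by
        intro Y Y'
        unfold cm
        calc _ = D.Q' * blockDiagonal' Y * (D.P'ᵀ * cx D.qB * D.P') * blockDiagonal' Y' *
              (D.Q'ᵀ * cx D.qB) := by simp only [Matrix.mul_assoc]
          _ = 0 := by
              rw [D.split.isoP]
              simp only [Matrix.mul_zero, Matrix.zero_mul]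
      have h7 := fun Y Y' : D.FU => cm_mul (dualT D) Y Y'
      have h8 := fun Y Y' : D.FU => cm_mul D.split.dual Y Y'
      have hsq : (fun k => (Pi.single u A : D.FU) k * (Pi.single u A : D.FU) k) =
          (Pi.single u A : D.FU) := by
        funext k
        by_cases hk : k = u
        · subst hk
          rw [Pi.single_eq_same]
          exact hAA
        · rw [Pi.single_eq_of_ne hk, Matrix.mul_zero]
      have hsq' : (fun k => ((Pi.single u A : D.FU) k)ᵀ * ((Pi.single u A : D.FU) k)ᵀ) =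
          fun k => ((Pi.single u A : D.FU) k)ᵀ := by
        funext k
        rw [← Matrix.transpose_mul]
        exact congrArg Matrix.transpose (congrFun hsq k)
      rw [h4]
      simp only [Matrix.sub_mul, Matrix.mul_sub, h5, h6, h7, h8, hsq, hsq', sub_zero, zero_sub,
        sub_neg_eq_add, Matrix.add_mul, zero_add, add_zero]
    · rw [hcl]
      simp only [smul_sub, smul_smul, Matrix.sub_mul, Matrix.mul_sub, Matrix.smul_mul,
        Matrix.mul_smul, hefef, h1, h2, hpp]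
      module
    · rw [hcl, Matrix.mul_smul, Matrix.mul_sub, Matrix.mul_smul, h2, hpp]

end Pool.Agent.Lib.MPf11a48.KM
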