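import Pool.Agent.Lib.MP_f11a48_ag.KM.SpecA

/-! # Real blocks of the same species have different power sums -/

set_option autoImplicit false
set_option linter.unusedSectionVars false

namespace Pool.Agent.Lib.MPf11a48.KM

open Matrix MvPolynomial Pool.Agent.Lib.MPf11a48.Tors
open Pool.Agent.Lib.MPf11a48.CM hiding OmegaM
open Pool.Agent.Lib.MPf11a48.GL2 (lie Geo)
open Pool.Agent.Lib.MPf11a48.GL2T (IsAlg)
open Pool.Agent.Lib.MPf11a48.U (AbData Ix HD EndAlg)
open Pool.Agent.Lib.MPf11a48.K3 Pool.Agent.Lib.MPf11a48.KU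
open KLieM (bl clC gam)

namespace SpgM

theorem cxm {a b c : Type} [Fintype b] (A : Matrix a b ℚ) (B : Matrix b c ℚ) :
    cx (A * B) = cx A * cx B := by
  ext i j
  change (((A * B) i j : ℚ) : ℂ) = _
  rw [Matrix.mul_apply, Matrix.mul_apply]
  push_cast
  rfl

theorem cxa {a b : Type} (A B : Matrix a b ℚ) : cx (A + B) = cx A + cx B := by
  ext i j
  change (((A + B) i j : ℚ) : ℂ) = _
  rw [Matrix.add_apply]
  push_cast
  rfl

theorem cxs {a b : Type} (A B : Matrix a b ℚ) : cx (A - B) = cx A - cx B := by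
  ext i j
  change (((A - B) i j : ℚ) : ℂ) = _
  rw [Matrix.sub_apply]
  push_cast
  rfl

theorem cxz {a b : Type} : cx (0 : Matrix a b ℚ) = 0 := by
  ext i j
  change (((0 : ℚ)) : ℂ) = _
  simp

/-- rational infinitesimal isometries -/
theorem mem_so (D : Dat) {ρ : Matrix (Fin D.n) (Fin D.n) ℚ} (h : ρ ∈ soE D.qB D.E) :
    cx ρ ∈ D.so := by
  refine ⟨?_, fun e he => ?_⟩
  · have h1 := congrArg cx h.1
    rw [cxa, cxm, cxm, cxz] at h1
    exact h1
  · have h1 := congrArg cx (h.2 e he)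
    rw [cxm, cxm] at h1
    exact h1

theorem xr_add (D : Dat) (ρ ρ' : Matrix (Fin D.n) (Fin D.n) ℂ) (k : D.R) :
    D.xr (ρ + ρ') k = D.xr ρ k + D.xr ρ' k := by
  unfold Dat.xr
  rw [Matrix.mul_add, Matrix.add_mul, blockDiag'_add]
  rfl

theorem xr_br (hMat : SpecMMat) (D : Dat) {ρ ρ' : Matrix (Fin D.n) (Fin D.n) ℂ} (h : ρ ∈ D.so)
    (h' : ρ' ∈ D.so) (k : D.R) :
    D.xr (ρ * ρ' - ρ' * ρ) k = D.xr ρ k * D.xr ρ' k - D.xr ρ' k * D.xr ρ k := by
  obtain ⟨h1, -, h3, h4, -⟩ := hMat D
  have e : ρ * ρ' - ρ' * ρ = D.wm (fun k => D.xr ρ k * D.xr ρ' k - D.xr ρ' k * D.xr ρ k)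
      (fun k => D.xu ρ k * D.xu ρ' k - D.xu ρ' k * D.xu ρ k) := by
    rw [← h4, ← (h1 ρ h).2, ← (h1 ρ' h').2]
  rw [e, (h3 _ _).1]

end SpgM

open SpgM in
theorem specMSpg (hMat : SpecMMat) (hBlk : SpecMBlk) (hNls : SpecMNls) (hGour : SpecGour) :
    SpecMSpg := by
  intro D kk r mm hK k l hkl hox
  by_contra hcon
  push Not at hcon
  let kl : Bool → D.R := fun b => cond b k l
  have hso : ∀ Z ∈ kk, cx (r Z) ∈ D.so := fun Z hZ => mem_so D (hK.so Z hZ)
  obtain ⟨S, hS⟩ : ∃ S : Set ((b : Bool) → Matrix (Fin (D.m (kl b))) (Fin (D.m (kl b))) ℂ),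
    S = {F | ∃ Z ∈ kk, F = fun b => D.xr (cx (r Z)) (kl b)} := ⟨_, rfl⟩
  have hskew : ∀ X ∈ Submodule.span ℂ S, ∀ b, (X b)ᵀ = -X b := by
    intro X hX b
    induction hX using Submodule.span_induction with
    | mem x hx =>
      rw [hS] at hx
      obtain ⟨Z, hZ, rfl⟩ := hx
      exact ((hMat D).1 _ (hso Z hZ)).1 (kl b)
    | zero => simp
    | add x y _ _ hx hy =>
      change (x b + y b)ᵀ = -(x b + y b)
      rw [Matrix.transpose_add, hx, hy]
      abel
    | smul a x _ hx =>
      change (a • x b)ᵀ = -(a • x b)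
      rw [Matrix.transpose_smul, hx, smul_neg]
  have hbr : ∀ X ∈ Submodule.span ℂ S, ∀ Y ∈ Submodule.span ℂ S,
      (fun b => X b * Y b - Y b * X b) ∈ Submodule.span ℂ S := by
    intro X hX Y hY
    induction hX, hY using Submodule.span_induction₂ with
    | mem_mem x y hx hy =>
      rw [hS] at hx hy
      obtain ⟨Z, hZ, rfl⟩ := hx
      obtain ⟨Z', hZ', rfl⟩ := hy
      refine Submodule.subset_span ?_
      rw [hS]
      refine ⟨Z * Z' - Z' * Z, hK.br Z hZ Z' hZ', ?_⟩
      funext b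
      rw [hK.rbr Z hZ Z' hZ', cxs, cxm, cxm, xr_br hMat D (hso Z hZ) (hso Z' hZ')]
    | zero_left y hy =>
      have e : (fun b => (0 : (b : Bool) → Matrix (Fin (D.m (kl b))) (Fin (D.m (kl b))) ℂ) b * y b -
          y b * (0 : (b : Bool) → Matrix (Fin (D.m (kl b))) (Fin (D.m (kl b))) ℂ) b) = 0 := by
        funext b
        simp
      rw [e]
      exact Submodule.zero_mem _
    | zero_right x hx =>
      have e : (fun b => x b * (0 : (b : Bool) → Matrix (Fin (D.m (kl b))) (Fin (D.m (kl b))) ℂ) b -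
          (0 : (b : Bool) → Matrix (Fin (D.m (kl b))) (Fin (D.m (kl b))) ℂ) b * x b) = 0 := by
        funext b
        simp
      rw [e]
      exact Submodule.zero_mem _
    | add_left x y z _ _ _ h1 h2 =>
      have e : (fun b => (x + y) b * z b - z b * (x + y) b) =
          (fun b => x b * z b - z b * x b) + fun b => y b * z b - z b * y b := by
        funext b
        simp only [Pi.add_apply, Matrix.add_mul, Matrix.mul_add]
        abel
      rw [e]
      exact Submodule.add_mem _ h1 h2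
    | add_right x y z _ _ _ h1 h2 =>
      have e : (fun b => x b * (y + z) b - (y + z) b * x b) =
          (fun b => x b * y b - y b * x b) + fun b => x b * z b - z b * x b := by
        funext b
        simp only [Pi.add_apply, Matrix.add_mul, Matrix.mul_add]
        abel
      rw [e]
      exact Submodule.add_mem _ h1 h2
    | smul_left a x y _ _ h =>
      have e : (fun b => (a • x) b * y b - y b * (a • x) b) =
          a • fun b => x b * y b - y b * x b := by
        funext b
        simp only [Pi.smul_apply, Matrix.smul_mul, Matrix.mul_smul, smul_sub]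
      rw [e]
      exact Submodule.smul_mem _ a h
    | smul_right a x y _ _ h =>
      have e : (fun b => x b * (a • y) b - (a • y) b * x b) =
          a • fun b => x b * y b - y b * x b := by
        funext b
        simp only [Pi.smul_apply, Matrix.smul_mul, Matrix.mul_smul, smul_sub]
      rw [e]
      exact Submodule.smul_mem _ a h
  have hsur : ∀ b, ∀ A : Matrix (Fin (D.m (kl b))) (Fin (D.m (kl b))) ℂ, Aᵀ = -A →
      ∃ X ∈ Submodule.span ℂ S, X b = A := by
    intro b A hA
    have h1 := (hBlk D kk r mm hK).1 (kl b) A hA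
    have h2 : {Y | ∃ Z ∈ kk, Y = D.xr (cx (r Z)) (kl b)} =
        (LinearMap.proj (R := ℂ)
          (φ := fun b => Matrix (Fin (D.m (kl b))) (Fin (D.m (kl b))) ℂ) b) '' S := by
      rw [hS]
      ext Y
      constructor
      · rintro ⟨Z, hZ, rfl⟩
        exact ⟨_, ⟨Z, hZ, rfl⟩, rfl⟩
      · rintro ⟨_, ⟨Z, hZ, rfl⟩, rfl⟩
        exact ⟨Z, hZ, rfl⟩
    rw [h2, ← Submodule.map_span] at h1
    obtain ⟨X, hX, hXA⟩ := h1
    exact ⟨X, hX, hXA⟩
  have hnl : ∀ a b : Bool, a ≠ b → NL {p | ∃ X ∈ Submodule.span ℂ S, p = (X a, X b)} := by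
    intro a b hab φ h1 h2 h3
    have h4 : ∀ p ∈ {p | ∃ Z ∈ kk, p = (D.xr (cx (r Z)) (kl a), D.xr (cx (r Z)) (kl b))},
        ∀ Y, φ (p.1 * Y - Y * p.1) = p.2 * φ Y - φ Y * p.2 := by
      rintro _ ⟨Z, hZ, rfl⟩ Y
      refine h3 (D.xr (cx (r Z)) (kl a), D.xr (cx (r Z)) (kl b))
        ⟨fun b => D.xr (cx (r Z)) (kl b), Submodule.subset_span ?_, rfl⟩ Y
      rw [hS]
      exact ⟨Z, hZ, rfl⟩
    have h5 : kl a ≠ kl b ∧ D.ox (kl a) = D.ox (kl b) := by
      cases a <;> cases b
      · exact absurd rfl hab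
      · exact ⟨hkl.symm, hox.symm⟩
      · exact ⟨hkl, hox⟩
      · exact absurd rfl hab
    exact (hNls D kk r mm hK).1 (kl a) (kl b) h5.1 h5.2 φ h1 h2 h4
  have hall := hGour ℂ Bool (fun b => D.m (kl b)) (fun b => D.good.three _) (Submodule.span ℂ S)
    hskew hbr hsur hnl
  -- the invariant form
  have hform : ∀ X ∈ Submodule.span ℂ S, ∀ Y ∈ Submodule.span ℂ S,
      (X true * Y true).trace = (X false * Y false).trace := by
    intro X hX Y hY
    induction hX, hY using Submodule.span_induction₂ with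
    | mem_mem x y hx hy =>
      rw [hS] at hx hy
      obtain ⟨Z, hZ, rfl⟩ := hx
      obtain ⟨Z', hZ', rfl⟩ := hy
      have h1 := hcon Z hZ
      have h2 := hcon Z' hZ'
      have h3 := hcon (Z + Z') (kk.add_mem hZ hZ')
      rw [hK.radd Z hZ Z' hZ', cxa, xr_add, xr_add] at h3
      have e : ∀ (m : ℕ) (A B : Matrix (Fin m) (Fin m) ℂ), ((A + B) ^ 2).trace =
          (A ^ 2).trace + 2 * (A * B).trace + (B ^ 2).trace := by
        intro m A B
        rw [pow_two, Matrix.add_mul, Matrix.mul_add, Matrix.mul_add, Matrix.trace_add,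
          Matrix.trace_add, Matrix.trace_add, Matrix.trace_mul_comm B A, pow_two, pow_two]
        ring
      rw [e, e, h1, h2] at h3
      have h4 : 2 * (D.xr (cx (r Z)) k * D.xr (cx (r Z')) k).trace =
          2 * (D.xr (cx (r Z)) l * D.xr (cx (r Z')) l).trace := by
        linear_combination h3
      exact mul_left_cancel₀ two_ne_zero h4
    | zero_left y hy => simp
    | zero_right x hx => simp
    | add_left x y z _ _ _ h1 h2 =>
      simp only [Pi.add_apply, Matrix.add_mul, Matrix.trace_add, h1, h2]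
    | add_right x y z _ _ _ h1 h2 =>
      simp only [Pi.add_apply, Matrix.mul_add, Matrix.trace_add, h1, h2]
    | smul_left a x y _ _ h =>
      simp only [Pi.smul_apply, Matrix.smul_mul, Matrix.trace_smul, h]
    | smul_right a x y _ _ h =>
      simp only [Pi.smul_apply, Matrix.mul_smul, Matrix.trace_smul, h]
  have h3m : 3 ≤ D.m (kl true) := D.good.three _
  obtain ⟨i0, i1, hi⟩ : ∃ i0 i1 : Fin (D.m (kl true)), i0 ≠ i1 :=
    ⟨⟨0, by omega⟩, ⟨1, by omega⟩, by simp [Fin.ext_iff]⟩
  obtain ⟨F, hF⟩ : ∃ F : Matrix (Fin (D.m (kl true))) (Fin (D.m (kl true))) ℂ,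
    F = Matrix.single i0 i1 1 - Matrix.single i1 i0 1 := ⟨_, rfl⟩
  have hFs : Fᵀ = -F := by
    rw [hF, Matrix.transpose_sub, Matrix.transpose_single, Matrix.transpose_single]
    abel
  have hF2 : (F * F).trace = -2 := by
    rw [hF, Matrix.sub_mul, Matrix.mul_sub, Matrix.mul_sub,
      Matrix.single_mul_single_of_ne _ _ _ _ hi.symm, Matrix.single_mul_single_same,
      Matrix.single_mul_single_same, Matrix.single_mul_single_of_ne _ _ _ _ hi]
    simp only [Matrix.trace_sub, Matrix.trace_zero, Matrix.trace_single_eq_same]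
    norm_num
  have hG := hall (fun b => if h : b = true then (h ▸ F) else 0) (by
    intro b
    cases b
    · simp
    · exact hFs)
  have h6 := hform _ hG _ hG
  simp only [dif_pos, Bool.false_eq_true, dite_false, Matrix.mul_zero, Matrix.trace_zero] at h6
  rw [hF2] at h6
  norm_num at h6

end Pool.Agent.Lib.MPf11a48.KM
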