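import Pool.Agent.Lib.MP_f11a48_ag.KM.Tot

/-! # Links between unitary blocks of the same size in different species -/

set_option autoImplicit false
set_option linter.unusedSectionVars false

namespace Pool.Agent.Lib.MPf11a48.KM

open Matrix MvPolynomial Pool.Agent.Lib.MPf11a48.Tors
open Pool.Agent.Lib.MPf11a48.CM hiding OmegaM
open Pool.Agent.Lib.MPf11a48.GL2 (lie Geo)
open Pool.Agent.Lib.MPf11a48.GL2T (IsAlg)
open Pool.Agent.Lib.MPf11a48.U (AbData Ix HD EndAlg)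
open Pool.Agent.Lib.MPf11a48.K3 Pool.Agent.Lib.MPf11a48.KU
open KLieM (bl clC gam)

namespace UuxM

/-! ### The cubic form -/

/-- the part of trace zero -/
noncomputable def tl {d : ℕ} (X : Matrix (Fin d) (Fin d) ℂ) : Matrix (Fin d) (Fin d) ℂ :=
  X - (X.trace / (d : ℂ)) • (1 : Matrix (Fin d) (Fin d) ℂ)

theorem tl_add {d : ℕ} (X Y : Matrix (Fin d) (Fin d) ℂ) : tl (X + Y) = tl X + tl Y := by
  unfold tl
  rw [Matrix.trace_add, add_div, add_smul]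
  abel

theorem tl_smul {d : ℕ} (a : ℂ) (X : Matrix (Fin d) (Fin d) ℂ) : tl (a • X) = a • tl X := by
  unfold tl
  rw [Matrix.trace_smul, smul_sub, smul_smul, smul_eq_mul, mul_div_assoc]

/-- the polar form of `tp 3` -/
noncomputable def T3 {d : ℕ} (X Y W : Matrix (Fin d) (Fin d) ℂ) : ℂ :=
  (tl X * tl Y * tl W).trace + (tl X * tl W * tl Y).trace

theorem T3_self {d : ℕ} (X : Matrix (Fin d) (Fin d) ℂ) : T3 X X X = 2 * tp 3 X := by
  unfold T3 tp
  rw [two_mul]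
  have : (X - (X.trace / (d : ℂ)) • (1 : Matrix (Fin d) (Fin d) ℂ)) ^ 3 = tl X * tl X * tl X := by
    rw [pow_succ, pow_two]
    rfl
  rw [this]

theorem T3_23 {d : ℕ} (X Y W : Matrix (Fin d) (Fin d) ℂ) : T3 X Y W = T3 X W Y := by
  unfold T3
  rw [add_comm]

theorem T3_12 {d : ℕ} (X Y W : Matrix (Fin d) (Fin d) ℂ) : T3 X Y W = T3 Y X W := by
  unfold T3
  rw [Matrix.trace_mul_comm (tl Y * tl X), Matrix.trace_mul_comm (tl Y * tl W), ← mul_assoc,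
    ← mul_assoc, Matrix.trace_mul_comm (tl W * tl Y), ← mul_assoc, add_comm]

theorem T3_add {d : ℕ} (X X' Y W : Matrix (Fin d) (Fin d) ℂ) :
    T3 (X + X') Y W = T3 X Y W + T3 X' Y W := by
  unfold T3
  rw [tl_add, add_mul, add_mul, add_mul, add_mul, Matrix.trace_add, Matrix.trace_add]
  ring

theorem T3_smul {d : ℕ} (a : ℂ) (X Y W : Matrix (Fin d) (Fin d) ℂ) :
    T3 (a • X) Y W = a * T3 X Y W := by
  unfold T3
  rw [tl_smul, smul_mul_assoc, smul_mul_assoc, smul_mul_assoc, smul_mul_assoc,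
    Matrix.trace_smul, Matrix.trace_smul, smul_eq_mul, smul_eq_mul]
  ring

theorem T3_zero {d : ℕ} (Y W : Matrix (Fin d) (Fin d) ℂ) : T3 0 Y W = 0 := by
  have := T3_smul (0 : ℂ) 0 Y W
  rwa [zero_smul, zero_mul] at this

theorem T3_add2 {d : ℕ} (X Y Y' W : Matrix (Fin d) (Fin d) ℂ) :
    T3 X (Y + Y') W = T3 X Y W + T3 X Y' W := by
  rw [T3_12, T3_add, T3_12 Y, T3_12 Y']

theorem T3_add3 {d : ℕ} (X Y W W' : Matrix (Fin d) (Fin d) ℂ) :
    T3 X Y (W + W') = T3 X Y W + T3 X Y W' := by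
  rw [T3_23, T3_add2, T3_23 X W, T3_23 X W']

/-- polarisation -/
theorem polar {d : ℕ} (V : Set (Matrix (Fin d) (Fin d) ℂ)) (hV : ∀ X ∈ V, ∀ Y ∈ V, X + Y ∈ V)
    (h : ∀ X ∈ V, tp 3 X = 0) : ∀ X ∈ V, ∀ Y ∈ V, ∀ W ∈ V, T3 X Y W = 0 := by
  have h0 : ∀ X ∈ V, T3 X X X = 0 := fun X hX => by rw [T3_self, h X hX, mul_zero]
  have h1 : ∀ X ∈ V, ∀ Y ∈ V, T3 X X Y + T3 X Y Y = 0 := by
    intro X hX Y hY
    have h2 := h0 _ (hV X hX Y hY)
    simp only [T3_add, T3_add2, T3_add3] at h2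
    rw [h0 X hX, h0 Y hY, T3_23 X Y X, T3_12 Y X X, T3_23 X Y X, T3_12 Y X Y, T3_23 Y Y X,
      T3_12 Y X Y] at h2
    have h3 : (3 : ℂ) * (T3 X X Y + T3 X Y Y) = 0 := by linear_combination h2
    exact (mul_eq_zero.1 h3).resolve_left (by norm_num)
  intro X hX Y hY W hW
  have h2 := h1 _ (hV X hX Y hY) W hW
  simp only [T3_add, T3_add2] at h2
  have h3 := h1 X hX W hW
  have h4 := h1 Y hY W hW
  rw [T3_12 Y X W] at h2
  have h5 : (2 : ℂ) * T3 X Y W = 0 := by linear_combination h2 - h3 - h4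
  exact (mul_eq_zero.1 h5).resolve_left (by norm_num)

theorem span_zero {d : ℕ} (V : Set (Matrix (Fin d) (Fin d) ℂ)) (g : Matrix (Fin d) (Fin d) ℂ → ℂ)
    (h0 : g 0 = 0) (h1 : ∀ X Y, g (X + Y) = g X + g Y) (h2 : ∀ (a : ℂ) (X), g (a • X) = a * g X)
    (h : ∀ X ∈ V, g X = 0) : ∀ X ∈ Submodule.span ℂ V, g X = 0 := by
  intro X hX
  induction hX using Submodule.span_induction with
  | mem x hx => exact h x hx
  | zero => exact h0
  | add x y _ _ hx hy => rw [h1, hx, hy, add_zero]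
  | smul a x _ hx => rw [h2, hx, mul_zero]

theorem cubic_span {d : ℕ} (V : Set (Matrix (Fin d) (Fin d) ℂ))
    (hV : ∀ X ∈ V, ∀ Y ∈ V, X + Y ∈ V) (h : ∀ X ∈ V, tp 3 X = 0) :
    ∀ X ∈ Submodule.span ℂ V, tp 3 X = 0 := by
  have h1 := polar V hV h
  have h2 : ∀ X ∈ Submodule.span ℂ V, ∀ Y ∈ V, ∀ W ∈ V, T3 X Y W = 0 := by
    intro X hX Y hY W hW
    exact span_zero V (fun X => T3 X Y W) (T3_zero Y W) (fun X X' => T3_add X X' Y W)
      (fun a X => T3_smul a X Y W) (fun X hX => h1 X hX Y hY W hW) X hX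
  have h3 : ∀ X ∈ Submodule.span ℂ V, ∀ Y ∈ Submodule.span ℂ V, ∀ W ∈ V, T3 X Y W = 0 := by
    intro X hX Y hY W hW
    rw [T3_12]
    exact span_zero V (fun Y => T3 Y X W) (T3_zero X W) (fun Y Y' => T3_add Y Y' X W)
      (fun a Y => T3_smul a Y X W) (fun Y hY => by
        show T3 Y X W = 0
        rw [T3_12]; exact h2 X hX Y hY W hW) Y hY
  have h4 : ∀ X ∈ Submodule.span ℂ V, ∀ Y ∈ Submodule.span ℂ V, ∀ W ∈ Submodule.span ℂ V,
      T3 X Y W = 0 := by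
    intro X hX Y hY W hW
    rw [T3_23, T3_12]
    exact span_zero V (fun W => T3 W X Y) (T3_zero X Y) (fun W W' => T3_add W W' X Y)
      (fun a W => T3_smul a W X Y) (fun W hW => by
        show T3 W X Y = 0
        rw [T3_12, T3_23]; exact h3 X hX Y hY W hW) W hW
  intro X hX
  have h5 := h4 X hX X hX X hX
  rw [T3_self] at h5
  exact (mul_eq_zero.1 h5).resolve_left (by norm_num)

/-- a matrix of trace zero with `tp 3 ≠ 0` -/
theorem test {d : ℕ} (hd : 3 ≤ d) : ∃ X : Matrix (Fin d) (Fin d) ℂ, X.trace = 0 ∧ tp 3 X ≠ 0 := by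
  obtain ⟨i0, i1, i2, h01, h02, h12⟩ : ∃ i0 i1 i2 : Fin d, i0 ≠ i1 ∧ i0 ≠ i2 ∧ i1 ≠ i2 :=
    ⟨⟨0, by omega⟩, ⟨1, by omega⟩, ⟨2, by omega⟩, by simp [Fin.ext_iff], by simp [Fin.ext_iff],
      by simp [Fin.ext_iff]⟩
  set v : Fin d → ℂ := fun i => (if i = i0 then 1 else 0) + (if i = i1 then 1 else 0) +
    (if i = i2 then -2 else 0) with hv
  have htr : (diagonal v).trace = 0 := by
    rw [Matrix.trace_diagonal]
    simp only [hv, Finset.sum_add_distrib, Finset.sum_ite_eq', Finset.mem_univ, if_true]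
    norm_num
  refine ⟨diagonal v, htr, ?_⟩
  have h3 : tp 3 (diagonal v) = ∑ i, v i ^ 3 := by
    unfold tp
    rw [htr, zero_div, zero_smul, sub_zero, Matrix.diagonal_pow, Matrix.trace_diagonal]
    rfl
  have h4 : ∀ i, v i ^ 3 = (if i = i0 then 1 else 0) + (if i = i1 then 1 else 0) +
      (if i = i2 then -8 else 0) := by
    intro i
    simp only [hv]
    by_cases a0 : i = i0
    · have b1 : ¬ i = i1 := fun h => h01 (a0.symm.trans h)
      have b2 : ¬ i = i2 := fun h => h02 (a0.symm.trans h)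
      simp only [if_pos a0, if_neg b1, if_neg b2]
      norm_num
    · by_cases a1 : i = i1
      · have b2 : ¬ i = i2 := fun h => h12 (a1.symm.trans h)
        simp only [if_neg a0, if_pos a1, if_neg b2]
        norm_num
      · by_cases a2 : i = i2
        · simp only [if_neg a0, if_neg a1, if_pos a2]
          norm_num
        · simp only [if_neg a0, if_neg a1, if_neg a2]
          norm_num
  rw [h3, Finset.sum_congr rfl fun i _ => h4 i]
  simp only [Finset.sum_add_distrib, Finset.sum_ite_eq', Finset.mem_univ, if_true]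
  norm_num

theorem tp3 {d : ℕ} (hd : 0 < d) (X : Matrix (Fin d) (Fin d) ℂ) :
    tp 3 X = (X ^ 3).trace - 3 * (X ^ 1).trace * (X ^ 2).trace / (d : ℂ) +
      2 * (X ^ 1).trace ^ 3 / (d : ℂ) ^ 2 := by
  have hd' : (d : ℂ) ≠ 0 := by exact_mod_cast hd.ne'
  unfold tp
  rw [pow_one]
  generalize hc : X.trace / (d : ℂ) = c
  have h1 : (X - c • (1 : Matrix (Fin d) (Fin d) ℂ)) ^ 3 =
      X ^ 3 - (3 * c) • X ^ 2 + (3 * c ^ 2) • X - c ^ 3 • (1 : Matrix (Fin d) (Fin d) ℂ) := by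
    simp only [pow_succ, pow_zero, one_mul, sub_mul, mul_sub, smul_mul_assoc, mul_smul_comm,
      mul_one, smul_sub, smul_smul]
    module
  rw [h1, Matrix.trace_sub, Matrix.trace_add, Matrix.trace_sub, Matrix.trace_smul,
    Matrix.trace_smul, Matrix.trace_smul, Matrix.trace_one, Fintype.card_fin, ← hc]
  simp only [smul_eq_mul]
  field_simp
  ring

/-! ### Galois action -/

/-- power sums on an eigenspace -/
noncomputable def PP (D : Dat) (ρ : Matrix (Fin D.n) (Fin D.n) ℚ) (p : ℕ) (s : D.U ⊕ D.U) : ℂ :=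
  (cx ρ ^ p * D.pr (Sum.inr s)).trace

/-- the cubic invariant of an eigenspace -/
noncomputable def q3 (D : Dat) (ρ : Matrix (Fin D.n) (Fin D.n) ℚ) (s : D.U ⊕ D.U) : ℂ :=
  PP D ρ 3 s - 3 * PP D ρ 1 s * PP D ρ 2 s / PP D ρ 0 s + 2 * PP D ρ 1 s ^ 3 / PP D ρ 0 s ^ 2

theorem q3_gal (hGal : SpecMGal) (D : Dat) (τ : ℂ ≃+* ℂ) (s s' : D.U ⊕ D.U)
    (h : ∀ e ∈ D.E, D.ch e (Sum.inr s') = τ (D.ch e (Sum.inr s)))
    (ρ : Matrix (Fin D.n) (Fin D.n) ℚ) : q3 D ρ s' = τ (q3 D ρ s) := by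
  have h1 : ∀ p, PP D ρ p s' = τ (PP D ρ p s) := by
    intro p
    unfold PP
    rw [← TotM.cx_pow, TotM.map_tr, (hGal D).2.1 τ (Sum.inr s) (Sum.inr s') h]
  unfold q3
  simp only [h1, map_add, map_sub, map_mul, map_div₀, map_pow, map_ofNat]

theorem q3_inl (hTrp : SpecMTrp) (D : Dat) (ρ : Matrix (Fin D.n) (Fin D.n) ℚ)
    (hρ : cx ρ ∈ D.so) (u : D.U) : q3 D ρ (Sum.inl u) = tp 3 (D.xu (cx ρ) u) := by
  have h1 : ∀ p, PP D ρ p (Sum.inl u) = ((D.xu (cx ρ) u) ^ p).trace :=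
    fun p => (hTrp D _ hρ).2.1 p u
  have h0 : PP D ρ 0 (Sum.inl u) = (D.m' u : ℂ) := by
    rw [h1, pow_zero, Matrix.trace_one, Fintype.card_fin]
  unfold q3
  rw [h0, h1, h1, h1, tp3 (D.good.pos u)]

theorem q3_inr (hTrp : SpecMTrp) (D : Dat) (ρ : Matrix (Fin D.n) (Fin D.n) ℚ)
    (hρ : cx ρ ∈ D.so) (u : D.U) : q3 D ρ (Sum.inr u) = -tp 3 (D.xu (cx ρ) u) := by
  have h1 : ∀ p, PP D ρ p (Sum.inr u) = ((-D.xu (cx ρ) u) ^ p).trace :=
    fun p => (hTrp D _ hρ).2.2 p u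
  have h0 : PP D ρ 0 (Sum.inr u) = (D.m' u : ℂ) := by
    rw [h1, pow_zero, Matrix.trace_one, Fintype.card_fin]
  have h2 : ∀ p, ((-D.xu (cx ρ) u) ^ p).trace = (-1) ^ p * ((D.xu (cx ρ) u) ^ p).trace := by
    intro p
    have h3 : (-D.xu (cx ρ) u) ^ p = ((-1 : ℂ) ^ p) • (D.xu (cx ρ) u) ^ p := by
      rw [← smul_pow, neg_smul, one_smul]
    rw [h3, Matrix.trace_smul, smul_eq_mul]
  unfold q3
  rw [h0, h1, h1, h1, h2, h2, h2, tp3 (D.good.pos u)]
  ring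

theorem q3_swap (hTrp : SpecMTrp) (D : Dat) (ρ : Matrix (Fin D.n) (Fin D.n) ℚ)
    (hρ : cx ρ ∈ D.so) (s : D.U ⊕ D.U) : q3 D ρ (Sum.swap s) = -q3 D ρ s := by
  rcases s with u | u
  · rw [Sum.swap_inl, q3_inl hTrp D ρ hρ, q3_inr hTrp D ρ hρ]
  · rw [Sum.swap_inr, q3_inl hTrp D ρ hρ, q3_inr hTrp D ρ hρ, neg_neg]

/-- the species of an eigenspace -/
def os (D : Dat) (s : D.U ⊕ D.U) : D.I := D.ou (Sum.elim id id s)

theorem os_swap (D : Dat) (s : D.U ⊕ D.U) : os D (Sum.swap s) = os D s := by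
  rcases s with u | u <;> rfl

theorem ch_os (D : Dat) (s : D.U ⊕ D.U) : D.ch (prj D.ix (os D s)) (Sum.inr s) = 1 := by
  rcases s with u | u
  · exact D.good.inU u
  · show (starRingEnd ℂ) (D.lu (prj D.ix (D.ou u)) u) = 1
    rw [D.good.inU u, map_one]

theorem os_gal (hMat : SpecMMat) (D : Dat) (τ : ℂ ≃+* ℂ) (s s' : D.U ⊕ D.U)
    (h : ∀ e ∈ D.E, D.ch e (Sum.inr s') = τ (D.ch e (Sum.inr s))) : os D s' = os D s := by
  obtain ⟨-, -, -, -, -, -, -, hne, hch⟩ := hMat D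
  by_contra hcon
  have h1 := ch_os D s'
  have h2 := h _ (D.ks.proj (os D s))
  rw [ch_os, map_one] at h2
  have h3 := (hch _ (D.ks.proj (os D s')) (Sum.inr s')).1
  have h4 := (hch _ (D.ks.proj (os D s)) (Sum.inr s')).1
  rw [h1, one_smul] at h3
  rw [h2, one_smul] at h4
  have h5 : prj D.ix (os D s) * prj D.ix (os D s') = 0 := by
    unfold prj
    rw [Matrix.diagonal_mul_diagonal]
    ext a b
    rw [Matrix.diagonal_apply, Matrix.zero_apply]
    split_ifs with h6 h7 h8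
    · exact absurd (h8.symm.trans h7) hcon
    · simp
    · simp
    · simp
    · rfl
  have h6 : D.pr (Sum.inr s') = 0 := by
    rw [← h4]
    nth_rewrite 1 [← h3]
    rw [← Matrix.mul_assoc, ← SpgM.cxm, h5, SpgM.cxz, Matrix.zero_mul]
  exact hne _ h6

/-- the functions compatible with the partners -/
def NQ {U : Type} (Q : U ⊕ U → U ⊕ U → Prop) : Submodule ℚ (U ⊕ U → ℚ) where
  carrier := {f | (∀ k, f (Sum.inr k) = -f (Sum.inl k)) ∧
    (∀ s, (¬ ∃ t, Q s t) → (¬ ∃ t, Q t s) → f s = 0) ∧ ∀ s t, Q s t → f s = f t}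
  add_mem' := by
    rintro f g ⟨h1, h2, h3⟩ ⟨g1, g2, g3⟩
    refine ⟨fun k => ?_, fun s a b => ?_, fun s t h => ?_⟩
    · rw [Pi.add_apply, Pi.add_apply, h1, g1]; ring
    · rw [Pi.add_apply, h2 s a b, g2 s a b, add_zero]
    · rw [Pi.add_apply, Pi.add_apply, h3 s t h, g3 s t h]
  zero_mem' := ⟨fun k => by simp, fun s _ _ => rfl, fun s t _ => rfl⟩
  smul_mem' := by
    rintro c f ⟨h1, h2, h3⟩
    refine ⟨fun k => ?_, fun s a b => ?_, fun s t h => ?_⟩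
    · rw [Pi.smul_apply, Pi.smul_apply, h1, smul_neg]
    · rw [Pi.smul_apply, h2 s a b, smul_zero]
    · rw [Pi.smul_apply, Pi.smul_apply, h3 s t h]

/-- `tp 3` does not vanish on a block -/
theorem nz (hBlk : SpecMBlk) (D : Dat) (kk : Submodule ℚ (Matrix (Ix D.g) (Ix D.g) ℚ))
    (r : Matrix (Ix D.g) (Ix D.g) ℚ → Matrix (Fin D.n) (Fin D.n) ℚ)
    (mm : Matrix (Ix D.g) (Ix D.g) ℚ → ℚ) (hK : KK D kk r mm) (k : D.U) (hk : 3 ≤ D.m' k)
    (hxu : ∀ ρ ρ' : Matrix (Fin D.n) (Fin D.n) ℂ, D.xu (ρ + ρ') k = D.xu ρ k + D.xu ρ' k) :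
    ¬ ∀ Z ∈ kk, tp 3 (D.xu (cx (r Z)) k) = 0 := by
  intro h
  obtain ⟨X, hX, hX3⟩ := test hk
  refine hX3 (cubic_span {Y | ∃ Z ∈ kk, Y = D.xu (cx (r Z)) k} ?_ ?_ X
    ((hBlk D kk r mm hK).2 k X hX))
  · rintro _ ⟨Z, hZ, rfl⟩ _ ⟨Z', hZ', rfl⟩
    refine ⟨Z + Z', kk.add_mem hZ hZ', ?_⟩
    rw [hK.radd Z hZ Z' hZ', SpgM.cxa, hxu]
  · rintro _ ⟨Z, hZ, rfl⟩
    exact h Z hZ

theorem xu_add (D : Dat) (ρ ρ' : Matrix (Fin D.n) (Fin D.n) ℂ) (k : D.U) :
    D.xu (ρ + ρ') k = D.xu ρ k + D.xu ρ' k := by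
  unfold Dat.xu xk
  rw [Matrix.mul_add, Matrix.add_mul, blockDiag'_add]
  rfl

end UuxM

open UuxM in
theorem specMUux (hMat : SpecMMat) (hTrp : SpecMTrp) (hGal : SpecMGal) (hBlk : SpecMBlk) :
    SpecMUux := by
  classical
  intro D kk r mm hK k l hkl hmkl hk3 ε hε hcon
  obtain ⟨-, -, -, hg4, -⟩ := hGal D
  have hso : ∀ Z ∈ kk, cx (r Z) ∈ D.so := fun Z hZ => SpgM.mem_so D (hK.so Z hZ)
  obtain ⟨Sim, hSim⟩ : ∃ Sim : D.U ⊕ D.U → D.U ⊕ D.U → Prop,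
    ∀ s t, Sim s t ↔ ∀ Z ∈ kk, q3 D (r Z) s = q3 D (r Z) t := ⟨_, fun s t => Iff.rfl⟩
  have Ssym : ∀ s t, Sim s t → Sim t s := fun s t h => by
    rw [hSim] at h ⊢
    exact fun Z hZ => (h Z hZ).symm
  have Str : ∀ s t u, Sim s t → Sim t u → Sim s u := fun s t u h h' => by
    rw [hSim] at h h' ⊢
    exact fun Z hZ => (h Z hZ).trans (h' Z hZ)
  have Srf : ∀ s, Sim s s := fun s => by
    rw [hSim]
    exact fun Z _ => rfl
  have Ssw : ∀ s t, Sim s t → Sim (Sum.swap s) (Sum.swap t) := fun s t h => by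
    rw [hSim] at h ⊢
    intro Z hZ
    rw [q3_swap hTrp D _ (hso Z hZ), q3_swap hTrp D _ (hso Z hZ), h Z hZ]
  -- the partner of `inl k`
  obtain ⟨t₀, ht₀, hkt⟩ : ∃ t₀ : D.U ⊕ D.U, os D t₀ = D.ou l ∧ Sim (Sum.inl k) t₀ := by
    rcases hε with rfl | rfl
    · refine ⟨Sum.inl l, rfl, ?_⟩
      rw [hSim]
      intro Z hZ
      rw [q3_inl hTrp D _ (hso Z hZ), q3_inl hTrp D _ (hso Z hZ), (hcon Z hZ).2, one_mul]
    · refine ⟨Sum.inr l, rfl, ?_⟩
      rw [hSim]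
      intro Z hZ
      rw [q3_inl hTrp D _ (hso Z hZ), q3_inr hTrp D _ (hso Z hZ), (hcon Z hZ).2]
      ring
  have hns : ¬ Sim (Sum.inl k) (Sum.inr k) := by
    intro h
    rw [hSim] at h
    refine nz hBlk D kk r mm hK k hk3 (fun ρ ρ' => xu_add D ρ ρ' k) fun Z hZ => ?_
    have h1 := h Z hZ
    rw [q3_inl hTrp D _ (hso Z hZ), q3_inr hTrp D _ (hso Z hZ)] at h1
    have h2 : (2 : ℂ) * tp 3 (D.xu (cx (r Z)) k) = 0 := by linear_combination h1
    exact (mul_eq_zero.1 h2).resolve_left two_ne_zero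
  obtain ⟨Q, hQ⟩ : ∃ Q : D.U ⊕ D.U → D.U ⊕ D.U → Prop,
    ∀ s t, Q s t ↔ os D s = D.ou k ∧ os D t = D.ou l ∧ Sim s t := ⟨_, fun s t => Iff.rfl⟩
  -- the non-zero function
  obtain ⟨cc, hcc⟩ : ∃ cc : D.U ⊕ D.U → D.U ⊕ D.U → ℚ, ∀ s t, cc s t =
    if (os D s = D.ou k ∨ os D s = D.ou l) ∧ Sim s t then 1 else 0 := ⟨_, fun s t => rfl⟩
  have hcc1 : ∀ s t, cc s t ≠ 0 → (os D s = D.ou k ∨ os D s = D.ou l) ∧ Sim s t := by
    intro s t h
    rw [hcc] at h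
    by_contra h'
    exact h (if_neg h')
  have hccsw : ∀ s t, cc (Sum.swap s) (Sum.swap t) = cc s t := by
    intro s t
    rw [hcc, hcc, os_swap]
    have h1 : Sim (Sum.swap s) (Sum.swap t) ↔ Sim s t := by
      constructor
      · intro h
        have := Ssw _ _ h
        rwa [Sum.swap_swap, Sum.swap_swap] at this
      · exact Ssw s t
    rw [h1]
  have hN : NQ Q ≠ ⊥ := by
    intro hbot
    have hmem : (fun s => cc s (Sum.inl k) - cc s (Sum.inr k)) ∈ NQ Q := by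
      refine ⟨fun u => ?_, fun s h1 h2 => ?_, fun s t hst => ?_⟩
      · have h3 := hccsw (Sum.inl u) (Sum.inl k)
        have h4 := hccsw (Sum.inl u) (Sum.inr k)
        simp only [Sum.swap_inl, Sum.swap_inr] at h3 h4
        simp only
        rw [h3, h4]
        ring
      · have key : ∀ t t', Sim t t' → os D t = D.ou k → os D t' = D.ou l → cc s t = 0 := by
          intro t t' h3 h4 h5
          by_contra h6
          obtain ⟨h7 | h7, h8⟩ := hcc1 s t h6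
          · exact h1 ⟨t', (hQ _ _).2 ⟨h7, h5, Str _ _ _ h8 h3⟩⟩
          · exact h2 ⟨t, (hQ _ _).2 ⟨h4, h7, Ssym _ _ h8⟩⟩
        have h9 := Ssw _ _ hkt
        rw [Sum.swap_inl] at h9
        simp only
        rw [key (Sum.inl k) t₀ hkt rfl ht₀, key (Sum.inr k) (Sum.swap t₀) h9 rfl
          ((os_swap D t₀).trans ht₀), sub_zero]
      · obtain ⟨h3, h4, h5⟩ := (hQ s t).1 hst
        have h6 : ∀ u, cc s u = cc t u := by
          intro u
          rw [hcc, hcc]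
          have h7 : Sim s u ↔ Sim t u := ⟨fun h => Str _ _ _ (Ssym _ _ h5) h, fun h => Str _ _ _ h5 h⟩
          rw [h3, h4, h7]
          simp
        simp only
        rw [h6, h6]
    rw [hbot, Submodule.mem_bot] at hmem
    have h1 := congrFun hmem (Sum.inl k)
    simp only [Pi.zero_apply] at h1
    rw [hcc, hcc, if_pos ⟨Or.inl rfl, Srf _⟩, if_neg (fun h => hns h.2)] at h1
    norm_num at h1
  have hst : ∀ (τ : ℂ ≃+* ℂ) (σ : Equiv.Perm (D.U ⊕ D.U)),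
      (∀ e ∈ D.E, ∀ s, chr D.lu e (σ s) = τ (chr D.lu e s)) →
      ∀ f ∈ NQ Q, (fun s => f (σ s)) ∈ NQ Q := by
    intro τ σ hτσ f hf
    have hgs : ∀ s, ∀ e ∈ D.E, D.ch e (Sum.inr (σ s)) = τ (D.ch e (Sum.inr s)) :=
      fun s e he => hτσ e he s
    have hsw : ∀ s, σ (Sum.swap s) = Sum.swap (σ s) := by
      intro s
      have h1 : ∀ e ∈ D.E, D.ch e (Sum.inr (Sum.swap (σ s))) =
          τ (D.ch e (Sum.inr (Sum.swap s))) := hg4 τ s (σ s) (hgs s)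
      by_contra hne
      obtain ⟨e, he, hee⟩ := D.split.sep (Sum.inr (σ (Sum.swap s))) (Sum.inr (Sum.swap (σ s)))
        (fun h => hne (Sum.inr_injective h))
      exact hee ((hτσ e he (Sum.swap s)).trans (h1 e he).symm)
    have hSs : ∀ s t, Sim (σ s) (σ t) ↔ Sim s t := by
      intro s t
      rw [hSim, hSim]
      constructor
      · intro h Z hZ
        have h1 := h Z hZ
        rw [q3_gal hGal D τ s (σ s) (hgs s), q3_gal hGal D τ t (σ t) (hgs t)] at h1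
        exact τ.injective h1
      · intro h Z hZ
        rw [q3_gal hGal D τ s (σ s) (hgs s), q3_gal hGal D τ t (σ t) (hgs t), h Z hZ]
    have hQs : ∀ s t, Q (σ s) (σ t) ↔ Q s t := by
      intro s t
      rw [hQ, hQ, os_gal hMat D τ s (σ s) (hgs s), os_gal hMat D τ t (σ t) (hgs t), hSs]
    obtain ⟨f1, f2, f3⟩ := hf
    have hodd : ∀ s, f (Sum.swap s) = -f s := by
      intro s
      rcases s with u | u
      · exact f1 u
      · rw [Sum.swap_inr, f1, neg_neg]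
    refine ⟨fun u => ?_, fun s h1 h2 => ?_, fun s t h => ?_⟩
    · have h1 := hsw (Sum.inl u)
      rw [Sum.swap_inl] at h1
      simp only
      rw [h1, hodd]
    · refine f2 (σ s) ?_ ?_
      · rintro ⟨t, ht⟩
        refine h1 ⟨σ.symm t, (hQs _ _).1 ?_⟩
        rwa [σ.apply_symm_apply]
      · rintro ⟨t, ht⟩
        refine h2 ⟨σ.symm t, (hQs _ _).1 ?_⟩
        rwa [σ.apply_symm_apply]
    · exact f3 _ _ ((hQs _ _).2 h)
  obtain ⟨f, hfN, hf0, -, i, hi⟩ := D.good.flat (NQ Q) hN (fun f hf => hf.1) hst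
  obtain ⟨f1, f2, f3⟩ := hfN
  have hi' : ∀ s, f s ≠ 0 → os D s = i := by
    intro s hs
    rcases s with u | u
    · exact hi u hs
    · refine hi u fun h => hs ?_
      rw [f1, h, neg_zero]
  obtain ⟨s, hs⟩ : ∃ s, f s ≠ 0 := by
    by_contra h
    push Not at h
    exact hf0 (funext h)
  have hpair : ∀ s t, Q s t → f s ≠ 0 → False := by
    intro s t h1 h2
    have h3 := hi' s h2
    rw [f3 s t h1] at h2
    have h4 := hi' t h2
    obtain ⟨h5, h6, -⟩ := (hQ s t).1 h1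
    exact hkl (h5.symm.trans (h3.trans (h4.symm.trans h6)))
  by_cases h1 : ∃ t, Q s t
  · obtain ⟨t, ht⟩ := h1
    exact hpair s t ht hs
  by_cases h2 : ∃ t, Q t s
  · obtain ⟨t, ht⟩ := h2
    refine hpair t s ht ?_
    rw [f3 t s ht]
    exact hs
  · exact hs (f2 s h1 h2)

end Pool.Agent.Lib.MPf11a48.KM
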