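import Pool.Agent.Lib.MP_f11a48_ag.KM.SpecA

/-!
# Module MCMP: compression by an idempotent
-/

set_option autoImplicit false

namespace Pool.Agent.Lib.MPf11a48.KM

open Matrix

namespace CmpM

variable {ι : Type} [Fintype ι] [DecidableEq ι]

/-- coordinates of the image of an idempotent -/
theorem exists_coords (p : Matrix ι ι ℂ) (hp : p * p = p) (h0 : p ≠ 0) :
    ∃ (ν : Type) (_ : Fintype ν) (_ : DecidableEq ν) (_ : Nonempty ν) (L : Matrix ν ι ℂ)
      (R : Matrix ι ν ℂ), L * R = 1 ∧ R * L = p := by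
  let P : (ι → ℂ) →ₗ[ℂ] (ι → ℂ) := Matrix.toLin' p
  let V : Submodule ℂ (ι → ℂ) := LinearMap.range P
  let b := Module.finBasis ℂ V
  let f : (ι → ℂ) →ₗ[ℂ] V := P.rangeRestrict
  let g : V →ₗ[ℂ] (ι → ℂ) := V.subtype
  have hgf : g ∘ₗ f = P := by
    ext x
    rfl
  have hPP : P ∘ₗ P = P := by
    show Matrix.toLin' p ∘ₗ Matrix.toLin' p = Matrix.toLin' p
    rw [← Matrix.toLin'_mul, hp]
  have hfg : f ∘ₗ g = LinearMap.id := by
    refine LinearMap.ext fun x => ?_
    obtain ⟨y, hy⟩ := x.2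
    apply Subtype.ext
    show P (x : ι → ℂ) = x
    rw [← hy]
    exact LinearMap.congr_fun hPP y
  have hne : Nonempty (Fin (Module.finrank ℂ V)) := by
    rw [← Fin.pos_iff_nonempty, Module.finrank_pos_iff]
    by_contra hn
    rw [not_nontrivial_iff_subsingleton] at hn
    apply h0
    have h1 : P = 0 := by
      rw [← hgf]
      refine LinearMap.ext fun x => ?_
      show ((f x : V) : ι → ℂ) = 0
      rw [Subsingleton.elim (f x) 0]
      rfl
    exact (LinearEquiv.map_eq_zero_iff (Matrix.toLin' (R := ℂ))).1 h1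
  refine ⟨Fin (Module.finrank ℂ V), inferInstance, inferInstance, hne,
    LinearMap.toMatrix (Pi.basisFun ℂ ι) b f, LinearMap.toMatrix b (Pi.basisFun ℂ ι) g, ?_, ?_⟩
  · rw [← LinearMap.toMatrix_comp b (Pi.basisFun ℂ ι) b f g, hfg, LinearMap.toMatrix_id]
  · rw [← LinearMap.toMatrix_comp (Pi.basisFun ℂ ι) b (Pi.basisFun ℂ ι) g f, hgf,
      LinearMap.toMatrix_eq_toMatrix']
    exact LinearMap.toMatrix'_toLin' p

/-- compression of an algebra -/
theorem compress {ν : Type} [Fintype ν] [DecidableEq ν] (p : Matrix ι ι ℂ) (L : Matrix ν ι ℂ)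
    (R : Matrix ι ν ℂ) (hLR : L * R = 1) (hRL : R * L = p) (S : Set (Matrix ι ι ℂ))
    (hS : ∀ X ∈ S, X * p = p * X) (Y : Matrix ι ι ℂ) (hY : Y ∈ Algebra.adjoin ℂ S) :
    Y * p = p * Y ∧ L * Y * R ∈ Algebra.adjoin ℂ ((fun X => L * X * R) '' S) := by
  have hL : L * p = L := by
    rw [← hRL, ← Matrix.mul_assoc, hLR, Matrix.one_mul]
  induction hY using Algebra.adjoin_induction with
  | mem x hx => exact ⟨hS x hx, Algebra.subset_adjoin ⟨x, hx, rfl⟩⟩
  | algebraMap r =>
    refine ⟨(Algebra.commutes r p), ?_⟩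
    have h1 : L * (algebraMap ℂ (Matrix ι ι ℂ) r) * R = algebraMap ℂ (Matrix ν ν ℂ) r := by
      rw [Algebra.algebraMap_eq_smul_one, Algebra.algebraMap_eq_smul_one, Matrix.mul_smul,
        Matrix.smul_mul, Matrix.mul_one, hLR]
    rw [h1]
    exact Subalgebra.algebraMap_mem _ r
  | add x y hx hy h1 h2 =>
    refine ⟨by rw [Matrix.add_mul, Matrix.mul_add, h1.1, h2.1], ?_⟩
    rw [Matrix.mul_add, Matrix.add_mul]
    exact Subalgebra.add_mem _ h1.2 h2.2
  | mul x y hx hy h1 h2 =>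
    refine ⟨by rw [Matrix.mul_assoc, h2.1, ← Matrix.mul_assoc, h1.1, Matrix.mul_assoc], ?_⟩
    have h3 : L * (x * y) * R = (L * x * R) * (L * y * R) := by
      calc L * (x * y) * R = L * p * (x * y) * R := by rw [hL]
        _ = L * (p * x) * y * R := by simp only [Matrix.mul_assoc]
        _ = L * (x * p) * y * R := by rw [h1.1]
        _ = L * (x * (R * L)) * y * R := by rw [hRL]
        _ = (L * x * R) * (L * y * R) := by simp only [Matrix.mul_assoc]
    rw [h3]
    exact Subalgebra.mul_mem _ h1.2 h2.2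

end CmpM

/-- **MCMP.** -/
theorem specMCmp : SpecMCmp := by
  intro ι _ _ p hp
  refine ⟨CmpM.exists_coords p hp, ?_⟩
  intro ν _ _ L R hLR hRL S hS Y hY
  exact (CmpM.compress p L R hLR hRL S hS Y hY).2

end Pool.Agent.Lib.MPf11a48.KM
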