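import Pool.Agent.Lib.MP_f11a48_ag.KM.SpecA
import Pool.Agent.Lib.MP_f11a48_ag.KU.Mat

/-!
# MAT: matrix calculus for families of Kuga-Satake pairs
-/

set_option autoImplicit false

namespace Pool.Agent.Lib.MPf11a48.KM

open Matrix MvPolynomial Pool.Agent.Lib.MPf11a48.Tors
open Pool.Agent.Lib.MPf11a48.CM hiding OmegaM
open Pool.Agent.Lib.MPf11a48.K3 Pool.Agent.Lib.MPf11a48.KU

namespace MatM

variable (D : Dat)

/-- the relations between `P`, `P'`, `Q'` and their transposes -/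
theorem rels : (D.Pᵀ * cx D.qB * D.P = 1 ∧ D.Pᵀ * cx D.qB * D.P' = 0 ∧
    D.Pᵀ * cx D.qB * D.Q' = 0) ∧
    (D.P'ᵀ * cx D.qB * D.P = 0 ∧ D.P'ᵀ * cx D.qB * D.P' = 0 ∧ D.P'ᵀ * cx D.qB * D.Q' = 1) ∧
    (D.Q'ᵀ * cx D.qB * D.P = 0 ∧ D.Q'ᵀ * cx D.qB * D.P' = 1 ∧ D.Q'ᵀ * cx D.qB * D.Q' = 0) := by
  have hq := KU.MatM.cx_symm D.ks.symm
  refine ⟨⟨D.split.orth, D.split.orthP, D.split.orthQ⟩, ⟨?_, D.split.isoP, D.split.dual⟩,
    ⟨?_, ?_, D.split.isoQ⟩⟩
  · have h1 := congrArg Matrix.transpose D.split.orthP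
    rw [Matrix.transpose_mul, Matrix.transpose_mul, Matrix.transpose_transpose, hq,
      Matrix.transpose_zero] at h1
    rw [Matrix.mul_assoc]
    exact h1
  · have h1 := congrArg Matrix.transpose D.split.orthQ
    rw [Matrix.transpose_mul, Matrix.transpose_mul, Matrix.transpose_transpose, hq,
      Matrix.transpose_zero] at h1
    rw [Matrix.mul_assoc]
    exact h1
  · have h1 := congrArg Matrix.transpose D.split.dual
    rw [Matrix.transpose_mul, Matrix.transpose_mul, Matrix.transpose_transpose, hq,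
      Matrix.transpose_one] at h1
    rw [Matrix.mul_assoc]
    exact h1

/-- `A B` from the three parts -/
theorem split_mul {ν : Type} (A : Matrix ν (Fin D.n) ℂ) :
    A = A * D.P * (D.Pᵀ * cx D.qB) + (A * D.P' * (D.Q'ᵀ * cx D.qB) +
      A * D.Q' * (D.P'ᵀ * cx D.qB)) := by
  conv_lhs => rw [← Matrix.mul_one A, ← D.split.onto]
  rw [Matrix.mul_add, Matrix.mul_add]
  simp only [Matrix.mul_assoc]

theorem split_mul' {ν : Type} (A : Matrix (Fin D.n) ν ℂ) :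
    A = D.P * (D.Pᵀ * cx D.qB * A) + (D.P' * (D.Q'ᵀ * cx D.qB * A) +
      D.Q' * (D.P'ᵀ * cx D.qB * A)) := by
  conv_lhs => rw [← Matrix.one_mul A, ← D.split.onto]
  rw [Matrix.add_mul, Matrix.add_mul]
  simp only [Matrix.mul_assoc]

/-- A matrix is determined by its products with `P`, `P'` and `Q'`. -/
theorem ext3 {ν : Type} {A B : Matrix ν (Fin D.n) ℂ} (h0 : A * D.P = B * D.P)
    (h1 : A * D.P' = B * D.P') (h2 : A * D.Q' = B * D.Q') : A = B := by
  rw [split_mul D A, split_mul D B, h0, h1, h2]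

theorem wm_P (X : D.FR) (Y : D.FU) : D.wm X Y * D.P = D.P * blockDiagonal' X := by
  obtain ⟨⟨a1, a2, a3⟩, ⟨b1, b2, b3⟩, ⟨c1, c2, c3⟩⟩ := rels D
  unfold Dat.wm um
  rw [Matrix.add_mul, Matrix.sub_mul, Matrix.mul_assoc, Matrix.mul_assoc (D.P' * _),
    Matrix.mul_assoc (D.Q' * _), a1, b1, c1, Matrix.mul_zero, Matrix.mul_zero, Matrix.mul_one,
    sub_zero, add_zero]

theorem wm_P' (X : D.FR) (Y : D.FU) : D.wm X Y * D.P' = D.P' * blockDiagonal' Y := by
  obtain ⟨⟨a1, a2, a3⟩, ⟨b1, b2, b3⟩, ⟨c1, c2, c3⟩⟩ := rels D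
  unfold Dat.wm um
  rw [Matrix.add_mul, Matrix.sub_mul, Matrix.mul_assoc, Matrix.mul_assoc (D.P' * _),
    Matrix.mul_assoc (D.Q' * _), a2, b2, c2, Matrix.mul_zero, Matrix.mul_zero, Matrix.mul_one,
    sub_zero, zero_add]

theorem wm_Q' (X : D.FR) (Y : D.FU) : D.wm X Y * D.Q' = -(D.Q' * (blockDiagonal' Y)ᵀ) := by
  obtain ⟨⟨a1, a2, a3⟩, ⟨b1, b2, b3⟩, ⟨c1, c2, c3⟩⟩ := rels D
  unfold Dat.wm um
  rw [Matrix.add_mul, Matrix.sub_mul, Matrix.mul_assoc, Matrix.mul_assoc (D.P' * _),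
    Matrix.mul_assoc (D.Q' * _), a3, b3, c3, Matrix.mul_zero, Matrix.mul_zero, Matrix.mul_one,
    zero_sub, zero_add]

theorem left_P (e : Matrix (Fin D.n) (Fin D.n) ℚ) (he : e ∈ D.E) :
    D.Pᵀ * cx D.qB * cx e =
      diagonal (fun u : (k : D.R) × Fin (D.m k) => D.lr e u.1) * (D.Pᵀ * cx D.qB) := by
  obtain ⟨⟨a1, a2, a3⟩, ⟨b1, b2, b3⟩, ⟨c1, c2, c3⟩⟩ := rels D
  apply ext3 D
  · rw [Matrix.mul_assoc, D.split.eigR e he, ← Matrix.mul_assoc, a1, Matrix.mul_assoc (diagonal _),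
      a1, Matrix.one_mul, Matrix.mul_one]
  · rw [Matrix.mul_assoc, D.split.eigP e he, ← Matrix.mul_assoc, a2, Matrix.mul_assoc (diagonal _),
      a2, Matrix.zero_mul, Matrix.mul_zero]
  · rw [Matrix.mul_assoc, D.split.eigQ e he, ← Matrix.mul_assoc, a3, Matrix.mul_assoc (diagonal _),
      a3, Matrix.zero_mul, Matrix.mul_zero]

theorem left_P' (e : Matrix (Fin D.n) (Fin D.n) ℚ) (he : e ∈ D.E) :
    D.P'ᵀ * cx D.qB * cx e =
      diagonal (fun u : (k : D.U) × Fin (D.m' k) => (starRingEnd ℂ) (D.lu e u.1)) *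
        (D.P'ᵀ * cx D.qB) := by
  obtain ⟨⟨a1, a2, a3⟩, ⟨b1, b2, b3⟩, ⟨c1, c2, c3⟩⟩ := rels D
  apply ext3 D
  · rw [Matrix.mul_assoc, D.split.eigR e he, ← Matrix.mul_assoc, b1, Matrix.mul_assoc (diagonal _),
      b1, Matrix.zero_mul, Matrix.mul_zero]
  · rw [Matrix.mul_assoc, D.split.eigP e he, ← Matrix.mul_assoc, b2, Matrix.mul_assoc (diagonal _),
      b2, Matrix.zero_mul, Matrix.mul_zero]
  · rw [Matrix.mul_assoc, D.split.eigQ e he, ← Matrix.mul_assoc, b3, Matrix.mul_assoc (diagonal _),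
      b3, Matrix.one_mul, Matrix.mul_one]

theorem left_Q' (e : Matrix (Fin D.n) (Fin D.n) ℚ) (he : e ∈ D.E) :
    D.Q'ᵀ * cx D.qB * cx e =
      diagonal (fun u : (k : D.U) × Fin (D.m' k) => D.lu e u.1) * (D.Q'ᵀ * cx D.qB) := by
  obtain ⟨⟨a1, a2, a3⟩, ⟨b1, b2, b3⟩, ⟨c1, c2, c3⟩⟩ := rels D
  apply ext3 D
  · rw [Matrix.mul_assoc, D.split.eigR e he, ← Matrix.mul_assoc, c1, Matrix.mul_assoc (diagonal _),
      c1, Matrix.zero_mul, Matrix.mul_zero]
  · rw [Matrix.mul_assoc, D.split.eigP e he, ← Matrix.mul_assoc, c2, Matrix.mul_assoc (diagonal _),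
      c2, Matrix.one_mul, Matrix.mul_one]
  · rw [Matrix.mul_assoc, D.split.eigQ e he, ← Matrix.mul_assoc, c3, Matrix.mul_assoc (diagonal _),
      c3, Matrix.zero_mul, Matrix.mul_zero]

/-- a matrix which commutes with `e` vanishes between different eigenspaces -/
theorem van {n : ℕ} {A B : Type} [Fintype A] [DecidableEq A] [Fintype B] [DecidableEq B]
    {L : Matrix A (Fin n) ℂ} {R : Matrix (Fin n) B ℂ} {ρ e : Matrix (Fin n) (Fin n) ℂ}
    {a : A → ℂ} {b : B → ℂ} (hL : L * e = diagonal a * L) (hR : e * R = R * diagonal b)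
    (hρ : ρ * e = e * ρ) {u : A} {v : B} (h : a u ≠ b v) : (L * ρ * R) u v = 0 := by
  have h1 : diagonal a * (L * ρ * R) = (L * ρ * R) * diagonal b := by
    calc diagonal a * (L * ρ * R) = (diagonal a * L) * ρ * R := by simp only [Matrix.mul_assoc]
      _ = L * (e * ρ) * R := by rw [← hL]; simp only [Matrix.mul_assoc]
      _ = L * ρ * (e * R) := by rw [← hρ]; simp only [Matrix.mul_assoc]
      _ = _ := by rw [hR]; simp only [Matrix.mul_assoc]
  have h2 := congrFun (congrFun h1 u) v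
  rw [Matrix.diagonal_mul, Matrix.mul_diagonal] at h2
  have h3 : (a u - b v) * (L * ρ * R) u v = 0 := by linear_combination h2
  rcases mul_eq_zero.mp h3 with h4 | h4
  · exact absurd (sub_eq_zero.mp h4) h
  · exact h4

variable {D}

/-- the blocks of an infinitesimal isometry -/
theorem blocks {ρ : Matrix (Fin D.n) (Fin D.n) ℂ} (hρ : ∀ e ∈ D.E, ρ * cx e = cx e * ρ) :
    (D.Pᵀ * cx D.qB * ρ * D.P' = 0 ∧ D.Pᵀ * cx D.qB * ρ * D.Q' = 0) ∧
    (D.P'ᵀ * cx D.qB * ρ * D.P = 0 ∧ D.P'ᵀ * cx D.qB * ρ * D.P' = 0) ∧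
    (D.Q'ᵀ * cx D.qB * ρ * D.P = 0 ∧ D.Q'ᵀ * cx D.qB * ρ * D.Q' = 0) := by
  refine ⟨⟨?_, ?_⟩, ⟨?_, ?_⟩, ⟨?_, ?_⟩⟩
  · ext u v
    obtain ⟨e, he, hne⟩ := D.split.sep (Sum.inl u.1) (Sum.inr (Sum.inl v.1)) (by simp)
    exact van (left_P D e he) (D.split.eigP e he) (hρ e he) hne
  · ext u v
    obtain ⟨e, he, hne⟩ := D.split.sep (Sum.inl u.1) (Sum.inr (Sum.inr v.1)) (by simp)
    exact van (left_P D e he) (D.split.eigQ e he) (hρ e he) hne
  · ext u v
    obtain ⟨e, he, hne⟩ := D.split.sep (Sum.inr (Sum.inr u.1)) (Sum.inl v.1) (by simp)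
    exact van (left_P' D e he) (D.split.eigR e he) (hρ e he) hne
  · ext u v
    obtain ⟨e, he, hne⟩ := D.split.sep (Sum.inr (Sum.inr u.1)) (Sum.inr (Sum.inl v.1)) (by simp)
    exact van (left_P' D e he) (D.split.eigP e he) (hρ e he) hne
  · ext u v
    obtain ⟨e, he, hne⟩ := D.split.sep (Sum.inr (Sum.inl u.1)) (Sum.inl v.1) (by simp)
    exact van (left_Q' D e he) (D.split.eigR e he) (hρ e he) hne
  · ext u v
    obtain ⟨e, he, hne⟩ := D.split.sep (Sum.inr (Sum.inl u.1)) (Sum.inr (Sum.inr v.1)) (by simp)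
    exact van (left_Q' D e he) (D.split.eigQ e he) (hρ e he) hne

theorem bd_xr {ρ : Matrix (Fin D.n) (Fin D.n) ℂ} (hρ : ∀ e ∈ D.E, ρ * cx e = cx e * ρ) :
    blockDiagonal' (D.xr ρ) = D.Pᵀ * cx D.qB * ρ * D.P := by
  ext u v
  obtain ⟨k, i⟩ := u
  obtain ⟨l, j⟩ := v
  by_cases hkl : k = l
  · subst hkl
    rw [Matrix.blockDiagonal'_apply_eq]
    rfl
  · rw [Matrix.blockDiagonal'_apply_ne _ _ _ hkl]
    obtain ⟨e, he, hne⟩ := D.split.sep (Sum.inl k) (Sum.inl l) (by simpa using hkl)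
    exact (van (u := ⟨k, i⟩) (v := ⟨l, j⟩) (left_P D e he) (D.split.eigR e he) (hρ e he) hne).symm

theorem bd_xu {ρ : Matrix (Fin D.n) (Fin D.n) ℂ} (hρ : ∀ e ∈ D.E, ρ * cx e = cx e * ρ) :
    blockDiagonal' (D.xu ρ) = D.Q'ᵀ * cx D.qB * ρ * D.P' := by
  ext u v
  obtain ⟨k, i⟩ := u
  obtain ⟨l, j⟩ := v
  by_cases hkl : k = l
  · subst hkl
    rw [Matrix.blockDiagonal'_apply_eq]
    rfl
  · rw [Matrix.blockDiagonal'_apply_ne _ _ _ hkl]
    obtain ⟨e, he, hne⟩ := D.split.sep (Sum.inr (Sum.inl k)) (Sum.inr (Sum.inl l))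
      (by simpa using hkl)
    exact (van (u := ⟨k, i⟩) (v := ⟨l, j⟩) (left_Q' D e he) (D.split.eigP e he) (hρ e he)
      hne).symm

theorem skew_conj {ρ : Matrix (Fin D.n) (Fin D.n) ℂ} (h : ρᵀ * cx D.qB + cx D.qB * ρ = 0)
    {A B : Type} (L : Matrix (Fin D.n) A ℂ) (R : Matrix (Fin D.n) B ℂ) :
    (Lᵀ * cx D.qB * ρ * R)ᵀ = -(Rᵀ * cx D.qB * ρ * L) := by
  have hq := KU.MatM.cx_symm D.ks.symm
  have e1 : ρᵀ * cx D.qB = -(cx D.qB * ρ) := eq_neg_of_add_eq_zero_left h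
  rw [Matrix.transpose_mul, Matrix.transpose_mul, Matrix.transpose_mul,
    Matrix.transpose_transpose, hq, ← Matrix.mul_assoc ρᵀ, e1]
  simp only [Matrix.mul_neg, Matrix.neg_mul, Matrix.mul_assoc]

theorem eq_wm {ρ : Matrix (Fin D.n) (Fin D.n) ℂ} (hρ : ρ ∈ D.so) :
    (∀ k, (D.xr ρ k)ᵀ = -D.xr ρ k) ∧ ρ = D.wm (D.xr ρ) (D.xu ρ) := by
  obtain ⟨hsk, hcom⟩ := hρ
  obtain ⟨⟨a2, a3⟩, ⟨b1, b2⟩, ⟨c1, c3⟩⟩ := blocks hcom
  constructor
  · intro k
    have h1 := skew_conj hsk D.P D.P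
    have h2 := congrArg (fun M => Matrix.blockDiag' M k) h1
    exact h2
  · apply ext3 D
    · rw [wm_P, bd_xr hcom]
      have h1 := split_mul' D (ρ * D.P)
      rw [← Matrix.mul_assoc (D.Pᵀ * cx D.qB), ← Matrix.mul_assoc (D.Q'ᵀ * cx D.qB),
        ← Matrix.mul_assoc (D.P'ᵀ * cx D.qB), c1, b1, Matrix.mul_zero, Matrix.mul_zero, add_zero,
        add_zero] at h1
      exact h1
    · rw [wm_P', bd_xu hcom]
      have h1 := split_mul' D (ρ * D.P')
      rw [← Matrix.mul_assoc (D.Pᵀ * cx D.qB), ← Matrix.mul_assoc (D.Q'ᵀ * cx D.qB),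
        ← Matrix.mul_assoc (D.P'ᵀ * cx D.qB), a2, b2, Matrix.mul_zero, Matrix.mul_zero, add_zero,
        zero_add] at h1
      exact h1
    · rw [wm_Q', bd_xu hcom]
      have h1 := split_mul' D (ρ * D.Q')
      rw [← Matrix.mul_assoc (D.Pᵀ * cx D.qB), ← Matrix.mul_assoc (D.Q'ᵀ * cx D.qB),
        ← Matrix.mul_assoc (D.P'ᵀ * cx D.qB), a3, c3, Matrix.mul_zero, Matrix.mul_zero, zero_add,
        zero_add] at h1
      rw [h1, skew_conj hsk D.Q' D.P', Matrix.mul_neg, neg_neg]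

theorem wm_mem (X : D.FR) (Y : D.FU) (hX : ∀ k, (X k)ᵀ = -X k) : D.wm X Y ∈ D.so := by
  have hq := KU.MatM.cx_symm D.ks.symm
  constructor
  · have h1 := KU.MatM.um_skew (P := D.P') (Q := D.Q') D.ks.symm (blockDiagonal' Y)
    have h2 : (blockDiagonal' X)ᵀ = -blockDiagonal' X := by
      rw [Matrix.blockDiagonal'_transpose, ← Matrix.blockDiagonal'_neg]
      congr 1
      funext k
      exact hX k
    have h3 : (D.P * blockDiagonal' X * (D.Pᵀ * cx D.qB))ᵀ * cx D.qB +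
        cx D.qB * (D.P * blockDiagonal' X * (D.Pᵀ * cx D.qB)) = 0 := by
      rw [Matrix.transpose_mul, Matrix.transpose_mul, Matrix.transpose_mul,
        Matrix.transpose_transpose, hq, h2]
      simp only [Matrix.mul_assoc, Matrix.neg_mul, Matrix.mul_neg]
      exact neg_add_cancel _
    unfold Dat.wm
    rw [Matrix.transpose_add, Matrix.add_mul, Matrix.mul_add]
    have h4 : ∀ a b c d : Matrix (Fin D.n) (Fin D.n) ℂ, a + b + (c + d) = (b + d) + (a + c) :=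
      fun a b c d => by abel
    rw [h4, h1, h3, add_zero]
  · intro e he
    apply ext3 D
    · rw [Matrix.mul_assoc, D.split.eigR e he, Matrix.mul_assoc, wm_P, ← Matrix.mul_assoc,
        wm_P, ← Matrix.mul_assoc, D.split.eigR e he, Matrix.mul_assoc, Matrix.mul_assoc,
        KU.MatM.diag_comm (D.lr e)]
    · rw [Matrix.mul_assoc, D.split.eigP e he, Matrix.mul_assoc, wm_P', ← Matrix.mul_assoc,
        wm_P', ← Matrix.mul_assoc, D.split.eigP e he, Matrix.mul_assoc, Matrix.mul_assoc,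
        KU.MatM.diag_comm (D.lu e)]
    · rw [Matrix.mul_assoc, D.split.eigQ e he, Matrix.mul_assoc, wm_Q', ← Matrix.mul_assoc,
        wm_Q', Matrix.mul_neg, ← Matrix.mul_assoc, D.split.eigQ e he, Matrix.neg_mul,
        Matrix.mul_assoc, Matrix.mul_assoc, Matrix.blockDiagonal'_transpose,
        KU.MatM.diag_comm (fun k => (starRingEnd ℂ) (D.lu e k))]

theorem xr_wm (X : D.FR) (Y : D.FU) : D.xr (D.wm X Y) = X ∧ D.xu (D.wm X Y) = Y := by
  obtain ⟨⟨a1, a2, a3⟩, ⟨b1, b2, b3⟩, ⟨c1, c2, c3⟩⟩ := rels D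
  constructor
  · funext k
    unfold Dat.xr
    rw [Matrix.mul_assoc, wm_P, ← Matrix.mul_assoc, a1, Matrix.one_mul,
      Matrix.blockDiag'_blockDiagonal']
  · funext k
    unfold Dat.xu xk
    rw [Matrix.mul_assoc, wm_P', ← Matrix.mul_assoc, c2, Matrix.one_mul,
      Matrix.blockDiag'_blockDiagonal']

theorem bd_br {κ : Type} [Fintype κ] [DecidableEq κ] {m : κ → ℕ}
    (X X' : (k : κ) → Matrix (Fin (m k)) (Fin (m k)) ℂ) :
    blockDiagonal' (fun k => X k * X' k - X' k * X k) =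
      blockDiagonal' X * blockDiagonal' X' - blockDiagonal' X' * blockDiagonal' X := by
  rw [← Matrix.blockDiagonal'_mul, ← Matrix.blockDiagonal'_mul, ← Matrix.blockDiagonal'_sub]
  rfl

theorem wm_br (X X' : D.FR) (Y Y' : D.FU) :
    D.wm X Y * D.wm X' Y' - D.wm X' Y' * D.wm X Y =
      D.wm (fun k => X k * X' k - X' k * X k) fun k => Y k * Y' k - Y' k * Y k := by
  apply ext3 D
  · rw [Matrix.sub_mul, Matrix.mul_assoc, Matrix.mul_assoc, wm_P, wm_P, wm_P,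
      ← Matrix.mul_assoc, ← Matrix.mul_assoc, wm_P, wm_P, bd_br, Matrix.mul_sub,
      Matrix.mul_assoc, Matrix.mul_assoc]
  · rw [Matrix.sub_mul, Matrix.mul_assoc, Matrix.mul_assoc, wm_P', wm_P', wm_P',
      ← Matrix.mul_assoc, ← Matrix.mul_assoc, wm_P', wm_P', bd_br, Matrix.mul_sub,
      Matrix.mul_assoc, Matrix.mul_assoc]
  · rw [Matrix.sub_mul, Matrix.mul_assoc, Matrix.mul_assoc, wm_Q', wm_Q', wm_Q',
      Matrix.mul_neg, Matrix.mul_neg, ← Matrix.mul_assoc, ← Matrix.mul_assoc, wm_Q',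
      wm_Q', bd_br, Matrix.transpose_sub, Matrix.transpose_mul, Matrix.transpose_mul,
      Matrix.mul_sub, Matrix.neg_mul, Matrix.neg_mul, Matrix.mul_assoc, Matrix.mul_assoc]
    abel

section Sg

set_option linter.unusedSectionVars false

variable {κ : Type} [Fintype κ] [DecidableEq κ] (m : κ → ℕ)

/-- the projection to the `k`-th block -/
noncomputable def Sg (k : κ) : Matrix ((k : κ) × Fin (m k)) ((k : κ) × Fin (m k)) ℂ :=
  blockDiagonal' (Pi.single k 1 : (k : κ) → Matrix (Fin (m k)) (Fin (m k)) ℂ)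

theorem Sg_apply (k : κ) (u v : (k : κ) × Fin (m k)) :
    Sg m k u v = if u = v ∧ u.1 = k then 1 else 0 := by
  obtain ⟨a, i⟩ := u
  obtain ⟨b, j⟩ := v
  unfold Sg
  by_cases hab : a = b
  · subst hab
    rw [Matrix.blockDiagonal'_apply_eq]
    by_cases hk : a = k
    · subst hk
      rw [Pi.single_eq_same, Matrix.one_apply]
      by_cases hij : i = j
      · simp [hij]
      · simp [hij]
    · rw [Pi.single_eq_of_ne hk]
      simp [hk]
  · rw [Matrix.blockDiagonal'_apply_ne _ _ _ hab]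
    have : ¬ (⟨a, i⟩ : (k : κ) × Fin (m k)) = ⟨b, j⟩ := fun h => hab (congrArg Sigma.fst h)
    rw [if_neg fun h => this h.1]

theorem Sg_eq (k : κ) : Sg m k = diagonal fun u => if u.1 = k then 1 else 0 := by
  ext u v
  rw [Sg_apply, Matrix.diagonal_apply]
  by_cases h : u = v
  · simp [h]
  · simp [h]

theorem Sg_mul (k l : κ) : Sg m k * Sg m l = if k = l then Sg m k else 0 := by
  rw [Sg_eq, Sg_eq, Matrix.diagonal_mul_diagonal]
  by_cases h : k = l
  · subst h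
    rw [if_pos rfl]
    congr 1
    funext u
    by_cases h2 : u.1 = k
    · simp [h2]
    · simp [h2]
  · rw [if_neg h, ← Matrix.diagonal_zero]
    congr 1
    funext u
    by_cases h2 : u.1 = k
    · rw [if_pos h2, if_neg (fun h3 => h (h2.symm.trans h3)), mul_zero]
    · rw [if_neg h2, zero_mul]

theorem Sg_sum : ∑ k, Sg m k = 1 := by
  ext u v
  rw [Matrix.sum_apply]
  simp only [Sg_apply]
  by_cases h : u = v
  · subst h
    rw [Matrix.one_apply_eq, Finset.sum_eq_single u.1]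
    · simp
    · intro b _ hb
      rw [if_neg fun h => hb h.2.symm]
    · intro h
      exact absurd (Finset.mem_univ _) h
  · rw [Matrix.one_apply_ne h]
    exact Finset.sum_eq_zero fun k _ => if_neg fun h2 => h h2.1

theorem Sg_ne (k : κ) (h : 0 < m k) : Sg m k ≠ 0 := by
  intro h1
  have h2 := congrFun (congrFun h1 ⟨k, ⟨0, h⟩⟩) ⟨k, ⟨0, h⟩⟩
  rw [Sg_apply, if_pos ⟨rfl, rfl⟩, Matrix.zero_apply] at h2
  exact one_ne_zero h2

theorem diag_Sg (a : κ → ℂ) (k : κ) :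
    diagonal (fun u : (k : κ) × Fin (m k) => a u.1) * Sg m k = a k • Sg m k := by
  rw [Sg_eq, Matrix.diagonal_mul_diagonal, ← Matrix.diagonal_smul]
  congr 1
  funext u
  by_cases h : u.1 = k
  · simp [h]
  · simp [h]

theorem Sg_diag (a : κ → ℂ) (k : κ) :
    Sg m k * diagonal (fun u : (k : κ) × Fin (m k) => a u.1) = a k • Sg m k := by
  rw [Sg_eq, Matrix.diagonal_mul_diagonal, ← Matrix.diagonal_smul]
  congr 1
  funext u
  by_cases h : u.1 = k
  · simp [h]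
  · simp [h]

end Sg

theorem asc {n : ℕ} {A B C : Type} [Fintype A] [Fintype B] (M : Matrix C (Fin n) ℂ)
    (P : Matrix (Fin n) A ℂ) (S : Matrix A B ℂ) (L : Matrix B (Fin n) ℂ) :
    M * (P * S * L) = M * P * S * L := by
  simp only [Matrix.mul_assoc]

variable (D)

theorem pr_inl (r : D.R) : D.pr (Sum.inl r) = D.P * Sg D.m r * (D.Pᵀ * cx D.qB) := rfl

theorem pr_inrl (u : D.U) :
    D.pr (Sum.inr (Sum.inl u)) = D.P' * Sg D.m' u * (D.Q'ᵀ * cx D.qB) := rfl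

theorem pr_inrr (u : D.U) :
    D.pr (Sum.inr (Sum.inr u)) = D.Q' * Sg D.m' u * (D.P'ᵀ * cx D.qB) := rfl

theorem pr_P (s : D.R ⊕ (D.U ⊕ D.U)) : D.pr s * D.P = match s with
    | Sum.inl r => D.P * Sg D.m r
    | Sum.inr _ => 0 := by
  obtain ⟨⟨a1, a2, a3⟩, ⟨b1, b2, b3⟩, ⟨c1, c2, c3⟩⟩ := rels D
  rcases s with r | u | u
  · rw [pr_inl, Matrix.mul_assoc, a1, Matrix.mul_one]
  · rw [pr_inrl, Matrix.mul_assoc, c1, Matrix.mul_zero]
  · rw [pr_inrr, Matrix.mul_assoc, b1, Matrix.mul_zero]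

theorem pr_P' (s : D.R ⊕ (D.U ⊕ D.U)) : D.pr s * D.P' = match s with
    | Sum.inr (Sum.inl u) => D.P' * Sg D.m' u
    | _ => 0 := by
  obtain ⟨⟨a1, a2, a3⟩, ⟨b1, b2, b3⟩, ⟨c1, c2, c3⟩⟩ := rels D
  rcases s with r | u | u
  · rw [pr_inl, Matrix.mul_assoc, a2, Matrix.mul_zero]
  · rw [pr_inrl, Matrix.mul_assoc, c2, Matrix.mul_one]
  · rw [pr_inrr, Matrix.mul_assoc, b2, Matrix.mul_zero]

theorem pr_Q' (s : D.R ⊕ (D.U ⊕ D.U)) : D.pr s * D.Q' = match s with
    | Sum.inr (Sum.inr u) => D.Q' * Sg D.m' u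
    | _ => 0 := by
  obtain ⟨⟨a1, a2, a3⟩, ⟨b1, b2, b3⟩, ⟨c1, c2, c3⟩⟩ := rels D
  rcases s with r | u | u
  · rw [pr_inl, Matrix.mul_assoc, a3, Matrix.mul_zero]
  · rw [pr_inrl, Matrix.mul_assoc, c3, Matrix.mul_zero]
  · rw [pr_inrr, Matrix.mul_assoc, b3, Matrix.mul_one]

end MatM

open MatM in
/-- **MAT**. -/
theorem specMMat : SpecMMat := by
  intro D
  obtain ⟨⟨a1, a2, a3⟩, ⟨b1, b2, b3⟩, ⟨c1, c2, c3⟩⟩ := rels D
  refine ⟨fun ρ hρ => eq_wm hρ, fun X Y hX => wm_mem X Y hX, fun X Y => xr_wm X Y,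
    fun X X' Y Y' => wm_br X X' Y Y', fun ρ hρ i => hρ.2 _ (D.ks.proj i), ?_, ?_, ?_, ?_⟩
  · intro s t
    rcases s with r | u | u <;> rcases t with r' | u' | u'
    · rw [pr_inl D r', asc, pr_P]
      simp only
      rw [Matrix.mul_assoc D.P, Sg_mul]
      by_cases h : r = r'
      · rw [if_pos h, if_pos (by rw [h]), pr_inl]
      · rw [if_neg h, if_neg (by simpa using h), Matrix.mul_zero, Matrix.zero_mul]
    · rw [pr_inrl, asc, pr_P']
      simp
    · rw [pr_inrr, asc, pr_Q']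
      simp
    · rw [pr_inl, asc, pr_P]
      simp
    · rw [pr_inrl D u', asc, pr_P']
      simp only
      rw [Matrix.mul_assoc D.P', Sg_mul]
      by_cases h : u = u'
      · rw [if_pos h, if_pos (by rw [h]), pr_inrl]
      · rw [if_neg h, if_neg (by simpa using h), Matrix.mul_zero, Matrix.zero_mul]
    · rw [pr_inrr, asc, pr_Q']
      simp
    · rw [pr_inl, asc, pr_P]
      simp
    · rw [pr_inrl, asc, pr_P']
      simp
    · rw [pr_inrr D u', asc, pr_Q']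
      simp only
      rw [Matrix.mul_assoc D.Q', Sg_mul]
      by_cases h : u = u'
      · rw [if_pos h, if_pos (by rw [h]), pr_inrr]
      · rw [if_neg h, if_neg (by simpa using h), Matrix.mul_zero, Matrix.zero_mul]
  · rw [Fintype.sum_sum_type, Fintype.sum_sum_type]
    simp only [pr_inl, pr_inrl, pr_inrr]
    rw [← Matrix.sum_mul, ← Matrix.sum_mul, ← Matrix.sum_mul, ← Matrix.mul_sum,
      ← Matrix.mul_sum, ← Matrix.mul_sum, Sg_sum, Sg_sum, Matrix.mul_one, Matrix.mul_one,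
      Matrix.mul_one]
    exact D.split.onto
  · intro s h
    rcases s with r | u | u
    · have h1 := pr_P D (Sum.inl r)
      rw [h, Matrix.zero_mul] at h1
      have h2 := congrArg (fun M => D.Pᵀ * cx D.qB * M) h1
      simp only at h2
      rw [Matrix.mul_zero, ← Matrix.mul_assoc, a1, Matrix.one_mul] at h2
      exact Sg_ne D.m r (lt_of_lt_of_le (by norm_num) (D.good.three r)) h2.symm
    · have h1 := pr_P' D (Sum.inr (Sum.inl u))
      rw [h, Matrix.zero_mul] at h1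
      have h2 := congrArg (fun M => D.Q'ᵀ * cx D.qB * M) h1
      simp only at h2
      rw [Matrix.mul_zero, ← Matrix.mul_assoc, c2, Matrix.one_mul] at h2
      exact Sg_ne D.m' u (D.good.pos u) h2.symm
    · have h1 := pr_Q' D (Sum.inr (Sum.inr u))
      rw [h, Matrix.zero_mul] at h1
      have h2 := congrArg (fun M => D.P'ᵀ * cx D.qB * M) h1
      simp only at h2
      rw [Matrix.mul_zero, ← Matrix.mul_assoc, b3, Matrix.one_mul] at h2
      exact Sg_ne D.m' u (D.good.pos u) h2.symm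
  · intro e he s
    rcases s with r | u | u
    · have hch : D.ch e (Sum.inl r) = D.lr e r := rfl
      rw [hch, pr_inl]
      constructor
      · rw [asc, D.split.eigR e he, Matrix.mul_assoc D.P,
          diag_Sg, Matrix.mul_smul, Matrix.smul_mul]
      · rw [Matrix.mul_assoc, left_P D e he, ← Matrix.mul_assoc, Matrix.mul_assoc D.P, Sg_diag,
          Matrix.mul_smul, Matrix.smul_mul]
    · have hch : D.ch e (Sum.inr (Sum.inl u)) = D.lu e u := rfl
      rw [hch, pr_inrl]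
      constructor
      · rw [asc, D.split.eigP e he, Matrix.mul_assoc D.P',
          diag_Sg, Matrix.mul_smul, Matrix.smul_mul]
      · rw [Matrix.mul_assoc, left_Q' D e he, ← Matrix.mul_assoc, Matrix.mul_assoc D.P', Sg_diag,
          Matrix.mul_smul, Matrix.smul_mul]
    · have hch : D.ch e (Sum.inr (Sum.inr u)) = (starRingEnd ℂ) (D.lu e u) := rfl
      rw [hch, pr_inrr]
      constructor
      · rw [asc, D.split.eigQ e he, Matrix.mul_assoc D.Q',
          diag_Sg D.m' (fun k => (starRingEnd ℂ) (D.lu e k)), Matrix.mul_smul, Matrix.smul_mul]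
      · rw [Matrix.mul_assoc, left_P' D e he, ← Matrix.mul_assoc, Matrix.mul_assoc D.Q',
          Sg_diag D.m' (fun k => (starRingEnd ℂ) (D.lu e k)), Matrix.mul_smul, Matrix.smul_mul]

end Pool.Agent.Lib.MPf11a48.KM
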