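import Pool.Agent.Lib.MP_f11a48_ag.KM.SpecA

/-!
# Families of Kuga-Satake pairs: module SPT (traces on spin modules)
-/

set_option autoImplicit false

namespace Pool.Agent.Lib.MPf11a48.KM

open Matrix

namespace SptM

/-- the recursion -/
theorem recur (A A' : ℕ → ℕ → ℕ → ℂ) (F F' p : ℕ → ℂ)
    (h1 : ∀ k l i, A (k + 1) l i = A k (l + 1) i + A k l (i + 1))
    (h1' : ∀ k l i, A' (k + 1) l i = A' k (l + 1) i + A' k l (i + 1))
    (h2 : ∀ k i, A 0 k i = p i * F k - A k 0 i)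
    (h2' : ∀ k i, A' 0 k i = p i * F' k - A' k 0 i)
    (h3 : ∀ k, F (k + 1) = (2 : ℂ)⁻¹ * A k 0 1)
    (h3' : ∀ k, F' (k + 1) = (2 : ℂ)⁻¹ * A' k 0 1)
    (h0 : F 0 = F' 0) (K : ℕ) :
    F K = F' K ∧ ∀ k l, k + l = K → ∀ i, A k l i = A' k l i := by
  induction K using Nat.strong_induction_on with
  | _ K ih =>
    have hF : F K = F' K := by
      rcases Nat.eq_zero_or_pos K with h | h
      · rw [h, h0]
      · obtain ⟨K', rfl⟩ : ∃ K', K = K' + 1 := ⟨K - 1, by omega⟩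
        rw [h3, h3', (ih K' (by omega)).2 K' 0 (by omega) 1]
    refine ⟨hF, ?_⟩
    have hd : ∀ k l, k + l = K → ∀ i, A k l i - A' k l i = A 0 K i - A' 0 K i := by
      intro k
      induction k with
      | zero =>
        intro l hl i
        have : l = K := by omega
        rw [this]
      | succ k ihk =>
        intro l hl i
        have e := (ih (k + l) (by omega)).2 k l rfl (i + 1)
        have e' := ihk (l + 1) (by omega) i
        rw [h1, h1', ← e', e]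
        ring
    intro k l hkl i
    have e1 := hd K 0 (by omega) i
    have e2 := hd k l hkl i
    have e3 := h2 K i
    have e4 := h2' K i
    rw [hF] at e3
    have e5 : A 0 K i - A' 0 K i = 0 := by
      linear_combination (1 / 2 : ℂ) * (e3 - e4 - e1)
    rw [e5] at e2
    exact sub_eq_zero.1 e2

variable {ν W : Type} [Fintype ν] [DecidableEq ν] [Fintype W] [DecidableEq W]

/-- the quadratic element -/
noncomputable def qq (γ : W → Matrix ν ν ℂ) (ρ : Matrix W W ℂ) : Matrix ν ν ℂ :=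
  (2 : ℂ)⁻¹ • ∑ a, ∑ b, ρ a b • (γ a * γ b)

/-- the commutator of the quadratic element and a vector -/
theorem comm (γ : W → Matrix ν ν ℂ) (ρ : Matrix W W ℂ)
    (hγ : ∀ a b, γ a * γ b + γ b * γ a = if a = b then 1 else 0) (hρ : ρᵀ = -ρ) (c : W) :
    γ c * qq γ ρ = qq γ ρ * γ c - ∑ a, ρ a c • γ a := by
  have hsk : ∀ a b, ρ a b = -ρ b a := by
    intro a b
    have := congrFun (congrFun hρ b) a
    simpa [Matrix.transpose_apply] using this
  have h1 : ∀ a b, γ a * γ b * γ c - γ c * (γ a * γ b) =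
      (if b = c then γ a else 0) - (if a = c then γ b else 0) := by
    intro a b
    have e1 := hγ b c
    have e2 := hγ a c
    have : γ a * γ b * γ c - γ c * (γ a * γ b) =
        γ a * (γ b * γ c + γ c * γ b) - (γ a * γ c + γ c * γ a) * γ b := by
      noncomm_ring
    rw [this, e1, e2]
    congr 1 <;> split_ifs <;> simp
  have h2 : qq γ ρ * γ c - γ c * qq γ ρ = ∑ a, ρ a c • γ a := by
    have e : qq γ ρ * γ c - γ c * qq γ ρ =
        (2 : ℂ)⁻¹ • ∑ a, ∑ b, ρ a b • (γ a * γ b * γ c - γ c * (γ a * γ b)) := by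
      unfold qq
      rw [smul_mul_assoc, mul_smul_comm, ← smul_sub, Finset.sum_mul, Finset.mul_sum,
        ← Finset.sum_sub_distrib]
      congr 1
      refine Finset.sum_congr rfl fun a _ => ?_
      rw [Finset.sum_mul, Finset.mul_sum, ← Finset.sum_sub_distrib]
      refine Finset.sum_congr rfl fun b _ => ?_
      rw [smul_mul_assoc, mul_smul_comm, ← smul_sub]
    rw [e]
    simp only [h1, smul_sub, Finset.sum_sub_distrib, smul_ite, smul_zero, Finset.sum_ite_eq',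
      Finset.mem_univ, if_true]
    have e3 : ∑ x, ∑ x_1, (if x = c then ρ x x_1 • γ x_1 else 0) = ∑ b, ρ c b • γ b := by
      rw [Finset.sum_comm]
      refine Finset.sum_congr rfl fun b _ => ?_
      rw [Finset.sum_ite_eq' Finset.univ c (fun x => ρ x b • γ b), if_pos (Finset.mem_univ c)]
    rw [e3]
    have e4 : ∑ b, ρ c b • γ b = -∑ b, ρ b c • γ b := by
      rw [← Finset.sum_neg_distrib]
      refine Finset.sum_congr rfl fun b _ => ?_
      rw [hsk c b, neg_smul]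
    rw [e4, ← smul_sub, sub_neg_eq_add, ← two_smul ℂ (∑ b, ρ b c • γ b), smul_smul]
    norm_num
  rw [← h2]
  abel

/-- the array of traces -/
noncomputable def AA (γ : W → Matrix ν ν ℂ) (ρ : Matrix W W ℂ) (k l i : ℕ) : ℂ :=
  ∑ a, ∑ b, (ρ ^ i) a b * ((qq γ ρ ^ l * (γ b * qq γ ρ ^ k * γ a)).trace /
    (Fintype.card ν : ℂ))

theorem AA_succ (γ : W → Matrix ν ν ℂ) (ρ : Matrix W W ℂ)
    (hγ : ∀ a b, γ a * γ b + γ b * γ a = if a = b then 1 else 0) (hρ : ρᵀ = -ρ) (k l i : ℕ) :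
    AA γ ρ (k + 1) l i = AA γ ρ k (l + 1) i + AA γ ρ k l (i + 1) := by
  have hsk : ∀ a b, ρ a b = -ρ b a := by
    intro a b
    have := congrFun (congrFun hρ b) a
    simpa [Matrix.transpose_apply] using this
  have h1 : ∀ a b, (qq γ ρ ^ l * (γ b * qq γ ρ ^ (k + 1) * γ a)).trace =
      (qq γ ρ ^ (l + 1) * (γ b * qq γ ρ ^ k * γ a)).trace -
        ∑ c, ρ c b * (qq γ ρ ^ l * (γ c * qq γ ρ ^ k * γ a)).trace := by
    intro a b
    have e : qq γ ρ ^ l * (γ b * qq γ ρ ^ (k + 1) * γ a) =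
        qq γ ρ ^ (l + 1) * (γ b * qq γ ρ ^ k * γ a) -
          ∑ c, ρ c b • (qq γ ρ ^ l * (γ c * qq γ ρ ^ k * γ a)) := by
      rw [pow_succ' (qq γ ρ) k, ← mul_assoc (γ b), comm γ ρ hγ hρ b, sub_mul, sub_mul, mul_sub,
        pow_succ (qq γ ρ) l]
      congr 1
      · simp only [mul_assoc]
      · rw [Finset.sum_mul, Finset.sum_mul, Finset.mul_sum]
        refine Finset.sum_congr rfl fun c _ => ?_
        simp only [smul_mul_assoc, mul_smul_comm]
    rw [e, Matrix.trace_sub, Matrix.trace_sum]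
    simp only [Matrix.trace_smul, smul_eq_mul]
  unfold AA
  rw [← sub_eq_iff_eq_add']
  have h2 : ∑ a, ∑ b, (ρ ^ i) a b * ((qq γ ρ ^ l * (γ b * qq γ ρ ^ (k + 1) * γ a)).trace /
        (Fintype.card ν : ℂ)) -
      ∑ a, ∑ b, (ρ ^ i) a b * ((qq γ ρ ^ (l + 1) * (γ b * qq γ ρ ^ k * γ a)).trace /
        (Fintype.card ν : ℂ)) =
      ∑ a, ∑ b, ∑ c, ((ρ ^ i) a b * ρ b c) *
        ((qq γ ρ ^ l * (γ c * qq γ ρ ^ k * γ a)).trace / (Fintype.card ν : ℂ)) := by
    rw [← Finset.sum_sub_distrib]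
    refine Finset.sum_congr rfl fun a _ => ?_
    rw [← Finset.sum_sub_distrib]
    refine Finset.sum_congr rfl fun b _ => ?_
    rw [h1 a b, sub_div, mul_sub, sub_sub_cancel_left, Finset.sum_div, Finset.mul_sum,
      ← Finset.sum_neg_distrib]
    refine Finset.sum_congr rfl fun c _ => ?_
    rw [hsk b c]
    ring
  rw [h2]
  refine Finset.sum_congr rfl fun a _ => ?_
  rw [Finset.sum_comm]
  refine Finset.sum_congr rfl fun c _ => ?_
  rw [pow_succ, Matrix.mul_apply, Finset.sum_mul]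

theorem AA_zero (γ : W → Matrix ν ν ℂ) (ρ : Matrix W W ℂ)
    (hγ : ∀ a b, γ a * γ b + γ b * γ a = if a = b then 1 else 0) (k i : ℕ) :
    AA γ ρ 0 k i = (ρ ^ i).trace * ((qq γ ρ ^ k).trace / (Fintype.card ν : ℂ)) -
      AA γ ρ k 0 i := by
  have h1 : ∀ a b, (qq γ ρ ^ k * (γ b * qq γ ρ ^ 0 * γ a)).trace =
      (if a = b then (qq γ ρ ^ k).trace else 0) -
        (qq γ ρ ^ 0 * (γ b * qq γ ρ ^ k * γ a)).trace := by
    intro a b
    have e1 : γ b * γ a = (if a = b then 1 else 0) - γ a * γ b := by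
      rw [← hγ a b]
      abel
    have e2 : (qq γ ρ ^ 0 * (γ b * qq γ ρ ^ k * γ a)).trace =
        (qq γ ρ ^ k * (γ a * γ b)).trace := by
      rw [pow_zero, one_mul, mul_assoc, Matrix.trace_mul_comm, mul_assoc]
    rw [e2, pow_zero, mul_one, e1, mul_sub, Matrix.trace_sub]
    congr 1
    split_ifs <;> simp
  unfold AA
  rw [eq_sub_iff_add_eq, ← Finset.sum_add_distrib]
  have h2 : ∀ a, ∑ b, (ρ ^ i) a b * ((qq γ ρ ^ k * (γ b * qq γ ρ ^ 0 * γ a)).trace /
        (Fintype.card ν : ℂ)) +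
      ∑ b, (ρ ^ i) a b * ((qq γ ρ ^ 0 * (γ b * qq γ ρ ^ k * γ a)).trace /
        (Fintype.card ν : ℂ)) =
      (ρ ^ i) a a * ((qq γ ρ ^ k).trace / (Fintype.card ν : ℂ)) := by
    intro a
    rw [← Finset.sum_add_distrib]
    have : ∀ b, (ρ ^ i) a b * ((qq γ ρ ^ k * (γ b * qq γ ρ ^ 0 * γ a)).trace /
        (Fintype.card ν : ℂ)) +
      (ρ ^ i) a b * ((qq γ ρ ^ 0 * (γ b * qq γ ρ ^ k * γ a)).trace /
        (Fintype.card ν : ℂ)) =
        if a = b then (ρ ^ i) a b * ((qq γ ρ ^ k).trace / (Fintype.card ν : ℂ)) else 0 := by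
      intro b
      rw [h1 a b]
      split_ifs <;> ring
    rw [Finset.sum_congr rfl fun b _ => this b, Finset.sum_ite_eq Finset.univ a,
      if_pos (Finset.mem_univ a)]
  rw [Finset.sum_congr rfl fun a _ => h2 a, ← Finset.sum_mul]
  rfl

theorem F_succ (γ : W → Matrix ν ν ℂ) (ρ : Matrix W W ℂ) (k : ℕ) :
    (qq γ ρ ^ (k + 1)).trace / (Fintype.card ν : ℂ) = (2 : ℂ)⁻¹ * AA γ ρ k 0 1 := by
  have h1 : (qq γ ρ ^ (k + 1)).trace =
      (2 : ℂ)⁻¹ * ∑ a, ∑ b, ρ a b * (qq γ ρ ^ 0 * (γ b * qq γ ρ ^ k * γ a)).trace := by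
    rw [pow_succ]
    conv_lhs =>
      enter [1, 2]
      rw [qq]
    rw [mul_smul_comm, Matrix.trace_smul, smul_eq_mul, Finset.mul_sum, Matrix.trace_sum]
    congr 1
    refine Finset.sum_congr rfl fun a _ => ?_
    rw [Finset.mul_sum, Matrix.trace_sum]
    refine Finset.sum_congr rfl fun b _ => ?_
    rw [mul_smul_comm, Matrix.trace_smul, smul_eq_mul, pow_zero, one_mul, mul_assoc (γ b),
      Matrix.trace_mul_comm (γ b), mul_assoc]
  rw [h1, AA, mul_div_assoc, Finset.sum_div]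
  congr 1
  refine Finset.sum_congr rfl fun a _ => ?_
  rw [Finset.sum_div]
  refine Finset.sum_congr rfl fun b _ => ?_
  rw [pow_one, mul_div_assoc]

end SptM

theorem specMSpt : SpecMSpt := by
  intro ν ν' W W' _ _ _ _ _ _ _ _ _ _ γ γ' ρ ρ' hγ hγ' hρ hρ' hp k
  refine (SptM.recur (SptM.AA γ ρ) (SptM.AA γ' ρ')
    (fun k => (SptM.qq γ ρ ^ k).trace / (Fintype.card ν : ℂ))
    (fun k => (SptM.qq γ' ρ' ^ k).trace / (Fintype.card ν' : ℂ))
    (fun i => (ρ ^ i).trace) (SptM.AA_succ γ ρ hγ hρ) (SptM.AA_succ γ' ρ' hγ' hρ')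
    (SptM.AA_zero γ ρ hγ) ?_ (SptM.F_succ γ ρ) (SptM.F_succ γ' ρ') ?_ k).1
  · intro k i
    show _ = (ρ ^ i).trace * _ - _
    rw [hp i]
    exact SptM.AA_zero γ' ρ' hγ' k i
  · have h1 : (Fintype.card ν : ℂ) ≠ 0 := Nat.cast_ne_zero.2 Fintype.card_ne_zero
    have h2 : (Fintype.card ν' : ℂ) ≠ 0 := Nat.cast_ne_zero.2 Fintype.card_ne_zero
    simp only [pow_zero, Matrix.trace_one]
    rw [div_self h1, div_self h2]

end Pool.Agent.Lib.MPf11a48.KM
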