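import Pool.Agent.Lib.MP_f11a48_ag.KM.SpecA

/-!
# Families of Kuga-Satake pairs: module XRR (no links between real blocks of different species)
-/

set_option autoImplicit false

namespace Pool.Agent.Lib.MPf11a48.KM

open Matrix MvPolynomial Pool.Agent.Lib.MPf11a48.Tors
open Pool.Agent.Lib.MPf11a48.CM hiding OmegaM
open Pool.Agent.Lib.MPf11a48.U (AbData Ix HD EndAlg)
open Pool.Agent.Lib.MPf11a48.K3 Pool.Agent.Lib.MPf11a48.KU
open KLieM (bl clC gam)

namespace XrrM

theorem cx_mul' {μ : Type} [Fintype μ] (A B : Matrix μ μ ℚ) : cx (A * B) = cx A * cx B := by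
  ext i j
  simp [cx, Matrix.mul_apply]

theorem cx_zero' {μ : Type} : cx (0 : Matrix μ μ ℚ) = 0 := by
  ext i j
  simp [cx]

theorem cx_one' {μ : Type} [DecidableEq μ] : cx (1 : Matrix μ μ ℚ) = 1 := by
  ext i j
  by_cases h : i = j
  · subst h
    simp [cx]
  · simp [cx, Matrix.one_apply_ne h]

theorem cx_pow' {μ : Type} [Fintype μ] [DecidableEq μ] (A : Matrix μ μ ℚ) (k : ℕ) :
    cx (A ^ k) = cx A ^ k := by
  induction k with
  | zero => rw [pow_zero, pow_zero, cx_one']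
  | succ k ih => rw [pow_succ, pow_succ, cx_mul', ih]

theorem cx_trace {μ : Type} [Fintype μ] (A : Matrix μ μ ℚ) :
    (cx A).trace = ((A.trace : ℚ) : ℂ) := by
  simp [cx, Matrix.trace]

theorem cx_soC' {n : ℕ} {qB : Matrix (Fin n) (Fin n) ℚ} {E : Set (Matrix (Fin n) (Fin n) ℚ)}
    {ρ : Matrix (Fin n) (Fin n) ℚ} (h : ρ ∈ soE qB E) : cx ρ ∈ soC qB E := by
  refine ⟨?_, fun e he => ?_⟩
  · have h2 := congrArg cx h.1
    rw [cx_zero'] at h2
    rw [← h2]
    ext i j
    simp [cx, Matrix.mul_apply]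
  · rw [← cx_mul', ← cx_mul', h.2 e he]

theorem pc_mul (D : Dat) (i j : D.I) : D.pc i * D.pc j = if i = j then D.pc i else 0 := by
  unfold Dat.pc
  rw [← cx_mul', D.ks.mul i j]
  split_ifs
  · rfl
  · exact cx_zero'

theorem pc_ne (D : Dat) (i : D.I) : D.pc i ≠ 0 := by
  intro h
  apply D.ks.ne i
  ext a b
  have := congrFun (congrFun h a) b
  simpa [Dat.pc, cx] using this

/-- the indices of species `i` -/
abbrev Wi (D : Dat) (i : D.I) : Type := (k : {k : D.R // D.ox k = i}) × Fin (D.m k.1)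

/-- the embedding -/
def emb (D : Dat) (i : D.I) (a : Wi D i) : (k : D.R) × Fin (D.m k) := ⟨a.1.1, a.2⟩

theorem emb_inj (D : Dat) (i : D.I) : Function.Injective (emb D i) := by
  rintro ⟨⟨k, hk⟩, x⟩ ⟨⟨l, hl⟩, y⟩ h
  unfold emb at h
  simp only [Sigma.mk.injEq] at h
  obtain ⟨h1, h2⟩ := h
  subst h1
  rw [eq_of_heq h2]

theorem ox_emb (D : Dat) (i : D.I) (a : Wi D i) : D.ox (emb D i a).1 = i := a.1.2

theorem not_range (D : Dat) (i : D.I) (u : (k : D.R) × Fin (D.m k)) (h : u ∉ Set.range (emb D i)) :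
    i ≠ D.ox u.1 := by
  intro h'
  exact h ⟨⟨⟨u.1, h'.symm⟩, u.2⟩, rfl⟩

/-- the action of species `i` -/
noncomputable def ri (D : Dat) (i : D.I) (X : D.FR) : Matrix (Wi D i) (Wi D i) ℂ :=
  blockDiagonal' fun k : {k : D.R // D.ox k = i} => X k.1

theorem ri_apply (D : Dat) (i : D.I) (X : D.FR) (a b : Wi D i) :
    ri D i X a b = blockDiagonal' X (emb D i a) (emb D i b) := by
  obtain ⟨⟨k, hk⟩, x⟩ := a
  obtain ⟨⟨l, hl⟩, y⟩ := b
  unfold ri emb
  by_cases h : k = l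
  · subst h
    rw [Matrix.blockDiagonal'_apply_eq, Matrix.blockDiagonal'_apply_eq]
  · rw [Matrix.blockDiagonal'_apply_ne _ _ _ h, Matrix.blockDiagonal'_apply_ne]
    intro h'
    exact h (congrArg Subtype.val h')

theorem ri_skew (D : Dat) (i : D.I) (X : D.FR) (h : ∀ k, (X k)ᵀ = -X k) :
    (ri D i X)ᵀ = -ri D i X := by
  unfold ri
  rw [Matrix.blockDiagonal'_transpose, ← Matrix.blockDiagonal'_neg]
  congr 1
  funext k
  exact h k.1

theorem ri_trace (D : Dat) (i : D.I) (X : D.FR) (p : ℕ) :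
    (ri D i X ^ p).trace = ∑ k', (if D.ox k' = i then ((X k') ^ p).trace else 0) := by
  unfold ri
  rw [← Matrix.blockDiagonal'_pow, Matrix.trace_blockDiagonal']
  refine Fintype.sum_of_injective Subtype.val Subtype.val_injective _ _ ?_ ?_
  · intro k hk
    rw [if_neg]
    intro h
    exact hk ⟨⟨k, h⟩, rfl⟩
  · intro k
    rw [if_pos k.2]
    rfl

/-- compression of powers -/
theorem pow_comp {ν μ : Type} [Fintype ν] [DecidableEq ν] [Fintype μ] [DecidableEq μ]
    {L : Matrix ν μ ℂ} {R : Matrix μ ν ℂ} {p : Matrix μ μ ℂ} (h1 : L * R = 1) (h2 : R * L = p)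
    {Z : Matrix μ μ ℂ} (hZ : Z * p = p * Z) (k : ℕ) : (L * Z * R) ^ k = L * Z ^ k * R := by
  have hk : ∀ k, Z ^ k * p = p * Z ^ k := by
    intro k
    exact ((show Commute Z p from hZ).pow_left k)
  have hR : p * R = R := by rw [← h2, Matrix.mul_assoc, h1, Matrix.mul_one]
  induction k with
  | zero => rw [pow_zero, pow_zero, Matrix.mul_one, h1]
  | succ k ih =>
    rw [pow_succ', ih, pow_succ']
    calc L * Z * R * (L * Z ^ k * R) = L * Z * ((R * L) * Z ^ k) * R := by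
          simp only [Matrix.mul_assoc]
      _ = L * Z * (Z ^ k * (p * R)) := by rw [h2, ← hk k]; simp only [Matrix.mul_assoc]
      _ = L * (Z * Z ^ k) * R := by rw [hR]; simp only [Matrix.mul_assoc]

theorem trace_comp {ν μ : Type} [Fintype ν] [DecidableEq ν] [Fintype μ] [DecidableEq μ]
    {L : Matrix ν μ ℂ} {R : Matrix μ ν ℂ} {p : Matrix μ μ ℂ} (h2 : R * L = p)
    (Z : Matrix μ μ ℂ) : (L * Z * R).trace = (Z * p).trace := by
  rw [Matrix.mul_assoc, Matrix.trace_mul_comm, Matrix.mul_assoc, h2]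

/-- the binomial formula for traces -/
theorem trace_binom {ν : Type} [Fintype ν] [DecidableEq ν] (q : Matrix ν ν ℂ) (c : ℂ) (p : ℕ) :
    ((q + c • (1 : Matrix ν ν ℂ)) ^ p).trace =
      ∑ a ∈ Finset.range (p + 1), (p.choose a : ℂ) * c ^ (p - a) * (q ^ a).trace := by
  have hc : Commute q (c • (1 : Matrix ν ν ℂ)) := by
    show q * (c • 1) = (c • 1) * q
    rw [Matrix.mul_smul, Matrix.smul_mul, Matrix.mul_one, Matrix.one_mul]
  rw [hc.add_pow, Matrix.trace_sum]
  refine Finset.sum_congr rfl fun a _ => ?_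
  have h : q ^ a * (c • (1 : Matrix ν ν ℂ)) ^ (p - a) * ((p.choose a : ℕ) : Matrix ν ν ℂ) =
      ((p.choose a : ℂ) * c ^ (p - a)) • q ^ a := by
    rw [smul_pow, one_pow, Matrix.mul_smul, Matrix.mul_one]
    have h3 : ((p.choose a : ℕ) : Matrix ν ν ℂ) = (p.choose a : ℂ) • 1 := by
      rw [← Matrix.diagonal_natCast, Matrix.smul_one_eq_diagonal]
    rw [h3, Matrix.smul_mul, Matrix.mul_smul, Matrix.mul_one, smul_smul, mul_comm]
  rw [h, Matrix.trace_smul, smul_eq_mul]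

/-- the compression of species `i` -/
theorem comp_i (hCar : SpecMCar) (D : Dat) (i : D.I) (hi : ∀ u, i ≠ D.ou u)
    {ν : Type} [Fintype ν] [DecidableEq ν] {L : Matrix ν (Ix D.g) ℂ} {R : Matrix (Ix D.g) ν ℂ}
    (h1 : L * R = 1) (h2 : R * L = D.pc i) :
    (∀ a b : Wi D i, (L * D.gm (emb D i a) * R) * (L * D.gm (emb D i b) * R) +
      (L * D.gm (emb D i b) * R) * (L * D.gm (emb D i a) * R) = if a = b then 1 else 0) ∧
    ∀ (X : D.FR) (Y : D.FU), L * D.cl (D.wm X Y) * R =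
      (2 : ℂ)⁻¹ • ∑ a, ∑ b, ri D i X a b • ((L * D.gm (emb D i a) * R) *
        (L * D.gm (emb D i b) * R)) := by
  obtain ⟨hc1, -, -, -, hc5, hc6, -, hc8, -⟩ := hCar D
  have hL : L * D.pc i = L := by rw [← h2, ← Matrix.mul_assoc, h1, Matrix.one_mul]
  have hR : D.pc i * R = R := by rw [← h2, Matrix.mul_assoc, h1, Matrix.mul_one]
  have hpg : ∀ a : Wi D i, D.pc i * D.gm (emb D i a) = D.gm (emb D i a) := by
    intro a
    rw [(hc5 i (emb D i a)).1, if_pos (ox_emb D i a).symm]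
  have hmul : ∀ a b : Wi D i, (L * D.gm (emb D i a) * R) * (L * D.gm (emb D i b) * R) =
      L * (D.gm (emb D i a) * D.gm (emb D i b)) * R := by
    intro a b
    calc (L * D.gm (emb D i a) * R) * (L * D.gm (emb D i b) * R) =
        L * D.gm (emb D i a) * ((R * L) * D.gm (emb D i b)) * R := by
          simp only [Matrix.mul_assoc]
      _ = _ := by
          rw [h2, hpg b]
          simp only [Matrix.mul_assoc]
  refine ⟨fun a b => ?_, fun X Y => ?_⟩
  · rw [hmul, hmul, ← Matrix.add_mul, ← Matrix.mul_add, hc1]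
    by_cases hab : a = b
    · subst hab
      rw [if_pos rfl, if_pos rfl, ox_emb, hL, h1]
    · rw [if_neg hab, if_neg fun h => hab (emb_inj D i h), Matrix.mul_zero, Matrix.zero_mul]
  · have hz1 : ∀ u, i ≠ D.ox u.1 → L * D.gm u = 0 := by
      intro u hu
      rw [← hL, Matrix.mul_assoc, (hc5 i u).1, if_neg hu, Matrix.mul_zero]
    have hz2 : ∀ u, i ≠ D.ox u.1 → D.gm u * R = 0 := by
      intro u hu
      rw [← hR, ← Matrix.mul_assoc, (hc5 i u).2, if_neg hu, Matrix.zero_mul]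
    have hz3 : ∀ u, L * D.e u = 0 := by
      intro u
      rw [← hL, Matrix.mul_assoc, (hc6 i u).1, if_neg (hi u.1), Matrix.mul_zero]
    have hz4 : ∀ k, L * D.pc (D.ou k) = 0 := by
      intro k
      rw [← hL, Matrix.mul_assoc, pc_mul, if_neg (hi k), Matrix.mul_zero]
    rw [hc8 X Y, Matrix.mul_add, Matrix.add_mul]
    have e1 : L * ((∑ u, ∑ v, blockDiagonal' Y u v • (D.e u * D.f v)) -
        (2 : ℂ)⁻¹ • ∑ k, (Y k).trace • D.pc (D.ou k)) = 0 := by
      rw [Matrix.mul_sub, Matrix.mul_smul, Matrix.mul_sum, Matrix.mul_sum]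
      have f1 : ∀ u, L * ∑ v, blockDiagonal' Y u v • (D.e u * D.f v) = 0 := by
        intro u
        rw [Matrix.mul_sum]
        refine Finset.sum_eq_zero fun v _ => ?_
        rw [Matrix.mul_smul, ← Matrix.mul_assoc, hz3, Matrix.zero_mul, smul_zero]
      have f2 : ∀ k, L * ((Y k).trace • D.pc (D.ou k)) = 0 := by
        intro k
        rw [Matrix.mul_smul, hz4, smul_zero]
      rw [Finset.sum_eq_zero fun u _ => f1 u, Finset.sum_eq_zero fun k _ => f2 k, smul_zero,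
        sub_zero]
    rw [e1, Matrix.zero_mul, add_zero, Matrix.mul_smul, Matrix.smul_mul]
    congr 1
    rw [Matrix.mul_sum, Matrix.sum_mul]
    symm
    refine Fintype.sum_of_injective (emb D i) (emb_inj D i) _ _ ?_ ?_
    · intro u hu
      rw [Matrix.mul_sum, Matrix.sum_mul]
      refine Finset.sum_eq_zero fun v _ => ?_
      rw [Matrix.mul_smul, Matrix.smul_mul, ← Matrix.mul_assoc, hz1 u (not_range D i u hu),
        Matrix.zero_mul, Matrix.zero_mul, smul_zero]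
    · intro a
      rw [Matrix.mul_sum, Matrix.sum_mul]
      refine Fintype.sum_of_injective (emb D i) (emb_inj D i) _ _ ?_ ?_
      · intro v hv
        rw [Matrix.mul_smul, Matrix.smul_mul, Matrix.mul_assoc, Matrix.mul_assoc,
          hz2 v (not_range D i v hv), Matrix.mul_zero, Matrix.mul_zero, smul_zero]
      · intro b
        rw [ri_apply, hmul, Matrix.mul_smul, Matrix.smul_mul]

end XrrM

open XrrM in
theorem specMXrr (hMat : SpecMMat) (hCar : SpecMCar) (hCmp : SpecMCmp) (hMZ : SpecMZ)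
    (hTot : SpecMTot) (hSpt : SpecMSpt) (hWrd : SpecMWrd) : SpecMXrr := by
  intro D kk r mm hK k l hkl hpow
  obtain ⟨hM1, -⟩ := hMat D
  have hT := hTot D kk r mm hK k l hpow
  obtain ⟨i, hi⟩ : ∃ i, i = D.ox k := ⟨_, rfl⟩
  obtain ⟨j, hj⟩ : ∃ j, j = D.ox l := ⟨_, rfl⟩
  rw [← hi, ← hj] at hkl
  simp only [← hi, ← hj] at hT
  have hiu : ∀ u, i ≠ D.ou u := fun u => by rw [hi]; exact D.good.pure k u
  have hju : ∀ u, j ≠ D.ou u := fun u => by rw [hj]; exact D.good.pure l u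
  obtain ⟨ν, _, _, _, L, R, hLR, hRL⟩ := (hCmp (Ix D.g) (D.pc i) (by
    rw [pc_mul, if_pos rfl])).1 (pc_ne D i)
  obtain ⟨ν', _, _, _, L', R', hLR', hRL'⟩ := (hCmp (Ix D.g) (D.pc j) (by
    rw [pc_mul, if_pos rfl])).1 (pc_ne D j)
  obtain ⟨hg, hcl⟩ := comp_i hCar D i hiu hLR hRL
  obtain ⟨hg', hcl'⟩ := comp_i hCar D j hju hLR' hRL'
  have hc0 : (Fintype.card ν : ℂ) ≠ 0 := Nat.cast_ne_zero.2 Fintype.card_ne_zero
  have hc0' : (Fintype.card ν' : ℂ) ≠ 0 := Nat.cast_ne_zero.2 Fintype.card_ne_zero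
  have htr : (D.pc i).trace = (Fintype.card ν : ℂ) := by
    rw [← hRL, Matrix.trace_mul_comm, hLR, Matrix.trace_one]
  have htr' : (D.pc j).trace = (Fintype.card ν' : ℂ) := by
    rw [← hRL', Matrix.trace_mul_comm, hLR', Matrix.trace_one]
  -- the traces of the powers
  have key : ∀ Z ∈ kk, ∀ p : ℕ, (cx Z ^ p * D.pc i).trace / (Fintype.card ν : ℂ) =
      (cx Z ^ p * D.pc j).trace / (Fintype.card ν' : ℂ) := by
    intro Z hZ p
    have hρ : cx (r Z) ∈ D.so := cx_soC' (hK.so Z hZ)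
    obtain ⟨hX, hwm⟩ := hM1 _ hρ
    have hcom : ∀ i, cx Z * D.pc i = D.pc i * cx Z := by
      intro i
      unfold Dat.pc
      rw [← cx_mul', ← cx_mul', hK.comp Z hZ i]
    have hZZ := hMZ D kk r mm hK Z hZ
    have e1 : L * cx Z * R = (2 : ℂ)⁻¹ • (∑ a, ∑ b, ri D i (D.xr (cx (r Z))) a b •
        ((L * D.gm (emb D i a) * R) * (L * D.gm (emb D i b) * R))) +
          ((mm Z : ℂ) / 2) • (1 : Matrix ν ν ℂ) := by
      conv_lhs => rw [hZZ, hwm]
      rw [Matrix.mul_add, Matrix.add_mul, hcl, Matrix.mul_smul, Matrix.smul_mul, Matrix.mul_one,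
        hLR]
    have e1' : L' * cx Z * R' = (2 : ℂ)⁻¹ • (∑ a, ∑ b, ri D j (D.xr (cx (r Z))) a b •
        ((L' * D.gm (emb D j a) * R') * (L' * D.gm (emb D j b) * R'))) +
          ((mm Z : ℂ) / 2) • (1 : Matrix ν' ν' ℂ) := by
      conv_lhs => rw [hZZ, hwm]
      rw [Matrix.mul_add, Matrix.add_mul, hcl', Matrix.mul_smul, Matrix.smul_mul, Matrix.mul_one,
        hLR']
    rw [← trace_comp hRL, ← trace_comp hRL', ← pow_comp hLR hRL (hcom i),
      ← pow_comp hLR' hRL' (hcom j), e1, e1', trace_binom, trace_binom, Finset.sum_div,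
      Finset.sum_div]
    refine Finset.sum_congr rfl fun a _ => ?_
    have h3 := hSpt ν ν' (Wi D i) (Wi D j) (fun a => L * D.gm (emb D i a) * R)
      (fun a => L' * D.gm (emb D j a) * R') (ri D i (D.xr (cx (r Z))))
      (ri D j (D.xr (cx (r Z)))) hg hg' (ri_skew D i _ hX) (ri_skew D j _ hX) (fun p => by
        rw [ri_trace, ri_trace]
        exact hT Z hZ p) a
    rw [mul_div_assoc, mul_div_assoc, h3]
  -- the rational linear form
  have hti : ((D.π i).trace : ℂ) = (Fintype.card ν : ℂ) := by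
    rw [← htr, Dat.pc, cx_trace]
  have htj : ((D.π j).trace : ℂ) = (Fintype.card ν' : ℂ) := by
    rw [← htr', Dat.pc, cx_trace]
  obtain ⟨lf, hlf⟩ : ∃ lf : Matrix (Ix D.g) (Ix D.g) ℚ →ₗ[ℚ] ℚ, ∀ x, lf x =
      (x * D.π i).trace / (D.π i).trace - (x * D.π j).trace / (D.π j).trace := by
    refine ⟨⟨⟨fun x => (x * D.π i).trace / (D.π i).trace - (x * D.π j).trace / (D.π j).trace,
      fun x y => ?_⟩, fun a x => ?_⟩, fun x => rfl⟩
    · simp only [Matrix.add_mul, Matrix.trace_add]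
      ring
    · simp only [Matrix.smul_mul, Matrix.trace_smul, smul_eq_mul, RingHom.id_apply]
      ring
  have h0 : ∀ Z ∈ kk, ∀ p : ℕ, lf (Z ^ p) = 0 := by
    intro Z hZ p
    have h1 := key Z hZ p
    rw [hlf, sub_eq_zero]
    have h2 : (((Z ^ p * D.π i).trace / (D.π i).trace : ℚ) : ℂ) =
        (((Z ^ p * D.π j).trace / (D.π j).trace : ℚ) : ℂ) := by
      push_cast
      rw [hti, htj, ← cx_trace, ← cx_trace, cx_mul', cx_mul', cx_pow']
      exact h1
    exact_mod_cast h2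
  have h1 := hWrd (Ix D.g) kk lf hK.br h0 (D.π i) (hK.pi i)
  rw [hlf, D.ks.mul, D.ks.mul, if_pos rfl, if_neg hkl, Matrix.trace_zero, zero_div, sub_zero,
    div_self] at h1
  · exact one_ne_zero h1
  · intro h
    rw [h] at hti
    exact hc0 (by rw [← hti]; norm_num)

end Pool.Agent.Lib.MPf11a48.KM
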