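import Pool.Agent.Lib.MP_f11a48_ag.KM.Stmt
import Pool.Agent.Lib.MP_f11a48_ag.KU.Spec
import Pool.Agent.Lib.MP_f11a48_ag.KU.LieSpec

/-!
# Families of Kuga-Satake pairs: the data, and notation for the specifications
-/

set_option autoImplicit false

namespace Pool.Agent.Lib.MPf11a48.KM

open Matrix MvPolynomial Pool.Agent.Lib.MPf11a48.Tors
open Pool.Agent.Lib.MPf11a48.CM hiding OmegaM
open Pool.Agent.Lib.MPf11a48.GL2 (lie Geo)
open Pool.Agent.Lib.MPf11a48.GL2T (IsAlg)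
open Pool.Agent.Lib.MPf11a48.U (AbData Ix HD EndAlg)
open Pool.Agent.Lib.MPf11a48.K3 Pool.Agent.Lib.MPf11a48.KU
open KLieM (bl clC gam)
open KGrpM (stab)
open KGrp3M (G0 sc ex)

/-- all the data and hypotheses of the theorem, except the torsor -/
structure Dat where
  g : ℕ
  N : ℕ
  n : ℕ
  I : Type
  R : Type
  U : Type
  [inI : Fintype I]
  [inI' : DecidableEq I]
  [inR : Fintype R]
  [inR' : DecidableEq R]
  [inU : Fintype U]
  [inU' : DecidableEq U]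
  A : AbData g N
  c : GL (Ix g) ℂ
  t : GL (Fin n) ℂ
  qdR : Matrix (Fin n) (Fin n) ℂ
  qB : Matrix (Fin n) (Fin n) ℚ
  B : Fin n → Matrix (Ix g) (Ix g) ℚ
  E : Set (Matrix (Fin n) (Fin n) ℚ)
  ix : Fin n → I
  π : I → Matrix (Ix g) (Ix g) ℚ
  m : R → ℕ
  P : Matrix (Fin n) ((k : R) × Fin (m k)) ℂ
  lr : Matrix (Fin n) (Fin n) ℚ → R → ℂ
  m' : U → ℕ
  P' : Matrix (Fin n) ((k : U) × Fin (m' k)) ℂ
  Q' : Matrix (Fin n) ((k : U) × Fin (m' k)) ℂ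
  lu : Matrix (Fin n) (Fin n) ℚ → U → ℂ
  ox : R → I
  ou : U → I
  ks : KSFam A c t qdR qB B E ix π
  full : EndFull c qB B E
  split : SplitM qB E m P lr m' P' Q' lu
  good : GoodM E ix m lr m' lu ox ou

attribute [instance] Dat.inI Dat.inI' Dat.inR Dat.inR' Dat.inU Dat.inU'

/-- `1 / √2` -/
noncomputable def hs : ℂ := ((Real.sqrt 2 : ℝ) : ℂ)⁻¹

theorem two_hs : 2 * (hs * hs) = 1 := by
  have h : ((Real.sqrt 2 : ℝ) : ℂ) * ((Real.sqrt 2 : ℝ) : ℂ) = 2 := by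
    rw [← Complex.ofReal_mul, Real.mul_self_sqrt (by norm_num)]
    norm_num
  rw [hs, ← mul_inv, h]
  norm_num

namespace Dat

variable (D : Dat)

/-- the idempotent `π_i` -/
def pc (i : D.I) : Matrix (Ix D.g) (Ix D.g) ℂ := cx (D.π i)

/-- the Clifford operators of the orthonormal bases of the `V_r` (`γ γ = 1/2`) -/
noncomputable def gm (u : (k : D.R) × Fin (D.m k)) : Matrix (Ix D.g) (Ix D.g) ℂ :=
  gam D.B D.P hs u

/-- the creation operators -/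
noncomputable def e (u : (k : D.U) × Fin (D.m' k)) : Matrix (Ix D.g) (Ix D.g) ℂ := eU D.B D.P' u

/-- the annihilation operators -/
noncomputable def f (u : (k : D.U) × Fin (D.m' k)) : Matrix (Ix D.g) (Ix D.g) ℂ := fU D.B D.Q' u

/-- `clC ρ / 4`: the image of `ρ` in the even Clifford algebra -/
noncomputable def cl (ρ : Matrix (Fin D.n) (Fin D.n) ℂ) : Matrix (Ix D.g) (Ix D.g) ℂ :=
  (4 : ℂ)⁻¹ • clC D.B D.qB ρ

/-- families of matrices on the `V_r` -/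
abbrev FR : Type := (k : D.R) → Matrix (Fin (D.m k)) (Fin (D.m k)) ℂ

/-- families of matrices on the `V_u` -/
abbrev FU : Type := (k : D.U) → Matrix (Fin (D.m' k)) (Fin (D.m' k)) ℂ

/-- the action of `ρ` on `V_r` -/
noncomputable def xr (ρ : Matrix (Fin D.n) (Fin D.n) ℂ) : D.FR :=
  fun k => Matrix.blockDiag' (D.Pᵀ * cx D.qB * ρ * D.P) k

/-- the action of `ρ` on `V_u` -/
noncomputable def xu (ρ : Matrix (Fin D.n) (Fin D.n) ℂ) : D.FU := xk D.P' D.Q' D.qB ρ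

/-- the infinitesimal isometry which acts as `X r` on `V_r`, `Y u` on `V_u` and `-(Y u)ᵀ` on
`V_u^*` -/
noncomputable def wm (X : D.FR) (Y : D.FU) : Matrix (Fin D.n) (Fin D.n) ℂ :=
  D.P * blockDiagonal' X * (D.Pᵀ * cx D.qB) + um D.P' D.Q' D.qB (blockDiagonal' Y)

/-- the isometry which acts as `x r` on `V_r`, `x' u` on `V_u` and the transpose of the inverse of
`x' u` on `V_u^*` -/
noncomputable def wg (x : (k : D.R) → GL (Fin (D.m k)) ℂ) (x' : (k : D.U) → GL (Fin (D.m' k)) ℂ) :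
    Matrix (Fin D.n) (Fin D.n) ℂ :=
  D.P * blockDiagonal' (fun k => (x k).1) * (D.Pᵀ * cx D.qB) + ugm D.P' D.Q' D.qB x'

/-- the scalars `z u` on the `V_u` -/
noncomputable def uz (z : D.U → ℂ) : Matrix (Fin D.n) (Fin D.n) ℂ :=
  D.wm 0 fun k => Matrix.scalar _ (z k)

/-- the projections of `T_B ⊗ ℂ` to the eigenspaces -/
noncomputable def pr : D.R ⊕ (D.U ⊕ D.U) → Matrix (Fin D.n) (Fin D.n) ℂ
  | Sum.inl r => D.P * blockDiagonal' (Pi.single r 1 : D.FR) * (D.Pᵀ * cx D.qB)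
  | Sum.inr (Sum.inl u) => D.P' * blockDiagonal' (Pi.single u 1 : D.FU) * (D.Q'ᵀ * cx D.qB)
  | Sum.inr (Sum.inr u) => D.Q' * blockDiagonal' (Pi.single u 1 : D.FU) * (D.P'ᵀ * cx D.qB)

/-- the eigenvalues of `E` -/
noncomputable def ch (e : Matrix (Fin D.n) (Fin D.n) ℚ) : D.R ⊕ (D.U ⊕ D.U) → ℂ := chM D.lr D.lu e

/-- the infinitesimal isometries of `T_B ⊗ ℂ` which commute with `E` -/
def so : Set (Matrix (Fin D.n) (Fin D.n) ℂ) := soC D.qB D.E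

end Dat

/-- `kk` is a rational Lie algebra of endomorphisms `Z` of `H^1(A, ℚ)` which act on `T_B` by
infinitesimal isometries `r Z` commuting with `E`, commute with the endomorphisms of `A`, and
multiply the polarisation by `mm Z`; it contains (complex combinations) the logarithmic derivatives
of the period matrix of `A`; the algebra generated by `kk` contains the images of the infinitesimal
isometries and the `π i`. -/
structure KK (D : Dat) (kk : Submodule ℚ (Matrix (Ix D.g) (Ix D.g) ℚ))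
    (r : Matrix (Ix D.g) (Ix D.g) ℚ → Matrix (Fin D.n) (Fin D.n) ℚ)
    (mm : Matrix (Ix D.g) (Ix D.g) ℚ → ℚ) : Prop where
  br : ∀ Z ∈ kk, ∀ Z' ∈ kk, Z * Z' - Z' * Z ∈ kk
  rbr : ∀ Z ∈ kk, ∀ Z' ∈ kk, r (Z * Z' - Z' * Z) = r Z * r Z' - r Z' * r Z
  radd : ∀ Z ∈ kk, ∀ Z' ∈ kk, r (Z + Z') = r Z + r Z'
  rsmul : ∀ (a : ℚ), ∀ Z ∈ kk, r (a • Z) = a • r Z
  sim : ∀ Z ∈ kk, Zᵀ * D.A.psi + D.A.psi * Z = mm Z • D.A.psi
  so : ∀ Z ∈ kk, r Z ∈ soE D.qB D.E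
  act : ∀ Z ∈ kk, ∀ j, Z * D.B j - D.B j * Z = ∑ i, r Z i j • D.B i
  com : ∀ Z ∈ kk, ∀ Z₀ ∈ EndAlg D.c.1, Z * Z₀ = Z₀ * Z
  comp : ∀ Z ∈ kk, ∀ i, Z * D.π i = D.π i * Z
  log : ∀ δ : Derivation Qbar ℂ ℂ, D.c.1.map δ * D.c⁻¹.1 ∈
    Submodule.span ℂ {Y : Matrix (Ix D.g) (Ix D.g) ℂ | ∃ Z ∈ kk, Y = cx Z}
  cli : ∀ ρ ∈ soE D.qB D.E, cli D.qB D.B ρ ∈
    Algebra.adjoin ℚ (kk : Set (Matrix (Ix D.g) (Ix D.g) ℚ))
  pi : ∀ i, D.π i ∈ Algebra.adjoin ℚ (kk : Set (Matrix (Ix D.g) (Ix D.g) ℚ))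

/-- `T` is a torsor over `Qbar` through `(c, t, 2 π i)` whose group is defined over `ℚ` -/
structure TT (D : Dat) (T : Set (GL (Ix D.g ⊕ (Fin D.n ⊕ Unit)) ℂ)) : Prop where
  tor : IsTorsor Qbar T
  mem : bd3 (D.c, D.t, tpi) ∈ T
  cl : ClosedOver ⊥ (grp T)

end Pool.Agent.Lib.MPf11a48.KM
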