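import Pool.Agent.Lib.MP_f11a48_ag.KM.Flb

/-! # Families of Kuga-Satake pairs: everything is in the Lie algebra of a torsor -/

set_option autoImplicit false
set_option linter.unusedSectionVars false

namespace Pool.Agent.Lib.MPf11a48.KM

open Matrix MvPolynomial Pool.Agent.Lib.MPf11a48.Tors
open Pool.Agent.Lib.MPf11a48.CM hiding OmegaM
open Pool.Agent.Lib.MPf11a48.GL2 (lie Geo)
open Pool.Agent.Lib.MPf11a48.GL2T (IsAlg)
open Pool.Agent.Lib.MPf11a48.U (AbData Ix HD EndAlg)
open Pool.Agent.Lib.MPf11a48.K3 Pool.Agent.Lib.MPf11a48.KU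
open KLieM (bl clC gam)
open KGrpM (stab)
open KGrp3M (G0 sc ex)

namespace FulM

theorem wm_smul (D : Dat) (a : ℂ) (X : D.FR) (Y : D.FU) :
    D.wm (a • X) (a • Y) = a • D.wm X Y := by
  unfold Dat.wm
  rw [Matrix.blockDiagonal'_smul, Matrix.blockDiagonal'_smul, FulaM.um_smul, Matrix.mul_smul,
    Matrix.smul_mul, smul_add]

theorem wm_zero (D : Dat) : D.wm 0 0 = 0 := by
  have h := wm_smul D 0 0 0
  rwa [smul_zero, smul_zero, zero_smul] at h

theorem uz_zero (D : Dat) : D.uz 0 = 0 := by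
  rw [Dat.uz]
  have e : (fun k => Matrix.scalar (Fin (D.m' k)) ((0 : D.U → ℂ) k)) = (0 : D.FU) := by
    funext k
    rw [Pi.zero_apply, map_zero, Pi.zero_apply]
  rw [e, wm_zero]

end FulM

open FlbM FulM KFull3M in
theorem specMFul (hFla : SpecMFla) (hTg : SpecMTg) (hClb : SpecMClb) : SpecMFul := by
  intro D T hT
  obtain ⟨-, -, hcladd, hclsmul, -⟩ := hClb D
  have hm0 : ∀ k, (D.m' k : ℂ) ≠ 0 := fun k => Nat.cast_ne_zero.2 (D.good.pos k).ne'
  refine ⟨fun X Y hX => ?_, ?_⟩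
  · set z : D.U → ℂ := fun k => (Y k).trace / D.m' k with hz
    have hY' : ∀ k, (Y k - Matrix.scalar _ (z k)).trace = 0 := by
      intro k
      rw [trace_sub, Matrix.scalar_apply, trace_diagonal, Finset.sum_const, Finset.card_univ,
        Fintype.card_fin, nsmul_eq_mul, hz]
      simp only
      rw [mul_div_cancel₀ _ (hm0 k), sub_self]
    have h1 := hFla D T hT X (fun k => Y k - Matrix.scalar _ (z k)) hX hY'
    have h2 := hTg D T hT z 0
    rw [mul_zero, zero_smul, add_zero] at h2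
    have h3 := (lie T).add_mem h1 h2
    rw [lb3_add, ← hcladd, ← FlbM.split, add_zero] at h3
    exact h3
  · have h := hTg D T hT 0 (2 : ℂ)⁻¹
    have e : D.cl 0 = 0 := by
      have h1 := hclsmul 0 0
      rwa [zero_smul, zero_smul] at h1
    rw [uz_zero, e, zero_add, mul_inv_cancel₀ (by norm_num : (2 : ℂ) ≠ 0)] at h
    exact h

end Pool.Agent.Lib.MPf11a48.KM
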