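import Pool.Agent.Lib.MP_f11a48_ag.KM.Dat

/-!
# Families of Kuga-Satake pairs: specifications, part A (Lie algebras)

Module `XXX`: file `KM/Xxx.lean`, `import Pool.Agent.Lib.MP_f11a48_ag.KM.SpecA`, theorem
`specMXxx (h : SpecMYyy) ... : SpecMXxx` (any Specs may be used as hypotheses), own lemmas in the
namespace `Pool.Agent.Lib.MPf11a48.KM.XxxM`. The numbers in brackets are estimates of the number of
lines. The corresponding modules for one `T` are in K3/ and KU/ (their lemmas can be used, import the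
file). `U.SpecHDA` (hypothesis `hHDA`) may be used everywhere: applied to
`Qbar D.g D.N D.A D.c le_rfl D.ks.abvar D.ks.per` it gives `J` with `HD D.c J D.A.psi` (in particular
`psi.det ≠ 0`), and that all elements of `EndAlg D.c.1` are endomorphisms of `A`.
`T = ⊕ T_i`, a species is an `i : D.I`; blocks are `r : D.R` (real, Lie algebra `so(m r)`)
and `u : D.U` (unitary, Lie algebra `gl(m' u)`).
-/

set_option autoImplicit false

namespace Pool.Agent.Lib.MPf11a48.KM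

open Matrix MvPolynomial Pool.Agent.Lib.MPf11a48.Tors
open Pool.Agent.Lib.MPf11a48.CM hiding OmegaM
open Pool.Agent.Lib.MPf11a48.GL2 (lie Geo)
open Pool.Agent.Lib.MPf11a48.GL2T (IsAlg)
open Pool.Agent.Lib.MPf11a48.U (AbData Ix HD EndAlg)
open Pool.Agent.Lib.MPf11a48.K3 Pool.Agent.Lib.MPf11a48.KU
open KLieM (bl clC gam)

/-! ## Matrices and Clifford operators -/

/-- MAT [250]: matrix calculus (as `specUMat`, KU/Mat.lean, and `blk_spec`, K3/KLie.lean). (1): for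
`s ≠ t` the matrix of `ρ` between the eigenspaces `s`, `t` vanishes (`sep`); use `onto`. The last
statements: the identity has the eigenspace decomposition given by `pr`. -/
def SpecMMat : Prop :=
  ∀ D : Dat,
    (∀ ρ ∈ D.so, (∀ k, (D.xr ρ k)ᵀ = -D.xr ρ k) ∧ ρ = D.wm (D.xr ρ) (D.xu ρ)) ∧
    (∀ (X : D.FR) (Y : D.FU), (∀ k, (X k)ᵀ = -X k) → D.wm X Y ∈ D.so) ∧
    (∀ (X : D.FR) (Y : D.FU), D.xr (D.wm X Y) = X ∧ D.xu (D.wm X Y) = Y) ∧
    (∀ (X X' : D.FR) (Y Y' : D.FU), D.wm X Y * D.wm X' Y' - D.wm X' Y' * D.wm X Y =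
      D.wm (fun k => X k * X' k - X' k * X k) fun k => Y k * Y' k - Y' k * Y k) ∧
    (∀ ρ ∈ D.so, ∀ i, ρ * cx (prj D.ix i) = cx (prj D.ix i) * ρ) ∧
    (∀ s t, D.pr s * D.pr t = if s = t then D.pr s else 0) ∧ (∑ s, D.pr s = 1) ∧
    (∀ s, D.pr s ≠ 0) ∧
    (∀ e ∈ D.E, ∀ s, cx e * D.pr s = D.ch e s • D.pr s ∧ D.pr s * cx e = D.ch e s • D.pr s)

/-- TRP [150], from MMAT: powers and traces. `ρ P = P x` for `x = blockDiagonal' (xr ρ)`, so
`ρ^k P = P x^k`; `ρ P' = P' x'`, `ρ Q' = -Q' x'ᵀ`; `trace (A B) = trace (B A)`. -/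
def SpecMTrp : Prop :=
  ∀ D : Dat, ∀ ρ ∈ D.so,
    (∀ (k : ℕ) (r : D.R), (ρ ^ k * D.pr (Sum.inl r)).trace = ((D.xr ρ r) ^ k).trace) ∧
    (∀ (k : ℕ) (u : D.U), (ρ ^ k * D.pr (Sum.inr (Sum.inl u))).trace =
      ((D.xu ρ u) ^ k).trace) ∧
    ∀ (k : ℕ) (u : D.U), (ρ ^ k * D.pr (Sum.inr (Sum.inr u))).trace =
      ((-D.xu ρ u) ^ k).trace

/-- CAR [300]: Clifford operators (as `specUCli`, KU/Cli.lean, and K3/KLie.lean). (a) follows from
`clifford`, `left`, `right`, and: the column of `P` with index `u` is zero outside the rows `a` with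
`ix a = ox u.1` (`eigR` for `prj`, `inR`); the same for `P'`, `Q'`, `ou`. (b) as
`clC_conj`, K3/KLie.lean (`q q⁻¹ = 1`). (d) as `gam_mem`, K3/KLie.lean, and `specUCli`;
`γ_u γ_v` and `e_u f_v` are combinations of `cl (wm X Y)` and `π_i`. -/
def SpecMCar : Prop :=
  ∀ D : Dat,
    -- (a)
    (∀ u v, D.gm u * D.gm v + D.gm v * D.gm u = if u = v then D.pc (D.ox u.1) else 0) ∧
    (∀ u v, D.e u * D.e v + D.e v * D.e u = 0) ∧ (∀ u v, D.f u * D.f v + D.f v * D.f u = 0) ∧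
    (∀ u v, D.e u * D.f v + D.f v * D.e u = if u = v then D.pc (D.ou u.1) else 0) ∧
    (∀ i u, D.pc i * D.gm u = (if i = D.ox u.1 then D.gm u else 0) ∧
      D.gm u * D.pc i = if i = D.ox u.1 then D.gm u else 0) ∧
    (∀ i u, D.pc i * D.e u = (if i = D.ou u.1 then D.e u else 0) ∧
      D.e u * D.pc i = if i = D.ou u.1 then D.e u else 0) ∧
    (∀ i u, D.pc i * D.f u = (if i = D.ou u.1 then D.f u else 0) ∧
      D.f u * D.pc i = if i = D.ou u.1 then D.f u else 0) ∧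
    -- (b)
    (∀ (X : D.FR) (Y : D.FU), D.cl (D.wm X Y) =
      (2 : ℂ)⁻¹ • (∑ u, ∑ v, blockDiagonal' X u v • (D.gm u * D.gm v)) +
      ((∑ u, ∑ v, blockDiagonal' Y u v • (D.e u * D.f v)) -
        (2 : ℂ)⁻¹ • ∑ k, (Y k).trace • D.pc (D.ou k))) ∧
    -- (c)
    (∀ (Z : Matrix (Ix D.g) (Ix D.g) ℂ) (X : D.FR) (Y : D.FU),
      (∀ j, Z * cx (D.B j) - cx (D.B j) * Z = ∑ i, D.wm X Y i j • cx (D.B i)) →
      (∀ v, Z * D.gm v - D.gm v * Z = ∑ u, blockDiagonal' X u v • D.gm u) ∧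
      (∀ v, Z * D.e v - D.e v * Z = ∑ u, blockDiagonal' Y u v • D.e u) ∧
      ∀ v, Z * D.f v - D.f v * Z = -∑ u, blockDiagonal' Y v u • D.f u) ∧
    -- (d)
    ∀ (kk : Submodule ℚ (Matrix (Ix D.g) (Ix D.g) ℚ)) (r mm), KK D kk r mm →
      (∀ i, D.pc i ∈ Algebra.adjoin ℂ {Y : Matrix (Ix D.g) (Ix D.g) ℂ | ∃ Z ∈ kk, Y = cx Z}) ∧
      (∀ u v, u.1 = v.1 → D.gm u * D.gm v ∈
        Algebra.adjoin ℂ {Y : Matrix (Ix D.g) (Ix D.g) ℂ | ∃ Z ∈ kk, Y = cx Z}) ∧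
      ∀ u v, u.1 = v.1 → D.e u * D.f v ∈
        Algebra.adjoin ℂ {Y : Matrix (Ix D.g) (Ix D.g) ℂ | ∃ Z ∈ kk, Y = cx Z}

/-- CLB [200]: the image `cl ρ = clC ρ / 4` of an infinitesimal isometry (as `clC_B`, `clC_br`,
K3/KFull3.lean: `B_i B_j B_k - B_k B_i B_j = 2 q_jk B_i - 2 q_ik B_j` holds if `ix i = ix j`, and
`(ρ q⁻¹) i j = 0` if `ix i ≠ ix j`, because `ρ` and `q` commute with the projections). The
endomorphisms: `ρ` is a complex combination of rational elements of `soE` (as in `specUEnd`,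
KU/End.lean); `endA`, `SpecHDA`. -/
def SpecMClb : Prop :=
  ∀ D : Dat,
    (∀ ρ ∈ D.so, ∀ k, D.cl ρ * cx (D.B k) - cx (D.B k) * D.cl ρ = ∑ i, ρ i k • cx (D.B i)) ∧
    (∀ ρ ∈ D.so, ∀ ρ' ∈ D.so, D.cl ρ * D.cl ρ' - D.cl ρ' * D.cl ρ = D.cl (ρ * ρ' - ρ' * ρ)) ∧
    (∀ ρ ρ', D.cl (ρ + ρ') = D.cl ρ + D.cl ρ') ∧ (∀ (a : ℂ) (ρ), D.cl (a • ρ) = a • D.cl ρ) ∧
    (∀ ρ ∈ D.so, ∀ i, D.cl ρ * D.pc i = D.pc i * D.cl ρ) ∧
    (∀ ρ ∈ D.so, ∀ i, (D.cl ρ * D.pc i).trace = 0) ∧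
    ∀ ρ ∈ D.so, ∀ Z ∈ EndAlg D.c.1, D.cl ρ * cx Z = cx Z * D.cl ρ

/-- CMP [120]: compression by an idempotent `p` (`L`, `R`: coordinates of the image of `p`). -/
def SpecMCmp : Prop :=
  ∀ (ι : Type) [Fintype ι] [DecidableEq ι] (p : Matrix ι ι ℂ), p * p = p →
    (p ≠ 0 → ∃ (ν : Type) (_ : Fintype ν) (_ : DecidableEq ν) (_ : Nonempty ν) (L : Matrix ν ι ℂ)
      (R : Matrix ι ν ℂ), L * R = 1 ∧ R * L = p) ∧
    ∀ (ν : Type) [Fintype ν] [DecidableEq ν] (L : Matrix ν ι ℂ) (R : Matrix ι ν ℂ), L * R = 1 →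
      R * L = p → ∀ S : Set (Matrix ι ι ℂ), (∀ X ∈ S, X * p = p * X) →
      ∀ Y ∈ Algebra.adjoin ℂ S, L * Y * R ∈ Algebra.adjoin ℂ ((fun X => L * X * R) '' S)

/-- SCL [250], from `SpecKScl`, MMAT, MCMP: scalars. Proof: `b` commutes with the `π_i` (they are
rational and commute with the `cli ρ`), so `b = ∑ π_i b π_i`. Fix `i`, let `L`, `R` be the compression
by `π_i` (MCMP). Choose an orthonormal basis of `T_i ⊗ ℂ` (as in `specUScl`, KU/Scl.lean); the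
compressed Clifford operators satisfy the hypothesis of `SpecKScl` (with one block, `κ = Unit`), for
`X = L b R`: if `Y` commutes with all products of two Clifford operators of `T_i` then `R Y L`
commutes with all `cli ρ`, `ρ ∈ soE`, hence it is a complex combination of rational matrices with this
property. -/
def SpecMScl : Prop :=
  ∀ D : Dat, ∀ b : Matrix (Ix D.g) (Ix D.g) ℂ, (∀ j, b * cx (D.B j) = cx (D.B j) * b) →
    (∀ Z : Matrix (Ix D.g) (Ix D.g) ℚ,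
      (∀ ρ ∈ soE D.qB D.E, Z * cli D.qB D.B ρ = cli D.qB D.B ρ * Z) → b * cx Z = cx Z * b) →
    ∃ s : D.I → ℂ, b = ∑ i, s i • D.pc i

/-- MZ [150], from MCLB, MSCL, `SpecHDA`: `Z = cl (r Z) + mm Z / 2`. Proof: the difference `b = Z - cl (r Z)`
commutes with the `B j`, and with the `Z₀` as in MSCL (`D.full`, MCLB), so `b = ∑ s_i π_i`. From
`psi⁻¹ Zᵀ psi + Z = mm Z` multiply by `π_i` and take the trace: `2 tr (π_i Z) = mm Z tr π_i`
(`π_iᵀ psi = psi π_i`), and `tr (π_i Z) = tr (π_i cl) + s_i tr π_i = s_i tr π_i`, and `tr π_i ≠ 0`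
(the trace of an idempotent is its rank). -/
def SpecMZ : Prop :=
  ∀ D : Dat, ∀ kk r mm, KK D kk r mm → ∀ Z ∈ kk,
    cx Z = D.cl (cx (r Z)) + ((mm Z : ℂ) / 2) • 1

/-! ## Blocks -/

/-- BLK [300], from MMAT, MCAR, MCMP, `SpecKNI`, `SpecKIso`, `SpecKIrr`, `SpecRep` (K3) and `SpecUIrr`,
`SpecUni` (KU). Proof: as `specKLie` (K3/KLie.lean) and `specULie` (KU/Lie.lean), for the compression
by `π_i`, `i = ox k` (`ou k`): the operators `L γ R` (`L e R`, `L f R`) and the pairs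
`(L Z R, xr (r Z) k)` form a `CF` (`UF`); `gen` from MCAR (d), MCMP. The span is closed under brackets
(`KK.rbr`, MMAT). If `m' k = 1` there is nothing to prove. -/
def SpecMBlk : Prop :=
  ∀ D : Dat, ∀ kk r mm, KK D kk r mm →
    (∀ (k : D.R) (X : Matrix (Fin (D.m k)) (Fin (D.m k)) ℂ), Xᵀ = -X →
      X ∈ Submodule.span ℂ {Y | ∃ Z ∈ kk, Y = D.xr (cx (r Z)) k}) ∧
    ∀ (k : D.U) (X : Matrix (Fin (D.m' k)) (Fin (D.m' k)) ℂ), X.trace = 0 →
      X ∈ Submodule.span ℂ {Y | ∃ Z ∈ kk, Y = D.xu (cx (r Z)) k}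

/-- NLS [250], from MMAT, MCAR, MCMP, `SpecKLnk` (K3), `SpecULnk` (KU): no links between blocks of the
same species (compression by `π_i` as in BLK). -/
def SpecMNls : Prop :=
  ∀ D : Dat, ∀ kk r mm, KK D kk r mm →
    (∀ k l : D.R, k ≠ l → D.ox k = D.ox l →
      NL {p | ∃ Z ∈ kk, p = (D.xr (cx (r Z)) k, D.xr (cx (r Z)) l)}) ∧
    ∀ k l : D.U, k ≠ l → D.ou k = D.ou l →
      NLU {p | ∃ Z ∈ kk, p = (D.xu (cx (r Z)) k, D.xu (cx (r Z)) l)}

/-- TRC [200], from MMAT, MCAR, MCMP, `SpecUTrc`: non-zero traces (as the second part of `specULie`,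
KU/Lie.lean), compression by `π_i`. -/
def SpecMTrc : Prop :=
  ∀ D : Dat, ∀ kk r mm, KK D kk r mm → ∀ d : D.U → ℂ, (∀ k, d k = 0 ∨ d k = 1 ∨ d k = -1) →
    d ≠ 0 → (∃ i, ∀ k, d k ≠ 0 → D.ou k = i) →
    ∃ Z ∈ kk, ∑ k, d k * (D.xu (cx (r Z)) k).trace ≠ 0

/-- SPL [250]: `so(m)` (`m ≥ 3`, `m ≠ 4`) and `sl(d)` are simple. Proof for `so`: let
`F_ab = E_ab - E_ba`, `w ∈ W` with `w_ab ≠ 0`. The operator `ad(F_cd)^2` multiplies `F_xy` by `-1` if
`{x, y}` and `{c, d}` have exactly one element in common and by `0` otherwise. For `m ≥ 5` apply the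
operators for `{a, c}`, all `c ≠ a, b`, to `w`: only the component `F_ab` survives (a pair `{x, y}`
without `a` would have to contain all `c`, which are at least three). For `m = 3`, `c ≠ a, b`, apply
the operators for `{a, c}` and `{b, c}`. So `F_ab ∈ W`, and `[F_ab, F_bc] = F_ac` etc. For `sl`:
if `w ∈ W` is not diagonal, `w_ab ≠ 0`, then `[E_ba, [E_ba, w]] = -2 w_ab E_ba`; if `w` is diagonal,
`w_aa ≠ w_bb`, then `[w, E_ab]` is a multiple of `E_ab`; from one `E_ab ∈ W` get all. -/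
def SpecMSpl : Prop :=
  (∀ (m : ℕ), 3 ≤ m → m ≠ 4 → ∀ W : Submodule ℂ (Matrix (Fin m) (Fin m) ℂ),
    W ≤ blkS ℂ m true → (∀ X ∈ blkS ℂ m true, ∀ w ∈ W, X * w - w * X ∈ W) →
    W = ⊥ ∨ W = blkS ℂ m true) ∧
  ∀ (d : ℕ), ∀ W : Submodule ℂ (Matrix (Fin d) (Fin d) ℂ),
    W ≤ blkS ℂ d false → (∀ X ∈ blkS ℂ d false, ∀ w ∈ W, X * w - w * X ∈ W) →
    W = ⊥ ∨ W = blkS ℂ d false

/-- the dimension of `so(m)`, `sl(m)` -/
def dimS (m : ℕ) : Bool → ℕ
  | true => m * (m - 1) / 2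
  | false => m ^ 2 - 1

/-- XDM [250], from MSPL: no links between blocks of different dimensions. Proof: first
`finrank (blkS ℂ m b) = dimS m b`. Let `K` be the kernel of `φ` on `blkS a ba`, and `W` the image of
`blkS a ba`; both are stable under the adjoint action of `blkS a ba`, `blkS b bb` (by the
surjectivity hypotheses; `φ [X.1, Y] = [X.2, φ Y]`). By MSPL each is zero or everything if the Lie
algebra is simple; `dim K + dim W = dimS a ba`. -/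
def SpecMXdm : Prop :=
  ∀ (a b : ℕ) (ba bb : Bool), (ba = true → 3 ≤ a) → (ba = false → 0 < a) → (bb = true → 3 ≤ b) →
    (bb = false → 0 < b) → dimS a ba ≠ dimS b bb →
    (ba = true → a = 4 → 6 < dimS b bb ∨ dimS b bb = 0) →
    (bb = true → b = 4 → 6 < dimS a ba ∨ dimS a ba = 0) →
    ∀ h : Set (Matrix (Fin a) (Fin a) ℂ × Matrix (Fin b) (Fin b) ℂ),
    (∀ p ∈ h, (ba = true → p.1ᵀ = -p.1) ∧ (bb = true → p.2ᵀ = -p.2)) →
    (∀ X ∈ blkS ℂ a ba, ∃ p ∈ h, p.1 = X) → (∀ X ∈ blkS ℂ b bb, ∃ p ∈ h, p.2 = X) →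
    ∀ φ : Matrix (Fin a) (Fin a) ℂ →ₗ[ℂ] Matrix (Fin b) (Fin b) ℂ, (∀ Y, φ Y ∈ blkS ℂ b bb) →
    (∀ p ∈ h, ∀ Y, φ (p.1 * Y - Y * p.1) = p.2 * φ Y - φ Y * p.2) →
    ∀ Y ∈ blkS ℂ a ba, φ Y = 0

/-! ## Links between real blocks of the same size -/

/-- ADT [200]: the trace of a power of the adjoint action of `X ∈ so(m)` on `so(m)`. Here `T` is any
linear map of all matrices which is `[X, [X, …, [X, Y]]]` (`k` brackets) for skew-symmetric `Y` and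
`0` for symmetric `Y`. Proof: on all matrices, `Y ↦ [X, …, [X, Y]]` is
`Y ↦ ∑ (k choose j) (-1)^j X^(k-j) Y X^j`, and `T` is this map composed with `Y ↦ (Y - Yᵀ) / 2`. The
trace of `Y ↦ A Y B` is `tr A tr B`, the trace of `Y ↦ A Yᵀ B` is `tr (A Bᵀ)`; for `A = X^(k-j)`,
`B = (-1)^j X^j` this is `tr (X^k)`. -/
def SpecMAdt : Prop :=
  ∀ (m : ℕ) (X : Matrix (Fin m) (Fin m) ℂ), Xᵀ = -X → ∀ (k : ℕ)
    (T : Matrix (Fin m) (Fin m) ℂ →ₗ[ℂ] Matrix (Fin m) (Fin m) ℂ),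
    (∀ Y, Yᵀ = -Y → T Y = (fun W => X * W - W * X)^[k] Y) → (∀ Y, Yᵀ = Y → T Y = 0) →
    LinearMap.trace ℂ _ T = (2 : ℂ)⁻¹ * ((∑ j ∈ Finset.range (k + 1),
      (k.choose j : ℂ) * (-1) ^ j * ((X ^ (k - j)).trace * (X ^ j).trace)) -
        2 ^ k * (X ^ k).trace)

/-- RRT [200], from MSPL, MADT: a link between two real blocks of the same size gives equal power
sums. Proof: by MSPL, `φ` is bijective on the skew-symmetric matrices. For `(X, X') ∈ h`,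
`φ ∘ ad X = ad X' ∘ φ`, so the maps `T` of MADT for `X` and `X'` have the same traces
(`T' = φ' T φ''`). The odd power sums vanish. By induction on the even number `k`, the formula of MADT
gives `(m - 2^(k-1)) (tr X^k - tr X'^k) = 0`, and `m ≠ 2^(k-1)`. -/
def SpecMRrt : Prop :=
  ∀ (m : ℕ), 3 ≤ m → m ≠ 4 → (∀ k, m ≠ 2 ^ (2 * k + 1)) →
    ∀ h : Set (Matrix (Fin m) (Fin m) ℂ × Matrix (Fin m) (Fin m) ℂ),
    (∀ p ∈ h, p.1ᵀ = -p.1 ∧ p.2ᵀ = -p.2) →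
    (∀ X ∈ blkS ℂ m true, ∃ p ∈ h, p.1 = X) → (∀ X ∈ blkS ℂ m true, ∃ p ∈ h, p.2 = X) →
    ∀ φ : Matrix (Fin m) (Fin m) ℂ →ₗ[ℂ] Matrix (Fin m) (Fin m) ℂ, (∀ Y, (φ Y)ᵀ = -φ Y) →
    (∀ p ∈ h, ∀ Y, φ (p.1 * Y - Y * p.1) = p.2 * φ Y - φ Y * p.2) →
    (∃ Y ∈ blkS ℂ m true, φ Y ≠ 0) → ∀ p ∈ h, ∀ k : ℕ, (p.1 ^ k).trace = (p.2 ^ k).trace

/-- GAL [300], from MMAT: the Galois action (as `specUGal`, KU/Gal.lean). (1) The matrix
`τ (pr s)` (entrywise) is non-zero and `e τ(pr s) = τ (ch e s) τ(pr s)`; multiply `∑ pr t = 1` by it: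
there is `t` with `pr t τ(pr s) ≠ 0`, and then `ch e t = τ (ch e s)` for all `e ∈ E`. (2) the `τ(pr s)`
are orthogonal idempotents with sum `1`; `pr t τ(pr s) = 0` for `t ≠ s'`, so
`τ(pr s) = pr s' τ(pr s)`, and in the same way `pr s' = pr s' τ(pr s)` (apply (1), (2) to the
other `s₁`). (3) `e' = q⁻¹ eᵀ q` is rational and acts on the eigenspace `s` by
`ch e (swap s)` (`swap` fixes `inl r`), so `ch e (swap s') = τ (ch e (swap s))`; `sep`. The species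
is given by the rational eigenvalues of `prj`. (4) complex conjugation. -/
def SpecMGal : Prop :=
  ∀ D : Dat,
    (∀ (τ : ℂ ≃+* ℂ) (s), ∃ s', ∀ e ∈ D.E, D.ch e s' = τ (D.ch e s)) ∧
    (∀ (τ : ℂ ≃+* ℂ) (s s'), (∀ e ∈ D.E, D.ch e s' = τ (D.ch e s)) →
      (D.pr s).map τ = D.pr s') ∧
    (∀ (τ : ℂ ≃+* ℂ) (r s'), (∀ e ∈ D.E, D.ch e s' = τ (D.ch e (Sum.inl r))) →
      ∃ r', s' = Sum.inl r' ∧ D.ox r' = D.ox r) ∧
    (∀ (τ : ℂ ≃+* ℂ) (s s' : D.U ⊕ D.U),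
      (∀ e ∈ D.E, D.ch e (Sum.inr s') = τ (D.ch e (Sum.inr s))) →
      ∀ e ∈ D.E, D.ch e (Sum.inr (Sum.swap s')) = τ (D.ch e (Sum.inr (Sum.swap s)))) ∧
    ∀ u, (D.pr (Sum.inr (Sum.inl u))).map (starRingEnd ℂ) = D.pr (Sum.inr (Sum.inr u))

/-- SPG [200], from MMAT, MBLK, MNLS, `SpecGour` (K3): different real blocks of the same species do not
have equal power sums. Proof: otherwise `tr (x_k(Z)^2) = tr (x_l(Z)^2)` for all `Z ∈ kk`; polarise
(`KK.radd`): `tr (x_k(Z) x_k(Z')) = tr (x_l(Z) x_l(Z'))`, so `tr (X_k^2) = tr (X_l^2)` for all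
complex combinations `X`. By `SpecGour` for the two blocks (`κ = Bool` or `Fin 2`) there is `X` with
`X_k ≠ 0`, `tr (X_k^2) ≠ 0`, `X_l = 0`. -/
def SpecMSpg : Prop :=
  ∀ D : Dat, ∀ kk r mm, KK D kk r mm → ∀ k l : D.R, k ≠ l → D.ox k = D.ox l →
    ∃ Z ∈ kk, ((D.xr (cx (r Z)) k) ^ 2).trace ≠ ((D.xr (cx (r Z)) l) ^ 2).trace

/-- TOT [200], from MMAT, MTRP, MGAL, MSPG: total power sums. Proof: write `k ~ l` for real blocks
`k`, `l` if `tr (x_k(Z)^p) = tr (x_l(Z)^p)` for all `Z ∈ kk`, `p`. If `k ~ l` and `τ` maps `k` to `k'`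
and `l` to `l'` (MGAL (1)) then `k' ~ l'`, because `tr (x_k'(Z)^p) = τ (tr (x_k(Z)^p))` (MTRP,
MGAL (2); `Z` is rational). By `trans` every `k'` of the species of `k` is obtained in this way, so
for every `k'` of the species of `k` there is `l'` of the species of `l` with `k' ~ l'`, and
conversely. By MSPG these `l'`, `k'` are unique: a bijection between the two species. -/
def SpecMTot : Prop :=
  ∀ D : Dat, ∀ kk r mm, KK D kk r mm → ∀ k l : D.R,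
    (∀ Z ∈ kk, ∀ p : ℕ, ((D.xr (cx (r Z)) k) ^ p).trace = ((D.xr (cx (r Z)) l) ^ p).trace) →
    ∀ Z ∈ kk, ∀ p : ℕ,
      ∑ k', (if D.ox k' = D.ox k then ((D.xr (cx (r Z)) k') ^ p).trace else 0) =
      ∑ l', (if D.ox l' = D.ox l then ((D.xr (cx (r Z)) l') ^ p).trace else 0)

/-- SPT [200]: traces on spin modules. Put `q = (1/2) ∑ ρ_ab γ_a γ_b`, `t = tr / dim`,
`F_k = t (q^k)`, `M^k_ab = t (q^k γ_a γ_b)`. As `[q, γ_b] = ∑ ρ_ab γ_a`,
`γ_b q^k = ∑_j (k choose j) (-1)^j q^(k-j) ∑_a (ρ^j)_ab γ_a`, so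
`M^k_ab = t (γ_b q^k γ_a) = ∑_j (k choose j) (-1)^j ∑_c (ρ^j)_cb M^(k-j)_ca`, and the term `j = 0` is
`t (q^k γ_b γ_a) = δ_ab F_k - M^k_ab`. Hence
`2 M^k_ab = δ_ab F_k + ∑_(j ≥ 1) (k choose j) (-1)^j ∑_c (ρ^j)_cb M^(k-j)_ca`,
`F_(k+1) = (1/2) ∑ ρ_ab M^k_ab`. Prove by strong induction on `k`: `F_k = F'_k`, and there is a
polynomial `c` with `M^k = c(ρ)`, `M'^k = c(ρ')` (`ρᵀ = -ρ`). -/
def SpecMSpt : Prop :=
  ∀ (ν ν' W W' : Type) [Fintype ν] [DecidableEq ν] [Nonempty ν] [Fintype ν'] [DecidableEq ν']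
    [Nonempty ν'] [Fintype W] [DecidableEq W] [Fintype W'] [DecidableEq W']
    (γ : W → Matrix ν ν ℂ) (γ' : W' → Matrix ν' ν' ℂ) (ρ : Matrix W W ℂ) (ρ' : Matrix W' W' ℂ),
    (∀ a b, γ a * γ b + γ b * γ a = if a = b then 1 else 0) →
    (∀ a b, γ' a * γ' b + γ' b * γ' a = if a = b then 1 else 0) → ρᵀ = -ρ → ρ'ᵀ = -ρ' →
    (∀ k : ℕ, (ρ ^ k).trace = (ρ' ^ k).trace) → ∀ k : ℕ,
    (((2 : ℂ)⁻¹ • ∑ a, ∑ b, ρ a b • (γ a * γ b)) ^ k).trace / (Fintype.card ν : ℂ) =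
      (((2 : ℂ)⁻¹ • ∑ a, ∑ b, ρ' a b • (γ' a * γ' b)) ^ k).trace / (Fintype.card ν' : ℂ)

/-- WRD [150]: words. Proof: by induction on `k`, `l (Z_1 ⋯ Z_k) = 0` for all `Z_i ∈ kk`:
`l (⋯ Z_a Z_b ⋯) - l (⋯ Z_b Z_a ⋯) = l (⋯ [Z_a, Z_b] ⋯) = 0` (a word of length `k - 1`), so
`l (Z_1 ⋯ Z_k)` is a symmetric multilinear form, which vanishes on the diagonal, so it is zero. (A
symmetric multilinear form `F` in `k` variables which vanishes on the diagonal is zero: the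
coefficient of `x` in `F (Z + x W, …, Z + x W) = 0` is `k F (W, Z, …, Z)`; induction on `k` for
`F (W, …)`.) -/
def SpecMWrd : Prop :=
  ∀ (ι : Type) [Fintype ι] [DecidableEq ι] (kk : Submodule ℚ (Matrix ι ι ℚ))
    (l : Matrix ι ι ℚ →ₗ[ℚ] ℚ), (∀ Z ∈ kk, ∀ Z' ∈ kk, Z * Z' - Z' * Z ∈ kk) →
    (∀ Z ∈ kk, ∀ k : ℕ, l (Z ^ k) = 0) →
    ∀ x ∈ Algebra.adjoin ℚ (kk : Set (Matrix ι ι ℚ)), l x = 0

/-- XRR [300], from MMAT, MCAR, MCLB, MCMP, MZ, MTOT, MSPT, MWRD: there is no link between real blocks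
of different species. Proof: let `i ≠ j` be the species of `k`, `l`. For `Z ∈ kk` the matrix
`π_i Z = π_i cl (r Z) + (mm Z / 2) π_i` (MZ), and, if `L`, `R` is the compression by `π_i`,
`L cl (r Z) R = (1/2) ∑ ρ_uv γ_u γ_v` for `γ = L gm R`, `ρ = blockDiagonal' (xr (r Z))`, both restricted
to the indices `u` with `ox u.1 = i` (MCAR (b); species are pure, `GoodM.pure`, so there are no `e`,
`f` in species `i`). The power sums of these `ρ` are the sums of MTOT (for `p = 0`: the number of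
indices). So by MSPT and the binomial formula `tr (π_i Z^k) / tr π_i = tr (π_j Z^k) / tr π_j`, i.e. the
rational linear form `x ↦ tr (π_i x) / tr π_i - tr (π_j x) / tr π_j` vanishes on the powers of the
elements of `kk`; MWRD; but `π_i ∈ adjoin kk` (`KK.pi`) and the form is `1` on `π_i`. -/
def SpecMXrr : Prop :=
  ∀ D : Dat, ∀ kk r mm, KK D kk r mm →
    ∀ k l : D.R, D.ox k ≠ D.ox l →
    ¬∀ Z ∈ kk, ∀ p : ℕ, ((D.xr (cx (r Z)) k) ^ p).trace = ((D.xr (cx (r Z)) l) ^ p).trace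

/-! ## Links between unitary blocks of the same size -/

/-- the trace of the `k`-th power of the part of trace zero of `X` -/
noncomputable def tp {d : ℕ} (k : ℕ) (X : Matrix (Fin d) (Fin d) ℂ) : ℂ :=
  ((X - (X.trace / (d : ℂ)) • (1 : Matrix (Fin d) (Fin d) ℂ)) ^ k).trace

/-- AUT [350], from MSPL: automorphisms of `sl_d`, `d ≥ 3`. Proof: write
`X ∘ Y = X Y + Y X - (2/d) tr (X Y)`, `S (X, Y) = θ⁻¹ (θ X ∘ θ Y)`, a symmetric bilinear equivariant map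
on `sl_d` (`[Z, S (X, Y)] = S ([Z, X], Y) + S (X, [Z, Y])`). (i) `S = c ∘` for some `c`: let
`e = E_1d`, `f = E_d1`, `h = [e, f]`, `a = S (e, f)`. `[Z, a] = 0` for diagonal `Z`, and for `Z = E_ij`
with `i ≠ j` different from `1`, `d`, so `a = diag (α, β, …, β, γ)`. `S (e, e) = 0` (it has the weight
`2 (z_1 - z_d)`, which is not a weight of `sl_d`), so `0 = [f, S (e, e)] = -2 S (h, e)`,
`[e, a] = S (e, h) = 0`, `α = γ`; the trace is `0`, so `a = c (e ∘ f)`. The form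
`B = S - c ∘` has `B (e, f) = 0`; `{Y | B (e, Y) = 0}` contains `f` and is stable under `ad Z` for all
`Z` commuting with `e` (`E_1j`, `E_id`, `E_ij`), so it is everything: it contains `E_dj`, `h`, `E_i1`,
`E_ij`, `E_ii - E_dd`, `e`, `E_1j`, `E_id`; then `{X | B (X, Y) = 0 for all Y}` is an ideal containing
`e`, so `B = 0` (MSPL). (ii) `(X ∘ Y) ∘ W - X ∘ (Y ∘ W) = [Y, [X, W]] - (4/d) (tr (X Y) W - tr (Y W) X)`;
apply `θ`: `(c² - 1) θ [Y, [X, W]] = (4/d) ((c² tr (X Y) - tr (θX θY)) θW - (c² tr (Y W) - tr (θY θW)) θX)`.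
For `X = E_12`, `W = E_23`, `Y = E_31` this gives `c² = 1` (`[Y, [X, W]] = E_33 - E_11`), and then, for
`W` not proportional to `X`, `tr (θX θY) = tr (X Y)`. (iii)
`tr ((θX)³) = tr (θX (θX ∘ θX)) / 2 = c tr (X (X ∘ X)) / 2 = c tr (X³)`. -/
def SpecMAut : Prop :=
  ∀ (d : ℕ), 3 ≤ d → ∀ θ : Matrix (Fin d) (Fin d) ℂ →ₗ[ℂ] Matrix (Fin d) (Fin d) ℂ,
    (∀ X, X.trace = 0 → (θ X).trace = 0) → (∀ X, X.trace = 0 → θ X = 0 → X = 0) →
    (∀ X Y, X.trace = 0 → Y.trace = 0 → θ (X * Y - Y * X) = θ X * θ Y - θ Y * θ X) →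
    ∃ ε : ℂ, (ε = 1 ∨ ε = -1) ∧ ∀ X, X.trace = 0 → ((θ X) ^ 2).trace = (X ^ 2).trace ∧
      ((θ X) ^ 3).trace = ε * (X ^ 3).trace

/-- UUL [200], from MSPL, MAUT. Proof: by MSPL, `φ` is bijective on `sl_d`. If `p, p' ∈ h` and
`p.1 - p'.1` is a scalar then `[p.2 - p'.2, φ Y] = 0` for all `Y`, so `p.2 - p'.2` is a scalar. So there
is a linear map `θ` on `sl_d` such that `p.2 = θ (p.1)` up to scalars for `p ∈ h` (to define it choose
`p ∈ h` for each matrix of a basis; extend by `0` to scalars); it is a homomorphism of Lie algebras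
(`h` is closed under brackets), injective by the symmetric argument. MAUT. -/
def SpecMUul : Prop :=
  ∀ (d : ℕ), 3 ≤ d → ∀ h : Submodule ℂ (Matrix (Fin d) (Fin d) ℂ × Matrix (Fin d) (Fin d) ℂ),
    (∀ p ∈ h, ∀ p' ∈ h, (p.1 * p'.1 - p'.1 * p.1, p.2 * p'.2 - p'.2 * p.2) ∈ h) →
    (∀ X ∈ blkS ℂ d false, ∃ p ∈ h, p.1 = X) → (∀ X ∈ blkS ℂ d false, ∃ p ∈ h, p.2 = X) →
    ∀ φ : Matrix (Fin d) (Fin d) ℂ →ₗ[ℂ] Matrix (Fin d) (Fin d) ℂ, (∀ Y, (φ Y).trace = 0) →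
    (∀ p ∈ h, ∀ Y, φ (p.1 * Y - Y * p.1) = p.2 * φ Y - φ Y * p.2) →
    (∃ Y ∈ blkS ℂ d false, φ Y ≠ 0) →
    ∃ ε : ℂ, (ε = 1 ∨ ε = -1) ∧ ∀ p ∈ h, tp 2 p.2 = tp 2 p.1 ∧ tp 3 p.2 = ε * tp 3 p.1

/-- UUX [350], from MMAT, MTRP, MGAL, MBLK, MNLS, `SpecGOURM` (KU). Proof: for an eigenspace
`s : U ⊕ U` let `x_s = xu u` for `s = inl u` and `-(xu u)ᵀ` for `s = inr u`;
`tp k (x_(inr u)) = (-1)^k tp k (x_(inl u))`. Write `s ~ t` if the dimensions are equal and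
`tp k (x_s(Z)) = tp k (x_t(Z))` for all `Z ∈ kk` and `k = 2`, `k = 3`. (i) `~` is Galois stable: if
`s'`, `t'` are the images of `s`, `t` under `τ` then `s' ~ t'` (`tp 2`, `tp 3` are polynomials in
`tr (ρ^k pr_s)`, `k = 1, 2, 3`, and the dimension; MGAL (2); `Z` is rational). (ii) if `s ≠ t` are in the
same species, of dimension `≥ 3`, then not `s ~ t`: if they belong to different blocks, then, by
`SpecGOURM` for the two blocks, there is a complex combination with `X_s = E_11 - E_22`, `X_t = 0`;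
polarise `tp 2` as in SPG. If `t = swap s`: then `tp 3 (x_s(Z)) = 0` for all `Z ∈ kk`, so (polarise)
for all combinations, in contradiction to `X_s = diag (1, 1, -2, 0, …)` (MBLK). (iii) Let `i ≠ j` be
the species of `k`, `l`. By hypothesis `inl k ~ inl l` (`ε = 1`) or `inl k ~ inr l` (`ε = -1`). Let `N`
be the space of all odd `f` which vanish on all `s` outside the species `i`, `j`, and on all `s` in
one of them which have no `t` in the other with `s ~ t`, and such that `f s = f t` for `s ~ t`, `s`, `t`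
in the two species. It is stable under the Galois group by (i), MGAL (3), (4), and not zero by (ii):
it contains the odd function which is `1` on `inl k` and its partner, `-1` on their conjugates, and
`0` otherwise. But a non-zero `f ∈ N` is not supported in one species: contradiction to `FlatM`. -/
def SpecMUux : Prop :=
  ∀ D : Dat, ∀ kk r mm, KK D kk r mm → ∀ k l : D.U, D.ou k ≠ D.ou l → D.m' k = D.m' l →
    3 ≤ D.m' k → ∀ ε : ℂ, (ε = 1 ∨ ε = -1) →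
    ¬∀ Z ∈ kk, tp 2 (D.xu (cx (r Z)) l) = tp 2 (D.xu (cx (r Z)) k) ∧
      tp 3 (D.xu (cx (r Z)) l) = ε * tp 3 (D.xu (cx (r Z)) k)

/-- LIE [350], from MMAT, MBLK, MNLS, MXDM, MRRT, MXRR, MUUL, MUUX, `SpecGOURM` (KU): everything is in
the span. Proof: let `h` be the complex span of the families `(xr (r Z), xu (r Z))`, `Z ∈ kk`, with index
set `R ⊕ U`, `b = Sum.elim true false`; it is closed under brackets (`KK.rbr`, MMAT). Surjectivity:
MBLK. No links: same species: MNLS; different species, different `dimS`: MXDM (`GoodM.rr`, `ru`);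
different species, equal `dimS`: both real and of the same size, MRRT and MXRR (MRRT for
`{(X k, X l)}` gives equal power sums), or both unitary and of the same size, which is `1` (nothing to
prove) or `≥ 3` (`GoodM.uu`), MUUL and MUUX. -/
def SpecMLie : Prop :=
  ∀ D : Dat, ∀ kk r mm, KK D kk r mm →
    ∀ (X : D.FR) (Y : D.FU), (∀ k, (X k)ᵀ = -X k) → (∀ k, (Y k).trace = 0) →
    D.wm X Y ∈ Submodule.span ℂ {ρ | ∃ Z ∈ kk, ρ = cx (r Z)}

/-- FLT [200], from MMAT, MTRP, MGAL, MTRC (as `specUFlt`, KU/Flt.lean): by `FlatM`. -/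
def SpecMFlt : Prop :=
  ∀ D : Dat, ∀ kk r mm, KK D kk r mm → ∀ χ : D.U → ℚ, χ ≠ 0 →
    ∃ Z ∈ kk, ∑ k, (χ k : ℂ) * (D.xu (cx (r Z)) k).trace ≠ 0

/-- IMG [100], from MTRP, MGAL (complex conjugation): the traces are purely imaginary. -/
def SpecMImg : Prop :=
  ∀ D : Dat, ∀ ρ ∈ soE D.qB D.E, ∀ k,
    (starRingEnd ℂ) (D.xu (cx ρ) k).trace = -(D.xu (cx ρ) k).trace

end Pool.Agent.Lib.MPf11a48.KM
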