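import Pool.Agent.Lib.MP_f11a48_ag.KM.Ful

/-! # Families of Kuga-Satake pairs: the torus in the Lie algebra of a torsor -/

set_option autoImplicit false
set_option linter.unusedSectionVars false

namespace Pool.Agent.Lib.MPf11a48.KM

open Matrix MvPolynomial Pool.Agent.Lib.MPf11a48.Tors
open Pool.Agent.Lib.MPf11a48.CM hiding OmegaM
open Pool.Agent.Lib.MPf11a48.GL2 (lie Geo)
open Pool.Agent.Lib.MPf11a48.GL2T (IsAlg)
open Pool.Agent.Lib.MPf11a48.U (AbData Ix HD EndAlg)
open Pool.Agent.Lib.MPf11a48.K3 Pool.Agent.Lib.MPf11a48.KU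
open KLieM (bl clC gam)
open KGrpM (stab)
open KGrp3M (G0 sc ex)

namespace TgM

theorem sum_lb3 {g n : ℕ} {W : Type} [Fintype W] (a : W → ℂ) (Z : W → Matrix (Ix g) (Ix g) ℂ)
    (ρ : W → Matrix (Fin n) (Fin n) ℂ) (m : W → ℂ) :
    ∑ w, a w • lb3 (Z w) (ρ w) (m w) =
      lb3 (∑ w, a w • Z w) (∑ w, a w • ρ w) (∑ w, a w * m w) := by
  ext i j
  rw [Matrix.sum_apply]
  rcases i with i | i | i <;> rcases j with j | j | j <;> simp [lb3, lb, Matrix.sum_apply]

/-- the index set of the idempotents -/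
abbrev WT (D : Dat) : Type :=
  ((k : D.U) × Fin (D.m' k)) ⊕ (D.I ⊕ ((D.U ⊕ D.U) ⊕ (Unit ⊕ Unit)))

/-- first components -/
noncomputable def t1 (D : Dat) : WT D → Matrix (Ix D.g) (Ix D.g) ℂ
  | Sum.inl u => D.e u * D.f u
  | Sum.inr (Sum.inl i) => D.pc i
  | Sum.inr (Sum.inr (Sum.inl _)) => 0
  | Sum.inr (Sum.inr (Sum.inr (Sum.inl _))) => 1
  | Sum.inr (Sum.inr (Sum.inr (Sum.inr _))) => 0

/-- second components -/
noncomputable def t2 (D : Dat) : WT D → Matrix (Fin D.n) (Fin D.n) ℂ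
  | Sum.inl _ => 0
  | Sum.inr (Sum.inl _) => 0
  | Sum.inr (Sum.inr (Sum.inl s)) => D.pr (Sum.inr s)
  | Sum.inr (Sum.inr (Sum.inr _)) => 0

/-- third components -/
def t3 (D : Dat) : WT D → ℂ
  | Sum.inl _ => 0
  | Sum.inr (Sum.inl _) => 0
  | Sum.inr (Sum.inr (Sum.inl _)) => 0
  | Sum.inr (Sum.inr (Sum.inr (Sum.inl _))) => 0
  | Sum.inr (Sum.inr (Sum.inr (Sum.inr _))) => 1

/-- the idempotents -/
noncomputable def tp (D : Dat) (w : WT D) :
    Matrix (Ix D.g ⊕ (Fin D.n ⊕ Unit)) (Ix D.g ⊕ (Fin D.n ⊕ Unit)) ℂ :=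
  lb3 (t1 D w) (t2 D w) (t3 D w)

/-- the characters -/
def tchi (D : Dat) : WT D → D.U ⊕ Unit → ℤ
  | Sum.inl u => Pi.single (Sum.inl u.1) 2
  | Sum.inr (Sum.inl i) => Sum.elim (fun k => if D.ou k = i then -(D.m' k : ℤ) else 0) 0
  | Sum.inr (Sum.inr (Sum.inl (Sum.inl k))) => Pi.single (Sum.inl k) 2
  | Sum.inr (Sum.inr (Sum.inl (Sum.inr k))) => Pi.single (Sum.inl k) (-2)
  | Sum.inr (Sum.inr (Sum.inr (Sum.inl _))) => Pi.single (Sum.inr ()) 1
  | Sum.inr (Sum.inr (Sum.inr (Sum.inr _))) => Pi.single (Sum.inr ()) 2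

/-- their derivatives -/
noncomputable def tc (D : Dat) (v : D.U ⊕ Unit → ℂ) : WT D → ℂ
  | Sum.inl u => 2 * v (Sum.inl u.1)
  | Sum.inr (Sum.inl i) => -∑ k, if D.ou k = i then (D.m' k : ℂ) * v (Sum.inl k) else 0
  | Sum.inr (Sum.inr (Sum.inl (Sum.inl k))) => 2 * v (Sum.inl k)
  | Sum.inr (Sum.inr (Sum.inl (Sum.inr k))) => -(2 * v (Sum.inl k))
  | Sum.inr (Sum.inr (Sum.inr (Sum.inl _))) => v (Sum.inr ())
  | Sum.inr (Sum.inr (Sum.inr (Sum.inr _))) => 2 * v (Sum.inr ())

theorem single_sum {J : Type} [Fintype J] [DecidableEq J] (j : J) (a : ℤ) (v : J → ℂ) :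
    ∑ k, ((Pi.single j a : J → ℤ) k : ℂ) * v k = (a : ℂ) * v j := by
  rw [Finset.sum_eq_single j]
  · rw [Pi.single_eq_same]
  · intro k _ hk
    rw [Pi.single_eq_of_ne hk, Int.cast_zero, zero_mul]
  · intro h
    exact absurd (Finset.mem_univ _) h

theorem tchi_sum (D : Dat) (v : D.U ⊕ Unit → ℂ) (w : WT D) :
    ∑ k, (tchi D w k : ℂ) * v k = tc D v w := by
  rcases w with u | i | (k | k) | u | u
  · change ∑ k, ((Pi.single (Sum.inl u.1) 2 : D.U ⊕ Unit → ℤ) k : ℂ) * v k = 2 * v (Sum.inl u.1)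
    rw [single_sum]
    norm_num
  · change ∑ k, ((Sum.elim (fun k => if D.ou k = i then -(D.m' k : ℤ) else 0) 0 :
      D.U ⊕ Unit → ℤ) k : ℂ) * v k = -∑ k, if D.ou k = i then (D.m' k : ℂ) * v (Sum.inl k) else 0
    rw [Fintype.sum_sum_type, ← Finset.sum_neg_distrib]
    simp only [Sum.elim_inl, Sum.elim_inr, Pi.zero_apply, Int.cast_zero, zero_mul,
      Finset.sum_const_zero, add_zero]
    refine Finset.sum_congr rfl fun k _ => ?_
    split_ifs
    · push_cast
      ring
    · simp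
  · change ∑ j, ((Pi.single (Sum.inl k) 2 : D.U ⊕ Unit → ℤ) j : ℂ) * v j = 2 * v (Sum.inl k)
    rw [single_sum]
    norm_num
  · change ∑ j, ((Pi.single (Sum.inl k) (-2) : D.U ⊕ Unit → ℤ) j : ℂ) * v j =
      -(2 * v (Sum.inl k))
    rw [single_sum]
    push_cast
    ring
  · change ∑ j, ((Pi.single (Sum.inr ()) 1 : D.U ⊕ Unit → ℤ) j : ℂ) * v j = v (Sum.inr ())
    rw [single_sum]
    norm_num
  · change ∑ j, ((Pi.single (Sum.inr ()) 2 : D.U ⊕ Unit → ℤ) j : ℂ) * v j = 2 * v (Sum.inr ())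
    rw [single_sum]
    norm_num

theorem um_sum {n : ℕ} {U W : Type} [Fintype U] {P Q : Matrix (Fin n) U ℂ}
    {qB : Matrix (Fin n) (Fin n) ℚ} (s : Finset W) (a : W → ℂ) (X : W → Matrix U U ℂ) :
    um P Q qB (∑ w ∈ s, a w • X w) = ∑ w ∈ s, a w • um P Q qB (X w) := by
  classical
  induction s using Finset.induction_on with
  | empty => rw [Finset.sum_empty, Finset.sum_empty, FulaM.um_zero]
  | insert w s hw ih =>
    rw [Finset.sum_insert hw, Finset.sum_insert hw, FulaM.um_add, FulaM.um_smul, ih]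

theorem bd_sum {κ : Type} [Fintype κ] [DecidableEq κ] {m : κ → ℕ} (z : κ → ℂ) :
    blockDiagonal' (fun k => Matrix.scalar (Fin (m k)) (z k)) =
      ∑ k, z k • blockDiagonal' (Pi.single k 1 : (k : κ) → Matrix (Fin (m k)) (Fin (m k)) ℂ) := by
  ext ⟨k, a⟩ ⟨l, b⟩
  rw [Matrix.sum_apply]
  simp only [Matrix.smul_apply, smul_eq_mul]
  by_cases hkl : k = l
  · subst hkl
    simp only [blockDiagonal'_apply_eq]
    rw [Finset.sum_eq_single k]
    · rw [Pi.single_eq_same, Matrix.scalar_apply]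
      by_cases hab : a = b
      · subst hab
        rw [Matrix.diagonal_apply_eq, Matrix.one_apply_eq, mul_one]
      · rw [Matrix.diagonal_apply_ne _ hab, Matrix.one_apply_ne hab, mul_zero]
    · intro j _ hj
      rw [Pi.single_eq_of_ne hj.symm, Matrix.zero_apply, mul_zero]
    · intro h
      exact absurd (Finset.mem_univ _) h
  · simp only [blockDiagonal'_apply_ne _ _ _ hkl, mul_zero, Finset.sum_const_zero]

theorem um_pr (D : Dat) (k : D.U) :
    um D.P' D.Q' D.qB (blockDiagonal' (Pi.single k 1 : D.FU)) =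
      D.pr (Sum.inr (Sum.inl k)) - D.pr (Sum.inr (Sum.inr k)) := by
  have h : (blockDiagonal' (Pi.single k 1 : D.FU))ᵀ = blockDiagonal' (Pi.single k 1 : D.FU) := by
    rw [blockDiagonal'_transpose]
    congr 1
    funext l
    by_cases hl : l = k
    · subst hl
      rw [Pi.single_eq_same, transpose_one]
    · rw [Pi.single_eq_of_ne hl, transpose_zero]
  unfold um
  rw [h]
  rfl

theorem uz_eq (D : Dat) (z : D.U → ℂ) :
    D.uz z = ∑ k, z k • (D.pr (Sum.inr (Sum.inl k)) - D.pr (Sum.inr (Sum.inr k))) := by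
  have h : D.uz z = um D.P' D.Q' D.qB (blockDiagonal' fun k => Matrix.scalar _ (z k)) := by
    unfold Dat.uz Dat.wm
    rw [blockDiagonal'_zero, Matrix.mul_zero, Matrix.zero_mul, zero_add]
  rw [h, bd_sum, um_sum]
  exact Finset.sum_congr rfl fun k _ => by rw [um_pr]

theorem cl_uz (D : Dat) (hcl : ∀ (X : D.FR) (Y : D.FU), D.cl (D.wm X Y) =
      (2 : ℂ)⁻¹ • (∑ u, ∑ v, blockDiagonal' X u v • (D.gm u * D.gm v)) +
      ((∑ u, ∑ v, blockDiagonal' Y u v • (D.e u * D.f v)) -
        (2 : ℂ)⁻¹ • ∑ k, (Y k).trace • D.pc (D.ou k))) (z : D.U → ℂ) :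
    D.cl (D.uz z) = (∑ u, z u.1 • (D.e u * D.f u)) -
      (2 : ℂ)⁻¹ • ∑ k, ((D.m' k : ℂ) * z k) • D.pc (D.ou k) := by
  have h := hcl 0 fun k => Matrix.scalar _ (z k)
  change D.cl (D.uz z) = _ at h
  rw [h]
  have e1 : ∑ u, ∑ v, blockDiagonal' (0 : D.FR) u v • (D.gm u * D.gm v) = 0 := by
    rw [blockDiagonal'_zero]
    simp
  have e2 : (blockDiagonal' fun k => Matrix.scalar (Fin (D.m' k)) (z k)) =
      diagonal fun u : (k : D.U) × Fin (D.m' k) => z u.1 := by
    have e3 : (fun k => Matrix.scalar (Fin (D.m' k)) (z k)) = fun k => diagonal fun _ => z k := by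
      funext k
      rw [Matrix.scalar_apply]
    rw [e3, blockDiagonal'_diagonal]
  rw [e1, smul_zero, zero_add, e2]
  congr 1
  · refine Finset.sum_congr rfl fun u _ => ?_
    rw [Finset.sum_eq_single u]
    · rw [Matrix.diagonal_apply_eq]
    · intro v _ hv
      rw [Matrix.diagonal_apply_ne' _ hv, zero_smul]
    · intro h
      exact absurd (Finset.mem_univ _) h
  · congr 1
    refine Finset.sum_congr rfl fun k _ => ?_
    rw [Matrix.scalar_apply, Matrix.trace_diagonal, Finset.sum_const, Finset.card_univ,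
      Fintype.card_fin, nsmul_eq_mul]

theorem X_eq (D : Dat) (hcl : ∀ (X : D.FR) (Y : D.FU), D.cl (D.wm X Y) =
      (2 : ℂ)⁻¹ • (∑ u, ∑ v, blockDiagonal' X u v • (D.gm u * D.gm v)) +
      ((∑ u, ∑ v, blockDiagonal' Y u v • (D.e u * D.f v)) -
        (2 : ℂ)⁻¹ • ∑ k, (Y k).trace • D.pc (D.ou k))) (v : D.U ⊕ Unit → ℂ) :
    ∑ w, (∑ k, (tchi D w k : ℂ) * v k) • tp D w =
      lb3 (D.cl (D.uz fun k => 2 * v (Sum.inl k)) + v (Sum.inr ()) • 1)
        (D.uz fun k => 2 * v (Sum.inl k)) (2 * v (Sum.inr ())) := by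
  simp only [tchi_sum, tp]
  rw [sum_lb3]
  congr 1
  · rw [cl_uz D hcl]
    simp only [Fintype.sum_sum_type, Finset.univ_unique, Finset.sum_singleton]
    change ∑ u, (2 * v (Sum.inl u.1)) • (D.e u * D.f u) +
      (∑ i, (-∑ k, if D.ou k = i then (D.m' k : ℂ) * v (Sum.inl k) else 0) • D.pc i +
        ((∑ k, (2 * v (Sum.inl k)) • (0 : Matrix (Ix D.g) (Ix D.g) ℂ) +
          ∑ k, (-(2 * v (Sum.inl k))) • (0 : Matrix (Ix D.g) (Ix D.g) ℂ)) +
        (v (Sum.inr ()) • (1 : Matrix (Ix D.g) (Ix D.g) ℂ) +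
          (2 * v (Sum.inr ())) • (0 : Matrix (Ix D.g) (Ix D.g) ℂ)))) = _
    have e1 : ∑ i, (-∑ k, if D.ou k = i then (D.m' k : ℂ) * v (Sum.inl k) else 0) • D.pc i =
        -((2 : ℂ)⁻¹ • ∑ k, ((D.m' k : ℂ) * (2 * v (Sum.inl k))) • D.pc (D.ou k)) := by
      simp only [neg_smul, Finset.sum_neg_distrib, Finset.sum_smul]
      rw [Finset.sum_comm, Finset.smul_sum]
      congr 1
      refine Finset.sum_congr rfl fun k _ => ?_
      rw [Finset.sum_eq_single (D.ou k)]
      · rw [if_pos rfl, smul_smul]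
        congr 1
        ring
      · intro i _ hi
        rw [if_neg (Ne.symm hi), zero_smul]
      · intro h
        exact absurd (Finset.mem_univ _) h
    rw [e1]
    simp only [smul_zero, Finset.sum_const_zero, add_zero, zero_add]
    abel
  · rw [uz_eq]
    simp only [Fintype.sum_sum_type, Finset.univ_unique, Finset.sum_singleton]
    change ∑ u : (k : D.U) × Fin (D.m' k), (2 * v (Sum.inl u.1)) •
        (0 : Matrix (Fin D.n) (Fin D.n) ℂ) +
      (∑ i, (-∑ k, if D.ou k = i then (D.m' k : ℂ) * v (Sum.inl k) else 0) •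
        (0 : Matrix (Fin D.n) (Fin D.n) ℂ) +
        ((∑ k, (2 * v (Sum.inl k)) • D.pr (Sum.inr (Sum.inl k)) +
          ∑ k, (-(2 * v (Sum.inl k))) • D.pr (Sum.inr (Sum.inr k))) +
        (v (Sum.inr ()) • (0 : Matrix (Fin D.n) (Fin D.n) ℂ) +
          (2 * v (Sum.inr ())) • (0 : Matrix (Fin D.n) (Fin D.n) ℂ)))) = _
    simp only [smul_zero, Finset.sum_const_zero, add_zero, zero_add]
    rw [← Finset.sum_add_distrib]
    refine Finset.sum_congr rfl fun k _ => ?_
    rw [smul_sub, neg_smul, sub_eq_add_neg]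
  · simp only [Fintype.sum_sum_type, Finset.univ_unique, Finset.sum_singleton]
    change ∑ u : (k : D.U) × Fin (D.m' k), (2 * v (Sum.inl u.1)) * (0 : ℂ) +
      (∑ i, (-∑ k, if D.ou k = i then (D.m' k : ℂ) * v (Sum.inl k) else 0) * (0 : ℂ) +
        ((∑ k, (2 * v (Sum.inl k)) * (0 : ℂ) + ∑ k, (-(2 * v (Sum.inl k))) * (0 : ℂ)) +
        (v (Sum.inr ()) * (0 : ℂ) + (2 * v (Sum.inr ())) * (1 : ℂ)))) = _
    simp only [mul_zero, Finset.sum_const_zero, add_zero, zero_add, mul_one]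

section idem

variable {D : Dat} (he : ∀ u v, D.e u * D.e v + D.e v * D.e u = 0)
  (hf : ∀ u v, D.f u * D.f v + D.f v * D.f u = 0)
  (hef : ∀ u v, D.e u * D.f v + D.f v * D.e u = if u = v then D.pc (D.ou u.1) else 0)
  (hpe : ∀ i u, D.pc i * D.e u = (if i = D.ou u.1 then D.e u else 0) ∧
    D.e u * D.pc i = if i = D.ou u.1 then D.e u else 0)
  (hpf : ∀ i u, D.pc i * D.f u = (if i = D.ou u.1 then D.f u else 0) ∧
    D.f u * D.pc i = if i = D.ou u.1 then D.f u else 0)
  (hpr : ∀ s t, D.pr s * D.pr t = if s = t then D.pr s else 0)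

include he hef hpe in
theorem ef_idem (u : (k : D.U) × Fin (D.m' k)) :
    D.e u * D.f u * (D.e u * D.f u) = D.e u * D.f u := by
  have h1 : D.e u * D.e u = 0 := by
    have h := he u u
    rw [← two_smul ℂ] at h
    exact (smul_eq_zero.1 h).resolve_left (by norm_num)
  have h2 : D.f u * D.e u = D.pc (D.ou u.1) - D.e u * D.f u := by
    have h := hef u u
    rw [if_pos rfl] at h
    rw [← h]
    abel
  calc D.e u * D.f u * (D.e u * D.f u) = D.e u * (D.f u * D.e u) * D.f u := by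
        simp only [Matrix.mul_assoc]
    _ = (D.e u * D.pc (D.ou u.1)) * D.f u - (D.e u * D.e u) * D.f u * D.f u := by
        rw [h2, Matrix.mul_sub, Matrix.sub_mul]
        simp only [Matrix.mul_assoc]
    _ = _ := by
        rw [h1, (hpe _ _).2, if_pos rfl, Matrix.zero_mul, Matrix.zero_mul, sub_zero]

include he hf hef in
theorem ef_comm (u v : (k : D.U) × Fin (D.m' k)) :
    D.e u * D.f u * (D.e v * D.f v) = D.e v * D.f v * (D.e u * D.f u) := by
  by_cases huv : u = v
  · subst huv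
    rfl
  · have h1 : D.e u * D.e v = -(D.e v * D.e u) := eq_neg_of_add_eq_zero_left (he u v)
    have h2 : D.f u * D.f v = -(D.f v * D.f u) := eq_neg_of_add_eq_zero_left (hf u v)
    have h3 : D.f u * D.e v = -(D.e v * D.f u) := by
      have h := hef v u
      rw [if_neg (Ne.symm huv)] at h
      exact eq_neg_of_add_eq_zero_right h
    have h4 : D.e u * D.f v = -(D.f v * D.e u) := by
      have h := hef u v
      rw [if_neg huv] at h
      exact eq_neg_of_add_eq_zero_left h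
    calc D.e u * D.f u * (D.e v * D.f v) = D.e u * (D.f u * D.e v) * D.f v := by
          simp only [Matrix.mul_assoc]
      _ = -((D.e u * D.e v) * (D.f u * D.f v)) := by
          rw [h3]
          simp only [Matrix.mul_neg, Matrix.neg_mul, Matrix.mul_assoc]
      _ = -(D.e v * (D.e u * D.f v) * D.f u) := by
          rw [h1, h2]
          simp only [Matrix.mul_neg, Matrix.neg_mul, neg_neg, Matrix.mul_assoc]
      _ = D.e v * D.f v * (D.e u * D.f u) := by
          rw [h4]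
          simp only [Matrix.mul_neg, Matrix.neg_mul, neg_neg, Matrix.mul_assoc]

include hpe hpf in
theorem pi_ef (i : D.I) (u : (k : D.U) × Fin (D.m' k)) :
    D.pc i * (D.e u * D.f u) = D.e u * D.f u * D.pc i := by
  rw [← Matrix.mul_assoc, (hpe i u).1, Matrix.mul_assoc (D.e u), (hpf i u).2]
  split_ifs
  · rfl
  · rw [Matrix.zero_mul, Matrix.mul_zero]

theorem pc_mul (i j : D.I) : D.pc i * D.pc j = if i = j then D.pc i else 0 := by
  unfold Dat.pc
  rw [← KRatM.cx_mul, D.ks.mul]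
  split_ifs
  · rfl
  · exact KRatM.cx_zero

theorem pc_comm (i j : D.I) : D.pc i * D.pc j = D.pc j * D.pc i := by
  rw [pc_mul, pc_mul]
  by_cases h : i = j
  · subst h
    rfl
  · rw [if_neg h, if_neg (Ne.symm h)]

include he hef hpe hpr in
theorem tp_idem (w : WT D) : tp D w * tp D w = tp D w := by
  unfold tp
  rw [lb3_mul]
  congr 1
  · rcases w with u | i | s | u | u
    · exact ef_idem he hef hpe u
    · change D.pc i * D.pc i = D.pc i
      rw [pc_mul, if_pos rfl]
    · change (0 : Matrix (Ix D.g) (Ix D.g) ℂ) * 0 = 0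
      rw [Matrix.zero_mul]
    · change (1 : Matrix (Ix D.g) (Ix D.g) ℂ) * 1 = 1
      rw [Matrix.one_mul]
    · change (0 : Matrix (Ix D.g) (Ix D.g) ℂ) * 0 = 0
      rw [Matrix.zero_mul]
  · rcases w with u | i | s | u
    · change (0 : Matrix (Fin D.n) (Fin D.n) ℂ) * 0 = 0
      rw [Matrix.zero_mul]
    · change (0 : Matrix (Fin D.n) (Fin D.n) ℂ) * 0 = 0
      rw [Matrix.zero_mul]
    · change D.pr (Sum.inr s) * D.pr (Sum.inr s) = D.pr (Sum.inr s)
      rw [hpr, if_pos rfl]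
    · change (0 : Matrix (Fin D.n) (Fin D.n) ℂ) * 0 = 0
      rw [Matrix.zero_mul]
  · rcases w with u | i | s | u | u
    · exact mul_zero _
    · exact mul_zero _
    · exact mul_zero _
    · exact mul_zero _
    · exact mul_one _

include he hf hef hpe hpf in
theorem t1_comm (w w' : WT D) : t1 D w * t1 D w' = t1 D w' * t1 D w := by
  rcases w with u | i | s | u | u <;> rcases w' with u' | i' | s' | u' | u' <;>
    simp only [t1, Matrix.zero_mul, Matrix.mul_zero, Matrix.one_mul, Matrix.mul_one]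
  · exact ef_comm he hf hef u u'
  · exact (pi_ef hpe hpf i' u).symm
  · exact pi_ef hpe hpf i u'
  · exact pc_comm i i'

include hpr in
theorem t2_comm (w w' : WT D) : t2 D w * t2 D w' = t2 D w' * t2 D w := by
  rcases w with u | i | s | u <;> rcases w' with u' | i' | s' | u' <;>
    simp only [t2, Matrix.zero_mul, Matrix.mul_zero]
  rw [hpr, hpr]
  by_cases h : s = s'
  · subst h
    rfl
  · rw [if_neg (fun h1 => h (Sum.inr_injective h1)),
      if_neg (fun h1 => h (Sum.inr_injective h1).symm)]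

include he hf hef hpe hpf hpr in
theorem tp_comm (w w' : WT D) : tp D w * tp D w' = tp D w' * tp D w := by
  unfold tp
  rw [lb3_mul, lb3_mul, t1_comm he hf hef hpe hpf, t2_comm hpr, mul_comm (t3 D w)]

end idem

theorem ex_zero : ex 0 = 1 := by
  refine Units.ext ?_
  rw [KGrp3M.ex_val, Complex.exp_zero]
  rfl

end TgM

open TgM in
theorem specMTg (hFlb : SpecMFlb) (hTor : SpecUTor) (hDia : SpecMDia) (hDer : SpecMDer)
    (hCar : SpecMCar) (hMat : SpecMMat) (hCurve : SpecCurve) : SpecMTg := by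
  intro D T hT z s
  obtain ⟨-, he, hf, hef, -, hpe, hpf, hcl, -⟩ := hCar D
  obtain ⟨-, -, -, -, -, hpr, -⟩ := hMat D
  obtain ⟨F, hF1, hF2⟩ := hDia (Ix D.g ⊕ (Fin D.n ⊕ Unit)) (WT D) (D.U ⊕ Unit) (TgM.tp D) (tchi D)
    (tp_idem he hef hpe hpr) (tp_comm he hf hef hpe hpf hpr)
  have hgeo := GL2.geo_of_torsor hT.tor
  simp only [X_eq D hcl] at hF2
  have h0 : ∀ v : D.U ⊕ Unit → ℂ, (F fun k => ex (0 * v k)) = 1 := by
    intro v
    have e : (fun k => ex (0 * v k)) = 1 := by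
      funext j
      rw [zero_mul, ex_zero]
      rfl
    rw [e, map_one]
  have hmem : ∀ w, ∀ f ∈ T, F w * f ∈ T := by
    refine hTor _ (D.U ⊕ Unit) T hgeo F hF1 fun χ hχ => ?_
    by_contra hcon
    push Not at hcon
    have key := hFlb D T hT (fun k => (χ (Sum.inl k) : ℚ) / 2) (χ (Sum.inr ())) fun z s hl => ?_
    · apply hχ
      have k2 : χ (Sum.inr ()) = 0 := by exact_mod_cast key.2
      funext j
      rcases j with k | u
      · have k1 := congrFun key.1 k
        simp only [Pi.zero_apply] at k1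
        have k3 : (χ (Sum.inl k) : ℚ) = 0 := by linarith
        exact_mod_cast k3
      · exact k2
    · by_contra hne
      set v : D.U ⊕ Unit → ℂ := Sum.elim (fun k => z k / 2) fun _ => s with hv
      have ez : (fun k => 2 * v (Sum.inl k)) = z := by
        funext k
        rw [hv, Sum.elim_inl]
        ring
      have hne' : ∑ j, (χ j : ℂ) * v j ≠ 0 := by
        intro h1
        apply hne
        rw [← h1, Fintype.sum_sum_type]
        simp only [hv, Sum.elim_inl, Sum.elim_inr, Finset.univ_unique, Finset.sum_singleton]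
        congr 1
        refine Finset.sum_congr rfl fun k _ => ?_
        push_cast
        ring
      obtain ⟨u, f, hf', hnot⟩ := hcon v hne'
      apply hnot
      refine hCurve _ T hgeo _ hl (fun s => F fun k => ex (s * v k)) (h0 v) (fun s' i j => ?_)
        f hf' u
      have h1 := hF2 v s' i j
      rw [ez] at h1
      exact h1
  set v : D.U ⊕ Unit → ℂ := Sum.elim (fun k => z k / 2) fun _ => s with hv
  have ez : (fun k => 2 * v (Sum.inl k)) = z := by
    funext k
    rw [hv, Sum.elim_inl]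
    ring
  refine hDer _ T _ (fun s => F fun k => ex (s * v k)) (h0 v) (fun i j => ?_)
    fun s f hf => hmem _ f hf
  have h1 := hF2 v 0 i j
  rw [ez, h0 v, Units.val_one, Matrix.mul_one] at h1
  exact h1

end Pool.Agent.Lib.MPf11a48.KM
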