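import Pool.Agent.Lib.MP_f11a48_ag.KM.SpecA

set_option autoImplicit false

/-!
# Module ADT: the trace of a power of the adjoint action on skew-symmetric matrices
-/

namespace Pool.Agent.Lib.MPf11a48.KM

open Matrix

namespace AdtM

variable {m : ℕ}

theorem trace_sum (T : Matrix (Fin m) (Fin m) ℂ →ₗ[ℂ] Matrix (Fin m) (Fin m) ℂ) :
    LinearMap.trace ℂ _ T = ∑ i, ∑ j, T (Matrix.single i j 1) i j := by
  rw [LinearMap.trace_eq_matrix_trace ℂ (Matrix.stdBasis ℂ (Fin m) (Fin m)), Matrix.trace,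
    Fintype.sum_prod_type]
  refine Finset.sum_congr rfl fun i _ => Finset.sum_congr rfl fun j _ => ?_
  rw [Matrix.diag_apply, LinearMap.toMatrix_apply, Matrix.stdBasis_eq_single]
  have h : ∀ Y : Matrix (Fin m) (Fin m) ℂ,
      (Matrix.stdBasis ℂ (Fin m) (Fin m)).repr Y (i, j) = Y i j := by
    intro Y
    have h1 : Y = ∑ a, ∑ b, Y a b • Matrix.stdBasis ℂ (Fin m) (Fin m) (a, b) := by
      conv_lhs => rw [Matrix.matrix_eq_sum_single Y]
      refine Finset.sum_congr rfl fun a _ => Finset.sum_congr rfl fun b _ => ?_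
      rw [Matrix.stdBasis_eq_single, Matrix.smul_single, smul_eq_mul, mul_one]
    conv_lhs => rw [h1]
    simp only [map_sum, map_smul, Module.Basis.repr_self, Finsupp.coe_finsetSum, Finset.sum_apply,
      Finsupp.smul_apply, Finsupp.single_apply, Prod.mk.injEq, smul_eq_mul, mul_ite, mul_one,
      mul_zero]
    simp [ite_and]
  exact h _

theorem trace_lr (A B : Matrix (Fin m) (Fin m) ℂ)
    (T : Matrix (Fin m) (Fin m) ℂ →ₗ[ℂ] Matrix (Fin m) (Fin m) ℂ) (hT : ∀ Y, T Y = A * Y * B) :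
    LinearMap.trace ℂ _ T = A.trace * B.trace := by
  rw [trace_sum, Matrix.trace, Matrix.trace, Finset.sum_mul_sum]
  refine Finset.sum_congr rfl fun i _ => Finset.sum_congr rfl fun j _ => ?_
  rw [hT, Matrix.mul_apply]
  rw [Finset.sum_eq_single j]
  · rw [Matrix.mul_apply, Finset.sum_eq_single i]
    · simp
    · intro b _ hb
      simp [hb.symm]
    · simp
  · intro b _ hb
    rw [Matrix.mul_apply, Finset.sum_eq_zero, zero_mul]
    intro c _
    simp [hb.symm]
  · simp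

theorem trace_lrt (A B : Matrix (Fin m) (Fin m) ℂ)
    (T : Matrix (Fin m) (Fin m) ℂ →ₗ[ℂ] Matrix (Fin m) (Fin m) ℂ) (hT : ∀ Y, T Y = A * Yᵀ * B) :
    LinearMap.trace ℂ _ T = (A * Bᵀ).trace := by
  rw [trace_sum, Matrix.trace]
  refine Finset.sum_congr rfl fun i _ => ?_
  rw [Matrix.diag_apply, Matrix.mul_apply]
  refine Finset.sum_congr rfl fun j _ => ?_
  rw [hT, Matrix.mul_apply, Matrix.transpose_apply]
  rw [Finset.sum_eq_single i]
  · rw [Matrix.mul_apply, Finset.sum_eq_single j]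
    · simp
    · intro b _ hb
      simp [hb.symm]
    · simp
  · intro b _ hb
    rw [Matrix.mul_apply, Finset.sum_eq_zero, zero_mul]
    intro c _
    simp [hb.symm]
  · simp

theorem negpow (X : Matrix (Fin m) (Fin m) ℂ) (j : ℕ) : (-X) ^ j = ((-1 : ℂ) ^ j) • X ^ j := by
  rcases Nat.even_or_odd j with hj | hj
  · rw [hj.neg_pow X, hj.neg_one_pow, one_smul]
  · rw [hj.neg_pow X, hj.neg_one_pow, neg_one_smul]

theorem ad_iter (X Y : Matrix (Fin m) (Fin m) ℂ) (k : ℕ) :
    (fun W => X * W - W * X)^[k] Y =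
      ∑ j ∈ Finset.range (k + 1), ((k.choose j : ℂ) * (-1) ^ j) • (X ^ (k - j) * Y * X ^ j) := by
  obtain ⟨A, hA⟩ : ∃ A : Module.End ℂ (Matrix (Fin m) (Fin m) ℂ), A = LinearMap.mulRight ℂ (-X) :=
    ⟨_, rfl⟩
  obtain ⟨B, hB⟩ : ∃ B : Module.End ℂ (Matrix (Fin m) (Fin m) ℂ), B = LinearMap.mulLeft ℂ X :=
    ⟨_, rfl⟩
  have hA1 : ∀ Z, A Z = Z * (-X) := fun Z => by rw [hA, LinearMap.mulRight_apply]
  have hB1 : ∀ Z, B Z = X * Z := fun Z => by rw [hB, LinearMap.mulLeft_apply]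
  have h1 : ∀ k : ℕ, ∀ Y, (fun W => X * W - W * X)^[k] Y = ((A + B) ^ k) Y := by
    intro k
    induction k with
    | zero => intro Y; simp
    | succ k ih =>
      intro Y
      rw [Function.iterate_succ_apply', ih, pow_succ', Module.End.mul_apply]
      rw [LinearMap.add_apply, hA1, hB1, Matrix.mul_neg, neg_add_eq_sub]
  have hc : Commute A B := by
    rw [hA, hB]
    exact (LinearMap.commute_mulLeft_right X (-X)).symm
  have h2 : ∀ (n : ℕ) (Z : Matrix (Fin m) (Fin m) ℂ), (A ^ n) Z = Z * (-X) ^ n := by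
    intro n
    induction n with
    | zero => intro Z; simp
    | succ n ih =>
      intro Z
      rw [pow_succ', Module.End.mul_apply, ih, hA1, pow_succ, Matrix.mul_assoc]
  have h3 : ∀ (n : ℕ) (Z : Matrix (Fin m) (Fin m) ℂ), (B ^ n) Z = X ^ n * Z := by
    intro n
    induction n with
    | zero => intro Z; simp
    | succ n ih =>
      intro Z
      rw [pow_succ', Module.End.mul_apply, ih, hB1, pow_succ', Matrix.mul_assoc]
  rw [h1, hc.add_pow, LinearMap.sum_apply]
  refine Finset.sum_congr rfl fun j _ => ?_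
  have h4 : ((k.choose j : Module.End ℂ (Matrix (Fin m) (Fin m) ℂ))) Y = (k.choose j : ℂ) • Y := by
    rw [Module.End.natCast_apply, Nat.cast_smul_eq_nsmul]
  rw [Module.End.mul_apply, Module.End.mul_apply, h4, h3, h2, negpow, Matrix.mul_smul,
    Matrix.mul_smul, Matrix.smul_mul, smul_smul, mul_comm ((-1 : ℂ) ^ j)]

end AdtM

open AdtM in
theorem specMAdt : SpecMAdt := by
  intro m X hX k T h1 h2
  have hpt : ∀ j : ℕ, (X ^ j)ᵀ = ((-1 : ℂ) ^ j) • X ^ j := by
    intro j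
    rw [Matrix.transpose_pow, hX, negpow]
  set L : ℕ → (Matrix (Fin m) (Fin m) ℂ →ₗ[ℂ] Matrix (Fin m) (Fin m) ℂ) := fun j =>
    (LinearMap.mulLeft ℂ (X ^ (k - j))).comp (LinearMap.mulRight ℂ (X ^ j)) with hL
  set L' : ℕ → (Matrix (Fin m) (Fin m) ℂ →ₗ[ℂ] Matrix (Fin m) (Fin m) ℂ) := fun j =>
    (L j).comp (Matrix.transposeLinearEquiv (Fin m) (Fin m) ℂ ℂ).toLinearMap with hL'
  have hT : T = (2 : ℂ)⁻¹ • ∑ j ∈ Finset.range (k + 1), ((k.choose j : ℂ) * (-1) ^ j) •
      (L j - L' j) := by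
    apply LinearMap.ext
    intro Y
    have hY : Y = (2 : ℂ)⁻¹ • (Y + Yᵀ) + (2 : ℂ)⁻¹ • (Y - Yᵀ) := by
      rw [← smul_add, add_add_sub_cancel, ← two_smul ℂ Y, smul_smul, inv_mul_cancel₀ two_ne_zero,
        one_smul]
    have ha : T ((2 : ℂ)⁻¹ • (Y + Yᵀ)) = 0 := by
      apply h2
      rw [Matrix.transpose_smul, Matrix.transpose_add, Matrix.transpose_transpose, add_comm]
    have hb : ((2 : ℂ)⁻¹ • (Y - Yᵀ))ᵀ = -((2 : ℂ)⁻¹ • (Y - Yᵀ)) := by
      rw [Matrix.transpose_smul, Matrix.transpose_sub, Matrix.transpose_transpose, ← smul_neg,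
        neg_sub]
    conv_lhs => rw [hY, map_add, ha, zero_add, h1 _ hb, ad_iter]
    rw [LinearMap.smul_apply, LinearMap.sum_apply, Finset.smul_sum]
    refine Finset.sum_congr rfl fun j _ => ?_
    rw [LinearMap.smul_apply, LinearMap.sub_apply, Matrix.mul_smul, Matrix.smul_mul, smul_comm]
    congr 2
    simp only [hL', hL, LinearMap.comp_apply, LinearMap.mulLeft_apply, LinearMap.mulRight_apply,
      LinearEquiv.coe_coe, Matrix.transposeLinearEquiv_apply]
    rw [Matrix.mul_sub, Matrix.sub_mul, Matrix.mul_assoc, Matrix.mul_assoc]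
    rfl
  have hL1 : ∀ j, LinearMap.trace ℂ _ (L j) = (X ^ (k - j)).trace * (X ^ j).trace := by
    intro j
    apply trace_lr
    intro Y
    simp only [hL, LinearMap.comp_apply, LinearMap.mulLeft_apply, LinearMap.mulRight_apply]
    rw [Matrix.mul_assoc]
  have hL2 : ∀ j ∈ Finset.range (k + 1), LinearMap.trace ℂ _ (L' j) =
      (-1 : ℂ) ^ j * (X ^ k).trace := by
    intro j hj
    rw [trace_lrt (X ^ (k - j)) (X ^ j), hpt, Matrix.mul_smul, Matrix.trace_smul, smul_eq_mul,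
      ← pow_add, Nat.sub_add_cancel (Nat.lt_succ_iff.mp (Finset.mem_range.mp hj))]
    intro Y
    simp only [hL', hL, LinearMap.comp_apply, LinearMap.mulLeft_apply, LinearMap.mulRight_apply,
      LinearEquiv.coe_coe, Matrix.transposeLinearEquiv_apply]
    rw [Matrix.mul_assoc]
    rfl
  rw [hT, map_smul, map_sum, smul_eq_mul]
  congr 1
  have h3 : (2 : ℂ) ^ k = ∑ j ∈ Finset.range (k + 1), (k.choose j : ℂ) := by
    have := Nat.sum_range_choose k
    rw [← Nat.cast_sum, this]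
    push_cast
    ring
  rw [h3, Finset.sum_mul, ← Finset.sum_sub_distrib]
  refine Finset.sum_congr rfl fun j hj => ?_
  rw [map_smul, map_sub, hL1, hL2 j hj, smul_eq_mul]
  have h4 : ((-1 : ℂ) ^ j) * (-1) ^ j = 1 := by
    rw [← mul_pow]; norm_num
  linear_combination (-(k.choose j : ℂ) * (X ^ k).trace) * h4

end Pool.Agent.Lib.MPf11a48.KM
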