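import Pool.Agent.Lib.MP_f11a48_ag.KM.SpecA

/-!
# Module AUT: automorphisms of `sl_d`, `d ≥ 3`
-/

set_option autoImplicit false

namespace Pool.Agent.Lib.MPf11a48.KM

open Matrix

namespace AutM

variable {d : ℕ}

/-- matrices -/
abbrev MM (d : ℕ) : Type := Matrix (Fin d) (Fin d) ℂ

/-- matrix units -/
def E (i j : Fin d) : MM d := Matrix.single i j 1

/-- bracket -/
def br (X Y : MM d) : MM d := X * Y - Y * X

/-- the symmetric product -/
noncomputable def jo (X Y : MM d) : MM d :=
  X * Y + Y * X - ((2 / (d : ℂ)) * (X * Y).trace) • (1 : MM d)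

lemma EE (i j k l : Fin d) : E i j * E k l = if j = k then E i l else 0 := by
  unfold E
  split_ifs with h
  · subst h
    rw [Matrix.single_mul_single_same, mul_one]
  · rw [Matrix.single_mul_single_of_ne _ _ _ _ h]

lemma brE (i j k l : Fin d) :
    br (E i j) (E k l) = (if j = k then E i l else 0) - (if l = i then E k j else 0) := by
  unfold br
  rw [EE, EE]

lemma E_mul (i j : Fin d) (a : MM d) (p q : Fin d) :
    (E i j * a) p q = if p = i then a j q else 0 := by
  unfold E
  split_ifs with h
  · subst h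
    rw [Matrix.single_mul_apply_same, one_mul]
  · rw [Matrix.single_mul_apply_of_ne _ _ _ _ _ h]

lemma mul_E (i j : Fin d) (a : MM d) (p q : Fin d) :
    (a * E i j) p q = if q = j then a p i else 0 := by
  unfold E
  split_ifs with h
  · subst h
    rw [Matrix.mul_single_apply_same, mul_one]
  · rw [Matrix.mul_single_apply_of_ne _ _ _ _ _ h]

lemma trE (i j : Fin d) : (E i j : MM d).trace = if i = j then 1 else 0 := by
  unfold E
  split_ifs with h
  · subst h
    rw [Matrix.trace_single_eq_same]
  · rw [Matrix.trace_single_eq_of_ne _ _ _ h]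

/-- generators of `sl_d` -/
lemma gen (l : Fin d) (N : Submodule ℂ (MM d)) (h1 : ∀ i j, i ≠ j → E i j ∈ N)
    (h2 : ∀ i, E i i - E l l ∈ N) (X : MM d) (hX : X.trace = 0) : X ∈ N := by
  have h3 : X = ∑ i, ∑ j, X i j • (E i j - if i = j then E l l else 0) := by
    have h4 : ∑ i, ∑ j, X i j • (E i j - if i = j then E l l else 0)
        = (∑ i, ∑ j, X i j • (E i j : MM d)) - X.trace • E l l := by
      simp only [smul_sub, Finset.sum_sub_distrib]
      congr 1
      rw [Matrix.trace, Finset.sum_smul]
      refine Finset.sum_congr rfl fun i _ => ?_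
      simp
    rw [h4, hX, zero_smul, sub_zero]
    conv_lhs => rw [Matrix.matrix_eq_sum_single X]
    refine Finset.sum_congr rfl fun i _ => Finset.sum_congr rfl fun j _ => ?_
    unfold E
    rw [Matrix.smul_single, smul_eq_mul, mul_one]
  rw [h3]
  refine Submodule.sum_mem _ fun i _ => Submodule.sum_mem _ fun j _ => Submodule.smul_mem _ _ ?_
  by_cases hij : i = j
  · subst hij
    rw [if_pos rfl]
    exact h2 i
  · rw [if_neg hij, sub_zero]
    exact h1 i j hij

/-- uniqueness: an equivariant bilinear map which vanishes at `(E_ol, E_lo)` vanishes on `sl_d` -/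
lemma uniq (B : MM d →ₗ[ℂ] MM d →ₗ[ℂ] MM d)
    (heq : ∀ Z X Y, br Z (B X Y) = B (br Z X) Y + B X (br Z Y)) (o l : Fin d) (hol : o ≠ l)
    (h3 : ∀ i j : Fin d, ∃ k, k ≠ i ∧ k ≠ j) (hef : B (E o l) (E l o) = 0) :
    ∀ X Y, X.trace = 0 → Y.trace = 0 → B X Y = 0 := by
  have hlo : l ≠ o := hol.symm
  -- the kernel of `B e`
  set N : Submodule ℂ (MM d) := LinearMap.ker (B (E o l)) with hN
  have hmem : ∀ Y, Y ∈ N ↔ B (E o l) Y = 0 := fun Y => by rw [hN, LinearMap.mem_ker]
  have hcl : ∀ Z Y, br Z (E o l) = 0 → Y ∈ N → br Z Y ∈ N := by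
    intro Z Y hZ hY
    rw [hmem] at hY ⊢
    have h := heq Z (E o l) Y
    rw [hY, hZ] at h
    simp only [br, mul_zero, zero_mul, sub_zero, map_zero, LinearMap.zero_apply, zero_add] at h
    exact h.symm
  have e1 : E l o ∈ N := (hmem _).2 hef
  have e2 : ∀ j, j ≠ o → j ≠ l → E l j ∈ N := by
    intro j h4 h5
    have h6 := hcl (E o j) (E l o) (by rw [brE, if_neg h4, if_neg hlo, sub_zero]) e1
    rw [brE, if_neg h5, if_pos rfl, zero_sub] at h6
    exact (Submodule.neg_mem_iff _).1 h6
  have e3 : E o o - E l l ∈ N := by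
    have h6 := hcl (E o l) (E l o) (by simp [br]) e1
    rwa [brE, if_pos rfl, if_pos rfl] at h6
  have e4 : ∀ i, i ≠ o → i ≠ l → E i o ∈ N := by
    intro i h4 h5
    have h6 := hcl (E i l) (E l o) (by
      rw [brE, if_neg hlo, if_neg (fun h => h5 h.symm), sub_zero]) e1
    rwa [brE, if_pos rfl, if_neg (fun h => h4 h.symm), sub_zero] at h6
  have e5 : ∀ i j, i ≠ o → i ≠ l → j ≠ o → j ≠ l → E i j - (if j = i then E l l else 0) ∈ N := by
    intro i j h4 h5 h4' h5'
    have h6 := hcl (E i l) (E l j) (by
      rw [brE, if_neg hlo, if_neg (fun h => h5 h.symm), sub_zero]) (e2 j h4' h5')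
    rwa [brE, if_pos rfl] at h6
  have e6 : ∀ j, j ≠ o → j ≠ l → E o j ∈ N := by
    intro j h4 h5
    have h6 := hcl (E o l) (E l j) (by simp [br]) (e2 j h4 h5)
    rwa [brE, if_pos rfl, if_neg h4, sub_zero] at h6
  have e7 : ∀ i, i ≠ o → i ≠ l → E i l ∈ N := by
    intro i h4 h5
    have h6 := hcl (E o l) (E i o) (by simp [br]) (e4 i h4 h5)
    rw [brE, if_neg (fun h => h5 h.symm), if_pos rfl, zero_sub] at h6
    exact (Submodule.neg_mem_iff _).1 h6
  have e8 : E o l ∈ N := by
    have h6 := hcl (E o l) (E o o - E l l) (by simp [br]) e3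
    have h7 : br (E o l) (E o o - E l l) = (-2 : ℂ) • E o l := by
      unfold br
      rw [mul_sub, sub_mul, EE, EE, EE, EE, if_neg hlo, if_pos rfl, if_pos rfl, if_neg hlo]
      module
    rw [h7] at h6
    exact (Submodule.smul_mem_iff _ (by norm_num : (-2 : ℂ) ≠ 0)).1 h6
  have hall : ∀ Y, Y.trace = 0 → Y ∈ N := by
    apply gen l N
    · intro i j hij
      by_cases hio : i = o
      · subst hio
        by_cases hjl : j = l
        · subst hjl; exact e8
        · exact e6 j (fun h => hij h.symm) hjl
      · by_cases hil : i = l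
        · subst hil
          by_cases hjo : j = o
          · subst hjo; exact e1
          · exact e2 j hjo (fun h => hij h.symm)
        · by_cases hjo : j = o
          · subst hjo; exact e4 i hio hil
          · by_cases hjl : j = l
            · subst hjl; exact e7 i hio hil
            · have := e5 i j hio hil hjo hjl
              rwa [if_neg (fun h => hij h.symm), sub_zero] at this
    · intro i
      by_cases hio : i = o
      · subst hio; exact e3
      · by_cases hil : i = l
        · subst hil
          rw [sub_self]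
          exact Submodule.zero_mem _
        · have := e5 i i hio hil hio hil
          rwa [if_pos rfl] at this
  -- the ideal
  set P : Submodule ℂ (MM d) :=
    { carrier := {X | ∀ Y, Y.trace = 0 → B X Y = 0}
      add_mem' := by
        intro X X' hX hX' Y hY
        rw [map_add, LinearMap.add_apply, hX Y hY, hX' Y hY, add_zero]
      zero_mem' := by
        intro Y _
        rw [map_zero, LinearMap.zero_apply]
      smul_mem' := by
        intro a X hX Y hY
        rw [map_smul, LinearMap.smul_apply, hX Y hY, smul_zero] } with hP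
  have hPm : ∀ X, X ∈ P ↔ ∀ Y, Y.trace = 0 → B X Y = 0 := fun X => Iff.rfl
  have hPc : ∀ Z X, X ∈ P → br Z X ∈ P := by
    intro Z X hX
    rw [hPm] at hX ⊢
    intro Y hY
    have h := heq Z X Y
    have htr : (br Z Y).trace = 0 := by
      unfold br
      rw [Matrix.trace_sub, Matrix.trace_mul_comm, sub_self]
    rw [hX Y hY, hX _ htr] at h
    simp only [br, mul_zero, zero_mul, sub_zero, add_zero] at h
    exact h.symm
  have hPc' : ∀ Z X, X ∈ P → br X Z ∈ P := by
    intro Z X hX
    have h4 : br X Z = -br Z X := by unfold br; abel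
    rw [h4]
    exact Submodule.neg_mem _ (hPc Z X hX)
  have f0 : E o l ∈ P := (hPm _).2 fun Y hY => (hmem Y).1 (hall Y hY)
  have f1 : ∀ i, i ≠ l → E i l ∈ P := by
    intro i hi
    have h4 := hPc (E i o) (E o l) f0
    rwa [brE, if_pos rfl, if_neg (fun h => hi h.symm), sub_zero] at h4
  have f2 : ∀ i j, i ≠ l → E i j - (if j = i then E l l else 0) ∈ P := by
    intro i j hi
    have h4 := hPc' (E l j) (E i l) (f1 i hi)
    rwa [brE, if_pos rfl] at h4
  have f3 : ∀ j, j ≠ l → E l j ∈ P := by
    intro j hj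
    obtain ⟨k, hk1, hk2⟩ := h3 l j
    have h4 := f2 k j hk1
    rw [if_neg (fun h => hk2 h.symm), sub_zero] at h4
    have h5 := hPc (E l k) (E k j) h4
    rwa [brE, if_pos rfl, if_neg hj, sub_zero] at h5
  have hallP : ∀ X, X.trace = 0 → X ∈ P := by
    apply gen l P
    · intro i j hij
      by_cases hil : i = l
      · subst hil
        exact f3 j (fun h => hij h.symm)
      · have := f2 i j hil
        rwa [if_neg (fun h => hij h.symm), sub_zero] at this
    · intro i
      by_cases hil : i = l
      · subst hil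
        rw [sub_self]
        exact Submodule.zero_mem _
      · have := f2 i i hil
        rwa [if_pos rfl] at this
  intro X Y hX hY
  exact (hPm X).1 (hallP X hX) Y hY

/-- the value at `(E_ol, E_lo)` -/
lemma exists_c (hd : 3 ≤ d) (S : MM d →ₗ[ℂ] MM d →ₗ[ℂ] MM d)
    (heq : ∀ Z X Y, br Z (S X Y) = S (br Z X) Y + S X (br Z Y)) (hsym : ∀ X Y, S X Y = S Y X)
    (htr : ∀ X Y, X.trace = 0 → Y.trace = 0 → (S X Y).trace = 0) (o l : Fin d) (hol : o ≠ l) :
    ∃ c : ℂ, S (E o l) (E l o) = c • jo (E o l) (E l o) := by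
  have hlo : l ≠ o := hol.symm
  have hd0 : (d : ℂ) ≠ 0 := by
    have : d ≠ 0 := by omega
    exact_mod_cast this
  set a := S (E o l) (E l o) with ha
  -- commutation with the diagonal
  have h1 : ∀ i, br (E i i) a = 0 := by
    intro i
    have h2 := heq (E i i) (E o l) (E l o)
    rw [brE, brE] at h2
    rw [ha, h2]
    by_cases hio : i = o
    · subst hio
      rw [if_pos rfl, if_neg hlo, if_neg hol, if_pos rfl]
      simp
    · by_cases hil : i = l
      · subst hil
        rw [if_neg hlo, if_pos rfl, if_pos rfl, if_neg hol]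
        simp
      · rw [if_neg hio, if_neg (fun h => hil h.symm), if_neg hil, if_neg (fun h => hio h.symm)]
        simp
  have hdiag : ∀ i j, i ≠ j → a i j = 0 := by
    intro i j hij
    have h2 := congrFun (congrFun (h1 i) i) j
    unfold br at h2
    rw [Matrix.sub_apply, E_mul, mul_E, if_pos rfl, if_neg (fun h => hij h.symm), sub_zero] at h2
    exact h2
  have hmid : ∀ i j, i ≠ o → i ≠ l → j ≠ o → j ≠ l → a i i = a j j := by
    intro i j h2 h3 h4 h5
    by_cases hij : i = j
    · rw [hij]
    have h6 := heq (E i j) (E o l) (E l o)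
    rw [brE, brE, if_neg h4, if_neg (fun h => h3 h.symm), if_neg h5, if_neg (fun h => h2 h.symm)] at h6
    simp only [sub_zero, map_zero, LinearMap.zero_apply, add_zero] at h6
    have h7 := congrFun (congrFun h6 i) j
    unfold br at h7
    rw [← ha, Matrix.sub_apply, E_mul, mul_E, if_pos rfl, if_pos rfl, Matrix.zero_apply] at h7
    exact (sub_eq_zero.1 h7).symm
  -- `S e e = 0`
  have hh : br (E o l) (E l o) = E o o - E l l := by
    rw [brE, if_pos rfl, if_pos rfl]
  have hee : S (E o l) (E o l) = 0 := by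
    set s := S (E o l) (E o l) with hs
    have h2 : br (E o o - E l l) (E o l) = (2 : ℂ) • E o l := by
      unfold br
      rw [sub_mul, mul_sub, EE, EE, EE, EE, if_pos rfl, if_neg hlo, if_pos rfl]
      rw [if_neg hlo]
      module
    have h3 := heq (E o o - E l l) (E o l) (E o l)
    rw [h2, map_smul, LinearMap.smul_apply, map_smul, ← hs] at h3
    ext p q
    have h4 := congrFun (congrFun h3 p) q
    unfold br at h4
    rw [sub_mul, mul_sub, Matrix.sub_apply, Matrix.sub_apply, Matrix.sub_apply, E_mul, E_mul,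
      mul_E, mul_E, Matrix.add_apply, Matrix.smul_apply, smul_eq_mul] at h4
    rw [Matrix.zero_apply]
    by_cases hpo : p = o
    · subst hpo
      rw [if_pos rfl, if_neg hol] at h4
      by_cases hqo : q = p
      · subst hqo
        rw [if_pos rfl, if_neg hol] at h4
        linear_combination (-1 / 4 : ℂ) * h4
      · rw [if_neg hqo] at h4
        by_cases hql : q = l
        · subst hql
          rw [if_pos rfl] at h4
          linear_combination (-1 / 2 : ℂ) * h4
        · rw [if_neg hql] at h4
          linear_combination (-1 / 3 : ℂ) * h4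
    · by_cases hpl : p = l
      · subst hpl
        rw [if_neg hpo, if_pos rfl] at h4
        by_cases hqo : q = o
        · subst hqo
          rw [if_pos rfl, if_neg hol] at h4
          linear_combination (-1 / 6 : ℂ) * h4
        · rw [if_neg hqo] at h4
          by_cases hql : q = p
          · subst hql
            rw [if_pos rfl] at h4
            linear_combination (-1 / 4 : ℂ) * h4
          · rw [if_neg hql] at h4
            linear_combination (-1 / 5 : ℂ) * h4
      · rw [if_neg hpo, if_neg hpl] at h4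
        by_cases hqo : q = o
        · subst hqo
          rw [if_pos rfl, if_neg hol] at h4
          linear_combination (-1 / 5 : ℂ) * h4
        · rw [if_neg hqo] at h4
          by_cases hql : q = l
          · subst hql
            rw [if_pos rfl] at h4
            linear_combination (-1 / 3 : ℂ) * h4
          · rw [if_neg hql] at h4
            linear_combination (-1 / 4 : ℂ) * h4
  have heh : S (E o l) (E o o - E l l) = 0 := by
    have h2 := heq (E l o) (E o l) (E o l)
    have h3 : br (E l o) (E o l) = -(E o o - E l l) := by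
      rw [brE, if_pos rfl, if_pos rfl]
      abel
    rw [hee, h3, hsym (-(E o o - E l l)) (E o l), map_neg] at h2
    have h4 : br (E l o) (0 : MM d) = 0 := by simp [br]
    rw [h4] at h2
    have h5 : (2 : ℂ) • S (E o l) (E o o - E l l) = 0 := by
      rw [two_smul]
      have h6 := congrArg Neg.neg h2
      rw [neg_zero, neg_add, neg_neg] at h6
      exact h6.symm
    exact (smul_eq_zero.1 h5).resolve_left (by norm_num)
  have hol' : a o o = a l l := by
    have h2 := heq (E o l) (E o l) (E l o)
    rw [hh, heh] at h2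
    have h3 : br (E o l) (E o l : MM d) = 0 := by simp [br]
    rw [h3, map_zero, LinearMap.zero_apply, add_zero, ← ha] at h2
    have h7 := congrFun (congrFun h2 o) l
    unfold br at h7
    rw [Matrix.sub_apply, E_mul, mul_E, if_pos rfl, if_pos rfl, Matrix.zero_apply] at h7
    exact (sub_eq_zero.1 h7).symm
  have htra : a.trace = 0 := by
    apply htr
    · rw [trE, if_neg hol]
    · rw [trE, if_neg hlo]
  -- a middle index
  obtain ⟨m, hm1, hm2⟩ : ∃ m : Fin d, m ≠ o ∧ m ≠ l := by
    by_contra hcon
    push Not at hcon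
    have h2 : (Finset.univ : Finset (Fin d)) ⊆ {o, l} := by
      intro x _
      rw [Finset.mem_insert, Finset.mem_singleton]
      by_cases hx : x = o
      · exact Or.inl hx
      · exact Or.inr (hcon x hx)
    have h3 := Finset.card_le_card h2
    rw [Finset.card_univ, Fintype.card_fin] at h3
    have h4 := Finset.card_le_two (a := o) (b := l)
    omega
  have hsum : 2 * a o o + ((d : ℂ) - 2) * a m m = 0 := by
    have h2 : a.trace = ∑ i, a i i := rfl
    have h3 : ∀ i, a i i = (if i = o then a o o - a m m else 0) +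
        (if i = l then a o o - a m m else 0) + a m m := by
      intro i
      by_cases hio : i = o
      · subst hio
        rw [if_pos rfl, if_neg hol]
        ring
      · by_cases hil : i = l
        · subst hil
          rw [if_neg hio, if_pos rfl, hol']
          ring
        · rw [if_neg hio, if_neg hil, hmid i m hio hil hm1 hm2]
          ring
    rw [h2, Finset.sum_congr rfl fun i _ => h3 i, Finset.sum_add_distrib,
      Finset.sum_add_distrib, Finset.sum_ite_eq', Finset.sum_ite_eq', if_pos (Finset.mem_univ _),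
      if_pos (Finset.mem_univ _), Finset.sum_const, Finset.card_univ, Fintype.card_fin,
      nsmul_eq_mul] at htra
    linear_combination htra
  refine ⟨-((d : ℂ) / 2) * a m m, ?_⟩
  have hjo : jo (E o l) (E l o) = E o o + E l l - (2 / (d : ℂ)) • (1 : MM d) := by
    unfold jo
    rw [EE, EE, if_pos rfl, if_pos rfl, trE, if_pos rfl, mul_one]
  rw [hjo]
  ext p q
  rw [Matrix.smul_apply, Matrix.sub_apply, Matrix.add_apply, Matrix.smul_apply, Matrix.one_apply,
    smul_eq_mul, smul_eq_mul]
  have hE : ∀ i, (E i i : MM d) p q = if i = p ∧ i = q then 1 else 0 := by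
    intro i
    unfold E
    rw [Matrix.single_apply]
  rw [hE, hE]
  by_cases hpq : p = q
  · subst hpq
    rw [if_pos rfl]
    by_cases hpo : p = o
    · subst hpo
      rw [if_pos ⟨rfl, rfl⟩, if_neg (fun h => hlo h.1)]
      field_simp
      linear_combination hsum
    · by_cases hpl : p = l
      · subst hpl
        rw [if_neg (fun h => hol h.1), if_pos ⟨rfl, rfl⟩, ← hol']
        field_simp
        linear_combination hsum
      · rw [if_neg (fun h => hpo h.1.symm), if_neg (fun h => hpl h.1.symm),
          hmid p m hpo hpl hm1 hm2]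
        field_simp
        ring
  · rw [hdiag p q hpq, if_neg hpq, if_neg (fun h => hpq (h.1.symm.trans h.2)),
      if_neg (fun h => hpq (h.1.symm.trans h.2))]
    ring

/-! ## The symmetric product -/

lemma jo_sym (X Y : MM d) : jo X Y = jo Y X := by
  unfold jo
  rw [Matrix.trace_mul_comm X Y, add_comm (X * Y)]

/-- the symmetric product as a bilinear map -/
noncomputable def joL : MM d →ₗ[ℂ] MM d →ₗ[ℂ] MM d :=
  LinearMap.mk₂ ℂ jo
    (by
      intro X X' Y
      unfold jo
      rw [add_mul, mul_add, Matrix.trace_add]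
      module)
    (by
      intro a X Y
      unfold jo
      rw [smul_mul_assoc, mul_smul_comm, Matrix.trace_smul, smul_eq_mul]
      module)
    (by
      intro X Y Y'
      unfold jo
      rw [add_mul, mul_add, Matrix.trace_add]
      module)
    (by
      intro a X Y
      unfold jo
      rw [smul_mul_assoc, mul_smul_comm, Matrix.trace_smul, smul_eq_mul]
      module)

lemma joL_apply (X Y : MM d) : joL X Y = jo X Y := rfl

lemma jo_equiv (Z X Y : MM d) : br Z (jo X Y) = jo (br Z X) Y + jo X (br Z Y) := by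
  have h1 : (br Z X * Y).trace + (X * br Z Y).trace = 0 := by
    unfold br
    rw [sub_mul, mul_sub, Matrix.trace_sub, Matrix.trace_sub, ← mul_assoc X Y Z,
      Matrix.trace_mul_comm (X * Y) Z, mul_assoc Z X Y, ← mul_assoc X Z Y]
    ring
  have h2 : ((2 / (d : ℂ)) * (br Z X * Y).trace) • (1 : MM d)
      = -(((2 / (d : ℂ)) * (X * br Z Y).trace) • (1 : MM d)) := by
    rw [← neg_smul]
    congr 1
    linear_combination (2 / (d : ℂ)) * h1
  unfold jo
  rw [h2]
  unfold br
  simp only [sub_mul, mul_sub, add_mul, mul_add, smul_mul_assoc, mul_smul_comm, one_mul, mul_one,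
    mul_assoc]
  abel

/-- associator -/
lemma jo_assoc (X Y W : MM d) (hX : X.trace = 0) (hW : W.trace = 0) :
    jo (jo X Y) W - jo X (jo Y W) = br Y (br X W) -
      (4 / (d : ℂ)) • ((X * Y).trace • W - (Y * W).trace • X) := by
  have h1 : (jo X Y * W).trace = (X * (Y * W)).trace + (Y * (X * W)).trace := by
    unfold jo
    rw [sub_mul, add_mul, smul_mul_assoc, one_mul, Matrix.trace_sub, Matrix.trace_add,
      Matrix.trace_smul, hW, smul_zero, sub_zero, mul_assoc, mul_assoc]
  have h2 : (X * jo Y W).trace = (X * (Y * W)).trace + (Y * (X * W)).trace := by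
    unfold jo
    rw [mul_sub, mul_add, mul_smul_comm, mul_one, Matrix.trace_sub, Matrix.trace_add,
      Matrix.trace_smul, hX, smul_zero, sub_zero, ← mul_assoc X W Y,
      Matrix.trace_mul_comm (X * W) Y]
  rw [show jo (jo X Y) W = jo X Y * W + W * jo X Y - ((2 / (d : ℂ)) * (jo X Y * W).trace) •
    (1 : MM d) from rfl, show jo X (jo Y W) = X * jo Y W + jo Y W * X -
    ((2 / (d : ℂ)) * (X * jo Y W).trace) • (1 : MM d) from rfl, h1, h2]
  unfold jo br
  simp only [sub_mul, mul_sub, add_mul, mul_add, smul_mul_assoc, mul_smul_comm, one_mul, mul_one,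
    mul_assoc]
  module

/-! ## The main argument -/

lemma sq_eq_one_iff_eq_one_or_neg (c : ℂ) (hc : c ^ 2 = 1) : c = 1 ∨ c = -1 := by
  have h : (c - 1) * (c + 1) = 0 := by linear_combination hc
  rcases mul_eq_zero.1 h with h | h
  · exact Or.inl (sub_eq_zero.1 h)
  · exact Or.inr (eq_neg_of_add_eq_zero_left h)

/-- a trace preserving automorphism of the Lie algebra of all matrices is, on `sl_d`, multiplicative
up to a sign for the symmetric product -/
lemma main (hd : 3 ≤ d) (T : MM d ≃ₗ[ℂ] MM d) (htr : ∀ X, (T X).trace = X.trace)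
    (hbr : ∀ X Y, T (br X Y) = br (T X) (T Y)) :
    ∃ c : ℂ, (c = 1 ∨ c = -1) ∧ (∀ X Y, X.trace = 0 → Y.trace = 0 → jo (T X) (T Y) = c • T (jo X Y)) ∧
      ∀ X Y, X.trace = 0 → Y.trace = 0 → (T X * T Y).trace = (X * Y).trace := by
  have hd0 : (d : ℂ) ≠ 0 := by
    have : d ≠ 0 := by omega
    exact_mod_cast this
  have hh3 : ∀ i j : Fin d, ∃ k, k ≠ i ∧ k ≠ j := by
    intro i j
    by_contra hcon
    push Not at hcon
    have h2 : (Finset.univ : Finset (Fin d)) ⊆ {i, j} := by
      intro x _
      rw [Finset.mem_insert, Finset.mem_singleton]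
      by_cases hx : x = i
      · exact Or.inl hx
      · exact Or.inr (hcon x hx)
    have h3 := Finset.card_le_card h2
    rw [Finset.card_univ, Fintype.card_fin] at h3
    have h4 := Finset.card_le_two (a := i) (b := j)
    omega
  set o : Fin d := ⟨0, by omega⟩ with ho
  set m : Fin d := ⟨1, by omega⟩ with hm
  set l : Fin d := ⟨2, by omega⟩ with hl
  have hom : o ≠ m := by
    intro h
    have := congrArg Fin.val h
    simp [ho, hm] at this
  have hol : o ≠ l := by
    intro h
    have := congrArg Fin.val h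
    simp [ho, hl] at this
  have hml : m ≠ l := by
    intro h
    have := congrArg Fin.val h
    simp [hm, hl] at this
  -- the transported product
  set S : MM d →ₗ[ℂ] MM d →ₗ[ℂ] MM d :=
    (joL.compl₁₂ T.toLinearMap T.toLinearMap).compr₂ T.symm.toLinearMap with hS
  have hSa : ∀ X Y, S X Y = T.symm (jo (T X) (T Y)) := fun X Y => rfl
  have hsymbr : ∀ X Y, T.symm (br X Y) = br (T.symm X) (T.symm Y) := by
    intro X Y
    apply T.injective
    rw [hbr, T.apply_symm_apply, T.apply_symm_apply, T.apply_symm_apply]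
  have hSeq : ∀ Z X Y, br Z (S X Y) = S (br Z X) Y + S X (br Z Y) := by
    intro Z X Y
    rw [hSa, hSa, hSa, hbr, hbr, ← map_add, ← jo_equiv, hsymbr, T.symm_apply_apply]
  have hSs : ∀ X Y, S X Y = S Y X := fun X Y => by rw [hSa, hSa, jo_sym]
  have htrs : ∀ X, (T.symm X).trace = X.trace := by
    intro X
    rw [← htr (T.symm X), T.apply_symm_apply]
  have hjt : ∀ X Y : MM d, (jo X Y).trace = 0 := by
    intro X Y
    unfold jo
    rw [Matrix.trace_sub, Matrix.trace_add, Matrix.trace_smul, Matrix.trace_one, Fintype.card_fin,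
      smul_eq_mul, Matrix.trace_mul_comm Y X]
    field_simp
    ring
  have hSt : ∀ X Y, X.trace = 0 → Y.trace = 0 → (S X Y).trace = 0 := by
    intro X Y _ _
    rw [hSa, htrs, hjt]
  obtain ⟨c, hc⟩ := exists_c hd S hSeq hSs hSt o l hol
  have hB := uniq (S - c • joL) (by
    intro Z X Y
    simp only [LinearMap.sub_apply, LinearMap.smul_apply, joL_apply]
    have h1 := hSeq Z X Y
    have h2 := jo_equiv Z X Y
    have h3 : br Z (S X Y - c • jo X Y) = br Z (S X Y) - c • br Z (jo X Y) := by
      unfold br
      rw [mul_sub, sub_mul, mul_smul_comm, smul_mul_assoc]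
      module
    rw [h3, h1, h2]
    module) o l hol hh3 (by
    simp only [LinearMap.sub_apply, LinearMap.smul_apply, joL_apply]
    rw [hc, sub_self])
  have hT : ∀ X Y, X.trace = 0 → Y.trace = 0 → jo (T X) (T Y) = c • T (jo X Y) := by
    intro X Y hX hY
    have h1 := hB X Y hX hY
    simp only [LinearMap.sub_apply, LinearMap.smul_apply, joL_apply] at h1
    have h2 : S X Y = c • jo X Y := sub_eq_zero.1 h1
    rw [hSa] at h2
    rw [← map_smul, ← h2, T.apply_symm_apply]
  -- the associator
  have hA : ∀ X Y W, X.trace = 0 → Y.trace = 0 → W.trace = 0 →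
      (c ^ 2 - 1) • br Y (br X W) = (4 / (d : ℂ)) •
        ((c ^ 2 * (X * Y).trace - (T X * T Y).trace) • W
          - (c ^ 2 * (Y * W).trace - (T Y * T W).trace) • X) := by
    intro X Y W hX hY hW
    have h1 := jo_assoc (T X) (T Y) (T W) (by rw [htr, hX]) (by rw [htr, hW])
    have h2 := jo_assoc X Y W hX hW
    have h3 : jo (jo (T X) (T Y)) (T W) = (c ^ 2) • T (jo (jo X Y) W) := by
      rw [hT X Y hX hY]
      have h4 : jo (c • T (jo X Y)) (T W) = c • jo (T (jo X Y)) (T W) := by
        rw [← joL_apply, map_smul, LinearMap.smul_apply, joL_apply]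
      rw [h4, hT _ _ (hjt X Y) hW, smul_smul, sq]
    have h5 : jo (T X) (jo (T Y) (T W)) = (c ^ 2) • T (jo X (jo Y W)) := by
      rw [hT Y W hY hW]
      have h4 : jo (T X) (c • T (jo Y W)) = c • jo (T X) (T (jo Y W)) := by
        rw [← joL_apply, map_smul, joL_apply]
      rw [h4, hT _ _ hX (hjt Y W), smul_smul, sq]
    rw [h3, h5, ← smul_sub, ← map_sub, h2, ← hbr, ← hbr] at h1
    apply T.injective
    rw [map_sub, map_smul, map_sub, map_smul, map_smul] at h1
    rw [map_smul, map_smul, map_sub, map_smul, map_smul]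
    have h6 : c ^ 2 • (T (br Y (br X W)) - (4 / (d : ℂ)) • ((X * Y).trace • T W - (Y * W).trace • T X))
        - (T (br Y (br X W)) - (4 / (d : ℂ)) • ((T X * T Y).trace • T W - (T Y * T W).trace • T X))
        = 0 := by rw [h1, sub_self]
    rw [← sub_eq_zero, ← h6]
    module
  have hc2 : c ^ 2 = 1 := by
    have h1 := hA (E o m) (E l o) (E m l) (by rw [trE, if_neg hom]) (by rw [trE, if_neg hol.symm])
      (by rw [trE, if_neg hml])
    have h2 : br (E l o) (br (E o m) (E m l)) = E l l - E o o := by
      rw [brE, if_pos rfl, if_neg hol.symm, sub_zero, brE, if_pos rfl, if_pos rfl]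
    rw [h2] at h1
    have h3 := congrFun (congrFun h1 l) l
    have h4 : ∀ i j, (E i j : MM d) l l = if i = l ∧ j = l then 1 else 0 := by
      intro i j
      unfold E
      rw [Matrix.single_apply]
    rw [Matrix.smul_apply, Matrix.sub_apply, Matrix.smul_apply, Matrix.sub_apply,
      Matrix.smul_apply, Matrix.smul_apply, h4, h4, h4, h4, if_pos ⟨rfl, rfl⟩,
      if_neg (fun h => hol h.1), if_neg (fun h => hml h.1), if_neg (fun h => hol h.1)] at h3
    simp only [smul_eq_mul, sub_zero, mul_one, mul_zero] at h3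
    linear_combination h3
  refine ⟨c, (sq_eq_one_iff_eq_one_or_neg c hc2), hT, ?_⟩
  intro X Y hX hY
  by_contra hne
  set t : ℂ := (X * Y).trace - (T X * T Y).trace with ht
  have ht0 : t ≠ 0 := fun h => hne (sub_eq_zero.1 h).symm
  have hW : ∀ W : MM d, W.trace = 0 → ∃ s : ℂ, W = s • X := by
    intro W hW
    have h1 := hA X Y W hX hY hW
    rw [hc2, sub_self, zero_smul, one_mul, one_mul, ← ht] at h1
    have h2 : t • W - ((Y * W).trace - (T Y * T W).trace) • X = 0 := by
      rcases smul_eq_zero.1 h1.symm with h3 | h3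
      · exfalso
        have : (4 : ℂ) / (d : ℂ) ≠ 0 := div_ne_zero (by norm_num) hd0
        exact this h3
      · exact h3
    refine ⟨t⁻¹ * ((Y * W).trace - (T Y * T W).trace), ?_⟩
    rw [← smul_smul, ← sub_eq_zero.1 h2, smul_smul, inv_mul_cancel₀ ht0, one_smul]
  obtain ⟨s, hs⟩ := hW (E o m) (by rw [trE, if_neg hom])
  obtain ⟨s', hs'⟩ := hW (E o l) (by rw [trE, if_neg hol])
  have h4 : ∀ i j p q, (E i j : MM d) p q = if i = p ∧ j = q then 1 else 0 := by
    intro i j p q
    unfold E
    rw [Matrix.single_apply]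
  have a1 := congrFun (congrFun hs o) m
  have a2 := congrFun (congrFun hs o) l
  have a3 := congrFun (congrFun hs' o) l
  rw [h4, Matrix.smul_apply, smul_eq_mul, if_pos ⟨rfl, rfl⟩] at a1
  rw [h4, Matrix.smul_apply, smul_eq_mul, if_neg (fun h => hml h.2)] at a2
  rw [h4, Matrix.smul_apply, smul_eq_mul, if_pos ⟨rfl, rfl⟩] at a3
  rcases mul_eq_zero.1 a2.symm with h | h
  · rw [h, zero_mul] at a1
    exact one_ne_zero a1
  · rw [h, mul_zero] at a3
    exact one_ne_zero a3

end AutM

open AutM in
theorem specMAut : SpecMAut := by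
  intro d hd th h1 h2 h3
  have hd0 : (d : ℂ) ≠ 0 := by
    have : d ≠ 0 := by omega
    exact_mod_cast this
  -- the part of trace zero
  set z : MM d →ₗ[ℂ] MM d := LinearMap.id - ((Matrix.traceLinearMap (Fin d) ℂ ℂ).smulRight
    ((d : ℂ)⁻¹ • (1 : MM d))) with hz
  have hza : ∀ X : MM d, z X = X - X.trace • ((d : ℂ)⁻¹ • (1 : MM d)) := fun X => rfl
  have hzt : ∀ X : MM d, (z X).trace = 0 := by
    intro X
    rw [hza, Matrix.trace_sub, Matrix.trace_smul, Matrix.trace_smul, Matrix.trace_one,
      Fintype.card_fin, smul_eq_mul, smul_eq_mul]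
    field_simp
    ring
  have hz0 : ∀ X : MM d, X.trace = 0 → z X = X := by
    intro X hX
    rw [hza, hX, zero_smul, sub_zero]
  set T0 : MM d →ₗ[ℂ] MM d := th ∘ₗ z + ((Matrix.traceLinearMap (Fin d) ℂ ℂ).smulRight
    ((d : ℂ)⁻¹ • (1 : MM d))) with hT0
  have hT0a : ∀ X : MM d, T0 X = th (z X) + X.trace • ((d : ℂ)⁻¹ • (1 : MM d)) := fun X => rfl
  have hT0t : ∀ X : MM d, (T0 X).trace = X.trace := by
    intro X
    rw [hT0a, Matrix.trace_add, h1 _ (hzt X), Matrix.trace_smul, Matrix.trace_smul,
      Matrix.trace_one, Fintype.card_fin, smul_eq_mul, smul_eq_mul, zero_add,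
      inv_mul_cancel₀ hd0, mul_one]
  have hT00 : ∀ X : MM d, X.trace = 0 → T0 X = th X := by
    intro X hX
    rw [hT0a, hz0 X hX, hX, zero_smul, add_zero]
  have hinj : Function.Injective T0 := by
    rw [injective_iff_map_eq_zero]
    intro X hX
    have h4 : X.trace = 0 := by
      rw [← hT0t, hX, Matrix.trace_zero]
    rw [hT00 X h4] at hX
    exact h2 X h4 hX
  set T : MM d ≃ₗ[ℂ] MM d := LinearEquiv.ofInjectiveEndo T0 hinj with hT
  have hTa : ∀ X, T X = T0 X := fun X => rfl
  have hbrt : ∀ X Y : MM d, (br X Y).trace = 0 := by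
    intro X Y
    unfold br
    rw [Matrix.trace_sub, Matrix.trace_mul_comm, sub_self]
  have hbrz : ∀ X Y : MM d, br X Y = br (z X) (z Y) := by
    intro X Y
    rw [hza, hza]
    unfold br
    simp only [sub_mul, mul_sub, smul_mul_assoc, mul_smul_comm, one_mul, mul_one]
    module
  have hbr : ∀ X Y, T (br X Y) = br (T X) (T Y) := by
    intro X Y
    rw [hTa, hTa, hTa, hT00 _ (hbrt X Y), hbrz X Y]
    have h4 := h3 (z X) (z Y) (hzt X) (hzt Y)
    have h5 : th (br (z X) (z Y)) = br (th (z X)) (th (z Y)) := h4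
    rw [h5, hT0a, hT0a]
    unfold br
    simp only [add_mul, mul_add, smul_mul_assoc, mul_smul_comm, one_mul, mul_one]
    module
  obtain ⟨c, hc, hm1, hm2⟩ := main hd T (fun X => by rw [hTa, hT0t]) hbr
  refine ⟨c, hc, fun X hX => ?_⟩
  have hTX : T X = th X := by rw [hTa, hT00 X hX]
  constructor
  · have h4 := hm2 X X hX hX
    rw [hTX] at h4
    rw [sq, sq]
    exact h4
  · have h4 := hm1 X X hX hX
    rw [hTX] at h4
    have hjt : ∀ X Y : MM d, (jo X Y).trace = 0 := by
      intro X Y
      unfold jo
      rw [Matrix.trace_sub, Matrix.trace_add, Matrix.trace_smul, Matrix.trace_one, Fintype.card_fin,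
        smul_eq_mul, Matrix.trace_mul_comm Y X]
      field_simp
      ring
    have h5 := hm2 X (jo X X) hX (hjt X X)
    rw [hTX] at h5
    have h6 : ∀ Y : MM d, Y.trace = 0 → (Y * jo Y Y).trace = 2 * (Y ^ 3).trace := by
      intro Y hY
      unfold jo
      rw [mul_sub, mul_add, mul_smul_comm, mul_one, Matrix.trace_sub, Matrix.trace_add,
        Matrix.trace_smul, hY, smul_zero, sub_zero, show Y * (Y * Y) = Y ^ 3 by rw [pow_succ', sq]]
      ring
    have h7 := h6 X hX
    have h8 := h6 (th X) (h1 X hX)
    rw [h4, mul_smul_comm, Matrix.trace_smul, h5, h7, smul_eq_mul] at h8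
    linear_combination (-1 / 2 : ℂ) * h8

end Pool.Agent.Lib.MPf11a48.KM
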