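import Pool.Agent.Lib.MP_f11a48_ag.KM.SpecA
import Pool.Agent.Lib.MP_f11a48_ag.K3.KFull3

/-! # Families of Kuga-Satake pairs: the image of an infinitesimal isometry -/

set_option autoImplicit false
set_option linter.unusedSectionVars false

namespace Pool.Agent.Lib.MPf11a48.KM

open Matrix MvPolynomial Pool.Agent.Lib.MPf11a48.Tors
open Pool.Agent.Lib.MPf11a48.CM hiding OmegaM
open Pool.Agent.Lib.MPf11a48.GL2 (lie Geo)
open Pool.Agent.Lib.MPf11a48.GL2T (IsAlg)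
open Pool.Agent.Lib.MPf11a48.U (AbData Ix HD EndAlg)
open Pool.Agent.Lib.MPf11a48.K3 Pool.Agent.Lib.MPf11a48.KU
open KLieM (bl clC gam)

namespace ClbM

open KLieM KRatM KFull3M

variable (D : Dat)

theorem cx_prj (i : D.I) :
    cx (prj D.ix i) = diagonal fun a => if D.ix a = i then (1 : ℂ) else 0 := by
  ext a b
  by_cases h : a = b
  · subst h
    simp only [cx, prj, Matrix.map_apply, Matrix.diagonal_apply_eq]
    split_ifs <;> simp
  · simp [cx, prj, Matrix.map_apply, Matrix.diagonal_apply_ne _ h]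

/-- matrices which commute with the projections are block diagonal -/
theorem zero_of_comm {ρ : Matrix (Fin D.n) (Fin D.n) ℂ}
    (h : ∀ i, ρ * cx (prj D.ix i) = cx (prj D.ix i) * ρ) {a b : Fin D.n}
    (hab : D.ix a ≠ D.ix b) : ρ a b = 0 := by
  have h1 := congrFun (congrFun (h (D.ix a)) a) b
  rw [cx_prj, Matrix.mul_diagonal, Matrix.diagonal_mul, if_pos rfl, if_neg (Ne.symm hab), mul_zero,
    one_mul] at h1
  exact h1.symm

theorem q_comm (i : D.I) : D.qB * prj D.ix i = prj D.ix i * D.qB := by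
  ext a b
  rw [prj, Matrix.mul_diagonal, Matrix.diagonal_mul]
  by_cases h : D.ix a = D.ix b
  · rw [h, mul_comm]
  · rw [D.ks.orth a b h, zero_mul, mul_zero]

theorem qinv_comm (i : D.I) : D.qB⁻¹ * prj D.ix i = prj D.ix i * D.qB⁻¹ := by
  have h1 : D.qB * D.qB⁻¹ = 1 := Matrix.mul_nonsing_inv _ (isUnit_iff_ne_zero.2 D.ks.det)
  have h2 : D.qB⁻¹ * D.qB = 1 := Matrix.nonsing_inv_mul _ (isUnit_iff_ne_zero.2 D.ks.det)
  calc D.qB⁻¹ * prj D.ix i = D.qB⁻¹ * (prj D.ix i * D.qB) * D.qB⁻¹ := by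
        rw [Matrix.mul_assoc, Matrix.mul_assoc, h1, Matrix.mul_one]
    _ = (D.qB⁻¹ * D.qB) * prj D.ix i * D.qB⁻¹ := by
        rw [← q_comm, ← Matrix.mul_assoc D.qB⁻¹]
    _ = prj D.ix i * D.qB⁻¹ := by rw [h2, Matrix.one_mul]

/-- the quadratic form of an infinitesimal isometry is block diagonal -/
theorem R_zero {ρ : Matrix (Fin D.n) (Fin D.n) ℂ} (hρ : ρ ∈ D.so) {a b : Fin D.n}
    (hab : D.ix a ≠ D.ix b) : (ρ * cx D.qB⁻¹) a b = 0 := by
  refine zero_of_comm D (fun i => ?_) hab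
  rw [Matrix.mul_assoc, ← cx_mul, qinv_comm, cx_mul, ← Matrix.mul_assoc,
    hρ.2 _ (D.ks.proj i), Matrix.mul_assoc]

theorem R_skew {ρ : Matrix (Fin D.n) (Fin D.n) ℂ} (hρ : ρ ∈ D.so) :
    (ρ * cx D.qB⁻¹)ᵀ = -(ρ * cx D.qB⁻¹) := by
  have h3 : (cx D.qB⁻¹)ᵀ = cx D.qB⁻¹ := by
    have h4 : (D.qB⁻¹)ᵀ = D.qB⁻¹ := by rw [Matrix.transpose_nonsing_inv, D.ks.symm]
    conv_rhs => rw [← h4]
    rfl
  rw [Matrix.transpose_mul, h3, q_inv_skew D.ks.det hρ.1]

theorem cliff (a b : Fin D.n) : cx (D.B a) * cx (D.B b) + cx (D.B b) * cx (D.B a) =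
    (2 * (D.qB a b : ℂ)) • D.pc (D.ix a) := by
  rw [← cx_mul, ← cx_mul, ← cx_add, D.ks.clifford, cx_smul, Dat.pc]
  push_cast
  rfl

theorem pc_mul (i j : D.I) : D.pc i * D.pc j = if i = j then D.pc i else 0 := by
  rw [Dat.pc, Dat.pc, ← cx_mul, D.ks.mul]
  split_ifs
  · rfl
  · exact cx_zero

theorem pc_B (a : Fin D.n) : D.pc (D.ix a) * cx (D.B a) = cx (D.B a) := by
  rw [Dat.pc, ← cx_mul, D.ks.left]

theorem B_pc (a : Fin D.n) : cx (D.B a) * D.pc (D.ix a) = cx (D.B a) := by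
  rw [Dat.pc, ← cx_mul, D.ks.right]

theorem pc_B' (i : D.I) (a : Fin D.n) :
    D.pc i * cx (D.B a) = if i = D.ix a then cx (D.B a) else 0 := by
  by_cases h : i = D.ix a
  · rw [if_pos h, h, pc_B]
  · rw [if_neg h, ← pc_B, ← Matrix.mul_assoc, pc_mul, if_neg h, Matrix.zero_mul]

theorem B_pc' (i : D.I) (a : Fin D.n) :
    cx (D.B a) * D.pc i = if i = D.ix a then cx (D.B a) else 0 := by
  by_cases h : i = D.ix a
  · rw [if_pos h, h, B_pc]
  · rw [if_neg h, ← B_pc, Matrix.mul_assoc, pc_mul, if_neg (Ne.symm h), Matrix.mul_zero]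

/-- the commutator of a product of two Clifford operators and a Clifford operator -/
theorem br3 {i j : Fin D.n} (h : D.ix i = D.ix j) (k : Fin D.n) :
    cx (D.B i) * cx (D.B j) * cx (D.B k) - cx (D.B k) * (cx (D.B i) * cx (D.B j)) =
      (2 * (D.qB j k : ℂ)) • cx (D.B i) - (2 * (D.qB i k : ℂ)) • cx (D.B j) := by
  have e1 : cx (D.B i) * cx (D.B j) * cx (D.B k) - cx (D.B k) * (cx (D.B i) * cx (D.B j)) =
      cx (D.B i) * (cx (D.B j) * cx (D.B k) + cx (D.B k) * cx (D.B j)) -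
        (cx (D.B i) * cx (D.B k) + cx (D.B k) * cx (D.B i)) * cx (D.B j) := by noncomm_ring
  rw [e1, cliff, cliff, Matrix.mul_smul, Matrix.smul_mul, ← h, B_pc, h, pc_B]

theorem cl_B {ρ : Matrix (Fin D.n) (Fin D.n) ℂ} (hρ : ρ ∈ D.so) (k : Fin D.n) :
    D.cl ρ * cx (D.B k) - cx (D.B k) * D.cl ρ = ∑ i, ρ i k • cx (D.B i) := by
  obtain ⟨h1, h2⟩ := q_inv D.ks.det
  have hRt := R_skew D hρ
  have hR0 := fun a b => R_zero D hρ (a := a) (b := b)
  set R : Matrix (Fin D.n) (Fin D.n) ℂ := ρ * cx D.qB⁻¹ with hR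
  have hRq : R * cx D.qB = ρ := by rw [hR, Matrix.mul_assoc, h2, Matrix.mul_one]
  have h4 : clC D.B D.qB ρ * cx (D.B k) - cx (D.B k) * clC D.B D.qB ρ =
      ∑ i, ∑ j, R i j • ((2 * (D.qB j k : ℂ)) • cx (D.B i) -
        (2 * (D.qB i k : ℂ)) • cx (D.B j)) := by
    simp only [clC, ← hR, Finset.mul_sum, Finset.sum_mul, ← Finset.sum_sub_distrib,
      Matrix.mul_smul, Matrix.smul_mul, ← smul_sub]
    refine Finset.sum_congr rfl fun i _ => Finset.sum_congr rfl fun j _ => ?_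
    by_cases h : D.ix i = D.ix j
    · rw [br3 D h]
    · rw [hR0 i j h, zero_smul, zero_smul]
  have h5 : ∑ i, ∑ j, R i j • ((2 * (D.qB j k : ℂ)) • cx (D.B i) -
      (2 * (D.qB i k : ℂ)) • cx (D.B j)) =
      ∑ i, ((2 : ℂ) * (R * cx D.qB) i k) • cx (D.B i) -
        ∑ i, ((2 : ℂ) * (Rᵀ * cx D.qB) i k) • cx (D.B i) := by
    simp only [smul_sub, Finset.sum_sub_distrib, smul_smul]
    congr 1
    · refine Finset.sum_congr rfl fun i _ => ?_
      rw [← Finset.sum_smul, Matrix.mul_apply, Finset.mul_sum]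
      congr 1
      refine Finset.sum_congr rfl fun j _ => ?_
      change R i j * (2 * (D.qB j k : ℂ)) = 2 * (R i j * (D.qB j k : ℂ))
      ring
    · rw [Finset.sum_comm]
      refine Finset.sum_congr rfl fun j _ => ?_
      rw [← Finset.sum_smul, Matrix.mul_apply, Finset.mul_sum]
      congr 1
      refine Finset.sum_congr rfl fun i _ => ?_
      change R i j * (2 * (D.qB i k : ℂ)) = 2 * (R i j * (D.qB i k : ℂ))
      ring
  rw [Dat.cl, Matrix.smul_mul, Matrix.mul_smul, ← smul_sub, h4, h5, hRt, Matrix.neg_mul, hRq,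
    ← Finset.sum_sub_distrib, Finset.smul_sum]
  refine Finset.sum_congr rfl fun i _ => ?_
  rw [← sub_smul, smul_smul, Matrix.neg_apply]
  congr 1
  ring

theorem cl_br {ρ ρ' : Matrix (Fin D.n) (Fin D.n) ℂ} (hρ : ρ ∈ D.so) :
    D.cl ρ * D.cl ρ' - D.cl ρ' * D.cl ρ = D.cl (ρ * ρ' - ρ' * ρ) := by
  have h1 : D.cl ρ * clC D.B D.qB ρ' - clC D.B D.qB ρ' * D.cl ρ =
      clC D.B D.qB (ρ * ρ' - ρ' * ρ) := by
    rw [clC_eq ρ', qd_der (fun i => cx (D.B i)) (cl_B D hρ), clC_eq]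
    congr 1
    rw [Matrix.mul_assoc ρ', q_inv_skew D.ks.det hρ.1, Matrix.mul_neg, Matrix.sub_mul,
      Matrix.mul_assoc ρ, Matrix.mul_assoc ρ', sub_eq_add_neg]
  have h2 : D.cl ρ' = (4 : ℂ)⁻¹ • clC D.B D.qB ρ' := rfl
  have h3 : D.cl (ρ * ρ' - ρ' * ρ) = (4 : ℂ)⁻¹ • clC D.B D.qB (ρ * ρ' - ρ' * ρ) := rfl
  rw [h2, h3, ← h1, Matrix.mul_smul, Matrix.smul_mul, smul_sub]

/-- a product of two Clifford operators and an idempotent -/
theorem BB_pc (i : D.I) {a b : Fin D.n} (h : D.ix a = D.ix b) :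
    cx (D.B a) * cx (D.B b) * D.pc i = D.pc i * (cx (D.B a) * cx (D.B b)) := by
  rw [Matrix.mul_assoc, B_pc', ← Matrix.mul_assoc (D.pc i), pc_B', h]
  split_ifs
  · rfl
  · rw [Matrix.mul_zero, Matrix.zero_mul]

theorem cl_pc {ρ : Matrix (Fin D.n) (Fin D.n) ℂ} (hρ : ρ ∈ D.so) (i : D.I) :
    D.cl ρ * D.pc i = D.pc i * D.cl ρ := by
  rw [Dat.cl, Matrix.smul_mul, Matrix.mul_smul]
  congr 1
  simp only [clC, Finset.mul_sum, Finset.sum_mul, Matrix.mul_smul, Matrix.smul_mul]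
  refine Finset.sum_congr rfl fun a _ => Finset.sum_congr rfl fun b _ => ?_
  by_cases h : D.ix a = D.ix b
  · rw [BB_pc D i h]
  · rw [R_zero D hρ h, zero_smul, zero_smul]

theorem cl_trace {ρ : Matrix (Fin D.n) (Fin D.n) ℂ} (hρ : ρ ∈ D.so) (i : D.I) :
    (D.cl ρ * D.pc i).trace = 0 := by
  have hRt := R_skew D hρ
  have hR0 := fun a b => R_zero D hρ (a := a) (b := b)
  set R : Matrix (Fin D.n) (Fin D.n) ℂ := ρ * cx D.qB⁻¹ with hR
  have h1 : (clC D.B D.qB ρ * D.pc i).trace =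
      ∑ a, ∑ b, R a b * (cx (D.B a) * cx (D.B b) * D.pc i).trace := by
    simp only [clC, ← hR, Finset.sum_mul, Matrix.smul_mul, Matrix.trace_sum, Matrix.trace_smul,
      smul_eq_mul]
  have h2 : ∀ a b, R a b * (cx (D.B a) * cx (D.B b) * D.pc i).trace =
      -(R b a * (cx (D.B b) * cx (D.B a) * D.pc i).trace) := by
    intro a b
    have h3 : R a b = -R b a := by
      have := congrFun (congrFun hRt b) a
      rwa [Matrix.transpose_apply, Matrix.neg_apply] at this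
    by_cases h : D.ix a = D.ix b
    · have h4 : (cx (D.B a) * cx (D.B b) * D.pc i).trace =
          (cx (D.B b) * cx (D.B a) * D.pc i).trace := by
        rw [Matrix.mul_assoc, B_pc', Matrix.mul_assoc, B_pc', h]
        split_ifs
        · rw [Matrix.trace_mul_comm]
        · rw [Matrix.mul_zero, Matrix.mul_zero]
      rw [h3, h4, neg_mul]
    · rw [hR0 a b h, hR0 b a (Ne.symm h), zero_mul, zero_mul, neg_zero]
  have h5 : (clC D.B D.qB ρ * D.pc i).trace = -(clC D.B D.qB ρ * D.pc i).trace := by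
    conv_rhs => rw [h1, Finset.sum_comm]
    rw [h1, ← Finset.sum_neg_distrib]
    refine Finset.sum_congr rfl fun a _ => ?_
    rw [← Finset.sum_neg_distrib]
    exact Finset.sum_congr rfl fun b _ => h2 a b
  rw [Dat.cl, Matrix.smul_mul, Matrix.trace_smul]
  have h6 : (clC D.B D.qB ρ * D.pc i).trace = 0 := by
    have : (2 : ℂ) * (clC D.B D.qB ρ * D.pc i).trace = 0 := by
      linear_combination h5
    exact (mul_eq_zero.1 this).resolve_left two_ne_zero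
  rw [h6, smul_zero]

theorem cl_end (hHDA : U.SpecHDA) {ρ : Matrix (Fin D.n) (Fin D.n) ℂ} (hρ : ρ ∈ D.so)
    {Z : Matrix (Ix D.g) (Ix D.g) ℚ} (hZ : Z ∈ EndAlg D.c.1) :
    D.cl ρ * cx Z = cx Z * D.cl ρ := by
  obtain ⟨-, hEnd⟩ := hHDA Qbar D.g D.N D.A D.c le_rfl D.ks.abvar D.ks.per
  obtain ⟨m, β, l, h0⟩ := eq_sum ρ
  have h3 : ∀ l : QForm, ap l ρ ∈ soE D.qB D.E := by
    intro l
    refine ⟨?_, fun e he => ?_⟩
    · rw [← ap_transpose, ← mul_rat, ← rat_mul, ← ap_add, hρ.1, ap_zero]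
    · rw [← mul_rat, ← rat_mul, hρ.2 e he]
  rw [Dat.cl, Matrix.smul_mul, Matrix.mul_smul]
  congr 1
  rw [h0, KLieM.clC_sum, Finset.sum_mul, Finset.mul_sum]
  refine Finset.sum_congr rfl fun i _ => ?_
  rw [Matrix.smul_mul, Matrix.mul_smul, KLieM.clC_cx, ← cx_mul, ← cx_mul,
    D.ks.endA Z (hEnd Z hZ) _ (h3 (l i))]

end ClbM

open ClbM KFull3M in
theorem specMClb (hHDA : U.SpecHDA) : SpecMClb := by
  intro D
  refine ⟨fun ρ hρ k => cl_B D hρ k, fun ρ hρ ρ' _ => cl_br D hρ, fun ρ ρ' => ?_, fun a ρ => ?_,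
    fun ρ hρ i => cl_pc D hρ i, fun ρ hρ i => cl_trace D hρ i,
    fun ρ hρ Z hZ => cl_end D hHDA hρ hZ⟩
  · rw [Dat.cl, Dat.cl, Dat.cl, clC_add, smul_add]
  · rw [Dat.cl, Dat.cl, clC_smul, smul_comm]

end Pool.Agent.Lib.MPf11a48.KM
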