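import Pool.Agent.Lib.MP_f11a48_ag.KM.SpecB
import Pool.Agent.Lib.MP_f11a48_ag.K3.KCur

/-! # CUR: lifting integral curves to the spin group -/

set_option autoImplicit false

namespace Pool.Agent.Lib.MPf11a48.KM

open Matrix NormedSpace
open Pool.Agent.Lib.MPf11a48.U (AbData Ix HD EndAlg)
open Pool.Agent.Lib.MPf11a48.K3 Pool.Agent.Lib.MPf11a48.KU
open KLieM KRatM

open KCurM in
theorem specMCur : SpecMCur := by
  intro g n B ψ M ρ hM1 hM3 x hx0 hx
  refine ⟨gl M, gl_zero M, fun s i j => dv_gl M s i j, fun s => ⟨fun j => ?_, fun Z hZ => ?_, ?_⟩⟩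
  · -- compatibility with the Clifford operators
    set S : ℂ → Matrix (Ix g) (Ix g) ℂ := fun s => ∑ i, (x s).1 i j • cx (B i) with hS
    have hMS : ∀ s, M * S s - S s * M = ∑ i, (ρ * (x s).1) i j • cx (B i) := by
      intro s
      have e : S s = ∑ i, (x s).1 i j • cx (B i) := rfl
      rw [e, Finset.mul_sum, Finset.sum_mul, ← Finset.sum_sub_distrib]
      have h2 : ∀ k, M * (x s).1 k j • cx (B k) - (x s).1 k j • cx (B k) * M =
          ∑ i, (ρ i k * (x s).1 k j) • cx (B i) := by
        intro k
        rw [Matrix.mul_smul, Matrix.smul_mul, ← smul_sub, hM1, Finset.smul_sum]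
        refine Finset.sum_congr rfl fun i _ => ?_
        rw [smul_smul, mul_comm]
      simp only [h2]
      rw [Finset.sum_comm]
      refine Finset.sum_congr rfl fun i _ => ?_
      rw [← Finset.sum_smul, Matrix.mul_apply]
    have hdS : Dv S (fun s => M * S s - S s * M) := by
      intro s a b
      change HasDerivAt (fun s => S s a b) ((M * S s - S s * M) a b) s
      rw [hMS s]
      have h1 : (fun s => S s a b) = fun s => ∑ i, (x s).1 i j * cx (B i) a b := by
        funext s
        have e : S s = ∑ i, (x s).1 i j • cx (B i) := rfl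
        rw [e, Matrix.sum_apply]
        rfl
      rw [h1]
      refine (HasDerivAt.fun_sum fun i _ => (hx s i j).mul_const (cx (B i) a b)).congr_deriv ?_
      rw [Matrix.sum_apply]
      rfl
    have h1 : Dv (fun s => exp (s • (-M)) * S s * (gl M s).1) (fun _ => 0) := by
      refine (((dv_gl_inv M).mul hdS).mul (dv_gl M)).congr fun s => ?_
      noncomm_ring
    have h2 := h1.const_of_zero s
    have h3 : S 0 = cx (B j) := by
      have e : S 0 = ∑ i, (x 0).1 i j • cx (B i) := rfl
      rw [e, hx0, Finset.sum_eq_single j]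
      · rw [Units.val_one, Matrix.one_apply_eq, one_smul]
      · intro i _ hi
        rw [Units.val_one, Matrix.one_apply_ne hi, zero_smul]
      · intro h
        exact absurd (Finset.mem_univ _) h
    rw [zero_smul, exp_zero, Matrix.one_mul, gl_zero, Units.val_one, Matrix.mul_one, h3] at h2
    change (gl M s).1 * cx (B j) = S s * (gl M s).1
    rw [← h2, ← Matrix.mul_assoc, ← Matrix.mul_assoc]
    have h4 : (gl M s).1 * exp (s • (-M)) = 1 := exp_mul_neg M s
    rw [h4, Matrix.one_mul]
  · have h1 : Commute Z M := hZ.symm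
    exact ((h1.smul_right s).exp_right).symm.eq
  · have h1 : Dv (fun s => (gl M s).1ᵀ * cx ψ * (gl M s).1) (fun _ => 0) := by
      refine (((dv_gl M).transpose.mul (Dv.const (cx ψ))).mul (dv_gl M)).congr fun s => ?_
      rw [Matrix.transpose_mul, Matrix.mul_zero, add_zero]
      calc (gl M s).1ᵀ * Mᵀ * cx ψ * (gl M s).1 + (gl M s).1ᵀ * cx ψ * (M * (gl M s).1) =
          (gl M s).1ᵀ * (Mᵀ * cx ψ + cx ψ * M) * (gl M s).1 := by noncomm_ring
        _ = 0 := by rw [hM3, Matrix.mul_zero, Matrix.zero_mul]
    have h2 := h1.const_of_zero s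
    rw [h2, gl_zero, Units.val_one, Matrix.transpose_one, Matrix.one_mul, Matrix.mul_one]

end Pool.Agent.Lib.MPf11a48.KM
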