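import Pool.Agent.Lib.MP_f11a48_ag.KM.SpecB

/-!
# DER: the derivative of a curve which preserves `T` is in the Lie algebra
-/

set_option autoImplicit false

namespace Pool.Agent.Lib.MPf11a48.KM

open Matrix MvPolynomial Pool.Agent.Lib.MPf11a48.Tors
open Pool.Agent.Lib.MPf11a48.CM hiding OmegaM
open Pool.Agent.Lib.MPf11a48.GL2

namespace DerM

variable {I : Type} [Fintype I] [DecidableEq I]

theorem hasDerivAt_eval (y : ℂ → Matrix I I ℂ) (z : Matrix I I ℂ)
    (hy : ∀ i j, HasDerivAt (fun s => y s i j) (z i j) 0) (p : MvPolynomial (I × I) ℂ) :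
    HasDerivAt (fun s => eval (en (y s)) p) (tang p (y 0) z) 0 := by
  induction p using MvPolynomial.induction_on with
  | C a =>
    simp only [eval_C, tang_C]
    exact hasDerivAt_const _ _
  | add p q hp hq =>
    simp only [map_add, tang_add]
    exact hp.add hq
  | mul_X p v hp =>
    simp only [map_mul, tang_mul, tang_X, eval_X]
    exact hp.mul (hy v.1 v.2)

end DerM

/-- **DER**. -/
theorem specMDer : SpecMDer := by
  intro I _ _ T X x hx0 hx hT
  rw [mem_lie]
  intro f hf p hp
  have h1 : ∀ i j, HasDerivAt (fun s => ((x s).1 * f.1) i j) ((X * f.1) i j) 0 := by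
    intro i j
    simp only [Matrix.mul_apply]
    exact HasDerivAt.fun_sum fun k _ => (hx i k).mul_const _
  have h2 := DerM.hasDerivAt_eval (fun s => (x s).1 * f.1) (X * f.1) h1 p
  have h3 : (fun s => eval (en ((x s).1 * f.1)) p) = fun _ => 0 := by
    funext s
    have h5 := hp _ (hT s f hf)
    rw [glmul] at h5
    exact h5
  rw [h3] at h2
  have h4 := h2.unique (hasDerivAt_const (0 : ℂ) (0 : ℂ))
  simp only [hx0] at h4
  rw [show (1 : GL I ℂ).1 = 1 from rfl, one_mul] at h4
  exact h4

end Pool.Agent.Lib.MPf11a48.KM
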