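import Pool.Agent.Lib.MP_f11a48_ag.KM.SpecB
import Pool.Agent.Lib.MP_f11a48_ag.KU.Dia

/-!
# DIA: the torus given by commuting idempotents and characters
-/

set_option autoImplicit false

namespace Pool.Agent.Lib.MPf11a48.KM

open Matrix
open Pool.Agent.Lib.MPf11a48.K3
open KGrp3M (ex ex_val)
open Pool.Agent.Lib.MPf11a48.KU.DiaM (fac fac_comm fac_mul fac_one Lau lau_const lau_add lau_smul
  lau_sum)

namespace DiaM

section algebra

variable {ι W : Type} [Fintype ι] [DecidableEq ι] {p : W → Matrix ι ι ℂ}

/-- the product over a list -/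
noncomputable def Pl (p : W → Matrix ι ι ℂ) (t : W → ℂ) : List W → Matrix ι ι ℂ
  | [] => 1
  | u :: l => fac (p u) (t u) * Pl p t l

theorem Pl_comm (t : W → ℂ) {Y : Matrix ι ι ℂ} :
    ∀ l : List W, (∀ u, Y * p u = p u * Y) → Y * Pl p t l = Pl p t l * Y
  | [], _ => by rw [Pl, Matrix.mul_one, Matrix.one_mul]
  | u :: l, h => by
    have h1 := fac_comm (h u) (t u)
    have h2 := Pl_comm t l h
    rw [Pl, ← Matrix.mul_assoc, h1, Matrix.mul_assoc, h2, Matrix.mul_assoc]

theorem Pl_one : ∀ l : List W, Pl p (fun _ => 1) l = 1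
  | [] => rfl
  | u :: l => by rw [Pl, fac_one, Matrix.one_mul, Pl_one l]

theorem Pl_mul (hp : ∀ u, p u * p u = p u) (hc : ∀ u v, p u * p v = p v * p u) (t t' : W → ℂ) :
    ∀ l : List W, Pl p t l * Pl p t' l = Pl p (fun u => t u * t' u) l
  | [] => by simp only [Pl, Matrix.mul_one]
  | u :: l => by
    have h1 : Pl p t l * fac (p u) (t' u) = fac (p u) (t' u) * Pl p t l := by
      have h2 : p u * Pl p t l = Pl p t l * p u := Pl_comm t l fun v => hc u v
      exact fac_comm h2.symm (t' u)
    simp only [Pl]
    rw [Matrix.mul_assoc, ← Matrix.mul_assoc (Pl p t l), h1, Matrix.mul_assoc,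
      ← Matrix.mul_assoc (fac (p u) (t u)), fac_mul (hp u), Pl_mul hp hc t t' l]

end algebra

theorem lau_char {J : Type} [Fintype J] [DecidableEq J] {g : (J → ℂˣ) → ℂ} (x : J → ℤ)
    (h : Lau g) : Lau (fun z => (∏ k, (z k : ℂ) ^ x k) * g z) := by
  obtain ⟨p, hp⟩ := h
  refine ⟨p.mapDomain fun χ => χ + x, fun z => ?_⟩
  show (∏ k, (z k : ℂ) ^ x k) * g z = _
  rw [Finsupp.sum_mapDomain_index (fun χ => by rw [zero_mul]) (fun χ a b => by rw [add_mul]), hp,
    Finsupp.mul_sum]
  refine Finsupp.sum_congr fun χ _ => ?_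
  have h1 : ∏ l, (z l : ℂ) ^ (χ + x) l = (∏ k, (z k : ℂ) ^ x k) * ∏ l, (z l : ℂ) ^ χ l := by
    rw [← Finset.prod_mul_distrib]
    refine Finset.prod_congr rfl fun l _ => ?_
    rw [Pi.add_apply, zpow_add₀ (Units.ne_zero (z l)), mul_comm]
  rw [h1]
  ring

/-- the character `x` at `z` -/
noncomputable def cr {J : Type} [Fintype J] (x : J → ℤ) (z : J → ℂˣ) : ℂ := ∏ k, (z k : ℂ) ^ x k

end DiaM

open DiaM in
theorem specMDia : SpecMDia := by
  intro ι W J _ _ _ _ _ _ p χ hp hc
  obtain ⟨l, hl⟩ : ∃ l : List W, l = Finset.univ.toList := ⟨_, rfl⟩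
  obtain ⟨Dm, hDm⟩ : ∃ Dm : (J → ℂˣ) →* Matrix ι ι ℂ, ∀ z,
      Dm z = Pl p (fun u => cr (χ u) z) l := by
    refine ⟨{ toFun := fun z => Pl p (fun u => cr (χ u) z) l, map_one' := ?_,
              map_mul' := ?_ }, fun _ => rfl⟩
    · have h1 : (fun u : W => cr (χ u) (1 : J → ℂˣ)) = fun _ => 1 := by
        funext u
        simp [cr]
      rw [h1]
      exact Pl_one l
    · intro z z'
      rw [Pl_mul hp hc]
      congr 1
      funext u
      rw [cr, cr, cr, ← Finset.prod_mul_distrib]
      refine Finset.prod_congr rfl fun k _ => ?_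
      rw [Pi.mul_apply, Units.val_mul, mul_zpow]
  refine ⟨Dm.toHomUnits, ?_, ?_⟩
  · intro i j
    have key : ∀ l : List W, ∀ i j, Lau (fun z : J → ℂˣ => Pl p (fun u => cr (χ u) z) l i j) := by
      intro l
      induction l with
      | nil => intro i j; exact lau_const _
      | cons u l ih =>
        intro i j
        have e1 : (fun z : J → ℂˣ => Pl p (fun u => cr (χ u) z) (u :: l) i j) = fun z =>
            Pl p (fun u => cr (χ u) z) l i j + (((∏ k, (z k : ℂ) ^ χ u k) *
              ∑ k, (p u) i k * Pl p (fun u => cr (χ u) z) l k j) + (-1 : ℂ) *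
              ∑ k, (p u) i k * Pl p (fun u => cr (χ u) z) l k j) := by
          funext z
          rw [Pl, fac, Matrix.add_mul, Matrix.one_mul, Matrix.smul_mul, Matrix.add_apply,
            Matrix.smul_apply, smul_eq_mul, Matrix.mul_apply, cr]
          ring
        rw [e1]
        have h2 : Lau (fun z : J → ℂˣ => ∑ k, (p u) i k * Pl p (fun u => cr (χ u) z) l k j) :=
          lau_sum _ fun k _ => lau_smul _ (ih k j)
        exact lau_add (ih i j) (lau_add (lau_char (χ u) h2) (lau_smul (-1) h2))
    obtain ⟨a, ha⟩ := key l i j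
    refine ⟨a, fun z => ?_⟩
    rw [← ha]
    show Dm z i j = _
    rw [hDm]
  · intro v s i j
    obtain ⟨w, hw⟩ : ∃ w : W → ℂ, w = fun u => ∑ k, (χ u k : ℂ) * v k := ⟨_, rfl⟩
    have hcr : ∀ (s : ℂ) (u : W), cr (χ u) (fun k => ex (s * v k)) = Complex.exp (s * w u) := by
      intro s u
      rw [cr, hw, Finset.mul_sum, Complex.exp_sum]
      refine Finset.prod_congr rfl fun k _ => ?_
      rw [ex_val, ← Complex.exp_int_mul]
      congr 1
      ring
    have key : ∀ l : List W, ∀ (s : ℂ) (i j : ι),
        HasDerivAt (fun s => Pl p (fun u => Complex.exp (s * w u)) l i j)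
          (((l.map fun u => w u • p u).sum *
            Pl p (fun u => Complex.exp (s * w u)) l) i j) s := by
      intro l
      induction l with
      | nil =>
        intro s i j
        simp only [Pl, List.map_nil, List.sum_nil, Matrix.zero_mul, Matrix.zero_apply]
        exact hasDerivAt_const _ _
      | cons u l ih =>
        intro s i j
        obtain ⟨P, hP⟩ : ∃ P, P = p u := ⟨_, rfl⟩
        have hexp : ∀ s : ℂ, HasDerivAt (fun s => Complex.exp (s * w u) - 1)
            (w u * Complex.exp (s * w u)) s := by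
          intro s
          have h1 : HasDerivAt (fun s : ℂ => s * w u) (w u) s := by
            simpa using (hasDerivAt_id s).mul_const (w u)
          have h2 := (h1.cexp).sub_const 1
          rw [mul_comm]
          exact h2
        have hsum : ∀ s : ℂ, HasDerivAt (fun s => ∑ k, P i k *
            Pl p (fun u => Complex.exp (s * w u)) l k j)
            (∑ k, P i k * (((l.map fun u => w u • p u).sum *
              Pl p (fun u => Complex.exp (s * w u)) l) k j)) s := by
          intro s
          exact HasDerivAt.fun_sum fun k _ => (ih s k j).const_mul (P i k)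
        have e1 : (fun s : ℂ => Pl p (fun u => Complex.exp (s * w u)) (u :: l) i j) = fun s =>
            Pl p (fun u => Complex.exp (s * w u)) l i j + (Complex.exp (s * w u) - 1) *
              ∑ k, P i k * Pl p (fun u => Complex.exp (s * w u)) l k j := by
          funext s
          rw [Pl, fac, Matrix.add_mul, Matrix.one_mul, Matrix.smul_mul, Matrix.add_apply,
            Matrix.smul_apply, smul_eq_mul, Matrix.mul_apply, hP]
        rw [e1]
        have h3 := (ih s i j).add ((hexp s).mul (hsum s))
        refine h3.congr_deriv ?_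
        -- the algebra
        obtain ⟨T, hT⟩ : ∃ T, T = Complex.exp (s * w u) := ⟨_, rfl⟩
        obtain ⟨G, hG⟩ : ∃ G, G = Pl p (fun u => Complex.exp (s * w u)) l := ⟨_, rfl⟩
        obtain ⟨S, hS⟩ : ∃ S, S = (l.map fun u => w u • p u).sum := ⟨_, rfl⟩
        have hSP : S * P = P * S := by
          rw [hS, hP]
          clear hS hG ih e1 hsum h3
          induction l with
          | nil => simp
          | cons v l ih =>
            rw [List.map_cons, List.sum_cons, Matrix.add_mul, Matrix.mul_add, ih, Matrix.smul_mul,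
              Matrix.mul_smul, hc u v]
        have hPP : P * P = P := by rw [hP]; exact hp u
        rw [List.map_cons, List.sum_cons, Pl, ← hP, ← hT, ← hG, ← hS]
        have e2 : (w u • P + S) * (fac P T * G) =
            S * G + ((w u * T) • (P * G) + (T - 1) • (P * (S * G))) := by
          unfold fac
          have h5 : P * (P * G) = P * G := by rw [← Matrix.mul_assoc, hPP]
          have h6 : S * (P * G) = P * (S * G) := by
            rw [← Matrix.mul_assoc, hSP, Matrix.mul_assoc]
          rw [Matrix.add_mul 1, Matrix.one_mul, Matrix.add_mul, Matrix.mul_add, Matrix.mul_add,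
            Matrix.smul_mul, Matrix.smul_mul, Matrix.smul_mul, Matrix.mul_smul, Matrix.mul_smul,
            h5, h6]
          module
        rw [e2]
        simp only [Matrix.add_apply, Matrix.smul_apply, smul_eq_mul]
        rw [Matrix.mul_apply (M := P) (N := G), Matrix.mul_apply (M := P) (N := S * G)]
    have h1 := key l s i j
    have e1 : (l.map fun u => w u • p u).sum = ∑ u, w u • p u := by
      rw [hl]
      exact Finset.sum_map_toList _ _
    rw [e1] at h1
    have e2 : ∀ s : ℂ, (Dm.toHomUnits fun k => ex (s * v k)).1 =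
        Pl p (fun u => Complex.exp (s * w u)) l := by
      intro s
      show Dm (fun k => ex (s * v k)) = _
      rw [hDm]
      simp only [hcr]
    simp only [e2]
    rw [hw] at h1 ⊢
    exact h1

end Pool.Agent.Lib.MPf11a48.KM
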