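import Pool.Agent.Lib.MP_f11a48_ag.KM.SpecA
import Pool.Agent.Lib.MP_f11a48_ag.KU.Gal

/-! # Families of Kuga-Satake pairs: the Galois action on the eigenspaces -/

set_option autoImplicit false
set_option linter.unusedSectionVars false

namespace Pool.Agent.Lib.MPf11a48.KM

open Matrix MvPolynomial Pool.Agent.Lib.MPf11a48.Tors
open Pool.Agent.Lib.MPf11a48.CM hiding OmegaM
open Pool.Agent.Lib.MPf11a48.GL2 (lie Geo)
open Pool.Agent.Lib.MPf11a48.GL2T (IsAlg)
open Pool.Agent.Lib.MPf11a48.U (AbData Ix HD EndAlg)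
open Pool.Agent.Lib.MPf11a48.K3 Pool.Agent.Lib.MPf11a48.KU
open KLieM (bl clC gam)

namespace GalM

/-- exchange of `V_u` and `V_u^*` -/
def sw {R U : Type} : R ⊕ (U ⊕ U) → R ⊕ (U ⊕ U)
  | Sum.inl r => Sum.inl r
  | Sum.inr s => Sum.inr (Sum.swap s)

section

variable {n : ℕ} (τ : ℂ ≃+* ℂ)

theorem map_mul' (A B : Matrix (Fin n) (Fin n) ℂ) : (A * B).map τ = A.map τ * B.map τ :=
  Matrix.map_mul (f := (τ : ℂ →+* ℂ))

theorem map_smul'' (a : ℂ) (A : Matrix (Fin n) (Fin n) ℂ) : (a • A).map τ = τ a • A.map τ := by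
  ext i j
  simp

theorem map_ne {A : Matrix (Fin n) (Fin n) ℂ} (h : A ≠ 0) : A.map τ ≠ 0 := by
  intro h0
  apply h
  ext i j
  have h1 := congrFun (congrFun h0 i) j
  rw [Matrix.map_apply, Matrix.zero_apply] at h1
  rw [Matrix.zero_apply]
  exact (map_eq_zero_iff τ τ.injective).1 h1

end

variable {D : Dat}

section

variable (h9 : ∀ e ∈ D.E, ∀ s, cx e * D.pr s = D.ch e s • D.pr s ∧
    D.pr s * cx e = D.ch e s • D.pr s)

include h9 in
theorem cross {τ : ℂ ≃+* ℂ} {s t : D.R ⊕ (D.U ⊕ D.U)} (h : D.pr t * (D.pr s).map τ ≠ 0) :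
    ∀ e ∈ D.E, D.ch e t = τ (D.ch e s) := by
  intro e he
  have h1 := congrArg (fun M : Matrix (Fin D.n) (Fin D.n) ℂ => M.map τ) (h9 e he s).1
  simp only [map_mul', map_smul'', KU.GalM.map_cx] at h1
  have h2 : D.pr t * (cx e * (D.pr s).map τ) = τ (D.ch e s) • (D.pr t * (D.pr s).map τ) := by
    rw [h1, Matrix.mul_smul]
  rw [← Matrix.mul_assoc, (h9 e he t).2, Matrix.smul_mul] at h2
  have h3 : (D.ch e t - τ (D.ch e s)) • (D.pr t * (D.pr s).map τ) = 0 := by
    rw [sub_smul, h2, sub_self]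
  exact sub_eq_zero.1 ((smul_eq_zero.1 h3).resolve_right h)

theorem sep' {s t : D.R ⊕ (D.U ⊕ D.U)} (h : ∀ e ∈ D.E, D.ch e s = D.ch e t) : s = t := by
  by_contra hne
  obtain ⟨e, he, hne'⟩ := D.split.sep s t hne
  exact hne' (h e he)

include h9 in
theorem gal1 (h7 : ∑ s, D.pr s = 1) (h8 : ∀ s, D.pr s ≠ 0) (τ : ℂ ≃+* ℂ)
    (s : D.R ⊕ (D.U ⊕ D.U)) : ∃ s', ∀ e ∈ D.E, D.ch e s' = τ (D.ch e s) := by
  by_contra hcon
  push Not at hcon
  have h1 : ∀ t, D.pr t * (D.pr s).map τ = 0 := by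
    intro t
    by_contra hne
    obtain ⟨e, he, hne'⟩ := hcon t
    exact hne' (cross h9 hne e he)
  have h2 : (D.pr s).map τ = 0 := by
    calc (D.pr s).map τ = (∑ t, D.pr t) * (D.pr s).map τ := by rw [h7, Matrix.one_mul]
      _ = ∑ t, D.pr t * (D.pr s).map τ := Matrix.sum_mul _ _ _
      _ = 0 := Finset.sum_eq_zero fun t _ => h1 t
  exact map_ne τ (h8 s) h2

include h9 in
theorem gal2 (h7 : ∑ s, D.pr s = 1) (τ : ℂ ≃+* ℂ)
    (s s' : D.R ⊕ (D.U ⊕ D.U)) (hs : ∀ e ∈ D.E, D.ch e s' = τ (D.ch e s)) :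
    (D.pr s).map τ = D.pr s' := by
  have h1 : (D.pr s).map τ = D.pr s' * (D.pr s).map τ := by
    calc (D.pr s).map τ = (∑ t, D.pr t) * (D.pr s).map τ := by rw [h7, Matrix.one_mul]
      _ = ∑ t, D.pr t * (D.pr s).map τ := Matrix.sum_mul _ _ _
      _ = _ := by
        refine Finset.sum_eq_single s' (fun t _ ht => ?_)
          (fun h0 => absurd (Finset.mem_univ _) h0)
        by_contra hne
        apply ht
        refine sep' fun e he => ?_
        rw [hs e he, cross h9 hne e he]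
  have h2 : D.pr s' = D.pr s' * (D.pr s).map τ := by
    have hone : (∑ t, (D.pr t).map τ) = 1 := by
      have h3 := congrArg (fun M : Matrix (Fin D.n) (Fin D.n) ℂ => M.map τ) h7
      rw [Matrix.map_one τ (map_zero τ) (map_one τ)] at h3
      rw [← h3]
      ext i j
      simp [Matrix.sum_apply]
    calc D.pr s' = D.pr s' * ∑ t, (D.pr t).map τ := by rw [hone, Matrix.mul_one]
      _ = ∑ t, D.pr s' * (D.pr t).map τ := Matrix.mul_sum _ _ _
      _ = _ := by
        refine Finset.sum_eq_single s (fun t _ ht => ?_)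
          (fun h0 => absurd (Finset.mem_univ _) h0)
        by_contra hne
        apply ht
        refine sep' fun e he => ?_
        have h4 := cross h9 hne e he
        rw [hs e he] at h4
        exact (τ.injective h4).symm
  rw [h1, ← h2]

theorem q_pr (s : D.R ⊕ (D.U ⊕ D.U)) :
    (D.pr (sw s))ᵀ * cx D.qB = cx D.qB * D.pr s := by
  have hq : (cx D.qB)ᵀ = cx D.qB := by
    change cx D.qBᵀ = cx D.qB
    rw [D.ks.symm]
  have hdU : ∀ k : D.U, (blockDiagonal' (Pi.single k 1 : D.FU))ᵀ =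
      blockDiagonal' (Pi.single k 1 : D.FU) := by
    intro k
    rw [blockDiagonal'_transpose]
    congr 1
    funext l
    by_cases hl : l = k
    · subst hl
      rw [Pi.single_eq_same, transpose_one]
    · rw [Pi.single_eq_of_ne hl, transpose_zero]
  have hdR : ∀ k : D.R, (blockDiagonal' (Pi.single k 1 : D.FR))ᵀ =
      blockDiagonal' (Pi.single k 1 : D.FR) := by
    intro k
    rw [blockDiagonal'_transpose]
    congr 1
    funext l
    by_cases hl : l = k
    · subst hl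
      rw [Pi.single_eq_same, transpose_one]
    · rw [Pi.single_eq_of_ne hl, transpose_zero]
  rcases s with r | u | u
  · change (D.P * blockDiagonal' (Pi.single r 1 : D.FR) * (D.Pᵀ * cx D.qB))ᵀ * cx D.qB =
      cx D.qB * (D.P * blockDiagonal' (Pi.single r 1 : D.FR) * (D.Pᵀ * cx D.qB))
    rw [Matrix.transpose_mul, Matrix.transpose_mul, Matrix.transpose_mul,
      Matrix.transpose_transpose, hq, hdR]
    simp only [Matrix.mul_assoc]
  · change (D.Q' * blockDiagonal' (Pi.single u 1 : D.FU) * (D.P'ᵀ * cx D.qB))ᵀ * cx D.qB =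
      cx D.qB * (D.P' * blockDiagonal' (Pi.single u 1 : D.FU) * (D.Q'ᵀ * cx D.qB))
    rw [Matrix.transpose_mul, Matrix.transpose_mul, Matrix.transpose_mul,
      Matrix.transpose_transpose, hq, hdU]
    simp only [Matrix.mul_assoc]
  · change (D.P' * blockDiagonal' (Pi.single u 1 : D.FU) * (D.Q'ᵀ * cx D.qB))ᵀ * cx D.qB =
      cx D.qB * (D.Q' * blockDiagonal' (Pi.single u 1 : D.FU) * (D.P'ᵀ * cx D.qB))
    rw [Matrix.transpose_mul, Matrix.transpose_mul, Matrix.transpose_mul,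
      Matrix.transpose_transpose, hq, hdU]
    simp only [Matrix.mul_assoc]

include h9 in
theorem et_pr (e : Matrix (Fin D.n) (Fin D.n) ℚ) (he : e ∈ D.E) (s : D.R ⊕ (D.U ⊕ D.U)) :
    cx eᵀ * cx D.qB * D.pr s = D.ch e (sw s) • (cx D.qB * D.pr s) := by
  have h1 := congrArg Matrix.transpose (h9 e he (sw s)).2
  rw [Matrix.transpose_mul, Matrix.transpose_smul] at h1
  have h2 : (cx e)ᵀ = cx eᵀ := rfl
  rw [h2] at h1
  rw [Matrix.mul_assoc, ← q_pr, ← Matrix.mul_assoc, h1, Matrix.smul_mul]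

include h9 in
theorem gal4 (h7 : ∑ s, D.pr s = 1) (h8 : ∀ s, D.pr s ≠ 0) (τ : ℂ ≃+* ℂ)
    (s s' : D.R ⊕ (D.U ⊕ D.U)) (hs : ∀ e ∈ D.E, D.ch e s' = τ (D.ch e s)) :
    ∀ e ∈ D.E, D.ch e (sw s') = τ (D.ch e (sw s)) := by
  intro e he
  have h2 := congrArg (fun M : Matrix (Fin D.n) (Fin D.n) ℂ => M.map τ) (et_pr h9 e he s)
  simp only [map_mul', map_smul'', KU.GalM.map_cx, gal2 h9 h7 τ s s' hs] at h2
  rw [et_pr h9 e he s'] at h2
  have h3 : (D.ch e (sw s') - τ (D.ch e (sw s))) • (cx D.qB * D.pr s') = 0 := by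
    rw [sub_smul, h2, sub_self]
  rcases smul_eq_zero.1 h3 with h4 | h4
  · exact sub_eq_zero.1 h4
  · exact absurd (KU.GalM.cx_unit D.ks.det h4) (h8 s')

end

end GalM

open GalM in
theorem specMGal (hMat : SpecMMat) : SpecMGal := by
  intro D
  obtain ⟨-, -, -, -, -, -, h7, h8, h9⟩ := hMat D
  refine ⟨gal1 h9 h7 h8, gal2 h9 h7, fun τ r s' hs => ?_, fun τ s s' hs => ?_, fun u => ?_⟩
  · have h1 := gal4 h9 h7 h8 τ (Sum.inl r) s' hs
    have h2 : sw s' = s' := sep' fun e he => by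
      rw [h1 e he, hs e he]
      rfl
    rcases s' with r' | u | u
    · refine ⟨r', rfl, ?_⟩
      by_contra hne
      have e1 : D.ch (prj D.ix (D.ox r)) (Sum.inl r') = 1 := by
        rw [hs _ (D.ks.proj _)]
        change τ (D.lr (prj D.ix (D.ox r)) r) = 1
        rw [D.good.inR, map_one]
      have e2 : D.ch (prj D.ix (D.ox r')) (Sum.inl r') = 1 := D.good.inR r'
      have e3 : cx (prj D.ix (D.ox r')) * cx (prj D.ix (D.ox r)) = 0 := by
        rw [← KRatM.cx_mul]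
        have e4 : prj D.ix (D.ox r') * prj D.ix (D.ox r) = 0 := by
          unfold prj
          rw [Matrix.diagonal_mul_diagonal, ← Matrix.diagonal_zero]
          congr 1
          funext a
          by_cases ha : D.ix a = D.ox r'
          · rw [if_neg (fun h => hne (ha.symm.trans h)), mul_zero]
          · rw [if_neg ha, zero_mul]
        rw [e4, KRatM.cx_zero]
      have e5 : cx (prj D.ix (D.ox r')) * (cx (prj D.ix (D.ox r)) * D.pr (Sum.inl r')) =
          D.pr (Sum.inl r') := by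
        rw [(h9 _ (D.ks.proj _) _).1, e1, one_smul, (h9 _ (D.ks.proj _) _).1, e2, one_smul]
      rw [← Matrix.mul_assoc, e3, Matrix.zero_mul] at e5
      exact h8 _ e5.symm
    · exact absurd h2 (by simp [sw])
    · exact absurd h2 (by simp [sw])
  · exact gal4 h9 h7 h8 τ (Sum.inr s) (Sum.inr s') hs
  · refine gal2 h9 h7 (starRingAut : ℂ ≃+* ℂ) (Sum.inr (Sum.inl u)) (Sum.inr (Sum.inr u))
      fun e _ => ?_
    rfl

end Pool.Agent.Lib.MPf11a48.KM
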