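import Pool.Agent.Lib.MP_f11a48_ag.KM.SpecB
import Pool.Agent.Lib.MP_f11a48_ag.KU.Gen

/-!
# GNL: `GL_d` is generated by integral curves
-/

set_option autoImplicit false

namespace Pool.Agent.Lib.MPf11a48.KM

open Matrix

namespace GnlM

open Pool.Agent.Lib.MPf11a48.KU.GenM

theorem logs' {d : ℕ} (D : Fin d → ℂ) (h : ∏ i, D i ≠ 0) :
    ∃ w : Fin d → ℂ, ∀ i, Complex.exp (w i) = D i := by
  refine ⟨fun i => Complex.log (D i), fun i => Complex.exp_log ?_⟩
  intro hi
  exact h (Finset.prod_eq_zero (Finset.mem_univ i) hi)

end GnlM

open GnlM Pool.Agent.Lib.MPf11a48.KU.GenM in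
theorem specMGnl : SpecMGnl := by
  intro d G hG x
  have htr : ∀ t : TransvectionStruct (Fin d) ℂ, lf t ∈ G := by
    intro t
    have hXX := tr_sq t
    refine hG (Matrix.single t.i t.j t.c) (tg (Matrix.single t.i t.j t.c) hXX) ?_ ?_ ?_ 1
    · apply Units.ext
      rw [tg_val, zero_smul, add_zero, Units.val_one]
    · intro s i j
      have e1 : (Matrix.single t.i t.j t.c * (tg (Matrix.single t.i t.j t.c) hXX s).1) i j =
          Matrix.single t.i t.j t.c i j := by
        rw [tg_val, mul_add, mul_one, mul_smul_comm, hXX, smul_zero, add_zero]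
      rw [e1]
      have e2 : (fun s : ℂ => (tg (Matrix.single t.i t.j t.c) hXX s).1 i j) =
          fun s : ℂ => (1 : Matrix (Fin d) (Fin d) ℂ) i j + s * Matrix.single t.i t.j t.c i j := by
        funext s
        rw [tg_val, Matrix.add_apply, Matrix.smul_apply, smul_eq_mul]
      rw [e2]
      have e3 := ((hasDerivAt_id s).mul_const (Matrix.single t.i t.j t.c i j)).const_add
        ((1 : Matrix (Fin d) (Fin d) ℂ) i j)
      simpa using e3
    · intro s i j
      have e1 : -((tg (Matrix.single t.i t.j t.c) hXX s)⁻¹.1 * Matrix.single t.i t.j t.c) i j =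
          -(Matrix.single t.i t.j t.c i j) := by
        rw [tg_inv, sub_mul, one_mul, smul_mul_assoc, hXX, smul_zero, sub_zero]
      rw [e1]
      have e2 : (fun s : ℂ => (tg (Matrix.single t.i t.j t.c) hXX s)⁻¹.1 i j) =
          fun s : ℂ => (1 : Matrix (Fin d) (Fin d) ℂ) i j - s * Matrix.single t.i t.j t.c i j := by
        funext s
        rw [tg_inv, Matrix.sub_apply, Matrix.smul_apply, smul_eq_mul]
      rw [e2]
      have e3 := ((hasDerivAt_id s).mul_const (Matrix.single t.i t.j t.c i j)).const_sub
        ((1 : Matrix (Fin d) (Fin d) ℂ) i j)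
      simpa using e3
  have hdg : ∀ w : Fin d → ℂ, dg w 1 ∈ G := by
    intro w
    refine hG (diagonal w) (dg w) ?_ ?_ ?_ 1
    · apply Units.ext
      rw [dg_val, Units.val_one]
      simp
    · intro s i j
      have e1 : (diagonal w * (dg w s).1) i j =
          if i = j then w i * Complex.exp (s * w i) else 0 := by
        rw [dg_val, diagonal_mul_diagonal, diagonal_apply]
      rw [e1]
      have e2 : (fun s : ℂ => (dg w s).1 i j) =
          fun s : ℂ => if i = j then Complex.exp (s * w i) else 0 := by
        funext s
        rw [dg_val, diagonal_apply]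
      rw [e2]
      split_ifs with hij
      · have e3 := ((hasDerivAt_id s).mul_const (w i)).cexp
        have e4 : Complex.exp (id s * w i) * (1 * w i) = w i * Complex.exp (s * w i) := by
          simp only [id]
          ring
        rw [← e4]
        exact e3
      · exact hasDerivAt_const s 0
    · intro s i j
      have e1 : -((dg w s)⁻¹.1 * diagonal w) i j =
          if i = j then -(Complex.exp (-(s * w i)) * w i) else 0 := by
        rw [dg_inv, diagonal_mul_diagonal, diagonal_apply]
        split_ifs
        · rfl
        · exact neg_zero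
      rw [e1]
      have e2 : (fun s : ℂ => (dg w s)⁻¹.1 i j) =
          fun s : ℂ => if i = j then Complex.exp (-(s * w i)) else 0 := by
        funext s
        rw [dg_inv, diagonal_apply]
      rw [e2]
      split_ifs with hij
      · have e3 := ((hasDerivAt_id s).mul_const (w i)).fun_neg.cexp
        have e4 : Complex.exp (-(id s * w i)) * -(1 * w i) =
            -(Complex.exp (-(s * w i)) * w i) := by
          simp only [id]
          ring
        rw [← e4]
        exact e3
      · exact hasDerivAt_const s 0
  obtain ⟨L, L', D, hM⟩ :=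
    Matrix.Pivot.exists_list_transvec_mul_diagonal_mul_list_transvec x.1
  have hdet : ∏ i, D i ≠ 0 := by
    have h1 := congrArg Matrix.det hM
    rw [Matrix.det_mul, Matrix.det_mul, TransvectionStruct.det_toMatrix_prod,
      TransvectionStruct.det_toMatrix_prod, Matrix.det_diagonal, one_mul, mul_one] at h1
    rw [← h1]
    exact ((Matrix.isUnit_iff_isUnit_det _).mp x.isUnit).ne_zero
  obtain ⟨w, hw⟩ := logs' D hdet
  have hprod : ∀ L : List (TransvectionStruct (Fin d) ℂ),
      ((L.map lf).prod).1 = (L.map TransvectionStruct.toMatrix).prod := by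
    intro L
    induction L with
    | nil => simp
    | cons t L ih =>
      rw [List.map_cons, List.prod_cons, List.map_cons, List.prod_cons, Units.val_mul, ih, lf_val]
  have hx2 : x = (L.map lf).prod * dg w 1 * (L'.map lf).prod := by
    apply Units.ext
    rw [Units.val_mul, Units.val_mul, hprod, hprod, dg_val]
    simp only [one_mul, hw]
    exact hM
  rw [hx2]
  refine G.mul_mem (G.mul_mem ?_ (hdg w)) ?_
  · apply Subgroup.list_prod_mem
    intro y hy
    obtain ⟨t, _, rfl⟩ := List.mem_map.mp hy
    exact htr t
  · apply Subgroup.list_prod_mem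
    intro y hy
    obtain ⟨t, _, rfl⟩ := List.mem_map.mp hy
    exact htr t

end Pool.Agent.Lib.MPf11a48.KM
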