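import Pool.Agent.Lib.MP_f11a48_ag.KM.SpecA

/-!
# Module MIMG: the traces on the unitary blocks are purely imaginary
-/

set_option autoImplicit false

namespace Pool.Agent.Lib.MPf11a48.KM

open Matrix MvPolynomial Pool.Agent.Lib.MPf11a48.Tors
open Pool.Agent.Lib.MPf11a48.CM hiding OmegaM
open Pool.Agent.Lib.MPf11a48.K3 Pool.Agent.Lib.MPf11a48.KU
open KRatM (cx_add cx_smul cx_zero cx_mul)

namespace ImgM

/-- complex conjugation fixes rational matrices -/
theorem cx_conj {μ ν : Type} (A : Matrix μ ν ℚ) : (cx A).map (starRingEnd ℂ) = cx A := by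
  ext i j
  simp [cx]

/-- complex conjugation and traces -/
theorem conj_trace {μ : Type} [Fintype μ] (A B : Matrix μ μ ℂ) :
    (starRingEnd ℂ) (A * B).trace =
      (A.map (starRingEnd ℂ) * B.map (starRingEnd ℂ)).trace := by
  rw [← Matrix.map_mul]
  simp only [Matrix.trace, Matrix.diag_apply, Matrix.map_apply, map_sum]

theorem cx_so {n : ℕ} {qB : Matrix (Fin n) (Fin n) ℚ} {E : Set (Matrix (Fin n) (Fin n) ℚ)}
    {ρ : Matrix (Fin n) (Fin n) ℚ} (h : ρ ∈ soE qB E) : cx ρ ∈ soC qB E := by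
  refine ⟨?_, fun e he => ?_⟩
  · have h1 : (cx ρ)ᵀ = cx ρᵀ := rfl
    rw [h1, ← cx_mul, ← cx_mul, ← cx_add, h.1, cx_zero]
  · rw [← cx_mul, ← cx_mul, h.2 e he]

end ImgM

open ImgM in
/-- **MIMG.** -/
theorem specMImg (hTRP : SpecMTrp) (hGAL : SpecMGal) : SpecMImg := by
  intro D ρ hρ k
  obtain ⟨-, h1', h2'⟩ := hTRP D (cx ρ) (cx_so hρ)
  have h1 : (cx ρ * D.pr (Sum.inr (Sum.inl k))).trace = (D.xu (cx ρ) k).trace := by
    simpa using h1' 1 k
  have h2 : (cx ρ * D.pr (Sum.inr (Sum.inr k))).trace = -(D.xu (cx ρ) k).trace := by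
    simpa using h2' 1 k
  have h3 := (hGAL D).2.2.2.2 k
  rw [← h1, conj_trace, cx_conj, h3, h2, h1]

end Pool.Agent.Lib.MPf11a48.KM
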