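import Pool.Agent.Lib.MP_f11a48_ag.KM.SpecB

/-! # PSI: the images of the infinitesimal isometries preserve the polarisation -/

set_option autoImplicit false

namespace Pool.Agent.Lib.MPf11a48.KM

open Matrix MvPolynomial Pool.Agent.Lib.MPf11a48.Tors
open Pool.Agent.Lib.MPf11a48.CM hiding OmegaM
open Pool.Agent.Lib.MPf11a48.GL2 (lie Geo en van tang tang_add tang_mul tang_C tang_X tang_sum)
open Pool.Agent.Lib.MPf11a48.GL2T (IsAlg)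
open Pool.Agent.Lib.MPf11a48.U (AbData Ix HD EndAlg)
open Pool.Agent.Lib.MPf11a48.K3 Pool.Agent.Lib.MPf11a48.KU

namespace PsiM

variable {g n : ℕ}

/-- The polynomials for the similitudes. -/
noncomputable def pol (A M : Matrix (Ix g) (Ix g) ℂ) (i j : Ix g) :
    MvPolynomial ((Ix g ⊕ (Fin n ⊕ Unit)) × (Ix g ⊕ (Fin n ⊕ Unit))) ℂ :=
  (∑ k, ∑ l, X (Sum.inl k, Sum.inl i) * (C (A k l) * X (Sum.inl l, Sum.inl j))) +
    C (-M i j) * X (Sum.inr (Sum.inr ()), Sum.inr (Sum.inr ()))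

theorem sum_form (A Z W : Matrix (Ix g) (Ix g) ℂ) (i j : Ix g) :
    ∑ k, ∑ l, Z k i * (A k l * W l j) = (Zᵀ * A * W) i j := by
  rw [Matrix.mul_assoc, Matrix.mul_apply]
  refine Finset.sum_congr rfl fun k _ => ?_
  rw [Matrix.mul_apply, Finset.mul_sum]
  rfl

theorem pol_eval (A M : Matrix (Ix g) (Ix g) ℂ) (i j : Ix g) (y : Grp3 g n) :
    eval (en (bd3 y).1) (pol (n := n) A M i j) =
      (y.1.1ᵀ * A * y.1.1 - (y.2.2 : ℂ) • M) i j := by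
  rw [pol, map_add, map_sum, map_mul, eval_C, eval_X, Matrix.sub_apply, Matrix.smul_apply,
    smul_eq_mul, sub_eq_add_neg, ← sum_form]
  congr 1
  · refine Finset.sum_congr rfl fun k _ => ?_
    rw [map_sum]
    refine Finset.sum_congr rfl fun l _ => ?_
    rw [map_mul, map_mul, eval_X, eval_X, eval_C]
    rfl
  · change -M i j * (y.2.2 : ℂ) = -((y.2.2 : ℂ) * M i j)
    ring

theorem pol_tang (A M : Matrix (Ix g) (Ix g) ℂ) (i j : Ix g) (f Z : Matrix (Ix g) (Ix g) ℂ)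
    (x ρ : Matrix (Fin n) (Fin n) ℂ) (z : ℂ) :
    tang (pol (n := n) A M i j) (lb3 f x z) (lb3 Z ρ 0) =
      (Zᵀ * A * f + fᵀ * A * Z) i j := by
  rw [pol, tang_add, tang_mul, tang_C, tang_X, zero_mul, zero_add]
  have h0 : lb3 Z ρ 0 (Sum.inr (Sum.inr ())) (Sum.inr (Sum.inr ())) = 0 := rfl
  rw [h0, mul_zero, add_zero, tang_sum, Matrix.add_apply, ← sum_form, ← sum_form,
    ← Finset.sum_add_distrib]
  refine Finset.sum_congr rfl fun k _ => ?_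
  rw [tang_sum, ← Finset.sum_add_distrib]
  refine Finset.sum_congr rfl fun l _ => ?_
  rw [tang_mul, tang_mul, tang_C, tang_X, tang_X, zero_mul, zero_add, map_mul, eval_C, eval_X,
    eval_X]
  rfl

end PsiM

open PsiM in
theorem specMPsi (hFul : SpecMFul) (hMat : SpecMMat) (hSim : SpecUSim) (hHDA : U.SpecHDA) :
    SpecMPsi := by
  intro D ρ hρ
  obtain ⟨⟨J, hHD⟩, -⟩ := hHDA Qbar D.g D.N D.A D.c le_rfl D.ks.abvar D.ks.per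
  have hHD' : HD D.c J D.A.psi := hHD
  obtain ⟨T, hT⟩ : ∃ T : Set (GL (Ix D.g ⊕ (Fin D.n ⊕ Unit)) ℂ),
      T = {f | ∃ y : Grp3 D.g D.n, bd3 (y * (D.c, D.t, tpi)) = f ∧
        y.1.1ᵀ * cx D.A.psi * y.1.1 = (y.2.2 : ℂ) • cx D.A.psi} := ⟨_, rfl⟩
  obtain ⟨h1, h2, h3⟩ := hSim D.g D.N D.n D.A D.c D.t J hHD' T hT
  have hTT : TT D T := ⟨h1, h2, h3⟩
  obtain ⟨hskew, hwm⟩ := (hMat D).1 ρ hρ
  have hlie : lb3 (D.cl ρ) ρ 0 ∈ lie T := by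
    have h := (hFul D T hTT).1 (D.xr ρ) (D.xu ρ) hskew
    rwa [← hwm] at h
  obtain ⟨M, hM⟩ : ∃ M : Matrix (Ix D.g) (Ix D.g) ℂ,
      M = ((tpi : ℂˣ) : ℂ)⁻¹ • (D.c.1ᵀ * cx D.A.psi * D.c.1) := ⟨_, rfl⟩
  have hvan : ∀ i j, pol (n := D.n) (cx D.A.psi) M i j ∈ van T := by
    intro i j f hf
    rw [hT] at hf
    obtain ⟨y, rfl, hy⟩ := hf
    rw [pol_eval]
    have e1 : (y * (D.c, D.t, tpi)).1.1 = y.1.1 * D.c.1 := rfl
    have e2 : (((y * (D.c, D.t, tpi)).2.2 : ℂˣ) : ℂ) = (y.2.2 : ℂ) * ((tpi : ℂˣ) : ℂ) := rfl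
    have e3 : (y.1.1 * D.c.1)ᵀ * cx D.A.psi * (y.1.1 * D.c.1) =
        (y.2.2 : ℂ) • (D.c.1ᵀ * cx D.A.psi * D.c.1) := by
      calc (y.1.1 * D.c.1)ᵀ * cx D.A.psi * (y.1.1 * D.c.1) =
          D.c.1ᵀ * (y.1.1ᵀ * cx D.A.psi * y.1.1) * D.c.1 := by
            rw [Matrix.transpose_mul]
            simp only [Matrix.mul_assoc]
        _ = _ := by
            rw [hy, Matrix.mul_smul, Matrix.smul_mul]
    have e4 : (y.2.2 : ℂ) * ((tpi : ℂˣ) : ℂ) * ((tpi : ℂˣ) : ℂ)⁻¹ = (y.2.2 : ℂ) := by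
      field_simp
    rw [e1, e2, e3, hM, smul_smul, e4, sub_self]
    rfl
  have hmem : bd3 (D.c, D.t, tpi) ∈ T := h2
  have hz : ∀ i j, ((D.cl ρ * D.c.1)ᵀ * cx D.A.psi * D.c.1 +
      D.c.1ᵀ * cx D.A.psi * (D.cl ρ * D.c.1)) i j = 0 := by
    intro i j
    have h := hlie _ hmem _ (hvan i j)
    rw [bd3_val] at h
    change tang (pol (n := D.n) (cx D.A.psi) M i j) (lb3 D.c.1 D.t.1 ((tpi : ℂˣ) : ℂ))
      (lb3 (D.cl ρ) ρ 0 * lb3 D.c.1 D.t.1 ((tpi : ℂˣ) : ℂ)) = 0 at h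
    rw [lb3_mul, zero_mul, pol_tang] at h
    exact h
  have hz' : D.c.1ᵀ * ((D.cl ρ)ᵀ * cx D.A.psi + cx D.A.psi * D.cl ρ) * D.c.1 = 0 := by
    ext i j
    have h := hz i j
    have e : (D.cl ρ * D.c.1)ᵀ * cx D.A.psi * D.c.1 +
        D.c.1ᵀ * cx D.A.psi * (D.cl ρ * D.c.1) =
        D.c.1ᵀ * ((D.cl ρ)ᵀ * cx D.A.psi + cx D.A.psi * D.cl ρ) * D.c.1 := by
      rw [Matrix.transpose_mul]
      noncomm_ring
    rw [e] at h
    exact h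
  have hci : D.c.1 * D.c⁻¹.1 = 1 := D.c.mul_inv
  have hci' : D.c⁻¹.1ᵀ * D.c.1ᵀ = 1 := by
    rw [← Matrix.transpose_mul, hci, Matrix.transpose_one]
  calc (D.cl ρ)ᵀ * cx D.A.psi + cx D.A.psi * D.cl ρ =
      (D.c⁻¹.1ᵀ * D.c.1ᵀ) * ((D.cl ρ)ᵀ * cx D.A.psi + cx D.A.psi * D.cl ρ) *
        (D.c.1 * D.c⁻¹.1) := by rw [hci, hci', Matrix.one_mul, Matrix.mul_one]
    _ = D.c⁻¹.1ᵀ * (D.c.1ᵀ * ((D.cl ρ)ᵀ * cx D.A.psi + cx D.A.psi * D.cl ρ) * D.c.1) *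
        D.c⁻¹.1 := by simp only [Matrix.mul_assoc]
    _ = 0 := by rw [hz', Matrix.mul_zero, Matrix.zero_mul]

end Pool.Agent.Lib.MPf11a48.KM
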