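import Pool.Agent.Lib.MP_f11a48_ag.KM.SpecA

set_option autoImplicit false

/-!
# Module RRT: a link between two real blocks of the same size gives equal power sums
-/

namespace Pool.Agent.Lib.MPf11a48.KM

open Matrix Pool.Agent.Lib.MPf11a48.KU

namespace RrtM

variable {m : ℕ}

/-- the transpose as a linear map -/
noncomputable def tl (m : ℕ) : Matrix (Fin m) (Fin m) ℂ →ₗ[ℂ] Matrix (Fin m) (Fin m) ℂ where
  toFun Y := Yᵀ
  map_add' _ _ := Matrix.transpose_add _ _
  map_smul' _ _ := Matrix.transpose_smul _ _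

/-- the projection onto the skew-symmetric matrices -/
noncomputable def AA (m : ℕ) : Matrix (Fin m) (Fin m) ℂ →ₗ[ℂ] Matrix (Fin m) (Fin m) ℂ :=
  (2 : ℂ)⁻¹ • (LinearMap.id - tl m)

/-- the projection onto the symmetric matrices -/
noncomputable def SS (m : ℕ) : Matrix (Fin m) (Fin m) ℂ →ₗ[ℂ] Matrix (Fin m) (Fin m) ℂ :=
  (2 : ℂ)⁻¹ • (LinearMap.id + tl m)

theorem AA_apply (Y : Matrix (Fin m) (Fin m) ℂ) : AA m Y = (2 : ℂ)⁻¹ • (Y - Yᵀ) := rfl

theorem SS_apply (Y : Matrix (Fin m) (Fin m) ℂ) : SS m Y = (2 : ℂ)⁻¹ • (Y + Yᵀ) := rfl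

theorem half (Y : Matrix (Fin m) (Fin m) ℂ) : (2 : ℂ)⁻¹ • (Y + Y) = Y := by
  rw [← two_smul ℂ Y, smul_smul, inv_mul_cancel₀ two_ne_zero, one_smul]

theorem AS (Y : Matrix (Fin m) (Fin m) ℂ) : AA m Y + SS m Y = Y := by
  rw [AA_apply, SS_apply, ← smul_add, sub_add_add_cancel, half]

theorem AA_skew {Y : Matrix (Fin m) (Fin m) ℂ} (h : Yᵀ = -Y) : AA m Y = Y := by
  rw [AA_apply, h, sub_neg_eq_add, half]

theorem AA_sym {Y : Matrix (Fin m) (Fin m) ℂ} (h : Yᵀ = Y) : AA m Y = 0 := by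
  rw [AA_apply, h, sub_self, smul_zero]

theorem AA_t (Y : Matrix (Fin m) (Fin m) ℂ) : (AA m Y)ᵀ = -AA m Y := by
  rw [AA_apply, Matrix.transpose_smul, Matrix.transpose_sub, Matrix.transpose_transpose,
    ← smul_neg, neg_sub]

theorem SS_t (Y : Matrix (Fin m) (Fin m) ℂ) : (SS m Y)ᵀ = SS m Y := by
  rw [SS_apply, Matrix.transpose_smul, Matrix.transpose_add, Matrix.transpose_transpose, add_comm]

/-- the adjoint action as a linear map -/
noncomputable def adl (X : Matrix (Fin m) (Fin m) ℂ) :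
    Module.End ℂ (Matrix (Fin m) (Fin m) ℂ) :=
  LinearMap.mulLeft ℂ X - LinearMap.mulRight ℂ X

theorem adl_apply (X Y : Matrix (Fin m) (Fin m) ℂ) : adl X Y = X * Y - Y * X := rfl

theorem adl_pow (X : Matrix (Fin m) (Fin m) ℂ) (k : ℕ) (Y : Matrix (Fin m) (Fin m) ℂ) :
    (adl X ^ k) Y = (fun W => X * W - W * X)^[k] Y := by
  induction k with
  | zero => simp
  | succ k ih => rw [Function.iterate_succ_apply', ← ih, pow_succ', Module.End.mul_apply, adl_apply]

theorem adl_skew {X : Matrix (Fin m) (Fin m) ℂ} (hX : Xᵀ = -X) {Y : Matrix (Fin m) (Fin m) ℂ}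
    (hY : Yᵀ = -Y) : (X * Y - Y * X)ᵀ = -(X * Y - Y * X) := by
  rw [Matrix.transpose_sub, Matrix.transpose_mul, Matrix.transpose_mul, hX, hY, neg_mul_neg,
    neg_mul_neg, neg_sub]

theorem adl_pow_skew {X : Matrix (Fin m) (Fin m) ℂ} (hX : Xᵀ = -X) (k : ℕ)
    {Y : Matrix (Fin m) (Fin m) ℂ} (hY : Yᵀ = -Y) : ((adl X ^ k) Y)ᵀ = -((adl X ^ k) Y) := by
  induction k with
  | zero => simpa using hY
  | succ k ih =>
    rw [pow_succ', Module.End.mul_apply, adl_apply]
    exact adl_skew hX ih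

/-- the operators of ADT have the same trace -/
theorem trace_eq (hADT : SpecMAdt) {X X' : Matrix (Fin m) (Fin m) ℂ} (hX : Xᵀ = -X)
    (hX' : X'ᵀ = -X') (φ : Matrix (Fin m) (Fin m) ℂ →ₗ[ℂ] Matrix (Fin m) (Fin m) ℂ)
    (hφ : ∀ Y, (φ Y)ᵀ = -φ Y) (hi : ∀ Y, Yᵀ = -Y → φ Y = 0 → Y = 0)
    (hc : ∀ Y, φ (X * Y - Y * X) = X' * φ Y - φ Y * X') (k : ℕ) :
    (∑ j ∈ Finset.range (k + 1),
      (k.choose j : ℂ) * (-1) ^ j * ((X ^ (k - j)).trace * (X ^ j).trace)) -
        2 ^ k * (X ^ k).trace =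
    (∑ j ∈ Finset.range (k + 1),
      (k.choose j : ℂ) * (-1) ^ j * ((X' ^ (k - j)).trace * (X' ^ j).trace)) -
        2 ^ k * (X' ^ k).trace := by
  have key : ∀ X : Matrix (Fin m) (Fin m) ℂ, Xᵀ = -X →
      LinearMap.trace ℂ _ ((adl X ^ k).comp (AA m)) = (2 : ℂ)⁻¹ * ((∑ j ∈ Finset.range (k + 1),
      (k.choose j : ℂ) * (-1) ^ j * ((X ^ (k - j)).trace * (X ^ j).trace)) -
        2 ^ k * (X ^ k).trace) := by
    intro X hX
    apply hADT m X hX k
    · intro Y hY
      rw [LinearMap.comp_apply, AA_skew hY, adl_pow]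
    · intro Y hY
      rw [LinearMap.comp_apply, AA_sym hY, map_zero]
  have hΦi : Function.Injective (φ.comp (AA m) + SS m) := by
    rw [← LinearMap.ker_eq_bot, LinearMap.ker_eq_bot']
    intro Y hY
    rw [LinearMap.add_apply, LinearMap.comp_apply] at hY
    have h1 := congrArg Matrix.transpose hY
    rw [Matrix.transpose_add, hφ, SS_t, Matrix.transpose_zero] at h1
    have h2 : SS m Y = 0 := by
      have h3 : SS m Y + SS m Y = 0 := by
        calc SS m Y + SS m Y = (φ (AA m Y) + SS m Y) + (-φ (AA m Y) + SS m Y) := by abel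
          _ = 0 := by rw [hY, h1, add_zero]
      rw [← half (SS m Y), h3, smul_zero]
    rw [h2, add_zero] at hY
    rw [← AS Y, h2, hi _ (AA_t Y) hY, add_zero]
  obtain ⟨e, he⟩ : ∃ e : Matrix (Fin m) (Fin m) ℂ ≃ₗ[ℂ] Matrix (Fin m) (Fin m) ℂ,
      ∀ Y, e Y = φ (AA m Y) + SS m Y :=
    ⟨LinearEquiv.ofInjectiveEndo _ hΦi, fun Y => rfl⟩
  have hpow : ∀ k Y, Yᵀ = -Y → φ ((adl X ^ k) Y) = (adl X' ^ k) (φ Y) := by
    intro k
    induction k with
    | zero => intro Y _; simp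
    | succ k ih =>
      intro Y hY
      rw [pow_succ', pow_succ', Module.End.mul_apply, Module.End.mul_apply, adl_apply, hc,
        ih Y hY, adl_apply]
  have hcomm : ∀ Y, e ((adl X ^ k) (AA m Y)) = (adl X' ^ k) (AA m (e Y)) := by
    intro Y
    have h1 := adl_pow_skew hX k (AA_t Y)
    have h2 : AA m (e Y) = φ (AA m Y) := by
      rw [he, map_add, AA_skew (hφ _), AA_sym (SS_t Y), add_zero]
    rw [h2, he, AA_skew h1, hpow k _ (AA_t Y)]
    have h3 : SS m ((adl X ^ k) (AA m Y)) = 0 := by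
      rw [SS_apply, h1, add_neg_cancel, smul_zero]
    rw [h3, add_zero]
  have hconj : (adl X' ^ k).comp (AA m) = e.conj ((adl X ^ k).comp (AA m)) := by
    apply LinearMap.ext
    intro Z
    rw [LinearEquiv.conj_apply_apply, LinearMap.comp_apply, LinearMap.comp_apply, hcomm,
      LinearEquiv.apply_symm_apply]
  have h1 := key X hX
  have h2 := key X' hX'
  rw [hconj, LinearMap.trace_conj'] at h2
  exact mul_left_cancel₀ (inv_ne_zero (two_ne_zero (α := ℂ))) (h1.symm.trans h2)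

theorem odd_zero {X : Matrix (Fin m) (Fin m) ℂ} (hX : Xᵀ = -X) {k : ℕ} (hk : Odd k) :
    (X ^ k).trace = 0 := by
  have h1 : (X ^ k).trace = -(X ^ k).trace := by
    conv_lhs => rw [← Matrix.trace_transpose, Matrix.transpose_pow, hX, hk.neg_pow X,
      Matrix.trace_neg]
  linear_combination (1 / 2 : ℂ) * h1

end RrtM

open RrtM in
theorem specMRrt (hSPL : SpecMSpl) (hADT : SpecMAdt) : SpecMRrt := by
  intro m hm hm4 hm2 h hh hs1 hs2 φ hφ hc hne
  have hmem : ∀ X : Matrix (Fin m) (Fin m) ℂ, X ∈ blkS ℂ m true ↔ Xᵀ = -X := fun X => Iff.rfl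
  -- `φ` is injective on the skew-symmetric matrices
  have hi : ∀ Y, Yᵀ = -Y → φ Y = 0 → Y = 0 := by
    rcases hSPL.1 m hm hm4 (blkS ℂ m true ⊓ LinearMap.ker φ) inf_le_left (by
      intro X hX w hw
      obtain ⟨p, hp, rfl⟩ := hs1 X hX
      refine ⟨?_, ?_⟩
      · exact adl_skew (hh p hp).1 hw.1
      · have h2 : φ w = 0 := hw.2
        change φ (p.1 * w - w * p.1) = 0
        rw [hc p hp, h2, Matrix.mul_zero, Matrix.zero_mul, sub_zero]) with h0 | h0
    · intro Y hY hY0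
      have : Y ∈ blkS ℂ m true ⊓ LinearMap.ker φ := ⟨hY, hY0⟩
      rw [h0] at this
      exact (Submodule.mem_bot ℂ).1 this
    · obtain ⟨Y, hY, hY0⟩ := hne
      rw [← h0] at hY
      exact absurd hY.2 hY0
  intro p hp k
  have key := trace_eq hADT (hh p hp).1 (hh p hp).2 φ hφ hi (hc p hp)
  induction k using Nat.strong_induction_on with
  | _ k ih =>
    rcases Nat.even_or_odd k with hk | hk
    · rcases Nat.eq_zero_or_pos k with rfl | hk0
      · simp
      · have h1 := key k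
        obtain ⟨n, rfl⟩ : ∃ n, k = n + 1 := ⟨k - 1, by omega⟩
        obtain ⟨l, rfl⟩ : ∃ l, n = l + 1 := by
          rcases n with _ | l
          · exact absurd hk (by decide)
          · exact ⟨l, rfl⟩
        have e : ∀ f : ℕ → ℂ, ∑ x ∈ Finset.range (l + 1 + 1 + 1), f x =
            ∑ x ∈ Finset.range (l + 1), f (x + 1) + f 0 + f (l + 1 + 1) := by
          intro f
          rw [Finset.sum_range_succ, Finset.sum_range_succ']
        rw [e, e] at h1
        have h2 : ∑ x ∈ Finset.range (l + 1),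
            ((l + 1 + 1).choose (x + 1) : ℂ) * (-1) ^ (x + 1) *
              ((p.1 ^ (l + 1 + 1 - (x + 1))).trace * (p.1 ^ (x + 1)).trace) =
            ∑ x ∈ Finset.range (l + 1),
            ((l + 1 + 1).choose (x + 1) : ℂ) * (-1) ^ (x + 1) *
              ((p.2 ^ (l + 1 + 1 - (x + 1))).trace * (p.2 ^ (x + 1)).trace) := by
          refine Finset.sum_congr rfl fun x hx => ?_
          have hx' := Finset.mem_range.1 hx
          rw [ih (l + 1 + 1 - (x + 1)) (by omega), ih (x + 1) (by omega)]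
        rw [h2] at h1
        have h3 : ((-1 : ℂ)) ^ (l + 1 + 1) = 1 := hk.neg_one_pow
        simp only [Nat.choose_self, Nat.choose_zero_right, Nat.cast_one, one_mul, pow_zero,
          Matrix.trace_one, Nat.sub_self, Nat.sub_zero, h3, Fintype.card_fin] at h1
        have h4 : ((2 : ℂ) * m - 2 ^ (l + 1 + 1)) *
            ((p.1 ^ (l + 1 + 1)).trace - (p.2 ^ (l + 1 + 1)).trace) = 0 := by
          linear_combination h1
        have h5 : (2 : ℂ) * m - 2 ^ (l + 1 + 1) ≠ 0 := by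
          intro h6
          have h7 : (m : ℂ) = 2 ^ (l + 1) := by
            rw [pow_succ (2 : ℂ) (l + 1)] at h6
            linear_combination (1 / 2 : ℂ) * h6
          have h8 : m = 2 ^ (l + 1) := by exact_mod_cast h7
          have h9 : Even l := by
            have : Even (l + 2) := hk
            rwa [Nat.even_add, iff_true_right (by decide)] at this
          obtain ⟨r, hr⟩ := h9
          exact hm2 r (by rw [h8, hr]; congr 1; ring)
        exact sub_eq_zero.1 ((mul_eq_zero.1 h4).resolve_left h5)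
    · rw [odd_zero (hh p hp).1 hk, odd_zero (hh p hp).2 hk]

end Pool.Agent.Lib.MPf11a48.KM
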