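import Pool.Agent.Lib.MP_f11a48_ag.KM.SpecA
import Pool.Agent.Lib.MP_f11a48_ag.K3.KSc
import Pool.Agent.Lib.MP_f11a48_ag.K3.KEx

/-! # SCL: endomorphisms which commute with the Clifford operators and with the commutant of the
infinitesimal isometries are combinations of the `π_i` -/

set_option autoImplicit false

namespace Pool.Agent.Lib.MPf11a48.KM

open Matrix
open Pool.Agent.Lib.MPf11a48.U (AbData Ix HD EndAlg)
open Pool.Agent.Lib.MPf11a48.K3 Pool.Agent.Lib.MPf11a48.KU
open KLieM (bl clC gam)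

namespace SclM

section core

variable {ι ν : Type} [Fintype ι] [DecidableEq ι] [Fintype ν] [DecidableEq ν] {m : ℕ}

/-- the Clifford operators of an orthonormal basis -/
noncomputable def gg (C : Fin m → Matrix ι ι ℂ) (P : Matrix (Fin m) (Fin m) ℂ) (s : ℂ)
    (u : Fin m) : Matrix ι ι ℂ := ∑ w, (s * P w u) • C w

omit [DecidableEq ι] in
theorem gg_mul (C : Fin m → Matrix ι ι ℂ) (P : Matrix (Fin m) (Fin m) ℂ) (s : ℂ) (u v : Fin m) :
    gg C P s u * gg C P s v = ∑ w, ∑ w', (s * P w u * (s * P w' v)) • (C w * C w') := by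
  rw [gg, gg, Finset.sum_mul]
  refine Finset.sum_congr rfl fun w _ => ?_
  rw [Finset.mul_sum]
  refine Finset.sum_congr rfl fun w' _ => ?_
  rw [Matrix.smul_mul, Matrix.mul_smul, smul_smul]

omit [DecidableEq ι] in
theorem gg_anti (C : Fin m → Matrix ι ι ℂ) (P S : Matrix (Fin m) (Fin m) ℂ) (s : ℂ)
    (p : Matrix ι ι ℂ) (hs : 2 * (s * s) = 1) (hP : Pᵀ * S * P = 1)
    (hC : ∀ a b, C a * C b + C b * C a = (2 * S a b) • p) (u v : Fin m) :
    gg C P s u * gg C P s v + gg C P s v * gg C P s u = if u = v then p else 0 := by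
  have h1 : gg C P s v * gg C P s u =
      ∑ w, ∑ w', (s * P w u * (s * P w' v)) • (C w' * C w) := by
    rw [gg_mul, Finset.sum_comm]
    refine Finset.sum_congr rfl fun w _ => Finset.sum_congr rfl fun w' _ => ?_
    rw [mul_comm]
  rw [gg_mul, h1, ← Finset.sum_add_distrib]
  have h2 : ∀ w, (∑ w', (s * P w u * (s * P w' v)) • (C w * C w')) +
      ∑ w', (s * P w u * (s * P w' v)) • (C w' * C w) =
      (∑ w', P w u * (S w w' * P w' v)) • p := by
    intro w
    rw [← Finset.sum_add_distrib, Finset.sum_smul]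
    refine Finset.sum_congr rfl fun w' _ => ?_
    rw [← smul_add, hC, smul_smul]
    congr 1
    linear_combination (P w u * S w w' * P w' v) * hs
  rw [Finset.sum_congr rfl fun w _ => h2 w, ← Finset.sum_smul]
  have h3 : ∑ w, ∑ w', P w u * (S w w' * P w' v) = (Pᵀ * S * P) u v := by
    rw [Matrix.mul_assoc, Matrix.mul_apply]
    refine Finset.sum_congr rfl fun w _ => ?_
    rw [Matrix.mul_apply, Finset.mul_sum]
    rfl
  rw [h3, hP, Matrix.one_apply, ite_smul, one_smul, zero_smul]

omit [Fintype ι] [DecidableEq ι] in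
theorem eq_gg (C : Fin m → Matrix ι ι ℂ) (P S : Matrix (Fin m) (Fin m) ℂ) (s : ℂ)
    (hs : 2 * (s * s) = 1) (hP : P * (Pᵀ * S) = 1) (a : Fin m) :
    C a = ∑ u, (2 * s * (Pᵀ * S) u a) • gg C P s u := by
  have h1 : ∀ u, (2 * s * (Pᵀ * S) u a) • gg C P s u = ∑ w, (P w u * (Pᵀ * S) u a) • C w := by
    intro u
    rw [gg, Finset.smul_sum]
    refine Finset.sum_congr rfl fun w _ => ?_
    rw [smul_smul]
    congr 1
    linear_combination (P w u * (Pᵀ * S) u a) * hs
  rw [Finset.sum_congr rfl fun u _ => h1 u, Finset.sum_comm]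
  simp only [← Finset.sum_smul, ← Matrix.mul_apply]
  rw [hP, Finset.sum_eq_single a]
  · rw [Matrix.one_apply_eq, one_smul]
  · intro w _ hw
    rw [Matrix.one_apply_ne hw, zero_smul]
  · intro h
    exact absurd (Finset.mem_univ _) h

omit [DecidableEq ι] in
/-- the main argument, for one species -/
theorem core (hScl : SpecKScl) (C : Fin m → Matrix ι ι ℂ) (S : Matrix (Fin m) (Fin m) ℂ)
    (hS : Sᵀ = S) (hd : S.det ≠ 0) (p : Matrix ι ι ℂ) (L : Matrix ν ι ℂ) (R : Matrix ι ν ℂ)
    (hLR : L * R = 1) (hRL : R * L = p) (hpC : ∀ a, p * C a = C a) (hCp : ∀ a, C a * p = C a)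
    (hC : ∀ a b, C a * C b + C b * C a = (2 * S a b) • p) (b : Matrix ι ι ℂ)
    (hb : ∀ a, b * C a = C a * b) (hbp : b * p = p * b)
    (hY : ∀ Y : Matrix ι ι ℂ, p * Y = Y → Y * p = Y →
      (∀ a a', Y * (C a * C a') = C a * C a' * Y) → b * Y = Y * b) :
    ∃ s : ℂ, b * p = s • p := by
  obtain ⟨P, hP⟩ := KExM.exists_cong S hS hd
  have hP' : P * (Pᵀ * S) = 1 := mul_eq_one_comm.mp hP
  obtain ⟨s, hs⟩ : ∃ s : ℂ, 2 * (s * s) = 1 := by
    obtain ⟨s, hs⟩ := IsAlgClosed.exists_pow_nat_eq ((2 : ℂ)⁻¹) two_pos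
    exact ⟨s, by rw [← pow_two, hs, mul_inv_cancel₀ two_ne_zero]⟩
  obtain ⟨G, hG⟩ : ∃ G : Fin m → Matrix ι ι ℂ, G = gg C P s := ⟨_, rfl⟩
  have hanti : ∀ u v, G u * G v + G v * G u = if u = v then p else 0 := by
    intro u v
    rw [hG]
    exact gg_anti C P S s p hs hP hC u v
  have hpG : ∀ u, p * G u = G u := by
    intro u
    rw [hG, gg, Finset.mul_sum]
    exact Finset.sum_congr rfl fun w _ => by rw [Matrix.mul_smul, hpC]
  have hGp : ∀ u, G u * p = G u := by
    intro u
    rw [hG, gg, Finset.sum_mul]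
    exact Finset.sum_congr rfl fun w _ => by rw [Matrix.smul_mul, hCp]
  have hbG : ∀ u, b * G u = G u * b := by
    intro u
    rw [hG, gg]
    exact KScM.comm_sum _ _ hb
  have hmul : ∀ u v, L * G u * R * (L * G v * R) = L * (G u * G v) * R := by
    intro u v
    calc L * G u * R * (L * G v * R) = L * G u * (R * L) * G v * R := by
          simp only [Matrix.mul_assoc]
      _ = L * (G u * G v) * R := by
          rw [hRL, Matrix.mul_assoc L (G u) p, hGp]
          simp only [Matrix.mul_assoc]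
  obtain ⟨r, hr⟩ := hScl ν Unit (fun _ => m) (fun u => L * G u.2 * R) (by
    intro u v
    rw [hmul, hmul, ← Matrix.add_mul, ← Matrix.mul_add, hanti]
    by_cases huv : u = v
    · rw [if_pos huv, if_pos (by rw [huv]), ← hRL, ← Matrix.mul_assoc, hLR, Matrix.one_mul, hLR]
    · have h2 : u.2 ≠ v.2 := by
        intro h
        apply huv
        obtain ⟨⟨⟩, u⟩ := u
        obtain ⟨⟨⟩, v⟩ := v
        exact congrArg _ h
      rw [if_neg huv, if_neg h2, Matrix.mul_zero, Matrix.zero_mul]) (L * b * R) (by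
    intro u
    calc L * b * R * (L * G u.2 * R) = L * b * (R * L) * G u.2 * R := by
          simp only [Matrix.mul_assoc]
      _ = L * (b * (p * G u.2)) * R := by
          rw [hRL]
          simp only [Matrix.mul_assoc]
      _ = L * (G u.2 * p * b) * R := by rw [hpG, hbG, hGp]
      _ = L * G u.2 * (R * L) * b * R := by
          rw [hRL]
          simp only [Matrix.mul_assoc]
      _ = L * G u.2 * R * (L * b * R) := by simp only [Matrix.mul_assoc]) (by
    intro Y hYc
    have hYc' : ∀ u v, Y * (L * (G u * G v) * R) = L * (G u * G v) * R * Y := by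
      intro u v
      have h := hYc () u v
      change Y * (L * G u * R * (L * G v * R)) = L * G u * R * (L * G v * R) * Y at h
      rw [hmul] at h
      exact h
    have e1 : p * (R * Y * L) = R * Y * L := by
      rw [← hRL]
      calc R * L * (R * Y * L) = R * (L * R) * Y * L := by simp only [Matrix.mul_assoc]
        _ = R * Y * L := by rw [hLR, Matrix.mul_one]
    have e2 : R * Y * L * p = R * Y * L := by
      rw [← hRL]
      calc R * Y * L * (R * L) = R * Y * (L * R) * L := by simp only [Matrix.mul_assoc]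
        _ = R * Y * L := by rw [hLR, Matrix.mul_one]
    have e3 : ∀ u v, R * Y * L * (G u * G v) = G u * G v * (R * Y * L) := by
      intro u v
      calc R * Y * L * (G u * G v) = R * Y * L * (G u * (G v * p)) := by rw [hGp]
        _ = R * (Y * (L * (G u * G v) * R)) * L := by
            rw [← hRL]
            simp only [Matrix.mul_assoc]
        _ = R * (L * (G u * G v) * R * Y) * L := by rw [hYc']
        _ = (R * L) * G u * G v * (R * Y * L) := by simp only [Matrix.mul_assoc]
        _ = G u * G v * (R * Y * L) := by rw [hRL, hpG]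
    have e4 : ∀ a a', R * Y * L * (C a * C a') = C a * C a' * (R * Y * L) := by
      intro a a'
      have f1 : ∀ a, C a = ∑ u, (2 * s * (Pᵀ * S) u a) • G u := by
        intro a
        rw [hG]
        exact eq_gg C P S s hs hP' a
      have f2 : C a * C a' = ∑ x : Fin m × Fin m,
          (2 * s * (Pᵀ * S) x.1 a * (2 * s * (Pᵀ * S) x.2 a')) • (G x.1 * G x.2) := by
        rw [Fintype.sum_prod_type]
        conv_lhs => rw [f1 a, f1 a', Finset.sum_mul]
        refine Finset.sum_congr rfl fun u _ => ?_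
        rw [Finset.mul_sum]
        refine Finset.sum_congr rfl fun v _ => ?_
        rw [Matrix.smul_mul, Matrix.mul_smul, smul_smul]
      rw [f2]
      exact KScM.comm_sum _ _ fun x => e3 x.1 x.2
    have e5 := hY _ e1 e2 e4
    calc L * b * R * Y = L * (b * (R * Y * L)) * R := by
          have : L * (b * (R * Y * L)) * R = L * b * R * Y * (L * R) := by
            simp only [Matrix.mul_assoc]
          rw [this, hLR, Matrix.mul_one]
      _ = L * (R * Y * L * b) * R := by rw [e5]
      _ = (L * R) * Y * (L * b * R) := by simp only [Matrix.mul_assoc]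
      _ = Y * (L * b * R) := by rw [hLR, Matrix.one_mul])
  refine ⟨r, ?_⟩
  have hpp : p * p = p := by
    rw [← hRL]
    calc R * L * (R * L) = R * (L * R) * L := by simp only [Matrix.mul_assoc]
      _ = R * L := by rw [hLR, Matrix.mul_one]
  calc b * p = b * (p * p) := by rw [hpp]
    _ = p * b * p := by rw [← Matrix.mul_assoc, hbp]
    _ = R * (L * b * R) * L := by
        rw [← hRL]
        simp only [Matrix.mul_assoc]
    _ = r • p := by rw [hr, Matrix.mul_smul, Matrix.mul_one, Matrix.smul_mul, hRL]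

end core

theorem cx_inj {μ : Type} {X Y : Matrix μ μ ℚ} (h : cx X = cx Y) : X = Y := by
  ext i j
  have h1 := congrFun (congrFun h i) j
  exact Rat.cast_injective (α := ℂ) h1

theorem cx_ne {μ : Type} {X : Matrix μ μ ℚ} (h : X ≠ 0) : cx X ≠ 0 := by
  intro h1
  apply h
  apply cx_inj
  rw [h1, KRatM.cx_zero]

end SclM

open SclM KRatM KLieM in
theorem specMScl (hScl : SpecKScl) (hClb : SpecMClb) (hCmp : SpecMCmp) : SpecMScl := by
  intro D b hb hbZ
  have hcom : ∀ ρ ∈ soE D.qB D.E, ∀ i, cx (cli D.qB D.B ρ) * D.pc i =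
      D.pc i * cx (cli D.qB D.B ρ) := by
    intro ρ hρ i
    have h1 : cx ρ ∈ D.so := by
      refine ⟨?_, fun e he => ?_⟩
      · have h4 := congrArg cx hρ.1
        rw [cx_add, cx_mul, cx_mul, cx_zero] at h4
        exact h4
      · rw [← cx_mul, ← cx_mul, hρ.2 e he]
    have h2 := (hClb D).2.2.2.2.1 (cx ρ) h1 i
    rw [Dat.cl, KLieM.clC_cx, Matrix.smul_mul, Matrix.mul_smul] at h2
    exact smul_right_injective _ (inv_ne_zero (by norm_num : (4 : ℂ) ≠ 0)) h2
  have hmul : ∀ i j, D.pc i * D.pc j = if i = j then D.pc i else 0 := by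
    intro i j
    rw [Dat.pc, Dat.pc, ← cx_mul, D.ks.mul]
    split
    · rfl
    · exact cx_zero
  have hbp : ∀ i, b * D.pc i = D.pc i * b := by
    intro i
    refine hbZ (D.π i) fun ρ hρ => ?_
    apply cx_inj
    rw [cx_mul, cx_mul]
    exact (hcom ρ hρ i).symm
  have hleft : ∀ i a, D.pc i * cx (D.B a) = if i = D.ix a then cx (D.B a) else 0 := by
    intro i a
    have h1 : cx (D.B a) = D.pc (D.ix a) * cx (D.B a) := by
      rw [Dat.pc, ← cx_mul, D.ks.left]
    split
    · next h => rw [h, ← h1]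
    · next h => rw [h1, ← Matrix.mul_assoc, hmul, if_neg h, Matrix.zero_mul]
  have hright : ∀ i a, cx (D.B a) * D.pc i = if i = D.ix a then cx (D.B a) else 0 := by
    intro i a
    have h1 : cx (D.B a) = cx (D.B a) * D.pc (D.ix a) := by
      rw [Dat.pc, ← cx_mul, D.ks.right]
    split
    · next h => rw [h, ← h1]
    · next h => rw [h1, Matrix.mul_assoc, hmul, if_neg (Ne.symm h), Matrix.mul_zero]
  have hcliff : ∀ a a', cx (D.B a) * cx (D.B a') + cx (D.B a') * cx (D.B a) =
      (2 * (D.qB a a' : ℂ)) • D.pc (D.ix a) := by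
    intro a a'
    rw [← cx_mul, ← cx_mul, ← cx_add, D.ks.clifford, cx_smul, Dat.pc]
    push_cast
    rfl
  have hex : ∀ i, ∃ s : ℂ, b * D.pc i = s • D.pc i := by
    intro i
    have hne : D.pc i ≠ 0 := cx_ne (D.ks.ne i)
    have hid : D.pc i * D.pc i = D.pc i := by rw [hmul, if_pos rfl]
    obtain ⟨ν, hν, hν', -, L, R, hLR, hRL⟩ := (hCmp (Ix D.g) (D.pc i) hid).1 hne
    obtain ⟨m, ⟨e⟩⟩ : ∃ m : ℕ, Nonempty (Fin m ≃ {a : Fin D.n // D.ix a = i}) :=
      ⟨Fintype.card {a : Fin D.n // D.ix a = i}, ⟨(Fintype.equivFin _).symm⟩⟩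
    obtain ⟨j, hj⟩ : ∃ j : Fin m → Fin D.n, j = fun w => (e w).1 := ⟨_, rfl⟩
    have hji : ∀ w, D.ix (j w) = i := by
      intro w
      rw [hj]
      exact (e w).2
    have hjs : ∀ a, D.ix a = i → ∃ w, j w = a := by
      intro a ha
      refine ⟨e.symm ⟨a, ha⟩, ?_⟩
      rw [hj]
      change (e (e.symm ⟨a, ha⟩)).1 = a
      rw [e.apply_symm_apply]
    have hjinj : Function.Injective j := by
      intro w w' h
      rw [hj] at h
      exact e.injective (Subtype.ext h)
    have hqs : ∀ a a', D.qB a a' = D.qB a' a := by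
      intro a a'
      conv_lhs => rw [← D.ks.symm]
      rfl
    obtain ⟨S, hS⟩ : ∃ S : Matrix (Fin m) (Fin m) ℂ,
        S = fun w w' => (D.qB (j w) (j w') : ℂ) := ⟨_, rfl⟩
    have hdet : S.det ≠ 0 := by
      obtain ⟨S', hS'⟩ : ∃ S' : Matrix (Fin m) (Fin m) ℂ,
        S' = fun w w' => (D.qB⁻¹ (j w) (j w') : ℂ) := ⟨_, rfl⟩
      have h1 : S * S' = 1 := by
        ext w w'
        rw [Matrix.mul_apply]
        have h2 : ∑ v, S w v * S' v w' = ∑ a, (D.qB (j w) a : ℂ) * (D.qB⁻¹ a (j w') : ℂ) := by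
          rw [hS, hS']
          refine Finset.sum_of_injOn j hjinj.injOn (fun _ _ => Finset.mem_univ _) ?_
            (fun _ _ => rfl)
          intro a _ ha
          have h3 : D.ix (j w) ≠ D.ix a := by
            intro h4
            apply ha
            obtain ⟨v, hv⟩ := hjs a (by rw [← h4, hji])
            exact ⟨v, Finset.mem_coe.2 (Finset.mem_univ v), hv⟩
          rw [D.ks.orth _ _ h3, Rat.cast_zero, zero_mul]
        rw [h2]
        have h3 : (D.qB * D.qB⁻¹) (j w) (j w') = (1 : Matrix (Fin D.n) (Fin D.n) ℚ) (j w) (j w') := by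
          rw [Matrix.mul_nonsing_inv _ (isUnit_iff_ne_zero.2 D.ks.det)]
        rw [Matrix.mul_apply] at h3
        have h4 := congrArg (fun x : ℚ => (x : ℂ)) h3
        push_cast at h4
        rw [h4, Matrix.one_apply, Matrix.one_apply]
        by_cases h5 : w = w'
        · rw [if_pos h5, if_pos (by rw [h5]), Rat.cast_one]
        · rw [if_neg h5, if_neg (fun h => h5 (hjinj h)), Rat.cast_zero]
      intro h2
      have h3 := congrArg Matrix.det h1
      rw [Matrix.det_mul, h2, zero_mul, Matrix.det_one] at h3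
      exact zero_ne_one h3
    refine core (ν := ν) hScl (fun w => cx (D.B (j w))) S ?_ hdet (D.pc i) L R hLR hRL ?_ ?_ ?_ b
      (fun a => hb _) (hbp i) ?_
    · rw [hS]
      ext w w'
      change ((D.qB (j w') (j w) : ℚ) : ℂ) = ((D.qB (j w) (j w') : ℚ) : ℂ)
      rw [hqs]
    · intro w
      rw [hleft, if_pos (hji w).symm]
    · intro w
      rw [hright, if_pos (hji w).symm]
    · intro w w'
      rw [hcliff, hji, hS]
    · intro Y hY1 hY2 hY3
      obtain ⟨d, β, l, h1⟩ := eq_sum Y
      have h2 : ∀ k, b * cx (ap (l k) Y) = cx (ap (l k) Y) * b := by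
        intro k
        refine hbZ _ fun ρ hρ => ?_
        have h3 : Y * cx (cli D.qB D.B ρ) = cx (cli D.qB D.B ρ) * Y := by
          obtain ⟨K, hK⟩ : ∃ K : Matrix (Ix D.g) (Ix D.g) ℂ, K = cx (cli D.qB D.B ρ) := ⟨_, rfl⟩
          have hK1 : K = ∑ x : Fin D.n × Fin D.n, (cx ρ * cx D.qB⁻¹) x.1 x.2 •
              (cx (D.B x.1) * cx (D.B x.2)) := by
            rw [hK, ← KLieM.clC_cx, clC, Fintype.sum_prod_type]
          have hK2 : K * D.pc i = D.pc i * K := by
            rw [hK]
            exact hcom ρ hρ i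
          have hK3 : D.pc i * K * D.pc i = ∑ x : Fin D.n × Fin D.n,
              (cx ρ * cx D.qB⁻¹) x.1 x.2 •
                (D.pc i * (cx (D.B x.1) * cx (D.B x.2)) * D.pc i) := by
            rw [hK1, Finset.mul_sum, Finset.sum_mul]
            refine Finset.sum_congr rfl fun x _ => ?_
            rw [Matrix.mul_smul, Matrix.smul_mul]
          have hK4 : Y * (D.pc i * K * D.pc i) = D.pc i * K * D.pc i * Y := by
            rw [hK3]
            refine KScM.comm_sum _ _ fun x => ?_
            by_cases hx : i = D.ix x.1 ∧ i = D.ix x.2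
            · obtain ⟨w, hw⟩ := hjs x.1 hx.1.symm
              obtain ⟨w', hw'⟩ := hjs x.2 hx.2.symm
              have h4 : D.pc i * (cx (D.B x.1) * cx (D.B x.2)) * D.pc i =
                  cx (D.B (j w)) * cx (D.B (j w')) := by
                rw [← Matrix.mul_assoc, hleft, if_pos hx.1, Matrix.mul_assoc, hright,
                  if_pos hx.2, hw, hw']
              rw [h4]
              exact hY3 w w'
            · have h4 : D.pc i * (cx (D.B x.1) * cx (D.B x.2)) * D.pc i = 0 := by
                rw [← Matrix.mul_assoc, hleft, Matrix.mul_assoc, hright]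
                by_cases hx1 : i = D.ix x.1
                · rw [if_neg (fun h => hx ⟨hx1, h⟩), Matrix.mul_zero]
                · rw [if_neg hx1, Matrix.zero_mul]
              rw [h4, Matrix.mul_zero, Matrix.zero_mul]
          have hK5 : D.pc i * K * D.pc i = D.pc i * K := by
            rw [Matrix.mul_assoc, hK2, ← Matrix.mul_assoc, hid]
          have hK6 : D.pc i * K * D.pc i = K * D.pc i := by
            rw [← hK2, Matrix.mul_assoc, hid]
          rw [← hK]
          calc Y * K = Y * (D.pc i * K) := by rw [← Matrix.mul_assoc, hY2]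
            _ = Y * (D.pc i * K * D.pc i) := by rw [hK5]
            _ = D.pc i * K * D.pc i * Y := hK4
            _ = K * (D.pc i * Y) := by rw [hK6, Matrix.mul_assoc]
            _ = K * Y := by rw [hY1]
        rw [← mul_rat, h3, rat_mul]
      rw [h1]
      exact KScM.comm_sum _ _ h2
  choose s hs using hex
  refine ⟨s, ?_⟩
  have hsum : ∑ i, D.pc i = 1 := by
    have h1 := congrArg cx D.ks.sum
    rw [cx_one] at h1
    rw [← h1]
    ext x y
    simp [Dat.pc, cx, Matrix.sum_apply]
  calc b = b * ∑ i, D.pc i := by rw [hsum, Matrix.mul_one]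
    _ = ∑ i, s i • D.pc i := by
        rw [Finset.mul_sum]
        exact Finset.sum_congr rfl fun i _ => hs i

end Pool.Agent.Lib.MPf11a48.KM
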