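import Pool.Agent.Lib.MP_f11a48_ag.KM.SpecA

/-!
# SPL: `so(m)` (`m = 3` or `m ≥ 5`) and `sl(d)` are simple
-/

set_option autoImplicit false

namespace Pool.Agent.Lib.MPf11a48.KM

open Matrix
open Pool.Agent.Lib.MPf11a48.K3 Pool.Agent.Lib.MPf11a48.KU

namespace SplM

variable {m : ℕ}

/-- elementary matrices -/
abbrev El (a b : Fin m) : Matrix (Fin m) (Fin m) ℂ := Matrix.single a b 1

theorem El_apply (a b i j : Fin m) : El a b i j = if a = i ∧ b = j then 1 else 0 := rfl

theorem El_mul (a b : Fin m) (w : Matrix (Fin m) (Fin m) ℂ) (i j : Fin m) :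
    (El a b * w) i j = if i = a then w b j else 0 := by
  by_cases h : i = a
  · subst h
    rw [if_pos rfl, Matrix.single_mul_apply_same, one_mul]
  · rw [if_neg h, Matrix.single_mul_apply_of_ne _ _ _ _ _ h]

theorem mul_El (a b : Fin m) (w : Matrix (Fin m) (Fin m) ℂ) (i j : Fin m) :
    (w * El a b) i j = if j = b then w i a else 0 := by
  by_cases h : j = b
  · subst h
    rw [if_pos rfl, Matrix.mul_single_apply_same, mul_one]
  · rw [if_neg h, Matrix.mul_single_apply_of_ne _ _ _ _ _ h]

/-- the basis of the skew-symmetric matrices -/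
def F (a b : Fin m) : Matrix (Fin m) (Fin m) ℂ := El a b - El b a

theorem F_mem (a b : Fin m) : F a b ∈ blkS ℂ m true := by
  change (F a b)ᵀ = -F a b
  rw [F, transpose_sub, transpose_single, transpose_single, neg_sub]

theorem F_swap (a b : Fin m) : F a b = -F b a := by rw [F, F, neg_sub]

theorem F_mul (a b : Fin m) (w : Matrix (Fin m) (Fin m) ℂ) (i j : Fin m) :
    (F a b * w) i j = (if i = a then w b j else 0) - if i = b then w a j else 0 := by
  rw [F, sub_mul, Matrix.sub_apply, El_mul, El_mul]

theorem mul_F (a b : Fin m) (w : Matrix (Fin m) (Fin m) ℂ) (i j : Fin m) :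
    (w * F a b) i j = (if j = b then w i a else 0) - if j = a then w i b else 0 := by
  rw [F, mul_sub, Matrix.sub_apply, mul_El, mul_El]

/-- the pairs which meet `{a, c}` in exactly one element -/
def Sp (a c i j : Fin m) : Prop := Xor (i = a ∨ i = c) (j = a ∨ j = c)

open Classical in
/-- the component of `w` of the pairs which meet `{a, c}` in exactly one element -/
noncomputable def flt (a c : Fin m) (w : Matrix (Fin m) (Fin m) ℂ) : Matrix (Fin m) (Fin m) ℂ :=
  Matrix.of fun i j => if Sp a c i j then w i j else 0

theorem flt_eq {a c : Fin m} (hac : a ≠ c) {w : Matrix (Fin m) (Fin m) ℂ} (hw : wᵀ = -w) :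
    flt a c w = -(F a c * (F a c * w - w * F a c) - (F a c * w - w * F a c) * F a c) := by
  have hs : ∀ i j, w i j = -w j i := by
    intro i j
    have h := congrFun (congrFun hw j) i
    simpa using h
  have h0 : ∀ i, w i i = 0 := by
    intro i
    have h := hs i i
    linear_combination h / 2
  have hca : c ≠ a := hac.symm
  ext i j
  rw [Matrix.neg_apply, Matrix.sub_apply, F_mul, mul_F, Matrix.sub_apply, Matrix.sub_apply,
    Matrix.sub_apply, Matrix.sub_apply, F_mul, F_mul, F_mul, F_mul, mul_F, mul_F, mul_F, mul_F,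
    flt, Matrix.of_apply]
  by_cases h1 : i = a
  · subst h1
    by_cases h2 : j = i
    · subst h2
      simp [Sp, Xor, hac, hca, h0]
    · by_cases h3 : j = c
      · subst h3
        simp [Sp, Xor, hac, hca]
        linear_combination (-2) * hs i j
      · simp [Sp, Xor, hac, hca, h2, h3]
  · by_cases h1' : i = c
    · subst h1'
      by_cases h2 : j = i
      · subst h2
        simp [Sp, Xor, hac, hca, h0]
      · by_cases h3 : j = a
        · subst h3
          simp [Sp, Xor, hac, hca]
          linear_combination (-2) * hs i j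
        · simp [Sp, Xor, hac, hca, h2, h3]
    · by_cases h2 : j = a
      · subst h2
        simp [Sp, Xor, hac, hca, h1, h1']
      · by_cases h3 : j = c
        · subst h3
          simp [Sp, Xor, hac, hca, h1, h1']
        · simp [Sp, Xor, h1, h1', h2, h3]

section so

variable {W : Submodule ℂ (Matrix (Fin m) (Fin m) ℂ)} (hW : W ≤ blkS ℂ m true)
  (hst : ∀ X ∈ blkS ℂ m true, ∀ w ∈ W, X * w - w * X ∈ W)

include hW hst

theorem flt_mem {a c : Fin m} (hac : a ≠ c) {w : Matrix (Fin m) (Fin m) ℂ} (hw : w ∈ W) :
    flt a c w ∈ W := by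
  rw [flt_eq hac (hW hw)]
  exact W.neg_mem (hst _ (F_mem a c) _ (hst _ (F_mem a c) _ hw))

open Classical in
theorem fltS_mem {a b : Fin m} {w : Matrix (Fin m) (Fin m) ℂ} (hw : w ∈ W) (C : Finset (Fin m))
    (hC : ∀ c ∈ C, c ≠ a ∧ c ≠ b) :
    (Matrix.of fun i j => if ∀ c ∈ C, Sp a c i j ∧ Sp b c i j then w i j else 0) ∈ W := by
  induction C using Finset.induction_on with
  | empty =>
    have e : (Matrix.of fun i j => if ∀ c ∈ (∅ : Finset (Fin m)), Sp a c i j ∧ Sp b c i j
        then w i j else 0) = w := by
      ext i j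
      simp
    rw [e]
    exact hw
  | insert c C hc ih =>
    have h1 := ih fun c' hc' => hC c' (Finset.mem_insert_of_mem hc')
    obtain ⟨hca, hcb⟩ := hC c (Finset.mem_insert_self c C)
    have h2 := flt_mem hW hst hca.symm (flt_mem hW hst hcb.symm h1)
    have e : (Matrix.of fun i j => if ∀ c' ∈ insert c C, Sp a c' i j ∧ Sp b c' i j
        then w i j else 0) = flt a c (flt b c (Matrix.of fun i j =>
          if ∀ c ∈ C, Sp a c i j ∧ Sp b c i j then w i j else 0)) := by
      ext i j
      simp only [flt, Matrix.of_apply, Finset.forall_mem_insert]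
      by_cases h3 : Sp a c i j
      · by_cases h4 : Sp b c i j
        · simp [h3, h4]
        · simp [h3, h4]
      · simp [h3]
    rw [e]
    exact h2

theorem F_of {a b : Fin m} (h3 : 3 ≤ m) (h4 : m ≠ 4) (hab : a ≠ b)
    {w : Matrix (Fin m) (Fin m) ℂ} (hw : w ∈ W) (hne : w a b ≠ 0) : F a b ∈ W := by
  classical
  have hs : ∀ i j, w i j = -w j i := by
    intro i j
    have h := congrFun (congrFun (show wᵀ = -w from hW hw) j) i
    simpa using h
  have hmem := fltS_mem hW hst (a := a) (b := b) hw (Finset.univ.filter fun c => c ≠ a ∧ c ≠ b)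
    (fun c hc => (Finset.mem_filter.1 hc).2)
  have hex : ∀ S : Finset (Fin m), S.card < m → ∃ c, c ∉ S := by
    intro S hS
    by_contra hcon
    push Not at hcon
    have : S = Finset.univ := Finset.eq_univ_iff_forall.2 hcon
    rw [this, Finset.card_univ, Fintype.card_fin] at hS
    exact lt_irrefl _ hS
  have key : ∀ i j : Fin m, (∀ c ∈ (Finset.univ.filter fun c : Fin m => c ≠ a ∧ c ≠ b),
      Sp a c i j ∧ Sp b c i j) ↔ ((i = a ∧ j = b) ∨ (i = b ∧ j = a)) := by
    intro i j
    constructor
    · intro h
      have h' : ∀ c, c ≠ a → c ≠ b → Sp a c i j ∧ Sp b c i j := fun c h1 h2 =>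
        h c (Finset.mem_filter.2 ⟨Finset.mem_univ _, h1, h2⟩)
      -- neither `i` nor `j` is outside of `{a, b}`
      have hout : ∀ i j : Fin m, (∀ c, c ≠ a → c ≠ b → Sp a c i j ∧ Sp b c i j) →
          i = a ∨ i = b := by
        intro i j h'
        by_contra hi
        push Not at hi
        obtain ⟨hia, hib⟩ := hi
        obtain ⟨s1, s2⟩ := h' i hia hib
        have j1 : j ≠ a ∧ j ≠ i := by
          rcases s1 with ⟨_, h⟩ | ⟨_, h⟩
          · push Not at h
            exact h
          · exact absurd (Or.inr rfl) h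
        have j2 : j ≠ b ∧ j ≠ i := by
          rcases s2 with ⟨_, h⟩ | ⟨_, h⟩
          · push Not at h
            exact h
          · exact absurd (Or.inr rfl) h
        have hcard : ({a, b, i, j} : Finset (Fin m)).card = 4 := by
          rw [Finset.card_insert_of_notMem, Finset.card_insert_of_notMem,
            Finset.card_insert_of_notMem, Finset.card_singleton]
          · simpa using j1.2.symm
          · simp only [Finset.mem_insert, Finset.mem_singleton, not_or]
            exact ⟨hib.symm, j2.1.symm⟩
          · simp only [Finset.mem_insert, Finset.mem_singleton, not_or]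
            exact ⟨hab, hia.symm, j1.1.symm⟩
        have hle : 4 ≤ m := by
          rw [← hcard]
          exact (Finset.card_le_univ _).trans (by rw [Fintype.card_fin])
        obtain ⟨c, hc⟩ := hex {a, b, i, j} (by rw [hcard]; omega)
        simp only [Finset.mem_insert, Finset.mem_singleton, not_or] at hc
        obtain ⟨c1, c2, c3, c4⟩ := hc
        have := (h' c c1 c2).1
        rcases this with ⟨h, _⟩ | ⟨h, _⟩
        · rcases h with h | h
          · exact hia h
          · exact c3 h.symm
        · rcases h with h | h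
          · exact j1.1 h
          · exact c4 h.symm
      have hsym : ∀ a c i j : Fin m, Sp a c i j → Sp a c j i := by
        intro a c i j h
        rcases h with h | h
        · exact Or.inr h
        · exact Or.inl h
      have hi := hout i j h'
      have hj := hout j i fun c h1 h2 => ⟨hsym _ _ _ _ (h' c h1 h2).1, hsym _ _ _ _ (h' c h1 h2).2⟩
      have hijne : i ≠ j := by
        intro e
        subst e
        obtain ⟨c, hc⟩ := hex {a, b} (lt_of_le_of_lt Finset.card_le_two (by omega))
        simp only [Finset.mem_insert, Finset.mem_singleton, not_or] at hc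
        rcases (h' c hc.1 hc.2).1 with ⟨h, h'⟩ | ⟨h, h'⟩ <;> exact h' h
      rcases hi with hi | hi <;> rcases hj with hj | hj
      · exact absurd (hi.trans hj.symm) hijne
      · exact Or.inl ⟨hi, hj⟩
      · exact Or.inr ⟨hi, hj⟩
      · exact absurd (hi.trans hj.symm) hijne
    · intro h c hc
      obtain ⟨hc1, hc2⟩ := (Finset.mem_filter.1 hc).2
      clear hmem
      rcases h with ⟨hi, hj⟩ | ⟨hi, hj⟩
      · subst hi hj
        refine ⟨Or.inl ⟨Or.inl rfl, ?_⟩, Or.inr ⟨Or.inl rfl, ?_⟩⟩
        · push Not
          exact ⟨hab.symm, hc2.symm⟩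
        · push Not
          exact ⟨hab, hc1.symm⟩
      · subst hi hj
        refine ⟨Or.inr ⟨Or.inl rfl, ?_⟩, Or.inl ⟨Or.inl rfl, ?_⟩⟩
        · push Not
          exact ⟨hab.symm, hc2.symm⟩
        · push Not
          exact ⟨hab, hc1.symm⟩
  have e : (Matrix.of fun i j => if ∀ c ∈ (Finset.univ.filter fun c : Fin m => c ≠ a ∧ c ≠ b),
      Sp a c i j ∧ Sp b c i j then w i j else 0) = w a b • F a b := by
    ext i j
    rw [Matrix.of_apply, Matrix.smul_apply, F, Matrix.sub_apply, El_apply, El_apply]
    simp only [key]
    by_cases h1 : i = a ∧ j = b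
    · obtain ⟨rfl, rfl⟩ := h1
      simp [hab, hab.symm]
    · by_cases h2 : i = b ∧ j = a
      · obtain ⟨rfl, rfl⟩ := h2
        simp [hab, hab.symm, hs i j]
      · rw [if_neg (by tauto), if_neg (fun h => h1 ⟨h.1.symm, h.2.symm⟩),
          if_neg (fun h => h2 ⟨h.1.symm, h.2.symm⟩)]
        simp
  rw [e] at hmem
  have h5 := W.smul_mem (w a b)⁻¹ hmem
  rwa [smul_smul, inv_mul_cancel₀ hne, one_smul] at h5

omit hW in
theorem F_step {a b c : Fin m} (hab : a ≠ b) (hbc : b ≠ c) (hac : a ≠ c) (h : F a b ∈ W) :
    F a c ∈ W := by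
  have h1 := W.neg_mem (hst _ (F_mem b c) _ h)
  have e : -(F b c * F a b - F a b * F b c) = F a c := by
    have e1 : F b c * F a b = El c a := by
      rw [F, F, sub_mul, mul_sub, mul_sub, Matrix.single_mul_single_of_ne _ _ _ _ hac.symm,
        Matrix.single_mul_single_of_ne _ _ _ _ hbc.symm,
        Matrix.single_mul_single_of_ne _ _ _ _ hab.symm, Matrix.single_mul_single_same]
      simp
    have e2 : F a b * F b c = El a c := by
      rw [F, F, sub_mul, mul_sub, mul_sub, Matrix.single_mul_single_same,
        Matrix.single_mul_single_of_ne _ _ _ _ hbc, Matrix.single_mul_single_of_ne _ _ _ _ hab,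
        Matrix.single_mul_single_of_ne _ _ _ _ hac]
      simp
    rw [e1, e2, F, neg_sub]
  rwa [e] at h1

theorem so_top {a b : Fin m} (hab : a ≠ b) (h : F a b ∈ W) : W = blkS ℂ m true := by
  have h1 : ∀ y, F a y ∈ W := by
    intro y
    by_cases hay : a = y
    · subst hay
      rw [F, sub_self]
      exact W.zero_mem
    · by_cases hby : b = y
      · subst hby
        exact h
      · exact F_step hst hab hby hay h
  have h2 : ∀ x y, F x y ∈ W := by
    intro x y
    by_cases hxy : x = y
    · subst hxy
      rw [F, sub_self]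
      exact W.zero_mem
    · by_cases hax : a = x
      · subst hax
        exact h1 y
      · by_cases hay : a = y
        · subst hay
          rw [F_swap]
          exact W.neg_mem (h1 x)
        · refine F_step hst (Ne.symm hax) hay hxy ?_
          rw [F_swap]
          exact W.neg_mem (h1 x)
  refine le_antisymm hW ?_
  intro X hX
  have hX' : Xᵀ = -X := hX
  have e : X = ∑ i, ∑ j, (X i j / 2) • F i j := by
    have e1 : ∀ Y : Matrix (Fin m) (Fin m) ℂ, ∑ i, ∑ j, Y i j • El i j = Y := by
      intro Y
      conv_rhs => rw [Matrix.matrix_eq_sum_single Y]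
      refine Finset.sum_congr rfl fun i _ => Finset.sum_congr rfl fun j _ => ?_
      rw [Matrix.smul_single, smul_eq_mul, mul_one]
    have e2 : ∑ i, ∑ j, (X i j / 2) • F i j =
        (2 : ℂ)⁻¹ • ((∑ i, ∑ j, X i j • El i j) - ∑ i, ∑ j, Xᵀ j i • El j i) := by
      rw [← Finset.sum_sub_distrib, Finset.smul_sum]
      refine Finset.sum_congr rfl fun i _ => ?_
      rw [← Finset.sum_sub_distrib, Finset.smul_sum]
      refine Finset.sum_congr rfl fun j _ => ?_
      rw [F, Matrix.transpose_apply, ← smul_sub, smul_smul]
      congr 1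
      ring
    rw [e2, e1, Finset.sum_comm, e1, hX', sub_neg_eq_add, ← two_smul ℂ X, smul_smul]
    norm_num
  rw [e]
  exact W.sum_mem fun i _ => W.sum_mem fun j _ => W.smul_mem _ (h2 i j)

end so

section sl

variable {W : Submodule ℂ (Matrix (Fin m) (Fin m) ℂ)} (hW : W ≤ blkS ℂ m false)
  (hst : ∀ X ∈ blkS ℂ m false, ∀ w ∈ W, X * w - w * X ∈ W)

theorem El_mem {a b : Fin m} (hab : a ≠ b) : El a b ∈ blkS ℂ m false := by
  change (El a b).trace = 0
  exact Matrix.trace_single_eq_of_ne _ _ _ hab

include hst

theorem El_of {a b : Fin m} (hab : a ≠ b) {w : Matrix (Fin m) (Fin m) ℂ} (hw : w ∈ W)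
    (hne : w a b ≠ 0) : El b a ∈ W := by
  have h1 := hst _ (El_mem hab.symm) _ (hst _ (El_mem hab.symm) _ hw)
  have e : El b a * (El b a * w - w * El b a) - (El b a * w - w * El b a) * El b a =
      (-2 * w a b) • El b a := by
    ext i j
    rw [Matrix.sub_apply, El_mul, mul_El, Matrix.sub_apply, Matrix.sub_apply, El_mul, El_mul,
      mul_El, mul_El, Matrix.smul_apply, El_apply, if_neg hab]
    by_cases hi : i = b
    · subst hi
      by_cases hj : j = a
      · subst hj
        simp [hab.symm]
        ring
      · simp [hj, Ne.symm hj]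
    · by_cases hj : j = a
      · subst hj
        simp [hi, Ne.symm hi, hab.symm]
      · simp [hi, Ne.symm hi, hj]
  rw [e] at h1
  have h2 := W.smul_mem (-2 * w a b)⁻¹ h1
  rwa [smul_smul, inv_mul_cancel₀ (mul_ne_zero (by norm_num) hne), one_smul] at h2

theorem El_dia {a b : Fin m} (hab : a ≠ b) {w : Matrix (Fin m) (Fin m) ℂ} (hw : w ∈ W)
    (hd : ∀ i j, i ≠ j → w i j = 0) (hne : w a a ≠ w b b) : El a b ∈ W := by
  have h1 := hst _ (El_mem hab) _ hw
  have e : El a b * w - w * El a b = (w b b - w a a) • El a b := by
    ext i j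
    rw [Matrix.sub_apply, El_mul, mul_El, Matrix.smul_apply, El_apply]
    by_cases hi : i = a
    · subst hi
      by_cases hj : j = b
      · subst hj
        simp
      · simp [hj, Ne.symm hj, hd b j (Ne.symm hj)]
    · by_cases hj : j = b
      · subst hj
        simp [hi, Ne.symm hi, hd i a hi]
      · simp [hi, hj, Ne.symm hi]
  rw [e] at h1
  have h2 := W.smul_mem (w b b - w a a)⁻¹ h1
  rwa [smul_smul, inv_mul_cancel₀ (sub_ne_zero.2 (Ne.symm hne)), one_smul] at h2

theorem El_left {a b c : Fin m} (hab : a ≠ b) (hcb : c ≠ b) (h : El a b ∈ W) : El c b ∈ W := by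
  by_cases hca : c = a
  · subst hca
    exact h
  · have h1 := hst _ (El_mem hca) _ h
    have e : El c a * El a b - El a b * El c a = El c b := by
      rw [Matrix.single_mul_single_same, Matrix.single_mul_single_of_ne _ _ _ _ (Ne.symm hcb),
        sub_zero, mul_one]
    rwa [e] at h1

theorem El_right {a b d : Fin m} (had : a ≠ d) (h : El a b ∈ W) : El a d ∈ W := by
  by_cases hbd : b = d
  · subst hbd
    exact h
  · have h1 := W.neg_mem (hst _ (El_mem hbd) _ h)
    have e : -(El b d * El a b - El a b * El b d) = El a d := by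
      rw [Matrix.single_mul_single_same, Matrix.single_mul_single_of_ne _ _ _ _ (Ne.symm had),
        zero_sub, neg_neg, mul_one]
    rwa [e] at h1

include hW

theorem sl_top {a b : Fin m} (hab : a ≠ b) (h : El a b ∈ W) : W = blkS ℂ m false := by
  have h0 : El b a ∈ W := El_of hst hab h (by rw [El_apply, if_pos ⟨rfl, rfl⟩]; exact one_ne_zero)
  have h1 : ∀ c d : Fin m, c ≠ d → El c d ∈ W := by
    intro c d hcd
    by_cases hcb : c = b
    · subst hcb
      exact El_right hst hcd h0
    · exact El_right hst hcd (El_left hst hab hcb h)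
  have h2 : ∀ c : Fin m, El c c - El a a ∈ W := by
    intro c
    by_cases hca : c = a
    · subst hca
      rw [sub_self]
      exact W.zero_mem
    · have h3 := hst _ (El_mem hca) _ (h1 a c (Ne.symm hca))
      rwa [Matrix.single_mul_single_same, Matrix.single_mul_single_same, mul_one] at h3
  refine le_antisymm hW ?_
  intro X hX
  have hX' : X.trace = 0 := hX
  have e : X = ∑ i, ∑ j, X i j • (El i j - if i = j then El a a else 0) := by
    have e1 : ∑ i, ∑ j, X i j • (El i j - if i = j then El a a else 0) =
        (∑ i, ∑ j, X i j • El i j) - ∑ i, X i i • El a a := by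
      rw [← Finset.sum_sub_distrib]
      refine Finset.sum_congr rfl fun i _ => ?_
      simp only [smul_sub, Finset.sum_sub_distrib, smul_ite, smul_zero, Finset.sum_ite_eq,
        Finset.mem_univ, if_true]
    rw [e1, ← Finset.sum_smul]
    have e2 : ∑ i, X i i = 0 := hX'
    rw [e2, zero_smul, sub_zero]
    conv_lhs => rw [Matrix.matrix_eq_sum_single X]
    refine Finset.sum_congr rfl fun i _ => Finset.sum_congr rfl fun j _ => ?_
    rw [Matrix.smul_single, smul_eq_mul, mul_one]
  rw [e]
  refine W.sum_mem fun i _ => W.sum_mem fun j _ => W.smul_mem _ ?_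
  by_cases hij : i = j
  · subst hij
    rw [if_pos rfl]
    exact h2 i
  · rw [if_neg hij, sub_zero]
    exact h1 i j hij

end sl

end SplM

open SplM in
theorem specMSpl : SpecMSpl := by
  refine ⟨?_, ?_⟩
  · intro m h3 h4 W hW hst
    by_cases hbot : W = ⊥
    · exact Or.inl hbot
    · right
      obtain ⟨w, hw, hw0⟩ := (Submodule.ne_bot_iff W).1 hbot
      have hex : ∃ a b, w a b ≠ 0 := by
        by_contra hcon
        push Not at hcon
        exact hw0 (Matrix.ext hcon)
      obtain ⟨a, b, hne⟩ := hex
      have hab : a ≠ b := by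
        intro e
        subst e
        have h := congrFun (congrFun (show wᵀ = -w from hW hw) a) a
        rw [Matrix.transpose_apply, Matrix.neg_apply] at h
        exact hne (by linear_combination h / 2)
      exact so_top hW hst hab (F_of hW hst h3 h4 hab hw hne)
  · intro d W hW hst
    by_cases hbot : W = ⊥
    · exact Or.inl hbot
    · right
      obtain ⟨w, hw, hw0⟩ := (Submodule.ne_bot_iff W).1 hbot
      by_cases hd : ∀ i j, i ≠ j → w i j = 0
      · have hex : ∃ a b, w a a ≠ w b b := by
          by_contra hcon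
          push Not at hcon
          have hex' : ∃ a b, w a b ≠ 0 := by
            by_contra hcon
            push Not at hcon
            exact hw0 (Matrix.ext hcon)
          obtain ⟨a, b, hne⟩ := hex'
          have hab : a = b := by
            by_contra hab
            exact hne (hd a b hab)
          subst hab
          have h1 : w.trace = 0 := hW hw
          have h2 : w.trace = (Fintype.card (Fin d) : ℂ) * w a a := by
            rw [Matrix.trace]
            simp only [Matrix.diag_apply]
            rw [Finset.sum_congr rfl fun i _ => hcon i a, Finset.sum_const, nsmul_eq_mul,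
              Finset.card_univ]
          rw [h2] at h1
          rcases mul_eq_zero.1 h1 with h3 | h3
          · have h4 : Fintype.card (Fin d) = 0 := by exact_mod_cast h3
            have : IsEmpty (Fin d) := Fintype.card_eq_zero_iff.1 h4
            exact this.false a
          · exact hne h3
        obtain ⟨a, b, hne⟩ := hex
        have hab : a ≠ b := fun e => hne (by rw [e])
        exact sl_top hW hst hab (El_dia hst hab hw hd hne)
      · push Not at hd
        obtain ⟨a, b, hab, hne⟩ := hd
        exact sl_top hW hst hab.symm (El_of hst hab hw hne)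

end Pool.Agent.Lib.MPf11a48.KM
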