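import Pool.Agent.Lib.MP_f11a48_ag.KM.Spg

/-! # Total power sums -/

set_option autoImplicit false
set_option linter.unusedSectionVars false

namespace Pool.Agent.Lib.MPf11a48.KM

open Matrix MvPolynomial Pool.Agent.Lib.MPf11a48.Tors
open Pool.Agent.Lib.MPf11a48.CM hiding OmegaM
open Pool.Agent.Lib.MPf11a48.GL2 (lie Geo)
open Pool.Agent.Lib.MPf11a48.GL2T (IsAlg)
open Pool.Agent.Lib.MPf11a48.U (AbData Ix HD EndAlg)
open Pool.Agent.Lib.MPf11a48.K3 Pool.Agent.Lib.MPf11a48.KU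
open KLieM (bl clC gam)

namespace TotM

/-- powers of rational matrices -/
theorem cx_pow {n : ℕ} (A : Matrix (Fin n) (Fin n) ℚ) (p : ℕ) : cx (A ^ p) = cx A ^ p := by
  induction p with
  | zero =>
    ext i j
    change ((((A ^ 0) i j : ℚ)) : ℂ) = _
    rw [pow_zero, pow_zero, Matrix.one_apply, Matrix.one_apply]
    split_ifs <;> simp
  | succ p ih => rw [pow_succ, pow_succ, SpgM.cxm, ih]

/-- automorphisms and traces of products -/
theorem map_tr {n : ℕ} (τ : ℂ ≃+* ℂ) (ρ : Matrix (Fin n) (Fin n) ℚ)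
    (p : Matrix (Fin n) (Fin n) ℂ) : τ ((cx ρ * p).trace) = (cx ρ * p.map τ).trace := by
  simp only [Matrix.trace, Matrix.diag_apply, Matrix.mul_apply, map_sum, map_mul]
  refine Finset.sum_congr rfl fun i _ => Finset.sum_congr rfl fun j _ => ?_
  have h : τ (cx ρ i j) = cx ρ i j := by
    change τ ((ρ i j : ℚ) : ℂ) = ((ρ i j : ℚ) : ℂ)
    exact map_ratCast τ _
  rw [h]
  rfl

/-- equal power sums -/
def Sim (D : Dat) (kk : Submodule ℚ (Matrix (Ix D.g) (Ix D.g) ℚ))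
    (r : Matrix (Ix D.g) (Ix D.g) ℚ → Matrix (Fin D.n) (Fin D.n) ℚ) (k l : D.R) : Prop :=
  ∀ Z ∈ kk, ∀ p : ℕ, ((D.xr (cx (r Z)) k) ^ p).trace = ((D.xr (cx (r Z)) l) ^ p).trace

theorem power_gal (hTrp : SpecMTrp) (hGal : SpecMGal) {D : Dat}
    {kk : Submodule ℚ (Matrix (Ix D.g) (Ix D.g) ℚ)}
    {r : Matrix (Ix D.g) (Ix D.g) ℚ → Matrix (Fin D.n) (Fin D.n) ℚ}
    {mm : Matrix (Ix D.g) (Ix D.g) ℚ → ℚ} (hK : KK D kk r mm) (τ : ℂ ≃+* ℂ) (k k' : D.R)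
    (h : ∀ e ∈ D.E, D.ch e (Sum.inl k') = τ (D.ch e (Sum.inl k)))
    (Z : Matrix (Ix D.g) (Ix D.g) ℚ) (hZ : Z ∈ kk) (p : ℕ) :
    ((D.xr (cx (r Z)) k') ^ p).trace = τ ((D.xr (cx (r Z)) k) ^ p).trace := by
  have hso := SpgM.mem_so D (hK.so Z hZ)
  obtain ⟨ht, -⟩ := hTrp D _ hso
  rw [← ht p k', ← ht p k, ← cx_pow, map_tr, (hGal D).2.1 τ (Sum.inl k) (Sum.inl k') h]

theorem sim_gal (hTrp : SpecMTrp) (hGal : SpecMGal) {D : Dat}
    {kk : Submodule ℚ (Matrix (Ix D.g) (Ix D.g) ℚ)}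
    {r : Matrix (Ix D.g) (Ix D.g) ℚ → Matrix (Fin D.n) (Fin D.n) ℚ}
    {mm : Matrix (Ix D.g) (Ix D.g) ℚ → ℚ} (hK : KK D kk r mm) {k l : D.R} (hs : Sim D kk r k l)
    (hne : D.ox k ≠ D.ox l) (k' : D.R) (hk' : D.ox k' = D.ox k) :
    ∃ l', D.ox l' = D.ox l ∧ Sim D kk r k' l' := by
  obtain ⟨τ, hτ⟩ := D.good.trans k k' hk'.symm ⟨l, hne.symm⟩
  obtain ⟨hg1, -, hg3, -⟩ := hGal D
  obtain ⟨s', hs'⟩ := hg1 τ (Sum.inl l)
  obtain ⟨l', rfl, hl'⟩ := hg3 τ l s' hs'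
  refine ⟨l', hl', fun Z hZ p => ?_⟩
  rw [power_gal hTrp hGal hK τ k k' hτ Z hZ p, power_gal hTrp hGal hK τ l l' hs' Z hZ p,
    hs Z hZ p]

end TotM

open TotM in
theorem specMTot (hTrp : SpecMTrp) (hGal : SpecMGal) (hSpg : SpecMSpg) : SpecMTot := by
  intro D kk r mm hK k l hs Z hZ p
  by_cases hne : D.ox k = D.ox l
  · rw [hne]
  have hs' : Sim D kk r k l := hs
  have hsym : ∀ a b, Sim D kk r a b → Sim D kk r b a := fun a b h Z hZ p => (h Z hZ p).symm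
  have htr : ∀ a b c, Sim D kk r a b → Sim D kk r b c → Sim D kk r a c :=
    fun a b c h h' Z hZ p => (h Z hZ p).trans (h' Z hZ p)
  have huniq : ∀ a b, D.ox a = D.ox b → Sim D kk r a b → a = b := by
    intro a b hab h
    by_contra hne
    obtain ⟨Z, hZ, hZ'⟩ := hSpg D kk r mm hK a b hne hab
    exact hZ' (h Z hZ 2)
  have h1 : ∀ k', ∃ l', D.ox k' = D.ox k → D.ox l' = D.ox l ∧ Sim D kk r k' l' := by
    intro k'
    by_cases hk' : D.ox k' = D.ox k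
    · obtain ⟨l', hl'⟩ := sim_gal hTrp hGal hK hs' hne k' hk'
      exact ⟨l', fun _ => hl'⟩
    · exact ⟨l, fun h => absurd h hk'⟩
  choose φ hφ using h1
  rw [← Finset.sum_filter, ← Finset.sum_filter]
  refine Finset.sum_bij (fun k' _ => φ k') ?_ ?_ ?_ ?_
  · intro a ha
    rw [Finset.mem_filter] at ha ⊢
    exact ⟨Finset.mem_univ _, (hφ a ha.2).1⟩
  · intro a ha b hb hab
    rw [Finset.mem_filter] at ha hb
    refine huniq a b (ha.2.trans hb.2.symm) (htr _ _ _ (hφ a ha.2).2 ?_)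
    rw [hab]
    exact hsym _ _ (hφ b hb.2).2
  · intro b hb
    rw [Finset.mem_filter] at hb
    obtain ⟨a, ha, hba⟩ := sim_gal hTrp hGal hK (hsym _ _ hs') (fun h => hne h.symm) b hb.2
    refine ⟨a, Finset.mem_filter.2 ⟨Finset.mem_univ _, ha⟩, ?_⟩
    refine huniq _ _ ((hφ a ha).1.trans hb.2.symm) (hsym _ _ (htr _ _ _ hba (hφ a ha).2))
  · intro a ha
    rw [Finset.mem_filter] at ha
    exact (hφ a ha.2).2 Z hZ p

end Pool.Agent.Lib.MPf11a48.KM
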