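import Pool.Agent.Lib.MP_f11a48_ag.KM.Mat

/-!
# TRP: powers and traces
-/

set_option autoImplicit false

namespace Pool.Agent.Lib.MPf11a48.KM

open Matrix MvPolynomial Pool.Agent.Lib.MPf11a48.Tors
open Pool.Agent.Lib.MPf11a48.CM hiding OmegaM
open Pool.Agent.Lib.MPf11a48.K3 Pool.Agent.Lib.MPf11a48.KU

namespace TrpM

open MatM

theorem bd_pow {κ : Type} [Fintype κ] [DecidableEq κ] {m : κ → ℕ}
    (X : (k : κ) → Matrix (Fin (m k)) (Fin (m k)) ℂ) (j : ℕ) :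
    (blockDiagonal' X) ^ j = blockDiagonal' (fun k => X k ^ j) := by
  rw [← Matrix.blockDiagonal'_pow]
  rfl

theorem Sg_trace {κ : Type} [Fintype κ] [DecidableEq κ] {m : κ → ℕ}
    (X : (k : κ) → Matrix (Fin (m k)) (Fin (m k)) ℂ) (k : κ) :
    (blockDiagonal' X * Sg m k).trace = (X k).trace := by
  unfold Sg
  rw [← Matrix.blockDiagonal'_mul, Matrix.trace_blockDiagonal', Finset.sum_eq_single k]
  · rw [Pi.single_eq_same, Matrix.mul_one]
  · intro l _ hl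
    rw [Pi.single_eq_of_ne hl, Matrix.mul_zero, Matrix.trace_zero]
  · intro h
    exact absurd (Finset.mem_univ k) h

theorem Sg_trace' {κ : Type} [Fintype κ] [DecidableEq κ] {m : κ → ℕ}
    (X : (k : κ) → Matrix (Fin (m k)) (Fin (m k)) ℂ) (k : κ) :
    ((blockDiagonal' X)ᵀ * Sg m k).trace = (X k).trace := by
  rw [Matrix.blockDiagonal'_transpose, Sg_trace, Matrix.trace_transpose]

theorem pow_inter {m n : Type} [Fintype m] [DecidableEq m] [Fintype n] [DecidableEq n]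
    {ρ : Matrix m m ℂ} {Q : Matrix m n ℂ} {Z : Matrix n n ℂ} (h : ρ * Q = Q * Z) (k : ℕ) :
    ρ ^ k * Q = Q * Z ^ k := by
  induction k with
  | zero => rw [pow_zero, pow_zero, Matrix.one_mul, Matrix.mul_one]
  | succ k ih =>
    rw [pow_succ, Matrix.mul_assoc, h, ← Matrix.mul_assoc, ih, Matrix.mul_assoc, pow_succ]

theorem bd_neg {κ : Type} [Fintype κ] [DecidableEq κ] {m : κ → ℕ}
    (X : (k : κ) → Matrix (Fin (m k)) (Fin (m k)) ℂ) :
    -(blockDiagonal' X) = blockDiagonal' (fun k => -X k) := by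
  rw [← Matrix.blockDiagonal'_neg]
  rfl

end TrpM

open MatM TrpM in
/-- **TRP**. -/
theorem specMTrp : SpecMTrp := by
  intro D ρ hρ
  obtain ⟨⟨a1, a2, a3⟩, ⟨b1, b2, b3⟩, ⟨c1, c2, c3⟩⟩ := rels D
  obtain ⟨-, hw⟩ := eq_wm hρ
  have hP : ρ * D.P = D.P * blockDiagonal' (D.xr ρ) := by
    conv_lhs => rw [hw]
    exact wm_P D _ _
  have hP' : ρ * D.P' = D.P' * blockDiagonal' (D.xu ρ) := by
    conv_lhs => rw [hw]
    exact wm_P' D _ _
  have hQ' : ρ * D.Q' = -(D.Q' * (blockDiagonal' (D.xu ρ))ᵀ) := by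
    conv_lhs => rw [hw]
    exact wm_Q' D _ _
  have hpow : ∀ k : ℕ, ρ ^ k * D.P = D.P * (blockDiagonal' (D.xr ρ)) ^ k :=
    fun k => pow_inter hP k
  have hpow' : ∀ k : ℕ, ρ ^ k * D.P' = D.P' * (blockDiagonal' (D.xu ρ)) ^ k :=
    fun k => pow_inter hP' k
  have hpowQ : ∀ k : ℕ, ρ ^ k * D.Q' = D.Q' * (-(blockDiagonal' (D.xu ρ))ᵀ) ^ k :=
    fun k => pow_inter (by rw [hQ', Matrix.mul_neg]) k
  refine ⟨fun k r => ?_, fun k u => ?_, fun k u => ?_⟩
  · rw [pr_inl, asc, hpow, Matrix.mul_assoc D.P, Matrix.mul_assoc D.P, Matrix.trace_mul_comm,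
      Matrix.mul_assoc, a1, Matrix.mul_one, bd_pow, Sg_trace]
  · rw [pr_inrl, asc, hpow', Matrix.mul_assoc D.P', Matrix.mul_assoc D.P', Matrix.trace_mul_comm,
      Matrix.mul_assoc, c2, Matrix.mul_one, bd_pow, Sg_trace]
  · rw [pr_inrr, asc, hpowQ, Matrix.mul_assoc D.Q', Matrix.mul_assoc D.Q',
      Matrix.trace_mul_comm, Matrix.mul_assoc, b3, Matrix.mul_one, ← Matrix.transpose_neg,
      ← Matrix.transpose_pow, bd_neg, bd_pow, Sg_trace']

end Pool.Agent.Lib.MPf11a48.KM
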