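import Pool.Agent.Lib.MP_f11a48_ag.KM.SpecA

/-!
# XDM: no links between blocks of different dimensions
-/

set_option autoImplicit false

namespace Pool.Agent.Lib.MPf11a48.KM

open Matrix
open Pool.Agent.Lib.MPf11a48.K3 Pool.Agent.Lib.MPf11a48.KU

namespace XdmM

/-- pairs `i < j` -/
abbrev Lt (m : ℕ) := {p : Fin m × Fin m // p.1 < p.2}

theorem card_lt (m : ℕ) : Fintype.card (Lt m) = m * (m - 1) / 2 := by
  have e : Lt m ≃ {p : Fin m × Fin m // p.2 < p.1} :=
    { toFun := fun p => ⟨(p.1.2, p.1.1), p.2⟩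
      invFun := fun p => ⟨(p.1.2, p.1.1), p.2⟩
      left_inv := fun p => rfl
      right_inv := fun p => rfl }
  have h1 : Fintype.card {p : Fin m × Fin m // p.2 < p.1} = Fintype.card (Lt m) :=
    (Fintype.card_congr e).symm
  have e2 : {p : Fin m × Fin m // p.1 = p.2} ≃ Fin m :=
    { toFun := fun p => p.1.1
      invFun := fun i => ⟨(i, i), rfl⟩
      left_inv := fun p => by
        apply Subtype.ext
        exact Prod.ext rfl p.2
      right_inv := fun i => rfl }
  have h2 : Fintype.card {p : Fin m × Fin m // p.1 = p.2} = m := by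
    rw [Fintype.card_congr e2, Fintype.card_fin]
  have h3 : Fintype.card (Fin m × Fin m) = m * m := by simp
  have h4 : Fintype.card (Lt m) + Fintype.card {p : Fin m × Fin m // p.1 = p.2} +
      Fintype.card {p : Fin m × Fin m // p.2 < p.1} = m * m := by
    rw [← h3, Fintype.card_subtype, Fintype.card_subtype, Fintype.card_subtype,
      ← Finset.card_univ, ← Finset.card_union_of_disjoint, ← Finset.card_union_of_disjoint]
    · congr 1
      ext p
      simp only [Finset.mem_union, Finset.mem_filter, Finset.mem_univ, true_and, iff_true]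
      rcases lt_trichotomy p.1 p.2 with h | h | h
      · exact Or.inl (Or.inl h)
      · exact Or.inl (Or.inr h)
      · exact Or.inr h
    · rw [Finset.disjoint_left]
      intro p hp hp'
      simp only [Finset.mem_union, Finset.mem_filter, Finset.mem_univ, true_and] at hp hp'
      rcases hp with h | h
      · exact absurd hp' (not_lt.2 h.le)
      · exact absurd hp' (by rw [h]; exact lt_irrefl _)
    · rw [Finset.disjoint_left]
      intro p hp hp'
      simp only [Finset.mem_filter, Finset.mem_univ, true_and] at hp hp'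
      exact absurd hp (by rw [hp']; exact lt_irrefl _)
  rw [h1, h2] at h4
  have h5 : 2 * Fintype.card (Lt m) = m * (m - 1) := by
    rw [Nat.mul_sub, mul_one]
    omega
  omega

/-- skew-symmetric matrices in coordinates -/
noncomputable def skewEquiv (m : ℕ) : blkS ℂ m true ≃ₗ[ℂ] (Lt m → ℂ) where
  toFun X := fun p => X.1 p.1.1 p.1.2
  map_add' X Y := rfl
  map_smul' a X := rfl
  invFun f := ⟨Matrix.of fun i j => if h : i < j then f ⟨(i, j), h⟩ else
    if h : j < i then -f ⟨(j, i), h⟩ else 0, by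
      change (Matrix.of _)ᵀ = -Matrix.of _
      ext i j
      rw [transpose_apply, neg_apply, of_apply, of_apply]
      rcases lt_trichotomy i j with h | h | h
      · rw [dif_neg (not_lt.2 h.le), dif_pos h, dif_pos h]
      · subst h
        rw [dif_neg (lt_irrefl _), dif_neg (lt_irrefl _), neg_zero]
      · rw [dif_pos h, dif_neg (not_lt.2 h.le), dif_pos h, neg_neg]⟩
  left_inv X := by
    apply Subtype.ext
    ext i j
    have hX : ∀ i j, X.1 j i = -X.1 i j := fun i j => by
      have := congrFun (congrFun (show X.1ᵀ = -X.1 from X.2) i) j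
      exact this
    change (if h : i < j then X.1 i j else if h : j < i then -X.1 j i else 0) = X.1 i j
    rcases lt_trichotomy i j with h | h | h
    · rw [dif_pos h]
    · subst h
      rw [dif_neg (lt_irrefl _), dif_neg (lt_irrefl _)]
      have := hX i i
      have h2 : X.1 i i + X.1 i i = 0 := by
        nth_rewrite 1 [this]
        ring
      have h3 : (2 : ℂ) * X.1 i i = 0 := by
        rw [two_mul]
        exact h2
      exact ((mul_eq_zero.1 h3).resolve_left (by norm_num)).symm
    · rw [dif_neg (not_lt.2 h.le), dif_pos h, hX j i]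
  right_inv f := by
    funext p
    change (if h : p.1.1 < p.1.2 then f ⟨(p.1.1, p.1.2), h⟩ else _) = f p
    rw [dif_pos p.2]

theorem finrank_blk (m : ℕ) (b : Bool) (hb : b = false → 0 < m) :
    Module.finrank ℂ (blkS ℂ m b) = dimS m b := by
  cases b with
  | true =>
    rw [(skewEquiv m).finrank_eq, Module.finrank_fintype_fun_eq_card, card_lt]
    rfl
  | false =>
    have hm := hb rfl
    have h1 : (blkS ℂ m false) = LinearMap.ker (Matrix.traceLinearMap (Fin m) ℂ ℂ) := by
      ext X
      exact Iff.rfl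
    have h2 : LinearMap.range (Matrix.traceLinearMap (Fin m) ℂ ℂ) = ⊤ := by
      rw [LinearMap.range_eq_top]
      intro z
      refine ⟨Matrix.single ⟨0, hm⟩ ⟨0, hm⟩ z, ?_⟩
      rw [Matrix.traceLinearMap_apply, Matrix.trace_single_eq_same]
    have h3 := LinearMap.finrank_range_add_finrank_ker (Matrix.traceLinearMap (Fin m) ℂ ℂ)
    rw [h2, finrank_top, Module.finrank_self, Module.finrank_matrix, Fintype.card_fin,
      Module.finrank_self, mul_one] at h3
    rw [h1]
    change _ = m ^ 2 - 1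
    rw [pow_two]
    omega

end XdmM

theorem specMXdm (hSPL : SpecMSpl) : SpecMXdm := by
  intro a b ba bb ha3 ha0 hb3 hb0 hdim hea heb h hskew hsa hsb φ hφb hφ
  have br_mem : ∀ (n : ℕ) (bo : Bool) (X Y : Matrix (Fin n) (Fin n) ℂ),
      (bo = true → Xᵀ = -X) → Y ∈ blkS ℂ n bo → X * Y - Y * X ∈ blkS ℂ n bo := by
    intro n bo X Y hX hY
    cases bo with
    | true =>
      have h1 := hX rfl
      have h2 : Yᵀ = -Y := hY
      change (X * Y - Y * X)ᵀ = -(X * Y - Y * X)
      rw [transpose_sub, transpose_mul, transpose_mul, h1, h2]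
      noncomm_ring
    | false =>
      change (X * Y - Y * X).trace = 0
      rw [trace_sub, trace_mul_comm, sub_self]
  -- the restriction of `φ`
  let ψ : blkS ℂ a ba →ₗ[ℂ] Matrix (Fin b) (Fin b) ℂ := φ ∘ₗ (blkS ℂ a ba).subtype
  let K : Submodule ℂ (Matrix (Fin a) (Fin a) ℂ) := (LinearMap.ker ψ).map (blkS ℂ a ba).subtype
  let W : Submodule ℂ (Matrix (Fin b) (Fin b) ℂ) := LinearMap.range ψ
  have memK : ∀ Y, Y ∈ K ↔ Y ∈ blkS ℂ a ba ∧ φ Y = 0 := by
    intro Y
    constructor
    · rintro ⟨y, hy, rfl⟩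
      exact ⟨y.2, hy⟩
    · rintro ⟨h1, h2⟩
      exact ⟨⟨Y, h1⟩, h2, rfl⟩
  have memW : ∀ w, w ∈ W ↔ ∃ Y ∈ blkS ℂ a ba, φ Y = w := by
    intro w
    constructor
    · rintro ⟨y, hy⟩
      exact ⟨y.1, y.2, hy⟩
    · rintro ⟨Y, h1, h2⟩
      exact ⟨⟨Y, h1⟩, h2⟩
  have hKle : K ≤ blkS ℂ a ba := fun Y hY => ((memK Y).1 hY).1
  have hWle : W ≤ blkS ℂ b bb := by
    intro w hw
    obtain ⟨Y, -, rfl⟩ := (memW w).1 hw
    exact hφb Y
  have hKst : ∀ X ∈ blkS ℂ a ba, ∀ w ∈ K, X * w - w * X ∈ K := by
    intro X hX w hw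
    obtain ⟨p, hp, rfl⟩ := hsa X hX
    obtain ⟨h1, h2⟩ := (memK w).1 hw
    refine (memK _).2 ⟨br_mem a ba _ _ (hskew p hp).1 h1, ?_⟩
    rw [hφ p hp, h2, mul_zero, zero_mul, sub_zero]
  have hWst : ∀ X ∈ blkS ℂ b bb, ∀ w ∈ W, X * w - w * X ∈ W := by
    intro X hX w hw
    obtain ⟨p, hp, rfl⟩ := hsb X hX
    obtain ⟨Y, h1, rfl⟩ := (memW w).1 hw
    exact (memW _).2 ⟨_, br_mem a ba _ _ (hskew p hp).1 h1, hφ p hp Y⟩
  have dK : Module.finrank ℂ K = Module.finrank ℂ (LinearMap.ker ψ) :=
    Submodule.finrank_map_subtype_eq _ _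
  have dsum : Module.finrank ℂ W + Module.finrank ℂ K = dimS a ba := by
    rw [dK, LinearMap.finrank_range_add_finrank_ker, XdmM.finrank_blk a ba ha0]
  have dWle : Module.finrank ℂ W ≤ dimS b bb := by
    rw [← XdmM.finrank_blk b bb hb0]
    exact Submodule.finrank_mono hWle
  have hsimple : ∀ (n : ℕ) (bo : Bool), (bo = true → 3 ≤ n) → ¬(bo = true ∧ n = 4) →
      ∀ V : Submodule ℂ (Matrix (Fin n) (Fin n) ℂ), V ≤ blkS ℂ n bo →
      (∀ X ∈ blkS ℂ n bo, ∀ w ∈ V, X * w - w * X ∈ V) → V = ⊥ ∨ V = blkS ℂ n bo := by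
    intro n bo h3 hne V hV hst
    cases bo with
    | true => exact hSPL.1 n (h3 rfl) (fun h => hne ⟨rfl, h⟩) V hV hst
    | false => exact hSPL.2 n V hV hst
  -- it is enough that `W` is zero
  have hfin : Module.finrank ℂ W = 0 → ∀ Y ∈ blkS ℂ a ba, φ Y = 0 := by
    intro h0 Y hY
    have h1 : W = ⊥ := Submodule.finrank_eq_zero.1 h0
    have h2 : φ Y ∈ W := (memW _).2 ⟨Y, hY, rfl⟩
    rw [h1] at h2
    exact (Submodule.mem_bot ℂ).1 h2
  have hfin' : K = blkS ℂ a ba → ∀ Y ∈ blkS ℂ a ba, φ Y = 0 := by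
    intro h0 Y hY
    rw [← h0] at hY
    exact ((memK Y).1 hY).2
  have d4 : dimS 4 true = 6 := rfl
  by_cases hA : ba = true ∧ a = 4
  · obtain ⟨h1, h2⟩ := hA
    subst h1; subst h2
    rcases hea rfl rfl with h3 | h3
    · have hB : ¬(bb = true ∧ b = 4) := by
        rintro ⟨h4, h5⟩
        subst h4; subst h5
        rw [d4] at h3
        omega
      rcases hsimple b bb hb3 hB W hWle hWst with h4 | h4
      · exact hfin (by rw [h4, finrank_bot])
      · exfalso
        have h5 : Module.finrank ℂ W = dimS b bb := by rw [h4, XdmM.finrank_blk b bb hb0]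
        rw [d4] at dsum
        omega
    · exact hfin (by omega)
  · rcases hsimple a ba ha3 hA K hKle hKst with h1 | h1
    · have h2 : Module.finrank ℂ K = 0 := by rw [h1, finrank_bot]
      by_cases hB : bb = true ∧ b = 4
      · obtain ⟨h3, h4⟩ := hB
        subst h3; subst h4
        rcases heb rfl rfl with h5 | h5
        · rw [d4] at dWle
          omega
        · exact hfin (by omega)
      · rcases hsimple b bb hb3 hB W hWle hWst with h4 | h4
        · exact hfin (by rw [h4, finrank_bot])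
        · exfalso
          have h5 : Module.finrank ℂ W = dimS b bb := by rw [h4, XdmM.finrank_blk b bb hb0]
          omega
    · exact hfin' h1

end Pool.Agent.Lib.MPf11a48.KM
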