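import Pool.Agent.Lib.MP_f11a48_ag.KU.All
import Pool.Agent.Lib.MP_f11a48_ag.KU.LieG
import Pool.Agent.Lib.MP_f11a48_ag.KM.Blk
import Pool.Agent.Lib.MP_f11a48_ag.KM.Clb
import Pool.Agent.Lib.MP_f11a48_ag.KM.Fla
import Pool.Agent.Lib.MP_f11a48_ag.KM.Flb
import Pool.Agent.Lib.MP_f11a48_ag.KM.Flt
import Pool.Agent.Lib.MP_f11a48_ag.KM.Ful
import Pool.Agent.Lib.MP_f11a48_ag.KM.Grp
import Pool.Agent.Lib.MP_f11a48_ag.KM.Img
import Pool.Agent.Lib.MP_f11a48_ag.KM.Lft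
import Pool.Agent.Lib.MP_f11a48_ag.KM.Mz
import Pool.Agent.Lib.MP_f11a48_ag.KM.Nls
import Pool.Agent.Lib.MP_f11a48_ag.KM.Psi
import Pool.Agent.Lib.MP_f11a48_ag.KM.Rat
import Pool.Agent.Lib.MP_f11a48_ag.KM.Rrt
import Pool.Agent.Lib.MP_f11a48_ag.KM.Scl
import Pool.Agent.Lib.MP_f11a48_ag.KM.Spg
import Pool.Agent.Lib.MP_f11a48_ag.KM.Tot
import Pool.Agent.Lib.MP_f11a48_ag.KM.Trc
import Pool.Agent.Lib.MP_f11a48_ag.KM.Trp
import Pool.Agent.Lib.MP_f11a48_ag.KM.Uul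
import Pool.Agent.Lib.MP_f11a48_ag.KM.Xdm
import Pool.Agent.Lib.MP_f11a48_ag.KM.Xrr
import Pool.Agent.Lib.MP_f11a48_ag.KM.Tg
import Pool.Agent.Lib.MP_f11a48_ag.KM.Sgn
import Pool.Agent.Lib.MP_f11a48_ag.KM.Gal
import Pool.Agent.Lib.MP_f11a48_ag.KM.Car
import Pool.Agent.Lib.MP_f11a48_ag.KM.Mat
import Pool.Agent.Lib.MP_f11a48_ag.KM.Cmp
import Pool.Agent.Lib.MP_f11a48_ag.KM.Spl
import Pool.Agent.Lib.MP_f11a48_ag.KM.Adt
import Pool.Agent.Lib.MP_f11a48_ag.KM.Spt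
import Pool.Agent.Lib.MP_f11a48_ag.KM.Wrd
import Pool.Agent.Lib.MP_f11a48_ag.KM.Dia
import Pool.Agent.Lib.MP_f11a48_ag.KM.Der
import Pool.Agent.Lib.MP_f11a48_ag.KM.Cur
import Pool.Agent.Lib.MP_f11a48_ag.KM.Gnl
import Pool.Agent.Lib.MP_f11a48_ag.KM.Lie
import Pool.Agent.Lib.MP_f11a48_ag.KM.Aut
import Pool.Agent.Lib.MP_f11a48_ag.KM.Uux
import Pool.Agent.Lib.MP_f11a48_ag.KM.Fin0

/-! # Families of Kuga-Satake pairs: assembly -/

set_option autoImplicit false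

namespace Pool.Agent.Lib.MPf11a48.KM

open Pool.Agent.Lib.MPf11a48.K3 Pool.Agent.Lib.MPf11a48.KU

theorem mClb : SpecMClb := specMClb kHDA

theorem mScl : SpecMScl := specMScl specKScl mClb specMCmp

theorem mZ : SpecMZ := specMZ mClb mScl specMCmp kHDA

theorem mRat : SpecMRat := specMRat specLRat specBic2 kHDA

theorem mBlk : SpecMBlk :=
  specMBlk specMMat specMCar specMCmp (specKNI specKBr specKInj) specKIso specKIrr rep
    (specUIrr specKBr) specUni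

theorem mNls : SpecMNls := specMNls specMMat specMCar specMCmp specKLnk (specULnk specUVac)

theorem mTrc : SpecMTrc := specMTrc specMMat specMCar specMCmp (specUTrc specUVac)

theorem mGal : SpecMGal := specMGal specMMat

theorem mTot : SpecMTot := specMTot specMTrp mGal (specMSpg specMMat mBlk mNls specGour)

theorem mXrr : SpecMXrr := specMXrr specMMat specMCar specMCmp mZ mTot specMSpt specMWrd

theorem mFlt : SpecMFlt := specMFlt specMTrp mGal mTrc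

theorem mUux : SpecMUux := specMUux specMMat specMTrp mGal mBlk

theorem mLie : SpecMLie :=
  specMLie specMMat mBlk mNls (specMXdm specMSpl) (specMRrt specMSpl specMAdt) mXrr
    (specMUul specMSpl specMAut) mUux specGOURM

theorem mFla : SpecMFla := specMFla mRat mZ mLie mClb specMMat specPerf

theorem mFlb : SpecMFlb :=
  specMFlb mRat mZ mFla mFlt (specMImg specMTrp mGal) specMMat mClb

theorem mTg : SpecMTg := specMTg mFlb specUTor specMDia specMDer specMCar specMMat specCurve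

theorem mFul : SpecMFul := specMFul mFla mTg mClb

theorem mPsi : SpecMPsi := specMPsi mFul specMMat specUSim kHDA

theorem mLft : SpecMLft :=
  specMLft mFul mPsi mClb specMMat specMCur specMGnl specGen specCurve

theorem mGrp : SpecMGrp :=
  specMGrp mLft (specMSgn mFul specMCar specCurve kHDA) mFul mScl specCurve
    kHDA

open Matrix Pool.Agent.Lib.MPf11a48.Tors in
open Pool.Agent.Lib.MPf11a48.CM hiding OmegaM in
open Pool.Agent.Lib.MPf11a48.GL2T (IsAlg) in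
open Pool.Agent.Lib.MPf11a48.U (AbData Ix HD EndAlg) in
theorem mainKM (g N n : ℕ) (I : Type) [Fintype I] [DecidableEq I]
    (A : AbData g N) (c : GL (Ix g) ℂ) (t : GL (Fin n) ℂ) (qB : Matrix (Fin n) (Fin n) ℚ)
    (B : Fin n → Matrix (Ix g) (Ix g) ℚ) (qdR : Matrix (Fin n) (Fin n) ℂ)
    (E : Set (Matrix (Fin n) (Fin n) ℚ)) (ix : Fin n → I) (π : I → Matrix (Ix g) (Ix g) ℚ)
    (𝓖 : Set (Grp3 g n)) (hKS : KSFam A c t qdR qB B E ix π) (hE : EndFull c qB B E)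
    (hG : GroupM A c qB B E ix 𝓖) (k : ℕ) (r : GL (Fin k) ℂ) (hr : IsAlg r.1)
    (K : IntermediateField ℚ ℂ) (hK : K ≤ Qbar) (ν ι : Type) [Fintype ν] [DecidableEq ν]
    [Fintype ι] [DecidableEq ι] (Θ : GL ((Ix g ⊕ Fin n) ⊕ Fin k) ℂ × ℂˣ → GL ν ℂ)
    (hΘ : C.IsRep Θ) (M : GL ι ℂ) (iB : Matrix ν ι ℚ)
    (hM : CMS.IsSubOver Qbar (Θ (CMS.dsum (CMS.dsum c t) r, tpi)) M iB) :
    (∀ y ∈ 𝓖, ∃ f : GL ι ℂ,
      (Θ (CMS.dsum (CMS.dsum y.1 y.2.1) 1, y.2.2)).1 * cx iB = cx iB * f.1) ∧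
    (∀ f ∈ SubGroup 𝓖 Θ iB, ∀ h, GL2T.Conj K (f * M) h → h ∈ OmegaDRB K M) ∧
    ∀ S : Set (TPair K ι), (∀ α ∈ S, Fixes M α) →
      (∀ h ∈ OmegaS S, ∃ f ∈ SubGroup 𝓖 Θ iB, GL2T.Conj K (f * M) h) →
      OmegaDRB K M = OmegaS S ∧ (K = ⊥ → OmegaM K M = OmegaS S) :=
  mainKM0 mGrp g N n I A c t qB B qdR E ix π 𝓖 hKS hE hG k r hr K hK ν ι Θ hΘ M iB hM

end Pool.Agent.Lib.MPf11a48.KM
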