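import Pool.Agent.Lib.MP_f11a48_ag.KU.StmtF

/-!
# Families of Kuga-Satake pairs

One abelian variety `A` over `Qbar`, several orthogonal de Rham-Betti objects `T_i`, `i ∈ I`, with
sum `T`; `T_i` acts by Clifford multiplication on the direct summand `π_i h^1(A)` of `h^1(A)`.
-/

set_option autoImplicit false

namespace Pool.Agent.Lib.MPf11a48.KM

open Matrix MvPolynomial Pool.Agent.Lib.MPf11a48.CM Pool.Agent.Lib.MPf11a48.GL2T
open Pool.Agent.Lib.MPf11a48.U (AbData Ix EndAlg)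
open Pool.Agent.Lib.MPf11a48.K3 Pool.Agent.Lib.MPf11a48.KU

/-- the projection of `T = ⊕ T_i` to `T_i`; the basis of `T_B` is adapted to the decomposition, and
the `a`-th basis vector lies in `T_i` for `i = ix a` -/
def prj {n : ℕ} {I : Type} [DecidableEq I] (ix : Fin n → I) (i : I) : Matrix (Fin n) (Fin n) ℚ :=
  diagonal fun a => if ix a = i then 1 else 0

/-- `T = ⊕ T_i` is an orthogonal sum of orthogonal de Rham-Betti objects over `Qbar`, with period
matrix `t` and Gram matrices `qdR`, `qB`; the `π i` are orthogonal idempotents with sum `1` of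
`End(H^1(A, ℚ))`, which are symmetric for the polarisation and commute with all endomorphisms of
`A`; the morphism `T → End(h^1(A))`, given on the Betti side by `e_a ↦ B a`, satisfies
`v ∘ v = q(v) π i` for `v ∈ T_i`, and `v = π i ∘ v ∘ π i`; the elements of `E` are endomorphisms of
`T`, among them the projections to the `T_i`; every endomorphism of `A` commutes with the
infinitesimal isometries of `T` which commute with `E`. (So `A` is up to isogeny the product of the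
`A_i = π_i A`, where `Hom(A_i, A_j) = 0` for `i ≠ j`, and `A_i` is a Kuga-Satake variety of
`T_i`.) -/
structure KSFam {g N n : ℕ} {I : Type} [Fintype I] [DecidableEq I] (A : AbData g N)
    (c : GL (Ix g) ℂ) (t : GL (Fin n) ℂ) (qdR : Matrix (Fin n) (Fin n) ℂ)
    (qB : Matrix (Fin n) (Fin n) ℚ) (B : Fin n → Matrix (Ix g) (Ix g) ℚ)
    (E : Set (Matrix (Fin n) (Fin n) ℚ)) (ix : Fin n → I)
    (π : I → Matrix (Ix g) (Ix g) ℚ) : Prop where
  pos : 0 < g
  abvar : A.IsAbVar Qbar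
  per : c.1 = A.per
  symm : qBᵀ = qB
  det : qB.det ≠ 0
  alg : IsAlg qdR
  form : t.1ᵀ * cx qB * t.1 = qdR
  surj : Function.Surjective ix
  orth : ∀ a b, ix a ≠ ix b → qB a b = 0
  proj : ∀ i, prj ix i ∈ E
  ne : ∀ i, π i ≠ 0
  mul : ∀ i j, π i * π j = if i = j then π i else 0
  sum : ∑ i, π i = 1
  clifford : ∀ a b, B a * B b + B b * B a = (2 * qB a b) • π (ix a)
  left : ∀ a, π (ix a) * B a = B a
  right : ∀ a, B a * π (ix a) = B a
  morphism : ∀ j, ∃ B' : Matrix (Ix g) (Ix g) ℂ, IsAlg B' ∧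
    c.1 * B' = (∑ i, t.1 i j • cx (B i)) * c.1
  endT : ∀ e ∈ E, ∃ e' : Matrix (Fin n) (Fin n) ℂ, IsAlg e' ∧ t.1 * e' = cx e * t.1
  endA : ∀ Z : Matrix (Ix g) (Ix g) ℚ, A.IsEndo Z → ∀ ρ ∈ soE qB E,
    Z * cli qB B ρ = cli qB B ρ * Z
  cen : ∀ Z : Matrix (Ix g) (Ix g) ℚ, A.IsEndo Z → ∀ i, Z * π i = π i * Z
  psi : ∀ i, (π i)ᵀ * A.psi = A.psi * π i

section

variable {n : ℕ} {I R U : Type}

/-- The eigenvalues of `e` on all eigenspaces: those on the `V_r`, `r ∈ R`, are given by `lr e`,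
and those on `V_u` and `V_u^*`, `u ∈ U`, by `lu e` and the complex conjugates. -/
noncomputable def chM (lr : Matrix (Fin n) (Fin n) ℚ → R → ℂ)
    (lu : Matrix (Fin n) (Fin n) ℚ → U → ℂ) (e : Matrix (Fin n) (Fin n) ℚ) : R ⊕ (U ⊕ U) → ℂ :=
  Sum.elim (lr e) (chr lu e)

variable [Fintype R] [DecidableEq R] [Fintype U] [DecidableEq U]

/-- Over `ℂ`, the orthogonal space `T_B ⊗ ℂ` is the direct sum of the (common) eigenspaces of `E`:
the spaces `V_r`, `r ∈ R`, of dimension `m r` (orthogonal to all others, orthonormal bases given by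
the columns of `P`), and the pairs of isotropic spaces `V_u`, `V_u^*`, `u ∈ U`, of dimension `m' u`
(orthogonal to all others except that `V_u` and `V_u^*` are dual, dual bases given by the columns
of `P'`, `Q'`, complex conjugate eigenvalues). -/
structure SplitM (qB : Matrix (Fin n) (Fin n) ℚ) (E : Set (Matrix (Fin n) (Fin n) ℚ)) (m : R → ℕ)
    (P : Matrix (Fin n) ((k : R) × Fin (m k)) ℂ) (lr : Matrix (Fin n) (Fin n) ℚ → R → ℂ)
    (m' : U → ℕ) (P' Q' : Matrix (Fin n) ((k : U) × Fin (m' k)) ℂ)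
    (lu : Matrix (Fin n) (Fin n) ℚ → U → ℂ) : Prop where
  orth : Pᵀ * cx qB * P = 1
  orthP : Pᵀ * cx qB * P' = 0
  orthQ : Pᵀ * cx qB * Q' = 0
  isoP : P'ᵀ * cx qB * P' = 0
  isoQ : Q'ᵀ * cx qB * Q' = 0
  dual : P'ᵀ * cx qB * Q' = 1
  onto : P * (Pᵀ * cx qB) + (P' * (Q'ᵀ * cx qB) + Q' * (P'ᵀ * cx qB)) = 1
  eigR : ∀ e ∈ E, cx e * P = P * diagonal fun u : (k : R) × Fin (m k) => lr e u.1
  eigP : ∀ e ∈ E, cx e * P' = P' * diagonal fun u : (k : U) × Fin (m' k) => lu e u.1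
  eigQ : ∀ e ∈ E, cx e * Q' = Q' * diagonal fun u : (k : U) × Fin (m' k) =>
    (starRingEnd ℂ) (lu e u.1)
  sep : ∀ s t : R ⊕ (U ⊕ U), s ≠ t → ∃ e ∈ E, chM lr lu e s ≠ chM lr lu e t

/-- Every non-zero Galois stable space of odd rational functions on the set of the eigenspaces `V_u`,
`V_u^*` contains a non-zero function with values in `{0, 1, -1}` which is zero outside the
eigenspaces in `T_i`, for some `i`. -/
def FlatM (E : Set (Matrix (Fin n) (Fin n) ℚ)) (lu : Matrix (Fin n) (Fin n) ℚ → U → ℂ)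
    (ou : U → I) : Prop :=
  ∀ N : Submodule ℚ (U ⊕ U → ℚ), N ≠ ⊥ → (∀ f ∈ N, ∀ k, f (Sum.inr k) = -f (Sum.inl k)) →
    (∀ (τ : ℂ ≃+* ℂ) (σ : Equiv.Perm (U ⊕ U)), (∀ e ∈ E, ∀ s, chr lu e (σ s) = τ (chr lu e s)) →
      ∀ f ∈ N, (fun s => f (σ s)) ∈ N) →
    ∃ f ∈ N, f ≠ 0 ∧ (∀ s, f s = 0 ∨ f s = 1 ∨ f s = -1) ∧
      ∃ i, ∀ u, f (Sum.inl u) ≠ 0 → ou u = i

/-- The hypotheses on the dimensions of the eigenspaces: `V_r`, `r ∈ R`, is contained in `T_i` for
`i = ox r`, and has dimension at least `3` and not `5`; `V_u`, `V_u^*`, `u ∈ U`, are contained in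
`T_i` for `i = ou u`, and have dimension `1` or even; each `T_i` has eigenspaces of one kind only
(`pure`); for two eigenspaces in different `T_i` whose Lie algebras may be isomorphic there are further
hypotheses (`rr`, `ru`, `uu`); the eigenspaces `V_r` in `T_i` are conjugate, if there are
eigenspaces of this kind in other `T_j` (`trans`). -/
structure GoodM [DecidableEq I] (E : Set (Matrix (Fin n) (Fin n) ℚ)) (ix : Fin n → I) (m : R → ℕ)
    (lr : Matrix (Fin n) (Fin n) ℚ → R → ℂ) (m' : U → ℕ)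
    (lu : Matrix (Fin n) (Fin n) ℚ → U → ℂ) (ox : R → I) (ou : U → I) : Prop where
  inR : ∀ r, lr (prj ix (ox r)) r = 1
  inU : ∀ u, lu (prj ix (ou u)) u = 1
  three : ∀ r, 3 ≤ m r
  five : ∀ r, m r ≠ 5
  pos : ∀ u, 0 < m' u
  even : ∀ u, m' u = 1 ∨ Even (m' u)
  pure : ∀ r u, ox r ≠ ou u
  rr : ∀ r s, ox r ≠ ox s → (m r = m s → m r ≠ 4 ∧ ∀ k, m r ≠ 2 ^ (2 * k + 1)) ∧
    (m r = 3 → m s ≠ 4)
  ru : ∀ r u, m r * (m r - 1) ≠ 2 * (m' u ^ 2 - 1) ∧ (m r = 4 → m' u ≠ 2)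
  uu : ∀ u v, ou u ≠ ou v → m' u = m' v → m' u ≠ 2
  trans : ∀ r s, ox r = ox s → (∃ r', ox r' ≠ ox r) → ∃ τ : ℂ ≃+* ℂ, ∀ e ∈ E, lr e s = τ (lr e r)
  flat : FlatM E lu ou

/-- The complex points of the group of all `(a, x, z)`, where `x` is an isometry of `T_B ⊗ ℂ` which
preserves the eigenspaces of `E` and has determinant `1` on the `V_r`, and `a` is an automorphism of
`H^1(A, ℂ)` which is compatible with `x` and the Clifford multiplication, commutes with the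
endomorphisms of `h^1(A)`, and multiplies the polarisation by `z`. -/
def gspinM {g N : ℕ} (A : AbData g N) (c : GL (Ix g) ℂ) (qB : Matrix (Fin n) (Fin n) ℚ)
    (B : Fin n → Matrix (Ix g) (Ix g) ℚ) (m : R → ℕ) (P : Matrix (Fin n) ((k : R) × Fin (m k)) ℂ)
    (m' : U → ℕ) (P' Q' : Matrix (Fin n) ((k : U) × Fin (m' k)) ℂ) : Set (Grp3 g n) :=
  {y | (∃ (x : (k : R) → SO (m k)) (x' : (k : U) → GL (Fin (m' k)) ℂ),
      y.2.1.1 = P * blockDiagonal' (fun k => (x k).1.1) * (Pᵀ * cx qB) + ugm P' Q' qB x') ∧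
    (∀ j, y.1.1 * cx (B j) = (∑ i, y.2.1.1 i j • cx (B i)) * y.1.1) ∧
    (∀ Z ∈ EndAlg c.1, y.1.1 * cx Z = cx Z * y.1.1) ∧
    y.1.1ᵀ * cx A.psi * y.1.1 = (y.2.2 : ℂ) • cx A.psi}

end

end Pool.Agent.Lib.MPf11a48.KM
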