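import Pool.Agent.Lib.MP_f11a48_ag.KM.Stmt

/-! # Families of Kuga-Satake pairs: the group -/

set_option autoImplicit false

namespace Pool.Agent.Lib.MPf11a48.KM

open Matrix MvPolynomial Pool.Agent.Lib.MPf11a48.CM Pool.Agent.Lib.MPf11a48.GL2T
open Pool.Agent.Lib.MPf11a48.U (AbData Ix EndAlg)
open Pool.Agent.Lib.MPf11a48.K3 Pool.Agent.Lib.MPf11a48.KU

/-- `T_B ⊗ ℂ` is the sum of the eigenspaces of `E`, as in `SplitM`, which satisfy the hypotheses of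
`GoodM`, and `𝓖` is the group `gspinM`. -/
def GroupM {g N n : ℕ} {I : Type} [DecidableEq I] (A : AbData g N) (c : GL (Ix g) ℂ)
    (qB : Matrix (Fin n) (Fin n) ℚ) (B : Fin n → Matrix (Ix g) (Ix g) ℚ)
    (E : Set (Matrix (Fin n) (Fin n) ℚ)) (ix : Fin n → I) (𝓖 : Set (Grp3 g n)) : Prop :=
  ∃ (R U : Type) (_ : Fintype R) (_ : DecidableEq R) (_ : Fintype U) (_ : DecidableEq U)
    (m : R → ℕ) (P : Matrix (Fin n) ((k : R) × Fin (m k)) ℂ)
    (lr : Matrix (Fin n) (Fin n) ℚ → R → ℂ) (m' : U → ℕ)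
    (P' Q' : Matrix (Fin n) ((k : U) × Fin (m' k)) ℂ) (lu : Matrix (Fin n) (Fin n) ℚ → U → ℂ)
    (ox : R → I) (ou : U → I),
    SplitM qB E m P lr m' P' Q' lu ∧ GoodM E ix m lr m' lu ox ou ∧
      𝓖 = gspinM A c qB B m P m' P' Q'

end Pool.Agent.Lib.MPf11a48.KM
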