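import Pool.Agent.Lib.MP_f11a48_ag.KM.SpecA

/-!
# UUL: links between two unitary blocks of the same size
-/

set_option autoImplicit false

namespace Pool.Agent.Lib.MPf11a48.KM

open Matrix
open Pool.Agent.Lib.MPf11a48.K3 Pool.Agent.Lib.MPf11a48.KU

namespace UulM

variable {d : ℕ}

/-- the part of trace zero -/
noncomputable def tz (d : ℕ) :
    Matrix (Fin d) (Fin d) ℂ →ₗ[ℂ] Matrix (Fin d) (Fin d) ℂ where
  toFun X := X - (X.trace / (d : ℂ)) • (1 : Matrix (Fin d) (Fin d) ℂ)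
  map_add' X Y := by
    rw [trace_add, add_div, add_smul]
    abel
  map_smul' a X := by
    rw [trace_smul, RingHom.id_apply, smul_sub, smul_smul, smul_eq_mul, mul_div_assoc]

theorem tz_apply (X : Matrix (Fin d) (Fin d) ℂ) :
    tz d X = X - (X.trace / (d : ℂ)) • (1 : Matrix (Fin d) (Fin d) ℂ) := rfl

theorem tp_eq (k : ℕ) (X : Matrix (Fin d) (Fin d) ℂ) : tp k X = ((tz d X) ^ k).trace := rfl

theorem trace_tz (hd : d ≠ 0) (X : Matrix (Fin d) (Fin d) ℂ) : (tz d X).trace = 0 := by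
  have h : (d : ℂ) ≠ 0 := Nat.cast_ne_zero.2 hd
  rw [tz_apply, trace_sub, trace_smul, trace_one, Fintype.card_fin, smul_eq_mul,
    div_mul_cancel₀ _ h, sub_self]

theorem tz_of (X : Matrix (Fin d) (Fin d) ℂ) (h : X.trace = 0) : tz d X = X := by
  rw [tz_apply, h, zero_div, zero_smul, sub_zero]

theorem tz_one (hd : d ≠ 0) (a : ℂ) : tz d (a • (1 : Matrix (Fin d) (Fin d) ℂ)) = 0 := by
  have h : (d : ℂ) ≠ 0 := Nat.cast_ne_zero.2 hd
  rw [tz_apply, trace_smul, trace_one, Fintype.card_fin, smul_eq_mul, mul_div_assoc, div_self h,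
    mul_one, sub_self]

theorem br_tz (X Y : Matrix (Fin d) (Fin d) ℂ) :
    tz d X * tz d Y - tz d Y * tz d X = X * Y - Y * X := by
  rw [tz_apply, tz_apply]
  simp only [sub_mul, mul_sub, smul_mul_assoc, mul_smul_comm, one_mul, mul_one, smul_sub]
  rw [smul_comm (Y.trace / (d : ℂ))]
  abel

/-- a matrix which commutes with all matrices of trace zero is a scalar -/
theorem scalar_of_comm (hd : d ≠ 0) (M : Matrix (Fin d) (Fin d) ℂ)
    (h : ∀ Y : Matrix (Fin d) (Fin d) ℂ, Y.trace = 0 → M * Y - Y * M = 0) : tz d M = 0 := by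
  have h1 : M ∈ Set.range (Matrix.scalar (Fin d)) := by
    refine mem_range_scalar_of_commute_single ?_
    intro i j hij
    have h2 := h (Matrix.single i j 1) (Matrix.trace_single_eq_of_ne i j 1 hij)
    exact (sub_eq_zero.1 h2).symm
  obtain ⟨r, hr⟩ := h1
  rw [← hr]
  have h3 : Matrix.scalar (Fin d) r = r • (1 : Matrix (Fin d) (Fin d) ℂ) := by
    rw [Matrix.smul_one_eq_diagonal]
    rfl
  rw [h3, tz_one hd]

theorem comm_of_tz (M : Matrix (Fin d) (Fin d) ℂ) (h : tz d M = 0)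
    (Y : Matrix (Fin d) (Fin d) ℂ) : M * Y - Y * M = 0 := by
  rw [← br_tz, h, zero_mul, mul_zero, sub_zero]

end UulM

open UulM in
theorem specMUul (hSPL : SpecMSpl) (hAUT : SpecMAut) : SpecMUul := by
  intro d hd h hbr hs1 hs2 φ hφ0 hφ hne
  have hd0 : d ≠ 0 := by omega
  have memS : ∀ X : Matrix (Fin d) (Fin d) ℂ, X ∈ blkS ℂ d false ↔ X.trace = 0 := fun X => Iff.rfl
  have brS : ∀ X Y : Matrix (Fin d) (Fin d) ℂ, X * Y - Y * X ∈ blkS ℂ d false := by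
    intro X Y
    rw [memS, trace_sub, trace_mul_comm, sub_self]
  let ψ : blkS ℂ d false →ₗ[ℂ] Matrix (Fin d) (Fin d) ℂ := φ ∘ₗ (blkS ℂ d false).subtype
  let K : Submodule ℂ (Matrix (Fin d) (Fin d) ℂ) :=
    (LinearMap.ker ψ).map (blkS ℂ d false).subtype
  let W : Submodule ℂ (Matrix (Fin d) (Fin d) ℂ) := LinearMap.range ψ
  have memK : ∀ Y, Y ∈ K ↔ Y ∈ blkS ℂ d false ∧ φ Y = 0 := by
    intro Y
    constructor
    · rintro ⟨y, hy, rfl⟩
      exact ⟨y.2, hy⟩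
    · rintro ⟨h1, h2⟩
      exact ⟨⟨Y, h1⟩, h2, rfl⟩
  have memW : ∀ w, w ∈ W ↔ ∃ Y ∈ blkS ℂ d false, φ Y = w := by
    intro w
    constructor
    · rintro ⟨y, hy⟩
      exact ⟨y.1, y.2, hy⟩
    · rintro ⟨Y, h1, h2⟩
      exact ⟨⟨Y, h1⟩, h2⟩
  have hK : K = ⊥ := by
    rcases hSPL.2 d K (fun Y hY => ((memK Y).1 hY).1) (by
      intro X hX w hw
      obtain ⟨p, hp, rfl⟩ := hs1 X hX
      obtain ⟨h1, h2⟩ := (memK w).1 hw
      refine (memK _).2 ⟨brS _ _, ?_⟩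
      rw [hφ p hp, h2, mul_zero, zero_mul, sub_zero]) with h0 | h0
    · exact h0
    · exfalso
      obtain ⟨Y, hY, hY0⟩ := hne
      rw [← h0] at hY
      exact hY0 ((memK Y).1 hY).2
  have hW : W = blkS ℂ d false := by
    rcases hSPL.2 d W (by
      intro w hw
      obtain ⟨Y, -, rfl⟩ := (memW w).1 hw
      exact hφ0 Y) (by
      intro X hX w hw
      obtain ⟨p, hp, rfl⟩ := hs2 X hX
      obtain ⟨Y, h1, rfl⟩ := (memW w).1 hw
      exact (memW _).2 ⟨_, brS _ _, hφ p hp Y⟩) with h0 | h0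
    · exfalso
      obtain ⟨Y, hY, hY0⟩ := hne
      have h1 : φ Y ∈ W := (memW _).2 ⟨Y, hY, rfl⟩
      rw [h0] at h1
      exact hY0 ((Submodule.mem_bot ℂ).1 h1)
    · exact h0
  -- scalars correspond to scalars
  have h12 : ∀ p ∈ h, tz d p.1 = 0 → tz d p.2 = 0 := by
    intro p hp h0
    refine scalar_of_comm hd0 _ fun Z hZ => ?_
    have h1 : Z ∈ W := by rw [hW]; exact hZ
    obtain ⟨Y, -, rfl⟩ := (memW Z).1 h1
    rw [← hφ p hp Y, comm_of_tz _ h0, map_zero]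
  have h21 : ∀ p ∈ h, tz d p.2 = 0 → tz d p.1 = 0 := by
    intro p hp h0
    refine scalar_of_comm hd0 _ fun Y _ => ?_
    have h1 : p.1 * Y - Y * p.1 ∈ K := by
      refine (memK _).2 ⟨brS _ _, ?_⟩
      rw [hφ p hp Y, comm_of_tz _ h0]
    rw [hK] at h1
    exact (Submodule.mem_bot ℂ).1 h1
  -- a section
  let f : h →ₗ[ℂ] blkS ℂ d false :=
    LinearMap.codRestrict (blkS ℂ d false)
      ((tz d) ∘ₗ (LinearMap.fst ℂ _ _) ∘ₗ h.subtype) (fun p => trace_tz hd0 _)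
  have hf : ∀ p : h, ((f p : blkS ℂ d false) : Matrix (Fin d) (Fin d) ℂ) = tz d p.1.1 :=
    fun p => rfl
  have hfs : LinearMap.range f = ⊤ := by
    rw [LinearMap.range_eq_top]
    rintro ⟨X, hX⟩
    obtain ⟨p, hp, h1⟩ := hs1 X hX
    refine ⟨⟨p, hp⟩, Subtype.ext ?_⟩
    rw [hf]
    change tz d p.1 = X
    rw [h1]
    exact tz_of X hX
  obtain ⟨g, hg⟩ := f.exists_rightInverse_of_surjective hfs
  let t0 : Matrix (Fin d) (Fin d) ℂ →ₗ[ℂ] blkS ℂ d false :=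
    LinearMap.codRestrict (blkS ℂ d false) (tz d) (fun p => trace_tz hd0 _)
  let θ : Matrix (Fin d) (Fin d) ℂ →ₗ[ℂ] Matrix (Fin d) (Fin d) ℂ :=
    (tz d) ∘ₗ (LinearMap.snd ℂ _ _) ∘ₗ h.subtype ∘ₗ g ∘ₗ t0
  -- representatives
  have hrep : ∀ X : Matrix (Fin d) (Fin d) ℂ, ∃ q ∈ h, tz d q.1 = tz d X ∧ θ X = tz d q.2 := by
    intro X
    refine ⟨(g (t0 X)).1, (g (t0 X)).2, ?_, rfl⟩
    have h1 := LinearMap.congr_fun hg (t0 X)
    have h2 := congrArg (fun y : blkS ℂ d false => (y : Matrix (Fin d) (Fin d) ℂ)) h1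
    exact h2
  have hθ : ∀ p ∈ h, θ p.1 = tz d p.2 := by
    intro p hp
    obtain ⟨q, hq, h1, h2⟩ := hrep p.1
    have h3 : tz d (q - p).2 = 0 := by
      refine h12 (q - p) (h.sub_mem hq hp) ?_
      rw [Prod.fst_sub, map_sub, h1, sub_self]
    rw [Prod.snd_sub, map_sub] at h3
    rw [h2]
    exact sub_eq_zero.1 h3
  have hθtz : ∀ X, θ (tz d X) = θ X := by
    intro X
    have h1 : t0 (tz d X) = t0 X := by
      apply Subtype.ext
      change tz d (tz d X) = tz d X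
      exact tz_of _ (trace_tz hd0 X)
    change tz d ((g (t0 (tz d X))).1.2) = tz d ((g (t0 X)).1.2)
    rw [h1]
  obtain ⟨ε, hε, hAut⟩ := hAUT d hd θ (fun X _ => by
      obtain ⟨q, hq, -, h2⟩ := hrep X
      rw [h2]
      exact trace_tz hd0 _) (by
      intro X hX h0
      obtain ⟨q, hq, h1, h2⟩ := hrep X
      rw [h2] at h0
      have h3 := h21 q hq h0
      rw [h1, tz_of X hX] at h3
      exact h3) (by
      intro X Y hX hY
      obtain ⟨q, hq, h1, h2⟩ := hrep X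
      obtain ⟨r, hr, h3, h4⟩ := hrep Y
      rw [h2, h4, br_tz]
      have h5 := hθ _ (hbr q hq r hr)
      rw [tz_of (q.2 * r.2 - r.2 * q.2) (brS _ _)] at h5
      rw [← h5]
      change θ (X * Y - Y * X) = θ (q.1 * r.1 - r.1 * q.1)
      rw [← br_tz q.1 r.1, h1, h3, br_tz])
  refine ⟨ε, hε, fun p hp => ?_⟩
  obtain ⟨h1, h2⟩ := hAut (tz d p.1) (trace_tz hd0 _)
  rw [hθtz, hθ p hp] at h1 h2
  rw [tp_eq, tp_eq, tp_eq, tp_eq]
  exact ⟨h1, h2⟩

end Pool.Agent.Lib.MPf11a48.KM
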